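import Pool.Agent.MP_0c8446_ag.CL.CDefs
import Pool.Agent.MP_0c8446_ag.DL.RlA0

namespace Pool.Agent.MP_0c8446_ag

open MvPolynomial Set Matrix

universe u v w

variable {R : Type u} [CommRing R] {n : ℕ} {alt : Bool} {x y : Matrix (Fin n) (Fin n) R}

/-- The signs in the form. -/
def sg (R : Type u) [CommRing R] (alt : Bool) (a : Fin n) : R :=
  if alt = true ∧ a.rev < a then -1 else 1

/-- The sign of the form. -/
def eps (R : Type u) [CommRing R] (alt : Bool) : R := if alt = true then -1 else 1

lemma AdjA_det {o : Fin n → ℕ} (ho : Function.Injective o) (h : x.BlockTriangular o) :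
    x.det = ∏ a, x a a := by
  rw [det_apply', Finset.sum_eq_single 1 (fun σ _ hσ => ?_) (by simp)]
  · simp
  · by_contra hne
    have h1 : ∀ i, o (σ i) ≤ o i := fun i => not_lt.1 fun hi =>
      hne (by
        rw [Finset.prod_eq_zero (f := fun i => x (σ i) i) (Finset.mem_univ i) (h hi), mul_zero])
    have h2 := (Finset.sum_eq_sum_iff_of_le (s := Finset.univ) (fun i _ => h1 i)).1
      (Equiv.sum_comp σ o)
    exact hσ (Equiv.ext fun i => ho (h2 i (Finset.mem_univ i)))

lemma AdjA_mid {a : Fin n} (ha : a.rev = a) :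
    (Finset.univ.filter fun a : Fin n => a.rev = a) = {a} := by
  ext b
  rw [Finset.mem_filter, Finset.mem_singleton]
  refine ⟨fun hb => Fin.ext ?_, fun e => ⟨Finset.mem_univ _, e ▸ ha⟩⟩
  have h1 := congrArg Fin.val ha
  have h2 := congrArg Fin.val hb.2
  have h3 := a.2
  have h4 := b.2
  rw [Fin.val_rev] at h1 h2
  omega

theorem sg_mul_self (a : Fin n) : sg R alt a * sg R alt a = 1 := by
  unfold sg
  split_ifs <;> simp

theorem sg_rev (ev : Ev alt n) (a : Fin n) : sg R alt a.rev = eps R alt * sg R alt a := by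
  unfold sg eps
  cases alt
  · simp
  · obtain ⟨m, hm⟩ := ev rfl
    have h2 := a.2
    simp only [Fin.rev_rev, true_and, if_true, Fin.lt_def, Fin.val_rev]
    split_ifs with h1 h3
    · omega
    · simp
    · simp
    · omega

theorem jM_apply (a b : Fin n) : jM R alt n a b = if b = a.rev then sg R alt a else 0 := by
  unfold jM sg
  rw [of_apply]
  split_ifs with h1 h2 h3 h3 <;> first | rfl | (subst h1; contradiction)

theorem jM_transpose (ev : Ev alt n) : (jM R alt n)ᵀ = eps R alt • jM R alt n := by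
  ext a b
  rw [transpose_apply, Matrix.smul_apply, jM_apply, jM_apply, smul_eq_mul]
  by_cases h : b = a.rev
  · subst h
    rw [if_pos (Fin.rev_rev a).symm, if_pos rfl, sg_rev ev]
  · rw [if_neg h, if_neg (fun e => h (by rw [e, Fin.rev_rev])), mul_zero]

theorem adj_apply (x : Matrix (Fin n) (Fin n) R) (a b : Fin n) :
    adj alt x a b = sg R alt a.rev * sg R alt b.rev * x b.rev a.rev := by
  have hne : ∀ {c d : Fin n}, c ≠ d.rev → ¬ d = c.rev := fun hc e => hc (by rw [e, Fin.rev_rev])
  rw [adj, Matrix.mul_apply, Finset.sum_eq_single b.rev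
    (fun c _ hc => by rw [jM_apply, if_neg (hne hc), mul_zero]) (by simp), Matrix.mul_apply,
    Finset.sum_eq_single a.rev
    (fun c _ hc => by rw [transpose_apply, jM_apply, if_neg (hne hc), zero_mul]) (by simp)]
  simp only [transpose_apply, jM_apply, Fin.rev_rev, if_true]
  ring

theorem adj_apply_self (x : Matrix (Fin n) (Fin n) R) (a : Fin n) :
    adj alt x a a = x a.rev a.rev := by
  rw [adj_apply, sg_mul_self, one_mul]

theorem adj_adj (ev : Ev alt n) (x : Matrix (Fin n) (Fin n) R) : adj alt (adj alt x) = x := by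
  ext a b
  rw [adj_apply, adj_apply]
  simp only [Fin.rev_rev, sg_rev ev]
  have h : eps R alt * eps R alt = 1 := by
    unfold eps
    split_ifs <;> simp
  calc _ = (eps R alt * eps R alt) * (sg R alt a * sg R alt a) * (sg R alt b * sg R alt b) *
        x a b := by ring
    _ = _ := by rw [h, sg_mul_self, sg_mul_self]; ring

theorem adj_add (x y : Matrix (Fin n) (Fin n) R) : adj alt (x + y) = adj alt x + adj alt y := by
  simp only [adj, transpose_add, mul_add, add_mul]

theorem adj_sub (x y : Matrix (Fin n) (Fin n) R) : adj alt (x - y) = adj alt x - adj alt y := by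
  simp only [adj, transpose_sub, mul_sub, sub_mul]

theorem adj_neg (x : Matrix (Fin n) (Fin n) R) : adj alt (-x) = -adj alt x := by
  simp only [adj, transpose_neg, mul_neg, neg_mul]

theorem adj_smul (c : R) (x : Matrix (Fin n) (Fin n) R) : adj alt (c • x) = c • adj alt x := by
  simp only [adj, transpose_smul, Matrix.mul_smul, Matrix.smul_mul]

theorem adj_zero : adj alt (0 : Matrix (Fin n) (Fin n) R) = 0 := by
  simp only [adj, transpose_zero, mul_zero, zero_mul]

theorem adj_pow (x : Matrix (Fin n) (Fin n) R) (i : ℕ) : adj alt (x ^ i) = adj alt x ^ i := by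
  induction i with
  | zero => rw [pow_zero, pow_zero, adj_one]
  | succ i ih => rw [pow_succ, adj_mul, ih, pow_succ']

theorem adj_sum {ι : Type*} (s : Finset ι) (f : ι → Matrix (Fin n) (Fin n) R) :
    adj alt (∑ i ∈ s, f i) = ∑ i ∈ s, adj alt (f i) := by
  simp only [adj, transpose_sum, Finset.mul_sum, Finset.sum_mul]

theorem adj_diagonal (d : Fin n → R) : adj alt (diagonal d) = diagonal fun a => d a.rev := by
  ext a b
  rw [adj_apply]
  by_cases h : a = b
  · subst h
    rw [sg_mul_self, one_mul, diagonal_apply_eq, diagonal_apply_eq]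
  · rw [diagonal_apply_ne _ h, diagonal_apply_ne _ (fun e => h (Fin.rev_injective e).symm),
      mul_zero]

theorem adj_single (a b : Fin n) (c : R) :
    adj alt (Matrix.single a b c) = Matrix.single b.rev a.rev (sg R alt a * sg R alt b * c) := by
  ext i j
  rw [adj_apply]
  by_cases h : b.rev = i ∧ a.rev = j
  · obtain ⟨rfl, rfl⟩ := h
    simp only [Fin.rev_rev, Matrix.single_apply_same]
    ring
  · rw [Matrix.single_apply_of_ne _ _ _ _ _ h, Matrix.single_apply_of_ne, mul_zero]
    rintro ⟨rfl, rfl⟩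
    exact h ⟨Fin.rev_rev _, Fin.rev_rev _⟩

theorem det_adj (x : Matrix (Fin n) (Fin n) R) : (adj alt x).det = x.det := by
  have h := congrArg det (jM_transpose_mul (R := R) (n := n) (alt := alt))
  rw [det_mul, det_one] at h
  rw [adj, det_mul, det_mul, det_transpose x, mul_right_comm, h, one_mul]

theorem IsU.det_sq (h : IsU alt x) : x.det * x.det = 1 := by
  have e := congrArg det h.adj_mul
  rwa [det_mul, det_adj, det_one] at e

theorem adj_mem {k : Type u} [Field k] [Algebra k R] (O : Subalgebra k R) (h : ∀ a b, x a b ∈ O) :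
    ∀ a b, adj alt x a b ∈ O := by
  intro a b
  have hs : ∀ c : Fin n, sg R alt c ∈ O := fun c => by
    unfold sg
    split_ifs
    exacts [O.neg_mem O.one_mem, O.one_mem]
  rw [adj_apply]
  exact O.mul_mem (O.mul_mem (hs _) (hs _)) (h _ _)

/-- The isometry condition for two columns. -/
theorem IsU.col (h : IsU alt x) (a b : Fin n) :
    ∑ c, sg R alt c * (x c a * x c.rev b) = if b = a.rev then sg R alt a else 0 := by
  rw [← jM_apply, ← congrFun (congrFun h a) b, Matrix.mul_assoc, Matrix.mul_apply]
  refine Finset.sum_congr rfl fun c _ => ?_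
  rw [Matrix.mul_apply, Finset.sum_eq_single c.rev
    (fun d _ hd => by rw [jM_apply, if_neg hd, zero_mul]) (by simp), jM_apply, if_pos rfl,
    transpose_apply]
  ring

theorem SymP.eq {b : Fin n → ℕ} (h : SymP b) {a a' : Fin n} (e : b a = b a') :
    b a.rev = b a'.rev := by
  rcases lt_trichotomy (b a.rev) (b a'.rev) with h1 | h1 | h1
  · have := h _ _ h1
    rw [Fin.rev_rev, Fin.rev_rev] at this
    omega
  · exact h1
  · have := h _ _ h1
    rw [Fin.rev_rev, Fin.rev_rev] at this
    omega

theorem SymP.lt_iff {b : Fin n → ℕ} (h : SymP b) {a a' : Fin n} :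
    b a'.rev < b a.rev ↔ b a < b a' := by
  refine ⟨fun h1 => ?_, h a a'⟩
  have := h _ _ h1
  rwa [Fin.rev_rev, Fin.rev_rev] at this

theorem SymP.comp {b : Fin n → ℕ} (h : SymP b) {z : Fin n → Fin n}
    (hz : ∀ a, z a.rev = (z a).rev) : SymP (b ∘ z) := by
  intro a a' h1
  simp only [Function.comp_apply, hz]
  exact h _ _ h1

theorem symP_val : SymP (Fin.val : Fin n → ℕ) := by
  intro a a' h1
  have := a'.2
  rw [Fin.val_rev, Fin.val_rev]
  omega

theorem SymP.adj {b : Fin n → ℕ} (h : SymP b) (hx : x.BlockTriangular b) :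
    (adj alt x).BlockTriangular b := by
  intro i j hij
  rw [adj_apply, hx (h _ _ hij), mul_zero]

theorem Sg.mul {b₁ b₂ : Fin n → ℕ} (h : Sg alt b₁ b₂ x) (h' : Sg alt b₁ b₂ y) :
    Sg alt b₁ b₂ (x * y) := by
  exact ⟨h.1.mul h'.1, h.2.1.mul h'.2.1, h.2.2.mul h'.2.2⟩

theorem Sg.adj {b₁ b₂ : Fin n → ℕ} (h₁ : SymP b₁) (h₂ : SymP b₂) (h : Sg alt b₁ b₂ x) :
    Sg alt b₁ b₂ (adj alt x) := by
  exact ⟨h.1.adj, h₁.adj h.2.1, h₂.adj h.2.2⟩

/-- The determinant of a triangular matrix. -/
theorem bt_det {o : Fin n → ℕ} (ho : Function.Injective o) (h : x.BlockTriangular o) :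
    x.det = ∏ a, x a a := by
  exact AdjA_det ho h

theorem bt_mul_apply {o : Fin n → ℕ} (ho : Function.Injective o) (h : x.BlockTriangular o)
    (h' : y.BlockTriangular o) (a : Fin n) : (x * y) a a = x a a * y a a := by
  rw [Matrix.mul_apply]
  refine Finset.sum_eq_single a (fun c _ hc => ?_) (by simp)
  rcases lt_or_gt_of_ne (ho.ne hc) with h1 | h1
  · rw [h h1, zero_mul]
  · rw [h' h1, mul_zero]

/-- Strictly triangular matrices are nilpotent. -/
theorem bt_pow_eq_zero {o : Fin n → ℕ} (ho : Function.Injective o) (h : x.BlockTriangular o)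
    (h0 : ∀ a, x a a = 0) : x ^ n = 0 := by
  have h1 : (charmatrix x).BlockTriangular o := h.charmatrix
  have h2 : x.charpoly = Polynomial.X ^ n := by
    rw [Matrix.charpoly, bt_det ho h1]
    simp [h0]
  have h3 := Matrix.aeval_self_charpoly x
  rwa [h2, map_pow, Polynomial.aeval_X] at h3

theorem IsU.diag_mul {o : Fin n → ℕ} (ho : Function.Injective o) (hs : SymP o) (h : IsU alt x)
    (hb : x.BlockTriangular o) (a : Fin n) : x a.rev a.rev * x a a = 1 := by
  rw [← adj_apply_self (alt := alt) x a, ← bt_mul_apply ho (hs.adj hb) hb, h.adj_mul, one_apply_eq]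

/-- The determinant of a triangular isometry is the product of the middle entries. -/
theorem IsU.det_eq {o : Fin n → ℕ} (ho : Function.Injective o) (hs : SymP o) (h : IsU alt x)
    (hb : x.BlockTriangular o) :
    x.det = ∏ a ∈ Finset.univ.filter fun a : Fin n => a.rev = a, x a a := by
  rw [bt_det ho hb, ← Finset.prod_filter_mul_prod_filter_not Finset.univ
    (fun a : Fin n => a.rev = a), Finset.prod_involution
    (s := Finset.univ.filter fun a : Fin n => ¬ a.rev = a) (fun a _ => a.rev)
    (fun a _ => by rw [mul_comm]; exact h.diag_mul ho hs hb a)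
    (fun a ha _ => (Finset.mem_filter.1 ha).2)
    (fun a ha => Finset.mem_filter.2 ⟨Finset.mem_univ _, fun e =>
      (Finset.mem_filter.1 ha).2 (by rw [Fin.rev_rev] at e; exact e.symm)⟩)
    (fun a _ => Fin.rev_rev a), mul_one]

theorem SU.mid {o : Fin n → ℕ} (ho : Function.Injective o) (hs : SymP o) (h : SU alt x)
    (hb : x.BlockTriangular o) {a : Fin n} (ha : a.rev = a) : x a a = 1 := by
  rw [← h.2, h.1.det_eq ho hs hb, AdjA_mid ha, Finset.prod_singleton]

/-- A triangular isometry has determinant one up to the sign of the whole matrix. -/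
theorem IsU.su_or [IsDomain R] {o : Fin n → ℕ} (ho : Function.Injective o) (hs : SymP o)
    (h : IsU alt x) (hb : x.BlockTriangular o) : SU alt x ∨ SU alt (-x) := by
  by_cases hm : ∃ a : Fin n, a.rev = a
  · obtain ⟨a, ha⟩ := hm
    rcases mul_self_eq_one_iff.1 h.det_sq with h1 | h1
    · exact Or.inl ⟨h, h1⟩
    · refine Or.inr ⟨?_, ?_⟩
      · unfold IsU at *
        rw [transpose_neg, neg_mul, neg_mul_neg, h]
      · have h2 : Odd n := by
          have := congrArg Fin.val ha
          have h3 := a.2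
          rw [Fin.val_rev] at this
          exact ⟨a, by omega⟩
        rw [det_neg, Fintype.card_fin, h2.neg_one_pow, h1, neg_mul_neg, one_mul]
  · refine Or.inl ⟨h, ?_⟩
    rw [h.det_eq ho hs hb, Finset.filter_eq_empty_iff.2 (fun a _ e => hm ⟨a, e⟩),
      Finset.prod_empty]

end Pool.Agent.MP_0c8446_ag
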