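import Pool.Agent.MP_0c8446_ag.CL.AdjA

namespace Pool.Agent.MP_0c8446_ag

open MvPolynomial Set Matrix

universe u v w

variable {R : Type u} [CommRing R] {n : ℕ} {alt : Bool} {x x' : Matrix (Fin n) (Fin n) R}
  {y : Equiv.Perm (Fin n)} {D : Fin n → Bool}

theorem NuA_mul (x x' J : Matrix (Fin n) (Fin n) R) :
    (x * x')ᵀ * J * (x * x') = x'ᵀ * (xᵀ * J * x) * x' := by
  simp only [transpose_mul, mul_assoc]

theorem NuA_tr {J J' : Matrix (Fin n) (Fin n) R} (h : xᵀ * J * x = J') : xᵀ * Jᵀ * x = J'ᵀ := by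
  rw [← h, transpose_mul, transpose_mul, transpose_transpose, mul_assoc]

theorem NuA_sq (p : Prop) [Decidable p] :
    (if p then -1 else 1 : R) * (if p then -1 else 1) = 1 := by
  split_ifs <;> simp

theorem NuA_ne [Nontrivial R] (p : Prop) [Decidable p] : (if p then -1 else 1 : R) ≠ 0 := by
  split_ifs <;> simp

theorem NuA_sgn (p p' : Prop) [Decidable p] [Decidable p'] [Decidable ¬ (p ↔ p')] :
    (if decide (¬ (p ↔ p')) = true then -1 else 1 : R) * (if p then -1 else 1) *
      (if false = true then -1 else 1) = if p' then -1 else 1 := by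
  by_cases h : p <;> by_cases h' : p' <;> simp [h, h']

theorem IsU.mul_au (h : IsU alt x) (h' : AU alt x') : AU alt (x * x') := by
  unfold AU IsU at *
  rw [NuA_mul, h, h']

theorem AU.mul_isU (h : AU alt x) (h' : IsU alt x') : AU alt (x * x') := by
  unfold AU IsU at *
  rw [NuA_mul, h, NuA_tr h']

theorem AU.mul_au (h : AU alt x) (h' : AU alt x') : IsU alt (x * x') := by
  unfold AU IsU at *
  rw [NuA_mul, h, NuA_tr h', transpose_transpose]

theorem AU.of_mul (h : AU alt x) (e : x * x' = 1) : AU alt x' := by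
  unfold AU at *
  have h1 : x'ᵀ * (jM R alt n)ᵀ * x' = jM R alt n := by
    rw [← h, ← NuA_mul, e, transpose_one, one_mul, mul_one]
  exact NuA_tr h1

theorem AU.map {R' : Type u} {F : Type*} [CommRing R'] [FunLike F R R'] [RingHomClass F R R']
    (φ : F) (h : AU alt x) : AU alt (x.map φ) := by
  unfold AU at *
  have e := congrArg (fun z => z.map (φ : R →+* R')) h
  simp only [Matrix.map_mul, transpose_map, jM_map] at e
  exact e

theorem AU.det_sq (h : AU alt x) : x.det * x.det = 1 := by
  have h1 := congrArg det h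
  have h2 := congrArg det (jM_mul_transpose (R := R) (n := n) (alt := alt))
  simp only [det_mul, det_transpose, det_one] at h1 h2
  linear_combination (jM R alt n).det * h1 + (1 - x.det * x.det) * h2

theorem AU.adj_mul (ev : Ev alt n) (h : AU alt x) : adj alt x * x = eps R alt • 1 := by
  unfold AU at h
  rw [adj, mul_assoc, mul_assoc, ← mul_assoc xᵀ, h]
  conv_lhs => rhs; rw [jM_transpose ev]
  rw [Matrix.mul_smul, jM_transpose_mul]

theorem nu_map {R' : Type u} {F : Type*} [CommRing R'] [FunLike F R R'] [RingHomClass F R R']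
    (φ : F) (y : Equiv.Perm (Fin n)) (D : Fin n → Bool) : (nu R y D).map φ = nu R' y D := by
  ext a b
  simp only [nu, map_apply, of_apply]
  split_ifs <;> simp

theorem mul_nu (x : Matrix (Fin n) (Fin n) R) (y : Equiv.Perm (Fin n)) (D : Fin n → Bool) :
    x * nu R y D = x.submatrix id y * diagonal fun b => if D b = true then -1 else 1 := by
  ext a b
  rw [mul_diagonal, Matrix.mul_apply,
    Finset.sum_eq_single (y b) (fun c _ hc => by simp [nu, hc]) (by simp)]
  simp [nu]

theorem nu_mul_transpose (y : Equiv.Perm (Fin n)) (D : Fin n → Bool) :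
    nu R y D * (nu R y D)ᵀ = 1 := by
  refine mul_eq_one_comm.1 ?_
  ext a b
  rw [mul_nu, mul_diagonal]
  by_cases h : a = b
  · subst h
    simp only [nu, submatrix_apply, transpose_apply, of_apply, id, if_true, one_apply_eq]
    exact NuA_sq _
  · have : ¬ y b = y a := fun e => h (y.injective e).symm
    simp [nu, this, h]

theorem nu_conj_apply (x : Matrix (Fin n) (Fin n) R) (y y' : Equiv.Perm (Fin n))
    (D D' : Fin n → Bool) (a b : Fin n) : ((nu R y D)ᵀ * x * nu R y' D') a b =
      (if D a = true then -1 else 1) * x (y a) (y' b) * if D' b = true then -1 else 1 := by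
  have h : (nu R y D)ᵀ * x = (xᵀ * nu R y D)ᵀ := by rw [transpose_mul, transpose_transpose]
  rw [mul_nu, mul_diagonal, submatrix_apply, h, transpose_apply, mul_nu, mul_diagonal,
    mul_comm (xᵀ.submatrix id y _ _)]
  rfl

theorem AU.nu_rev [Nontrivial R] (h : AU alt (nu R y D)) (a : Fin n) : y a.rev = (y a).rev := by
  have h1 := congrFun (congrFun h a) a.rev
  rw [nu_conj_apply, transpose_apply, jM_apply, jM_apply, if_pos (Fin.rev_rev a).symm] at h1
  by_contra hne
  rw [if_neg hne, mul_zero, zero_mul] at h1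
  have h2 := sg_mul_self (R := R) (alt := alt) a.rev
  rw [← h1, mul_zero] at h2
  exact zero_ne_one h2

theorem AU.nu_symm_rev [Nontrivial R] (h : AU alt (nu R y D)) (a : Fin n) :
    y.symm a.rev = (y.symm a).rev := by
  rw [Equiv.symm_apply_eq, h.nu_rev, Equiv.apply_symm_apply]

theorem NuOK.map {R' : Type u} [CommRing R'] (φ : R →+* R') {κ : R} (h : NuOK alt κ y D) :
    NuOK alt (φ κ) y D := by
  refine ⟨?_, ?_⟩
  · rw [← nu_map φ]
    exact h.1.map φ
  · rw [← nu_map φ, ← h.2]
    exact (φ.map_det _).symm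

theorem NuOK.of_map {R' : Type u} [CommRing R'] {φ : R →+* R'} (hφ : Function.Injective φ) {κ : R}
    (h : NuOK alt (φ κ) y D) : NuOK alt κ y D := by
  refine ⟨Matrix.map_injective hφ ?_, hφ ?_⟩
  · have h1 := h.1
    unfold AU at h1
    simp only [Matrix.map_mul, transpose_map, jM_map, nu_map]
    exact h1
  · rw [φ.map_det, ← h.2, ← nu_map φ]
    rfl

/-- Every permutation that commutes with the reversal has a signed anti-isometry, with an arbitrary
sign in the middle. -/
theorem exists_nu (ev : Ev alt n) (hy : ∀ a, y a.rev = (y a).rev) (m : Bool) :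
    ∃ D, AU alt (nu R y D) ∧ ∀ a, a.rev = a → D a = m := by
  classical
  let D : Fin n → Bool := fun a => if a < a.rev then false else if a.rev = a then m else
    decide ¬ ((alt = true ∧ (y a).rev < y a) ↔ (alt = true ∧ a < a.rev))
  have hm : ∀ a, a.rev = a → D a = m := fun a ha => by
    simp only [D, ha, lt_irrefl, if_false, if_true]
  have h1 : ∀ a : Fin n, a.rev < a → (if D a = true then -1 else 1) * sg R alt (y a) *
      (if D a.rev = true then -1 else 1) = sg R alt a.rev := by
    intro a ha
    have e1 : D a.rev = false := by simp only [D, Fin.rev_rev, ha, if_true]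
    have e2 : D a = decide ¬ ((alt = true ∧ (y a).rev < y a) ↔ (alt = true ∧ a < a.rev)) := by
      simp only [D, ha.not_gt, ha.ne, if_false]
    rw [e1, e2, sg, sg, Fin.rev_rev]
    exact NuA_sgn _ _
  have h2 : ∀ a : Fin n, (if D a = true then -1 else 1) * sg R alt (y a) *
      (if D a.rev = true then -1 else 1) = sg R alt a.rev := by
    intro a
    rcases lt_trichotomy a.rev a with ha | ha | ha
    · exact h1 a ha
    · have e1 : (y a).rev = y a := by rw [← hy, ha]
      rw [sg, sg, e1, Fin.rev_rev, ha]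
      simp only [lt_irrefl, and_false, if_false, mul_one]
      exact NuA_sq _
    · have e1 := h1 a.rev (by rwa [Fin.rev_rev])
      have e2 : eps R alt * eps R alt = 1 := NuA_sq _
      rw [Fin.rev_rev, hy, sg_rev ev] at e1
      rw [sg_rev ev, ← e1]
      linear_combination (-(if D a = true then -1 else 1) * sg R alt (y a) *
        (if D a.rev = true then -1 else 1)) * e2
  refine ⟨D, ?_, hm⟩
  ext a b
  rw [nu_conj_apply, transpose_apply, jM_apply, jM_apply, ← hy]
  by_cases h : b = a.rev
  · subst h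
    rw [if_pos rfl, if_pos (Fin.rev_rev a).symm]
    exact h2 a
  · have h3 : ¬ a = b.rev := fun e => h (by rw [e, Fin.rev_rev])
    rw [if_neg fun e => h (y.injective e), if_neg h3, mul_zero, zero_mul]

variable {k : Type u} [Field k] {g g' : Matrix (Fin n) (Fin n) k}

theorem rl_mul_nu (hg : IsUnit g) (y : Equiv.Perm (Fin n)) (D : Fin n → Bool) :
    Rl Fin.val g (g' * nu k y D) ↔ Rl Fin.val g (g'.submatrix id y) := by
  have h : ∀ a b, (g⁻¹ * (g' * nu k y D)) a b = 0 ↔ (g⁻¹ * g'.submatrix id y) a b = 0 := by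
    intro a b
    rw [mul_nu, ← mul_assoc, mul_diagonal, mul_eq_zero, or_iff_left (NuA_ne _)]
  exact ⟨fun H a b hab => (h a b).1 (H hab), fun H a b hab => (h a b).2 (H hab)⟩

theorem rl_nu_nu (hg : IsUnit g) (y : Equiv.Perm (Fin n)) (D : Fin n → Bool) :
    Rl Fin.val (g * nu k y D) (g' * nu k y D) ↔
      (g⁻¹ * g').BlockTriangular (Fin.val ∘ y.symm) := by
  have h : ∀ a b, ((g * nu k y D)⁻¹ * (g' * nu k y D)) a b = 0 ↔ (g⁻¹ * g') (y a) (y b) = 0 := by
    intro a b
    rw [Matrix.mul_inv_rev, inv_eq_right_inv (nu_mul_transpose y D), mul_assoc, ← mul_assoc g⁻¹,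
      ← mul_assoc, nu_conj_apply, mul_eq_zero, or_iff_left (NuA_ne _), mul_eq_zero,
      or_iff_right (NuA_ne _)]
  constructor
  · intro H a b hab
    have h1 := (h (y.symm a) (y.symm b)).1 (H hab)
    rwa [Equiv.apply_symm_apply, Equiv.apply_symm_apply] at h1
  · intro H a b hab
    refine (h a b).2 (H ?_)
    simpa using hab

theorem frC_nu {t : Bool} {q : ℕ} [PQ k q] (y : Equiv.Perm (Fin n)) (D : Fin n → Bool) :
    frC t q (nu k y D) = nu k (swP n t * y * swP n t) fun b => D (sw n t b) := by
  change ((nu k y D).map (frobHom k q)).submatrix _ _ = _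
  rw [nu_map]
  ext a b
  have h : sw n t a = y (sw n t b) ↔ a = (swP n t * y * swP n t) b := by
    rw [Equiv.Perm.mul_apply, Equiv.Perm.mul_apply, ← (swP n t).symm_apply_eq]
    rfl
  simp only [nu, submatrix_apply, of_apply, h]

end Pool.Agent.MP_0c8446_ag
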