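import Pool.Agent.MP_0c8446_ag.CL.Fix
import Pool.Agent.MP_0c8446_ag.CL.NuA
import Pool.Agent.MP_0c8446_ag.DL.Iwa
import Pool.Agent.MP_0c8446_ag.DL.GFr

namespace Pool.Agent.MP_0c8446_ag

open MvPolynomial Set Matrix

universe u v w

variable {k : Type u} [Field k] {Ω : Type u} [Field Ω] [Algebra k Ω] {n : ℕ} {alt : Bool}
  {g x H : Matrix (Fin n) (Fin n) Ω} {y : Equiv.Perm (Fin n)}

theorem CBru_eq (hg : IsUnit g) (H : Matrix (Fin n) (Fin n) Ω) : g * (g⁻¹ * H) = H :=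
  mul_nonsing_inv_cancel_left _ _ (RlA0_det hg)

theorem CBru_gram (hg : IsU alt g) (H : Matrix (Fin n) (Fin n) Ω) :
    adj alt H * H = adj alt (g⁻¹ * H) * (g⁻¹ * H) := by
  conv_lhs => rw [← CBru_eq hg.isUnit H]
  rw [adj_mul, mul_assoc, ← mul_assoc (adj alt g), hg.adj_mul, one_mul]

theorem CBru_entry (H : Matrix (Fin n) (Fin n) Ω) (a b : Fin n) :
    (adj alt H * H) a b = sg Ω alt a.rev * (Hᵀ * jM Ω alt n * H) a.rev b := by
  rw [adj, mul_assoc, mul_assoc, ← mul_assoc Hᵀ, Matrix.mul_apply,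
    Finset.sum_eq_single a.rev (fun c _ hc => ?_) (by simp)]
  · rw [transpose_apply, jM_apply, if_pos (Fin.rev_rev a).symm]
  · rw [transpose_apply, jM_apply, if_neg fun e => hc (by rw [e, Fin.rev_rev]), zero_mul]

theorem CBru_zero (hx : AU alt x) (h2 : Rl Fin.val x (H.submatrix id y)) {a b : Fin n}
    (hab : y.symm b < (y.symm a.rev).rev) : (adj alt H * H) a b = 0 := by
  have e1 : (Hᵀ * jM Ω alt n * H) a.rev b =
      ((H.submatrix id y)ᵀ * jM Ω alt n * H.submatrix id y) (y.symm a.rev) (y.symm b) := by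
    simp only [Matrix.mul_apply, transpose_apply, submatrix_apply, id, Equiv.apply_symm_apply]
  have e2 : (H.submatrix id y)ᵀ * jM Ω alt n * H.submatrix id y =
      (x⁻¹ * H.submatrix id y)ᵀ * (jM Ω alt n)ᵀ * (x⁻¹ * H.submatrix id y) := by
    conv_lhs => rw [← CBru_eq hx.isUnit (H.submatrix id y)]
    rw [← hx, transpose_mul x]
    simp only [mul_assoc]
  rw [CBru_entry, e1, e2, Matrix.mul_apply, Finset.sum_eq_zero fun d _ => ?_, mul_zero]
  rcases lt_or_ge (y.symm b) d with hd | hd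
  · rw [h2 (show ((y.symm b : Fin n) : ℕ) < d from hd), mul_zero]
  · rw [Matrix.mul_apply, Finset.sum_eq_zero fun c _ => ?_, zero_mul]
    rw [transpose_apply, transpose_apply, jM_apply]
    split_ifs with hc
    · have : y.symm a.rev < c := by
        rw [hc]
        exact Fin.lt_rev_iff.1 (hd.trans_lt hab)
      rw [h2 (show ((y.symm a.rev : Fin n) : ℕ) < c from this), zero_mul]
    · exact mul_zero _

theorem CBru_diag {β : Matrix (Fin n) (Fin n) Ω} (hu : IsUnit β) (h : β.BlockTriangular Fin.val)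
    (a : Fin n) : β a a ≠ 0 := by
  have h1 := (RlA0_det hu).ne_zero
  rw [bt_det Fin.val_injective h] at h1
  exact Finset.prod_ne_zero_iff.1 h1 a (Finset.mem_univ a)

theorem CBru_symm (hg : IsU alt g) (hx : AU alt x) (hH : IsUnit H) (h1 : Rl Fin.val g H)
    (h2 : Rl Fin.val x (H.submatrix id y)) (a : Fin n) : (y.symm a.rev).rev = y.symm a := by
  have hu : IsUnit (g⁻¹ * H) := (RlA0_inv hg.isUnit).mul hH
  have hle : ∀ a : Fin n, ((y.symm a.rev).rev : ℕ) ≤ y.symm a := fun a => by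
    by_contra h
    have h0 := CBru_zero hx h2 (a := a) (b := a) (not_le.1 h)
    rw [CBru_gram hg, bt_mul_apply Fin.val_injective (symP_val.adj h1) h1, adj_apply_self] at h0
    exact mul_ne_zero (CBru_diag hu h1 _) (CBru_diag hu h1 _) h0
  have hs : ∑ a : Fin n, ((y.symm a.rev).rev : ℕ) = ∑ a : Fin n, (y.symm a : ℕ) :=
    (Equiv.sum_comp ((Fin.revPerm.trans y.symm).trans Fin.revPerm) fun a => (a : ℕ)).trans
      (Equiv.sum_comp y.symm fun a => (a : ℕ)).symm
  exact Fin.ext ((Finset.sum_eq_sum_iff_of_le fun a _ => hle a).1 hs a (Finset.mem_univ a))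

theorem CBru_out (hg : SU alt g) (h1 : Rl Fin.val g H) (h2 : Rl Fin.val x (H.submatrix id y))
    {c : Matrix (Fin n) (Fin n) Ω} (c1 : c.BlockTriangular Fin.val)
    (c2 : c.BlockTriangular (Fin.val ∘ y.symm)) (hs : SU alt (g⁻¹ * (H * c))) :
    SU alt (H * c) ∧ Rl Fin.val g (H * c) ∧ Rl Fin.val x ((H * c).submatrix id y) := by
  refine ⟨CBru_eq hg.1.isUnit (H * c) ▸ hg.mul hs, ?_, ?_⟩
  · rw [Rl, ← mul_assoc]
    exact BlockTriangular.mul h1 c1
  · rw [Rl, submatrix_mul _ _ id y y y.bijective, ← mul_assoc]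
    refine BlockTriangular.mul h2 fun a b hab => c2 ?_
    simpa using hab

/-- The relative position of two self-dual flags commutes with the reversal. -/
theorem cbru_rev (hg : IsU alt g) (hx : AU alt x) (hH : IsUnit H) (h1 : Rl Fin.val g H)
    (h2 : Rl Fin.val x (H.submatrix id y)) (a : Fin n) : y a.rev = (y a).rev := by
  have h := CBru_symm hg hx hH h1 h2 (y a)
  rw [Equiv.symm_apply_apply] at h
  rw [← h, Fin.rev_rev, Equiv.apply_symm_apply, h]

/-- A common frame of two self-dual flags can be replaced by an isometry. -/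
theorem cbru_fix [IsAlgClosed Ω] (two : (2 : k) ≠ 0) (ev : Ev alt n) (hg : SU alt g) (hx : AU alt x)
    (hH : IsUnit H) (h1 : Rl Fin.val g H) (h2 : Rl Fin.val x (H.submatrix id y)) :
    ∃ H', SU alt H' ∧ Rl Fin.val g H' ∧ Rl Fin.val x (H'.submatrix id y) ∧
      ∀ (Ω' : Type u) [Field Ω'] [Algebra k Ω'] (Pl : Place k Ω Ω'), Pl.IG H → Pl.IG H' := by
  have hu : IsUnit (adj alt H * H) :=
    ((Matrix.isUnit_iff_isUnit_det _).2 (det_adj (alt := alt) H ▸ RlA0_det hH)).mul hH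
  have ha : adj alt (adj alt H * H) = adj alt H * H := by rw [adj_mul, adj_adj ev]
  have t1 : (adj alt H * H).BlockTriangular Fin.val := by
    rw [CBru_gram hg.1]
    exact (symP_val.adj h1).mul h1
  have t2 : (adj alt H * H).BlockTriangular (Fin.val ∘ y.symm) := fun a b hab =>
    CBru_zero hx h2 (by rw [CBru_symm hg.1 hx hH h1 h2]; exact hab)
  obtain ⟨c, c1, c2, hc, hO⟩ := exists_fix two ev Fin.val_injective symP_val hu ha t1 t2
  have hU : IsU alt (H * c) := isU_iff.2 (by rw [adj_mul, ← hc]; simp only [mul_assoc])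
  have hO' : ∀ (Ω' : Type u) [Field Ω'] [Algebra k Ω'] (Pl : Place k Ω Ω'), Pl.IG H →
      ∀ a b, c a b ∈ Pl.O := fun Ω' _ _ Pl h => hO Ω' Pl (Place.IG.mul ⟨adj_mem Pl.O h.1, by
        rw [Pl.adj_red h.1, Matrix.isUnit_iff_isUnit_det, det_adj]
        exact RlA0_det h.2⟩ h).1
  have hb : (g⁻¹ * (H * c)).BlockTriangular Fin.val := by
    rw [← mul_assoc]
    exact BlockTriangular.mul h1 c1
  have hU' : IsU alt (g⁻¹ * (H * c)) := (hg.1.inv_eq ▸ hg.1.adj).mul hU
  rcases hU'.su_or Fin.val_injective symP_val hb with h | h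
  · obtain ⟨a1, a2, a3⟩ := CBru_out hg h1 h2 c1 c2 h
    exact ⟨_, a1, a2, a3, fun Ω' _ _ Pl hI =>
      Pl.ig_of_isU a1.1 (Pl.map_red_mul hI.1 (hO' Ω' Pl hI)).1⟩
  · rw [← Matrix.mul_neg, ← Matrix.mul_neg] at h
    obtain ⟨a1, a2, a3⟩ := CBru_out hg h1 h2 c1.neg c2.neg h
    exact ⟨_, a1, a2, a3, fun Ω' _ _ Pl hI =>
      Pl.ig_of_isU a1.1 (Pl.map_red_mul hI.1 fun a b => neg_mem (hO' Ω' Pl hI a b)).1⟩

theorem cbru_nu (ev : Ev alt n) (hH : SU alt H) (hx : AU alt x)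
    (h2 : Rl Fin.val x (H.submatrix id y)) : ∃ D, NuOK alt x.det y D := by
  have hy := cbru_rev hH.1 hx hH.1.isUnit (Rl.refl _ hH.1.isUnit) h2
  have hxi : AU alt x⁻¹ := hx.of_mul (mul_nonsing_inv _ (RlA0_det hx.isUnit))
  have key : ∀ D, AU alt (nu Ω y D) → IsU alt (x⁻¹ * (H * nu Ω y D)) ∧
      (x⁻¹ * (H * nu Ω y D)).BlockTriangular Fin.val ∧ ∀ a, (x⁻¹ * (H * nu Ω y D)) a a =
        (x⁻¹ * H.submatrix id y) a a * if D a = true then -1 else 1 := fun D hD =>
    ⟨hxi.mul_au (hH.1.mul_au hD), (rl_mul_nu hx.isUnit y D).2 h2, fun a => by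
      rw [mul_nu, ← mul_assoc, mul_diagonal]⟩
  have hm : ∃ m : Bool, ∀ a : Fin n, a.rev = a →
      (x⁻¹ * H.submatrix id y) a a * (if m = true then -1 else 1) = 1 := by
    by_cases h : ∃ a : Fin n, a.rev = a
    · obtain ⟨a, ha⟩ := h
      have un : ∀ b : Fin n, b.rev = b → b = a := fun b hb => by
        have e1 := congrArg Fin.val ha
        have e2 := congrArg Fin.val hb
        have := a.2
        have := b.2
        rw [Fin.val_rev] at e1 e2
        exact Fin.ext (by omega)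
      obtain ⟨D, hD, hDm⟩ := exists_nu (R := Ω) ev hy false
      obtain ⟨k1, k2, k3⟩ := key D hD
      have h3 := k1.diag_mul Fin.val_injective symP_val k2 a
      rw [ha, k3, hDm a ha, if_neg Bool.false_ne_true, mul_one] at h3
      rcases mul_self_eq_one_iff.1 h3 with h4 | h4
      · exact ⟨false, fun b hb => by rw [un b hb, h4]; simp⟩
      · exact ⟨true, fun b hb => by rw [un b hb, h4]; simp⟩
    · exact ⟨false, fun a ha => absurd ⟨a, ha⟩ h⟩
  obtain ⟨m, hm⟩ := hm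
  obtain ⟨D, hD, hDm⟩ := exists_nu (R := Ω) ev hy m
  obtain ⟨k1, k2, k3⟩ := key D hD
  refine ⟨D, hD, ?_⟩
  have h3 := k1.det_eq Fin.val_injective symP_val k2
  rw [Finset.prod_eq_one fun a ha => by
    have ha' := (Finset.mem_filter.1 ha).2
    rw [k3, hDm a ha', hm a ha']] at h3
  have h4 := congrArg det (CBru_eq hx.isUnit (H * nu Ω y D))
  rw [det_mul, h3, mul_one, det_mul, hH.2, one_mul] at h4
  exact h4.symm

theorem Place.exists_ciwasawa [IsAlgClosed Ω] (two : (2 : k) ≠ 0) (ev : Ev alt n) {Ω' : Type u}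
    [Field Ω'] [Algebra k Ω'] (Pl : Place k Ω Ω') (hg : SU alt g) :
    ∃ G, SU alt G ∧ Pl.IG G ∧ Rl Fin.val g G := by
  obtain ⟨G, hG, hr⟩ := Pl.exists_iwasawa hg.1.isUnit
  obtain ⟨D, hD, -⟩ := exists_nu (R := Ω) (y := 1) ev (fun _ => rfl) false
  have hx := hg.1.mul_au hD
  obtain ⟨H', a1, a2, -, a4⟩ := cbru_fix two ev hg hx hG.isUnit hr
    ((rl_mul_nu hx.isUnit 1 D).1 ((rl_nu_nu hg.1.isUnit 1 D).2 hr))
  exact ⟨H', a1, a4 Ω' Pl hG, a2⟩

end Pool.Agent.MP_0c8446_ag
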