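import Pool.Agent.MP_0c8446_ag.CL.CLang
import Pool.Agent.MP_0c8446_ag.CL.NuA

namespace Pool.Agent.MP_0c8446_ag

open MvPolynomial Set Matrix

universe u v w

variable {k : Type u} [Field k] [IsAlgClosed k] {n : ℕ} (C : CD k n)

omit [IsAlgClosed k] in
theorem cConj_conj {C : CD k n} (A A' : C.Anti) (h : (A.η * A'.η⁻¹).1.det = 1) (g : C.Γ) :
    IsConj (A'.θ g) (A.θ g) := by
  have h1 : AU C.alt A'.η⁻¹.1 := A'.au.of_mul A'.η.mul_inv
  have h2 : frC C.t C.q A'.η⁻¹.1 = A'.η⁻¹.1 := A'.η.isUnit.mul_left_cancel (by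
    conv_lhs => rw [← A'.fr, ← frC_mul, A'.η.mul_inv, frC_one]
    exact A'.η.mul_inv.symm)
  have h3 : A.η * A'.η⁻¹ ∈ C.Γ :=
    ⟨⟨A.au.mul_au h1, h⟩, by rw [Units.val_mul, frC_mul, A.fr, h2]⟩
  refine isConj_iff.2 ⟨⟨_, h3⟩, Subtype.ext ?_⟩
  change A.η * A'.η⁻¹ * (A'.η * g.1 * A'.η⁻¹) * (A.η * A'.η⁻¹)⁻¹ = A.η * g.1 * A.η⁻¹
  group

omit [IsAlgClosed k] in
theorem cConj_det {C : CD k n} (A A' : C.Anti) (h : A.η.1.det = A'.η.1.det) (g : C.Γ) :
    IsConj (A'.θ g) (A.θ g) := by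
  refine cConj_conj A A' ?_ g
  rw [Units.val_mul, det_mul, h, ← det_mul, A'.η.mul_inv, det_one]

omit [IsAlgClosed k] in
theorem cConj_inv {C : CD k n} {A : C.Anti} {g : C.Γ} (h : A.θ g = g⁻¹) : A.θ g⁻¹ = g := by
  rw [map_inv, h, inv_inv]

omit [IsAlgClosed k] in
theorem cConj_au (h : C.alt = false) {x : Matrix (Fin n) (Fin n) k} (hx : IsU C.alt x) :
    AU C.alt x := by
  have e : (jM k C.alt n)ᵀ = jM k C.alt n := by
    rw [jM_transpose C.ev, eps, if_neg (by simp [h]), one_smul]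
  unfold AU
  rw [e]
  exact hx

/-- Every element is inverted by a rational anti-isometry. -/
theorem CD.exists_mvw (g : C.Γ) : ∃ A : C.Anti, A.θ g = g⁻¹ := by
  obtain ⟨A, hA, -, hM, hF⟩ := exists_twist (Ω := k) (q := C.q) (n := n) C.ht
  have hd := (isUnit_iff_isUnit_det A).1 hA
  have e1 : A * A⁻¹ = 1 := mul_nonsing_inv A hd
  have e2 : A⁻¹ * A = 1 := nonsing_inv_mul A hd
  generalize A⁻¹ = B at *
  have c1 : ∀ x : Matrix (Fin n) (Fin n) k, A * (B * x) = x := fun x => by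
    rw [← mul_assoc, e1, one_mul]
  have c2 : ∀ x : Matrix (Fin n) (Fin n) k, B * (A * x) = x := fun x => by
    rw [← mul_assoc, e2, one_mul]
  have c3 : ∀ x : Matrix (Fin n) (Fin n) k, Bᵀ * (Aᵀ * x) = x := fun x => by
    rw [← mul_assoc, ← transpose_mul, e1, transpose_one, one_mul]
  have hJ : IsUnit (jM k C.alt n) := IsUnit.of_mul_eq_one _ jM_mul_transpose
  have hg : g.1.1ᵀ * jM k C.alt n * g.1.1 = jM k C.alt n := g.2.1.1
  obtain ⟨η, h1, h2, h3⟩ := rat_mvw (Ω := k) (q := C.q) (alt := C.alt)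
    (M := Aᵀ * jM k C.alt n * A) (g := B * g.1.1 * A) C.two
    ((((isUnit_transpose A).2 hA).mul hJ).mul hA)
    (by rw [transpose_mul, transpose_mul, transpose_transpose, jM_transpose C.ev, smul_mul_assoc,
      mul_smul_comm, mul_assoc])
    hM
    (by
      conv_rhs => rw [← hg]
      simp only [transpose_mul, mul_assoc, c1, c3])
    (by rw [hF, g.2.2])
  have h4 : AU C.alt (A * η * B) := by
    have e : (A * η * B)ᵀ * jM k C.alt n * (A * η * B) =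
        Bᵀ * (ηᵀ * (Aᵀ * jM k C.alt n * A) * η) * B := by
      simp only [transpose_mul, mul_assoc]
    unfold AU
    rw [e, h2]
    simp only [transpose_mul, transpose_transpose, mul_assoc, c3, e1, mul_one]
  have h5 : frC C.t C.q (A * η * B) = A * η * B := by
    have e := hF (A * η * B)
    have e' : B * (A * η * B) * A = η := by simp only [mul_assoc, c2, e2, mul_one]
    rw [e', h1] at e
    conv_rhs => rw [e]
    simp only [mul_assoc, c1, e1, mul_one]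
  have h6 : g.1.1 * (A * η * B) * g.1.1 = A * η * B := by
    conv_rhs => rw [← h3]
    simp only [mul_assoc, c1, e1, mul_one]
  obtain ⟨ξ, hξ⟩ := h4.isUnit
  rw [← hξ] at h4 h5 h6
  refine ⟨⟨ξ, h4, h5⟩, Subtype.ext ?_⟩
  have h7 : g.1 * ξ * g.1 = ξ := Units.ext h6
  change ξ * g.1 * ξ⁻¹ = g.1⁻¹
  rw [mul_inv_eq_iff_eq_mul, eq_inv_mul_iff_mul_eq, ← mul_assoc, h7]

theorem CD.exists_anti : ∃ (A₀ A₁ : C.Anti) (θ' : C.Γ →* C.Γ), ∀ g,
    (IsConj (A₀.θ g) g⁻¹ ∧ IsConj (A₁.θ g) (θ' g⁻¹)) ∨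
      (IsConj (A₁.θ g) g⁻¹ ∧ IsConj (A₀.θ g) (θ' g⁻¹)) := by
  by_cases h : C.alt = true
  · obtain ⟨A₀, -⟩ := C.exists_mvw 1
    have key : ∀ (A A' : C.Anti) (g : C.Γ), IsConj (A'.θ g) (A.θ g) := by
      intro A A' g
      refine cConj_conj A A' ?_ g
      have h1 : IsU C.alt (A.η * A'.η⁻¹).1 := A.au.mul_au (A'.au.of_mul A'.η.mul_inv)
      rw [h] at h1
      exact (h1.su_of_alt C.two (C.ev h)).2
    refine ⟨A₀, A₀, A₀.θ.comp (C.exists_mvw 1).choose.θ, fun g => ?_⟩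
    obtain ⟨A, hA⟩ := C.exists_mvw g
    refine Or.inl ⟨hA ▸ key A A₀ g, ?_⟩
    refine A₀.θ.map_isConj ?_
    have := key (C.exists_mvw 1).choose A g⁻¹
    rwa [cConj_inv hA] at this
  · rw [Bool.not_eq_true] at h
    obtain ⟨ρ, h1, h2, h3⟩ := C.exists_refl k h
    obtain ⟨ρ, rfl⟩ := h1.isUnit
    let A₀ : C.Anti := ⟨1, cConj_au C h isU_one, frC_one⟩
    let A₁ : C.Anti := ⟨ρ, cConj_au C h h1, h3⟩
    have e0 : ∀ g, A₀.θ g = g := fun g => Subtype.ext (by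
      rw [CD.Anti.θ_val]
      change 1 * g.1 * 1⁻¹ = g.1
      rw [one_mul, inv_one, mul_one])
    refine ⟨A₀, A₁, A₁.θ, fun g => ?_⟩
    obtain ⟨A, hA⟩ := C.exists_mvw g
    rcases mul_self_eq_one_iff.1 A.au.det_sq with hd | hd
    · have h4 : IsConj (A₀.θ g) g⁻¹ := hA ▸ cConj_det A A₀ (hd.trans det_one.symm) g
      exact Or.inl ⟨h4, A₁.θ.map_isConj (by rwa [e0] at h4)⟩
    · refine Or.inr ⟨hA ▸ cConj_det A A₁ (hd.trans h2.symm) g, ?_⟩
      have := cConj_det A₁ A (h2.trans hd.symm) g⁻¹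
      rw [cConj_inv hA] at this
      rwa [e0]

end Pool.Agent.MP_0c8446_ag
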