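import Pool.Agent.MP_0c8446_ag.DL.Defs

namespace Pool.Agent.MP_0c8446_ag

open Matrix

universe u v w

/-- The antidiagonal symmetric or (if `alt`) alternating form. -/
def jM (R : Type u) [CommRing R] (alt : Bool) (n : ℕ) : Matrix (Fin n) (Fin n) R :=
  Matrix.of fun a b => if b = a.rev then if alt = true ∧ b < a then -1 else 1 else 0

/-- The graph automorphism of type `D`: if `t`, exchange the two middle positions (`n` even). -/
def sw (n : ℕ) (t : Bool) (a : Fin n) : Fin n :=
  if t = true ∧ (2 * a + 2 = n ∨ 2 * a = n) then a.rev else a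

/-- The blocks of the minimal parabolic subgroup `P_s`: positions `s`, `s + 1` are merged, and so
are the opposite positions `n - 2 - s`, `n - 1 - s`. -/
def cbk (n s : ℕ) (a : Fin n) : ℕ := ((Finset.range a).filter fun c => c ≠ s ∧ c + s + 2 ≠ n).card

/-- The Demazure compactification of the Deligne-Lusztig variety of the word `w` for `G = Sp_n` or
`SO_n` with the split or (if `t`) twisted Frobenius map `F`: chains `g_0 B, …, g_r B = F(g_0) B`
with `g_j ∈ G`, `g_j⁻¹ g_{j+1} ∈ P_{w j}`, in Plücker coordinates (numbered by `c`). -/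
def cdl (k : Type u) [Field k] (alt t : Bool) (q : ℕ) {n r : ℕ} (w : Fin r → ℕ × Bool)
    {N : Fin n → ℕ} (c : ∀ a : Fin n, Fin (N a + 1) ≃ (Fin (a + 1) → Fin n)) :
    Set (MP k fun i : Fin (r + 1) × Fin n => N i.2) :=
  {x | ∃ g : Fin (r + 1) → Matrix (Fin n) (Fin n) k,
    (∀ j, (g j)ᵀ * jM k alt n * g j = jM k alt n ∧ (g j).det = 1) ∧
    (∀ j : Fin r,
      ((g j.castSucc)⁻¹ * g j.succ).BlockTriangular (cbk n (w j).1 ∘ sw n (w j).2)) ∧
    ((g (Fin.last r))⁻¹ * ((g 0).map (· ^ q)).submatrix (sw n t) (sw n t)).BlockTriangular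
      Fin.val ∧
    IsRep (fun s => pl (cols (g s.1.1) s.1.2) (c s.1.2 s.2)) x}

/-- Products of compactified Deligne-Lusztig varieties of classical groups. -/
inductive ClType (k : Type u) [Field k] (p : ℕ) : Var k → Prop
  | ofDL {X : Var k} : DLType k p X → ClType k p X
  | ofCl (alt t : Bool) (f : ℕ) {n r : ℕ} (w : Fin r → ℕ × Bool) {N : Fin n → ℕ}
      (c : ∀ a : Fin n, Fin (N a + 1) ≃ (Fin (a + 1) → Fin n)) (h₁ h₂) :
      p ≠ 2 → 0 < f → 0 < n → (alt = true → Even n ∧ t = false ∧ ∀ j, (w j).2 = false) →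
      (∀ j, 2 * (w j).1 + 2 < n ∨ alt = true ∧ 2 * (w j).1 + 2 = n) →
      ClType k p ⟨_, _, cdl k alt t (p ^ f) w c, h₁, h₂⟩
  | prod {P X Y : Var k} (a : Mor P X) (b : Mor P Y) :
      IsProd a b → ClType k p X → ClType k p Y → ClType k p P

end Pool.Agent.MP_0c8446_ag
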