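import Pool.Agent.MP_0c8446_ag.DL.GLDefs
import Pool.Agent.MP_0c8446_ag.DL.LevA
import Pool.Agent.MP_0c8446_ag.CL.Defs

namespace Pool.Agent.MP_0c8446_ag

open MvPolynomial Set Matrix

universe u v w

section basic

variable {R : Type u} [CommRing R] {n : ℕ} {alt : Bool}

/-- An alternating form needs even rank. -/
def Ev (alt : Bool) (n : ℕ) : Prop := alt = true → Even n

/-- The adjoint with respect to the form `jM`. -/
def adj (alt : Bool) (x : Matrix (Fin n) (Fin n) R) : Matrix (Fin n) (Fin n) R :=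
  (jM R alt n)ᵀ * xᵀ * jM R alt n

/-- Isometries. -/
def IsU (alt : Bool) (x : Matrix (Fin n) (Fin n) R) : Prop := xᵀ * jM R alt n * x = jM R alt n

/-- Isometries of determinant one. -/
def SU (alt : Bool) (x : Matrix (Fin n) (Fin n) R) : Prop := IsU alt x ∧ x.det = 1

/-- Anti-isometries. -/
def AU (alt : Bool) (x : Matrix (Fin n) (Fin n) R) : Prop := xᵀ * jM R alt n * x = (jM R alt n)ᵀ

/-- Self-dual block structures. -/
def SymP (b : Fin n → ℕ) : Prop := ∀ a a', b a < b a' → b a'.rev < b a.rev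

/-- Special isometries that are block triangular for two block structures. -/
def Sg (alt : Bool) (b₁ b₂ : Fin n → ℕ) (x : Matrix (Fin n) (Fin n) R) : Prop :=
  SU alt x ∧ x.BlockTriangular b₁ ∧ x.BlockTriangular b₂

/-- The matrix with given coordinates. -/
def mat {α : Type*} (x : Fin n × Fin n → α) : Matrix (Fin n) (Fin n) α :=
  Matrix.of fun a b => x (a, b)

/-- The root vector with entry `1` in position `(a, b)`. -/
def rt (R : Type u) [CommRing R] (alt : Bool) (a b : Fin n) : Matrix (Fin n) (Fin n) R :=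
  if b = a.rev then Matrix.single a b 1 else Matrix.single a b 1 - adj alt (Matrix.single a b 1)

/-- The root subgroup; `hf` is one half. -/
def xR (alt : Bool) (a b : Fin n) (hf τ : R) : Matrix (Fin n) (Fin n) R :=
  1 + τ • rt R alt a b + (hf * τ ^ 2) • (rt R alt a b * rt R alt a b)

/-- A signed permutation matrix: the column `b` is `± e_(y b)`. -/
def nu (R : Type u) [CommRing R] (y : Equiv.Perm (Fin n)) (D : Fin n → Bool) :
    Matrix (Fin n) (Fin n) R :=
  Matrix.of fun a b => if a = y b then if D b = true then -1 else 1 else 0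

/-- The signed permutation matrix is an anti-isometry of determinant `κ`. -/
def NuOK (alt : Bool) (κ : R) (y : Equiv.Perm (Fin n)) (D : Fin n → Bool) : Prop :=
  AU alt (nu R y D) ∧ (nu R y D).det = κ

/-- The positions above `a` in the column `a` that are free once the earlier columns are fixed. -/
def preC (alt : Bool) (z : Fin n → Fin n) (a : Fin n) : Finset (Fin n) :=
  Finset.univ.filter fun b => b < a ∧ z b < z a ∧ (a < b.rev ∨ alt = true ∧ a = b.rev)

lemma jM_map {R' : Type u} {F : Type*} [CommRing R'] [FunLike F R R'] [RingHomClass F R R'] (φ : F) :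
    (jM R alt n).map φ = jM R' alt n := by
  ext a b
  simp only [jM, map_apply, of_apply]
  split_ifs <;> simp

lemma jM_mul_transpose : jM R alt n * (jM R alt n)ᵀ = 1 := by
  ext a b
  rw [Matrix.mul_apply, Finset.sum_eq_single a.rev (fun c _ hc => by simp [jM, hc]) (by simp)]
  by_cases h : a = b
  · subst h
    simp only [jM, of_apply, transpose_apply, if_true, Matrix.one_apply_eq]
    split_ifs <;> simp
  · have : ¬ a.rev = b.rev := fun e => h (Fin.rev_injective e)
    simp [jM, this, h]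

lemma jM_transpose_mul : (jM R alt n)ᵀ * jM R alt n = 1 := mul_eq_one_comm.1 jM_mul_transpose

lemma adj_mul (x y : Matrix (Fin n) (Fin n) R) : adj alt (x * y) = adj alt y * adj alt x := by
  simp only [adj, transpose_mul, mul_assoc]
  rw [← mul_assoc (jM R alt n), jM_mul_transpose, one_mul]

lemma adj_one : adj alt (1 : Matrix (Fin n) (Fin n) R) = 1 := by
  rw [adj, transpose_one, mul_one, jM_transpose_mul]

lemma adj_map {R' : Type u} {F : Type*} [CommRing R'] [FunLike F R R'] [RingHomClass F R R'] (φ : F)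
    (x : Matrix (Fin n) (Fin n) R) : (adj alt x).map φ = adj alt (x.map φ) := by
  have h := fun A B : Matrix (Fin n) (Fin n) R => Matrix.map_mul (L := A) (M := B)
    (f := (φ : R →+* R'))
  change (adj alt x).map (φ : R →+* R') = adj alt (x.map (φ : R →+* R'))
  rw [adj, h, h, transpose_map, transpose_map, jM_map, adj]

lemma isU_iff {x : Matrix (Fin n) (Fin n) R} : IsU alt x ↔ adj alt x * x = 1 := by
  constructor
  · intro h
    rw [adj, mul_assoc, mul_assoc, ← mul_assoc xᵀ, h, jM_transpose_mul]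
  · intro h
    have := congrArg (jM R alt n * ·) h
    simp only [adj, ← mul_assoc, jM_mul_transpose, one_mul, mul_one] at this
    exact this

variable {x y : Matrix (Fin n) (Fin n) R}

lemma IsU.adj_mul (h : IsU alt x) : adj alt x * x = 1 := isU_iff.1 h

lemma IsU.mul_adj (h : IsU alt x) : x * adj alt x = 1 := mul_eq_one_comm.1 h.adj_mul

lemma IsU.isUnit (h : IsU alt x) : IsUnit x := IsUnit.of_mul_eq_one _ h.mul_adj

lemma IsU.inv_eq (h : IsU alt x) : x⁻¹ = adj alt x := Matrix.inv_eq_left_inv h.adj_mul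

lemma isU_one : IsU alt (1 : Matrix (Fin n) (Fin n) R) := by simp [IsU]

lemma IsU.mul (h : IsU alt x) (h' : IsU alt y) : IsU alt (x * y) := by
  unfold IsU at *
  rw [transpose_mul, mul_assoc, mul_assoc, ← mul_assoc (jM R alt n), ← mul_assoc xᵀ,
    ← mul_assoc xᵀ, h, ← mul_assoc, h']

lemma IsU.of_mul (h : IsU alt x) (e : x * y = 1) : IsU alt y := by
  unfold IsU at *
  conv_lhs => rw [← h]
  rw [← mul_assoc, ← mul_assoc, ← transpose_mul, e, transpose_one, one_mul, mul_assoc, e, mul_one]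

lemma IsU.adj (h : IsU alt x) : IsU alt (adj alt x) := h.of_mul h.mul_adj

lemma IsU.map {R' : Type u} {F : Type*} [CommRing R'] [FunLike F R R'] [RingHomClass F R R'] (φ : F)
    (h : IsU alt x) : IsU alt (x.map φ) := by
  have e := congrArg (fun z => z.map (φ : R →+* R')) h.adj_mul
  simp only [Matrix.map_mul, adj_map, Matrix.map_one _ (map_zero _) (map_one _)] at e
  exact isU_iff.2 e

lemma su_one : SU alt (1 : Matrix (Fin n) (Fin n) R) := ⟨isU_one, det_one⟩

lemma SU.mul (h : SU alt x) (h' : SU alt y) : SU alt (x * y) :=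
  ⟨h.1.mul h'.1, by rw [det_mul, h.2, h'.2, one_mul]⟩

lemma SU.of_mul (h : SU alt x) (e : x * y = 1) : SU alt y :=
  ⟨h.1.of_mul e, by simpa [h.2] using congrArg det e⟩

lemma SU.adj (h : SU alt x) : SU alt (adj alt x) := h.of_mul h.1.mul_adj

lemma SU.map {R' : Type u} {F : Type*} [CommRing R'] [FunLike F R R'] [RingHomClass F R R'] (φ : F)
    (h : SU alt x) : SU alt (x.map φ) :=
  ⟨h.1.map φ, ((φ : R →+* R').map_det x).symm.trans (by rw [h.2, map_one])⟩

lemma AU.isUnit (h : AU alt x) : IsUnit x :=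
  IsUnit.of_mul_eq_one_right (jM R alt n * xᵀ * jM R alt n) (by
    rw [mul_assoc, mul_assoc, ← mul_assoc xᵀ, h, jM_mul_transpose])

/-- Conjugation by an anti-isometry preserves the isometries. -/
lemma AU.conj {z : Matrix (Fin n) (Fin n) R} (h : AU alt x) (e : x * z = 1) (hy : SU alt y) :
    SU alt (x * y * z) := by
  refine ⟨?_, by rw [det_mul, det_mul, hy.2, mul_one, ← det_mul, e, det_one]⟩
  have h1 : yᵀ * (jM R alt n)ᵀ * y = (jM R alt n)ᵀ := by
    have := congrArg transpose hy.1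
    rwa [transpose_mul, transpose_mul, transpose_transpose, ← mul_assoc] at this
  unfold IsU
  unfold AU at h
  calc (x * y * z)ᵀ * jM R alt n * (x * y * z)
      = zᵀ * (yᵀ * (xᵀ * jM R alt n * x) * y) * z := by simp only [transpose_mul, mul_assoc]
    _ = (x * z)ᵀ * jM R alt n * (x * z) := by
      rw [h, h1, ← h]; simp only [transpose_mul, mul_assoc]
    _ = _ := by rw [e, transpose_one, one_mul, mul_one]

lemma sw_sw (t : Bool) (a : Fin n) : sw n t (sw n t a) = a := by
  unfold sw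
  by_cases h : t = true ∧ (2 * (a : ℕ) + 2 = n ∨ 2 * (a : ℕ) = n)
  · have h' : t = true ∧ (2 * (a.rev : ℕ) + 2 = n ∨ 2 * (a.rev : ℕ) = n) :=
      ⟨h.1, by rw [Fin.val_rev]; omega⟩
    rw [if_pos h, if_pos h', Fin.rev_rev]
  · rw [if_neg h, if_neg h]

lemma sw_rev (t : Bool) (a : Fin n) : sw n t a.rev = (sw n t a).rev := by
  unfold sw
  have : (2 * (a.rev : ℕ) + 2 = n ∨ 2 * (a.rev : ℕ) = n) ↔
      (2 * (a : ℕ) + 2 = n ∨ 2 * (a : ℕ) = n) := by
    have := a.2
    rw [Fin.val_rev]; omega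
  simp only [this]
  split_ifs <;> rfl

lemma sw_false (a : Fin n) : sw n false a = a := if_neg fun h => Bool.false_ne_true h.1

/-- The exchange of the middle positions as a permutation. -/
def swP (n : ℕ) (t : Bool) : Equiv.Perm (Fin n) := Function.Involutive.toPerm _ (sw_sw t)

@[simp] lemma swP_apply (t : Bool) (a : Fin n) : swP n t a = sw n t a := rfl

@[simp] lemma swP_symm_apply (t : Bool) (a : Fin n) : (swP n t).symm a = sw n t a := rfl

lemma jM_sw {t : Bool} (ht : alt = true → t = false) :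
    (jM R alt n).submatrix (sw n t) (sw n t) = jM R alt n := by
  cases alt
  · ext a b
    have : sw n t b = (sw n t a).rev ↔ b = a.rev := by
      rw [← sw_rev]
      exact (swP n t).injective.eq_iff
    simp [jM, this]
  · rw [ht rfl]
    ext a b
    simp [sw_false]

lemma SU.submatrix_sw {t : Bool} (ht : alt = true → t = false) (h : SU alt x) :
    SU alt (x.submatrix (sw n t) (sw n t)) := by
  refine ⟨?_, (det_submatrix_equiv_self (swP n t) x).trans h.2⟩
  have e := congrArg (fun z => z.submatrix (sw n t) (sw n t)) h.1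
  have hb : Function.Bijective (sw n t) := (swP n t).bijective
  simp only [jM_sw ht] at e
  rw [submatrix_mul _ _ _ _ _ hb, submatrix_mul _ _ _ _ _ hb, jM_sw ht] at e
  exact e

/-- The Frobenius map of the classical group. -/
def frC (t : Bool) (q : ℕ) (g : Matrix (Fin n) (Fin n) R) : Matrix (Fin n) (Fin n) R :=
  (g.map (· ^ q)).submatrix (sw n t) (sw n t)

lemma frC_map {R' : Type u} {F : Type*} [CommRing R'] [FunLike F R R'] [RingHomClass F R R'] (φ : F)
    (t : Bool) (q : ℕ) (g : Matrix (Fin n) (Fin n) R) :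
    (frC t q g).map φ = frC t q (g.map φ) := by
  ext a b
  simp [frC]

end basic

section frob

variable {k : Type u} [Field k] {n : ℕ} {alt t : Bool} {q : ℕ} [PQ k q]

lemma frC_mul (g g' : Matrix (Fin n) (Fin n) k) : frC t q (g * g') = frC t q g * frC t q g' := by
  have hb : Function.Bijective (sw n t) := (swP n t).bijective
  change ((g * g').map (frobHom k q)).submatrix _ _ = _
  rw [Matrix.map_mul, submatrix_mul _ _ _ _ _ hb]
  rfl

lemma frC_one : frC t q (1 : Matrix (Fin n) (Fin n) k) = 1 := by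
  change ((1 : Matrix (Fin n) (Fin n) k).map (frobHom k q)).submatrix (swP n t) (swP n t) = _
  rw [Matrix.map_one _ (map_zero _) (map_one _), submatrix_one_equiv]

lemma SU.frC (ht : alt = true → t = false) {g : Matrix (Fin n) (Fin n) k} (h : SU alt g) :
    SU alt (frC t q g) := (h.map (frobHom k q)).submatrix_sw ht

end frob

section chart

variable {k : Type u} [Field k] {σ : Type}

/-- The family `R` is an open subset of an affine space. -/
structure Chart (R : Fam k σ) {τ : Type} (t : τ → MvPolynomial σ k) (Dp : MvPolynomial τ k) :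
    Prop where
  nv : ∀ (Ω : Type u) [Field Ω] [Algebra k Ω] [IsAlgClosed Ω] (x : σ → Ω), R Ω x →
    aeval (evs x t) Dp ≠ 0
  inj : ∀ (Ω : Type u) [Field Ω] [Algebra k Ω] [IsAlgClosed Ω] (x x' : σ → Ω), R Ω x → R Ω x' →
    evs x t = evs x' t → x = x'
  surj : ∀ (Ω : Type u) [Field Ω] [Algebra k Ω] [IsAlgClosed Ω] (y : τ → Ω), aeval y Dp ≠ 0 →
    ∃ x, R Ω x ∧ evs x t = y
  val : ∀ (Ω Ω' : Type u) [Field Ω] [Algebra k Ω] [IsAlgClosed Ω] [Field Ω'] [Algebra k Ω']
    [IsAlgClosed Ω'] (Pl : Place k Ω Ω') (x : σ → Ω), R Ω x → (∀ s, evs x t s ∈ Pl.O) →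
    aeval (fun s => Pl.red (evs x t s)) Dp ≠ 0 → ∀ s, x s ∈ Pl.O

/-- The family `R` is an open subset of some affine space. -/
def HasChart (R : Fam k σ) : Prop :=
  ∃ (τ : Type) (_ : Finite τ) (t : τ → MvPolynomial σ k) (Dp : MvPolynomial τ k), Chart R t Dp

/-- The condition on a value `a` and an extra coordinate `z`: inverse, or both zero. -/
def CutC {Ω : Type*} [Mul Ω] [One Ω] [Zero Ω] (T : Bool) (a z : Ω) : Prop :=
  if T = true then z * a = 1 else a = 0 ∧ z = 0

/-- The part of a family where the `f i` with `T i` are invertible and the others vanish. -/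
def Fam.cut (R : Fam k σ) {I : Type} (f : I → MvPolynomial σ k) (T : I → Bool) : Fam k (σ ⊕ I) :=
  fun Ω _ _ _ x => R Ω (fun s => x (Sum.inl s)) ∧
    ∀ i, CutC (T i) (aeval (fun s => x (Sum.inl s)) (f i)) (x (Sum.inr i))

/-- The family `R` is cut into open subsets of affine spaces. -/
def Cell (R : Fam k σ) : Prop :=
  ∃ (I : Type) (_ : Finite I) (f : I → MvPolynomial σ k), ∀ T, HasChart (R.cut f T)

/-- The product of families. -/
def Fam.pi {J : Type} (R : J → Fam k σ) : Fam k (J × σ) :=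
  fun Ω _ _ _ x => ∀ j, R j Ω fun s => x (j, s)

/-- The product with a line. -/
def Fam.opt (R : Fam k σ) : Fam k (Option σ) := fun Ω _ _ _ x => R Ω fun s => x (some s)

/-- Mutually inverse polynomial maps between two families. -/
structure Fam.Iso {σ' : Type} (R : Fam k σ) (R' : Fam k σ') (φ : σ' → MvPolynomial σ k)
    (ψ : σ → MvPolynomial σ' k) : Prop where
  hom : ∀ (Ω : Type u) [Field Ω] [Algebra k Ω] [IsAlgClosed Ω] (x : σ → Ω), R Ω x →
    R' Ω (evs x φ) ∧ evs (evs x φ) ψ = x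
  inv : ∀ (Ω : Type u) [Field Ω] [Algebra k Ω] [IsAlgClosed Ω] (y : σ' → Ω), R' Ω y →
    R Ω (evs y ψ) ∧ evs (evs y ψ) φ = y

/-- The family is the solution set of a system of equations. -/
def Fam.Closed (R : Fam k σ) : Prop :=
  ∃ E : Set (MvPolynomial σ k), ∀ (Ω : Type u) [Field Ω] [Algebra k Ω] [IsAlgClosed Ω] (x : σ → Ω),
    R Ω x ↔ ∀ e ∈ E, aeval x e = 0

variable (k) {n : ℕ}

/-- The group of special isometries that are triangular for two block structures. -/
def hFam (alt : Bool) (b₁ b₂ : Fin n → ℕ) : Fam k (Fin n × Fin n) :=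
  fun _ _ _ _ x => Sg alt b₁ b₂ (mat x)

/-- The special isometries that vanish at the positions `Z`. -/
def dFam (alt : Bool) (Z : Fin n → Fin n → Prop) : Fam k (Fin n × Fin n) :=
  fun _ _ _ _ x => SU alt (mat x) ∧ ∀ a b, Z a b → x (a, b) = 0

variable {k} {Γ : Type u} [Group Γ]

/-- The quotient of the frames by `Γ` is the family `R`. -/
structure FrD.QuotF (D : FrD k Γ) (φ : σ → MvPolynomial D.σ k) (R : Fam k σ) : Prop where
  mem : ∀ (Ω : Type u) [Field Ω] [Algebra k Ω] [IsAlgClosed Ω] (h : D.σ → Ω), D.Fr h →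
    R Ω (evs h φ)
  inv : ∀ γ (Ω : Type u) [Field Ω] [Algebra k Ω] (h : D.σ → Ω), D.Fr h →
    evs (evs h (D.act γ)) φ = evs h φ
  fib : ∀ (Ω : Type u) [Field Ω] [Algebra k Ω] [IsAlgClosed Ω] (h h' : D.σ → Ω), D.Fr h →
    D.Fr h' → evs h φ = evs h' φ → ∃ γ, h' = evs h (D.act γ)
  surj : ∀ (Ω : Type u) [Field Ω] [Algebra k Ω] [IsAlgClosed Ω] (x : σ → Ω), R Ω x →
    ∃ h, D.Fr h ∧ evs h φ = x
  val : ∀ (Ω Ω' : Type u) [Field Ω] [Algebra k Ω] [IsAlgClosed Ω] [Field Ω'] [Algebra k Ω']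
    [IsAlgClosed Ω'] (Pl : Place k Ω Ω') (h : D.σ → Ω), D.Fr h → (∀ s, evs h φ s ∈ Pl.O) →
    ∀ s, h s ∈ Pl.O

/-- The equations of a cut. -/
def cutE (E : Set (MvPolynomial σ k)) {I : Type} (f : I → MvPolynomial σ k) (T : I → Bool) :
    Set (MvPolynomial (σ ⊕ I) k) :=
  rename Sum.inl '' E ∪ {e | ∃ i, if T i = true then e = X (Sum.inr i) * rename Sum.inl (f i) - 1
    else e = rename Sum.inl (f i) ∨ e = X (Sum.inr i)}

lemma cutE_iff {Ω : Type*} [CommRing Ω] [Algebra k Ω] (E : Set (MvPolynomial σ k)) {I : Type}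
    (f : I → MvPolynomial σ k) (T : I → Bool) (x : σ ⊕ I → Ω) :
    (∀ e ∈ cutE E f T, aeval x e = 0) ↔ (∀ e ∈ E, aeval (fun s => x (Sum.inl s)) e = 0) ∧
      ∀ i, CutC (T i) (aeval (fun s => x (Sum.inl s)) (f i)) (x (Sum.inr i)) := by
  have h0 : ∀ e : MvPolynomial σ k, aeval x (rename Sum.inl e) =
      aeval (fun s => x (Sum.inl s)) e := fun e => aeval_rename _ _ _
  constructor
  · refine fun H => ⟨fun e he => (h0 e).symm.trans (H _ (Or.inl ⟨e, he, rfl⟩)), fun i => ?_⟩
    unfold CutC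
    split_ifs with hi
    · have := H _ (Or.inr ⟨i, (if_pos hi).mpr rfl⟩)
      rwa [map_sub, map_mul, aeval_X, h0, map_one, sub_eq_zero] at this
    · exact ⟨(h0 _).symm.trans (H _ (Or.inr ⟨i, (if_neg hi).mpr (Or.inl rfl)⟩)),
        (aeval_X x _).symm.trans (H _ (Or.inr ⟨i, (if_neg hi).mpr (Or.inr rfl)⟩))⟩
  · rintro ⟨H1, H2⟩ e (⟨e, he, rfl⟩ | ⟨i, hi⟩)
    · exact (h0 e).trans (H1 e he)
    · have := H2 i
      unfold CutC at this
      split_ifs at hi this
      · rw [hi, map_sub, map_mul, aeval_X, h0, map_one, this, sub_self]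
      · rcases hi with rfl | rfl
        · exact (h0 _).trans this.1
        · exact (aeval_X x _).trans this.2

/-- The action on a cut. -/
noncomputable def cutA {I : Type} (a : σ → MvPolynomial σ k) : σ ⊕ I → MvPolynomial (σ ⊕ I) k :=
  Sum.elim (fun s => rename Sum.inl (a s)) fun i => X (Sum.inr i)

lemma evs_cutA_inl {Ω : Type*} [CommRing Ω] [Algebra k Ω] {I : Type} (a : σ → MvPolynomial σ k)
    (x : σ ⊕ I → Ω) :
    (fun s => evs x (cutA (I := I) a) (Sum.inl s)) = evs (fun s => x (Sum.inl s)) a := by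
  funext s
  simp only [evs, cutA, Sum.elim_inl, aeval_rename]
  rfl

lemma evs_cutA_inr {Ω : Type*} [CommRing Ω] [Algebra k Ω] {I : Type} (a : σ → MvPolynomial σ k)
    (x : σ ⊕ I → Ω) (i : I) : evs x (cutA a) (Sum.inr i) = x (Sum.inr i) := by
  simp only [evs, cutA, Sum.elim_inr, aeval_X]

lemma cut_stab (D : FrD k Γ) {I : Type} (f : I → MvPolynomial D.σ k)
    (hf : ∀ γ (Ω : Type u) [Field Ω] [Algebra k Ω] (h : D.σ → Ω), D.Fr h →
      evs (evs h (D.act γ)) f = evs h f) (T : I → Bool) (γ : Γ) (Ω : Type u) [Field Ω]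
    [Algebra k Ω] (h : D.σ ⊕ I → Ω) (H : ∀ e ∈ cutE D.E f T, aeval h e = 0) :
    ∀ e ∈ cutE D.E f T, aeval (evs h (cutA (D.act γ))) e = 0 := by
  rw [cutE_iff] at H ⊢
  rw [evs_cutA_inl]
  refine ⟨D.stab γ Ω _ H.1, fun i => ?_⟩
  have e1 : aeval (evs (fun s => h (Sum.inl s)) (D.act γ)) (f i) =
      aeval (fun s => h (Sum.inl s)) (f i) := congrFun (hf γ Ω _ H.1) i
  rw [evs_cutA_inr, e1]
  exact H.2 i

/-- The part of the frames where the `f i` with `T i` are invertible and the others vanish. -/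
noncomputable def FrD.cut (D : FrD k Γ) {I : Type} [Finite I] (f : I → MvPolynomial D.σ k)
    (hf : ∀ γ (Ω : Type u) [Field Ω] [Algebra k Ω] (h : D.σ → Ω), D.Fr h →
      evs (evs h (D.act γ)) f = evs h f) (T : I → Bool) : FrD k Γ where
  σ := D.σ ⊕ I
  fin := Fintype.ofFinite _
  E := cutE D.E f T
  act γ := cutA (D.act γ)
  stab := cut_stab D f hf T

lemma FrD.cut_iff {D : FrD k Γ} {I : Type} [Finite I] {f : I → MvPolynomial D.σ k} {hf}
    {T : I → Bool} {Ω : Type u} [Field Ω] [Algebra k Ω] {x : D.σ ⊕ I → Ω} :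
    (D.cut f hf T).Fr x ↔ D.Fr (fun s => x (Sum.inl s)) ∧
      ∀ i, CutC (T i) (aeval (fun s => x (Sum.inl s)) (f i)) (x (Sum.inr i)) :=
  cutE_iff D.E f T x

end chart

/-- The data of a finite symplectic or special orthogonal group in odd characteristic. -/
structure CD (k : Type u) [Field k] (n : ℕ) where
  alt : Bool
  t : Bool
  q : ℕ
  [pq : PQ k q]
  ev : Ev alt n
  ht : alt = true → t = false
  two : (2 : k) ≠ 0
  pos : 0 < n

attribute [instance] CD.pq

variable {k : Type u} [Field k] {n r : ℕ} (C : CD k n)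

/-- The finite group. -/
def CD.Γ : Subgroup (GL (Fin n) k) where
  carrier := {γ | SU C.alt γ.1 ∧ frC C.t C.q γ.1 = γ.1}
  mul_mem' {a b} ha hb := ⟨ha.1.mul hb.1, by rw [Units.val_mul, frC_mul, ha.2, hb.2]⟩
  one_mem' := ⟨su_one, frC_one⟩
  inv_mem' {a} ha := ⟨ha.1.of_mul a.mul_inv, a.isUnit.mul_left_cancel (by
    conv_lhs => rw [← ha.2, ← frC_mul, a.mul_inv, frC_one]
    exact a.mul_inv.symm)⟩

lemma CD.mem_Γ {γ : GL (Fin n) k} : γ ∈ C.Γ ↔ SU C.alt γ.1 ∧ frC C.t C.q γ.1 = γ.1 := Iff.rfl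

/-- The standard representation. -/
def CD.std : C.Γ →* Matrix (Fin n) (Fin n) k := (Units.coeHom _).comp C.Γ.subtype

/-- A rational anti-isometry. -/
structure CD.Anti where
  η : GL (Fin n) k
  au : AU C.alt η.1
  fr : frC C.t C.q η.1 = η.1

/-- Conjugation by a rational anti-isometry. -/
def CD.Anti.θ {C : CD k n} (A : C.Anti) : C.Γ →* C.Γ :=
  ((MulAut.conj A.η).toMonoidHom.comp C.Γ.subtype).codRestrict _ fun g =>
    ⟨A.au.conj A.η.mul_inv g.2.1, by
      have h : frC C.t C.q A.η⁻¹.1 = A.η⁻¹.1 := A.η.isUnit.mul_left_cancel (by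
        conv_lhs => rw [← A.fr, ← frC_mul, A.η.mul_inv, frC_one]
        exact A.η.mul_inv.symm)
      change frC C.t C.q (A.η.1 * g.1.1 * A.η⁻¹.1) = A.η.1 * g.1.1 * A.η⁻¹.1
      rw [frC_mul, frC_mul, A.fr, g.2.2, h]⟩

lemma CD.Anti.θ_val {C : CD k n} (A : C.Anti) (g : C.Γ) : (A.θ g).1 = A.η * g.1 * A.η⁻¹ := rfl

/-- Admissible words. -/
def CD.Ok (w : Fin r → ℕ × Bool) : Prop :=
  ∀ j, (C.alt = true → (w j).2 = false) ∧
    (2 * (w j).1 + 2 < n ∨ C.alt = true ∧ 2 * (w j).1 + 2 = n)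

section frames

variable {R : Type u}

/-- The coordinates of `r + 1` matrices. -/
abbrev CS (r n : ℕ) : Type := Fin (r + 1) × Fin n × Fin n

/-- The `j`-th matrix. -/
def cM (h : CS r n → R) (j : Fin (r + 1)) : Matrix (Fin n) (Fin n) R :=
  Matrix.of fun a b => h (j, a, b)

/-- The tuple with given matrices. -/
def mkC (g : Fin (r + 1) → Matrix (Fin n) (Fin n) R) : CS r n → R := fun s => g s.1 s.2.1 s.2.2

@[simp] lemma cM_mkC (g : Fin (r + 1) → Matrix (Fin n) (Fin n) R) : cM (mkC g) = g := rfl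

@[simp] lemma mkC_cM (h : CS r n → R) : mkC (cM h) = h := rfl

variable [CommRing R]

/-- The next matrix in the cyclic chain. -/
def nxC (t : Bool) (q : ℕ) (g : Fin (r + 1) → Matrix (Fin n) (Fin n) R) (j : Fin (r + 1)) :
    Matrix (Fin n) (Fin n) R :=
  Fin.lastCases (motive := fun _ => Matrix (Fin n) (Fin n) R) (frC t q (g 0)) (fun j => g j.succ) j

/-- The transition matrices. -/
def ddC (alt t : Bool) (q : ℕ) (g : Fin (r + 1) → Matrix (Fin n) (Fin n) R) (j : Fin (r + 1)) :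
    Matrix (Fin n) (Fin n) R := adj alt (g j) * nxC t q g j

lemma nxC_last (t : Bool) (q : ℕ) (g : Fin (r + 1) → Matrix (Fin n) (Fin n) R) :
    nxC t q g (Fin.last r) = frC t q (g 0) := by simp only [nxC, Fin.lastCases_last]

lemma nxC_castSucc (t : Bool) (q : ℕ) (g : Fin (r + 1) → Matrix (Fin n) (Fin n) R) (j : Fin r) :
    nxC t q g j.castSucc = g j.succ := by simp only [nxC, Fin.lastCases_castSucc]

lemma ddC_map {R' : Type u} {F : Type*} [CommRing R'] [FunLike F R R'] [RingHomClass F R R'] (φ : F)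
    (alt t : Bool) (q : ℕ) (g : Fin (r + 1) → Matrix (Fin n) (Fin n) R) (j : Fin (r + 1)) :
    (ddC alt t q g j).map φ = ddC alt t q (fun j => (g j).map φ) j := by
  have h := Matrix.map_mul (L := adj alt (g j)) (M := nxC t q g j) (f := (φ : R →+* R'))
  refine h.trans (congrArg₂ (· * ·) (adj_map φ _) ?_)
  refine Fin.lastCases ?_ (fun j => ?_) j
  · rw [nxC_last, nxC_last]
    exact frC_map φ t q (g 0)
  · rw [nxC_castSucc, nxC_castSucc]
    rfl

lemma cM_evs [Algebra k R] (h : CS r n → R) (j : Fin (r + 1)) :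
    (cM (X : CS r n → MvPolynomial (CS r n) k) j).map (aeval (R := k) h) = cM h j := by
  ext a b
  simp [cM]

lemma aeval_ddC [Algebra k R] (alt t : Bool) (q : ℕ) (h : CS r n → R) (j : Fin (r + 1))
    (a b : Fin n) : aeval (R := k) h (ddC alt t q (cM X) j a b) = ddC alt t q (cM h) j a b := by
  have := congrFun (congrFun (ddC_map (aeval (R := k) h) alt t q (cM X) j) a) b
  rwa [funext (cM_evs h)] at this

/-- The equations of frames with transition matrices vanishing at the positions `Z`. -/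
def clE (k : Type u) [Field k] (alt t : Bool) (q : ℕ) (Z : Fin (r + 1) → Fin n → Fin n → Prop) :
    Set (MvPolynomial (CS r n) k) :=
  {e | ∃ j a b, e = (adj alt (cM X j) * cM X j - 1 :
    Matrix (Fin n) (Fin n) (MvPolynomial (CS r n) k)) a b} ∪
  {e | ∃ j, e = (cM X j).det - 1} ∪ {e | ∃ j a b, Z j a b ∧ e = ddC alt t q (cM X) j a b}

lemma clE_iff [Algebra k R] (alt t : Bool) (q : ℕ) (Z : Fin (r + 1) → Fin n → Fin n → Prop)
    (h : CS r n → R) : (∀ e ∈ clE k alt t q Z, aeval h e = 0) ↔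
      (∀ j, SU alt (cM h j)) ∧ ∀ j a b, Z j a b → ddC alt t q (cM h) j a b = 0 := by
  have h1 : ∀ j a b, aeval h ((adj alt (cM X j) * cM X j - 1 :
      Matrix (Fin n) (Fin n) (MvPolynomial (CS r n) k)) a b) =
      (adj alt (cM h j) * cM h j - 1) a b := by
    intro j a b
    have e : (aeval (R := k) h).mapMatrix (adj alt (cM X j) * cM X j - 1) =
        adj alt (cM h j) * cM h j - 1 := by
      rw [map_sub, map_mul, map_one, AlgHom.mapMatrix_apply, AlgHom.mapMatrix_apply, adj_map,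
        cM_evs]
    exact congrFun (congrFun e a) b
  have h2 : ∀ j, aeval h ((cM X j).det - 1 : MvPolynomial (CS r n) k) = (cM h j).det - 1 := by
    intro j
    rw [map_sub, map_one, AlgHom.map_det, AlgHom.mapMatrix_apply, cM_evs]
  constructor
  · refine fun H => ⟨fun j => ⟨isU_iff.2 (sub_eq_zero.1 (Matrix.ext fun a b => ?_)),
      sub_eq_zero.1 ?_⟩, fun j a b hz => ?_⟩
    · rw [← h1]; exact H _ (Or.inl (Or.inl ⟨j, a, b, rfl⟩))
    · rw [← h2]; exact H _ (Or.inl (Or.inr ⟨j, rfl⟩))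
    · rw [← aeval_ddC (k := k)]; exact H _ (Or.inr ⟨j, a, b, hz, rfl⟩)
  · rintro ⟨H1, H2⟩ e ((⟨j, a, b, rfl⟩ | ⟨j, rfl⟩) | ⟨j, a, b, hz, rfl⟩)
    · rw [h1, (H1 j).1.adj_mul]; simp
    · rw [h2, (H1 j).2, sub_self]
    · rw [aeval_ddC, H2 j a b hz]

/-- Left multiplication of a tuple by a matrix. -/
def clAct [Algebra k R] (γ : Matrix (Fin n) (Fin n) k) (h : CS r n → R) : CS r n → R :=
  mkC fun j => γ.map (algebraMap k R) * cM h j

lemma evs_clAct [Algebra k R] (γ : Matrix (Fin n) (Fin n) k) (h : CS r n → R) :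
    evs h (clAct γ (X : CS r n → MvPolynomial (CS r n) k)) = clAct γ h := by
  funext ⟨j, s⟩
  simp [evs, clAct, mkC, Matrix.mul_apply, cM]

end frames

lemma CD.frC_map {Ω : Type u} [Field Ω] [Algebra k Ω] {g : Matrix (Fin n) (Fin n) k}
    (h : frC C.t C.q g = g) : frC C.t C.q (g.map (algebraMap k Ω)) = g.map (algebraMap k Ω) := by
  rw [← MP_0c8446_ag.frC_map, h]

lemma CD.nxC_mul {Ω : Type u} [Field Ω] [Algebra k Ω] {γ : Matrix (Fin n) (Fin n) Ω}
    (hγ : frC C.t C.q γ = γ) (g : Fin (r + 1) → Matrix (Fin n) (Fin n) Ω) (j : Fin (r + 1)) :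
    nxC C.t C.q (fun j => γ * g j) j = γ * nxC C.t C.q g j := by
  have := PQ.ext k C.q Ω
  refine Fin.lastCases ?_ (fun j => ?_) j
  · rw [nxC_last, nxC_last, frC_mul, hγ]
  · rw [nxC_castSucc, nxC_castSucc]

lemma CD.ddC_mul {Ω : Type u} [Field Ω] [Algebra k Ω] (γ : C.Γ)
    (g : Fin (r + 1) → Matrix (Fin n) (Fin n) Ω) (j : Fin (r + 1)) :
    ddC C.alt C.t C.q (fun j => γ.1.1.map (algebraMap k Ω) * g j) j = ddC C.alt C.t C.q g j := by
  rw [ddC, C.nxC_mul (C.frC_map γ.2.2), adj_mul, mul_assoc, ← mul_assoc (adj _ (Matrix.map _ _)),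
    (γ.2.1.1.map _).adj_mul, one_mul, ddC]

lemma CD.fr_stab (Z : Fin (r + 1) → Fin n → Fin n → Prop) (γ : C.Γ) (Ω : Type u) [Field Ω]
    [Algebra k Ω] (h : CS r n → Ω) (H : ∀ e ∈ clE k C.alt C.t C.q Z, aeval h e = 0) :
    ∀ e ∈ clE k C.alt C.t C.q Z,
      aeval (evs h (clAct γ.1.1 (X : CS r n → MvPolynomial (CS r n) k))) e = 0 := by
  rw [evs_clAct]
  rw [clE_iff] at H ⊢
  rw [clAct, cM_mkC]
  exact ⟨fun j => (γ.2.1.map _).mul (H.1 j), fun j a b hz => by
    rw [C.ddC_mul γ (cM h) j, H.2 j a b hz]⟩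

/-- Frames with transition matrices vanishing at the positions `Z`. -/
noncomputable def CD.fr (Z : Fin (r + 1) → Fin n → Fin n → Prop) : FrD k C.Γ where
  σ := CS r n
  E := clE k C.alt C.t C.q Z
  act γ := clAct γ.1.1 X
  stab := C.fr_stab Z

lemma CD.fr_iff {Ω : Type u} [Field Ω] [Algebra k Ω] {Z : Fin (r + 1) → Fin n → Fin n → Prop}
    {h : CS r n → Ω} : (C.fr Z).Fr h ↔
      (∀ j, SU C.alt (cM h j)) ∧ ∀ j a b, Z j a b → ddC C.alt C.t C.q (cM h) j a b = 0 :=
  clE_iff C.alt C.t C.q Z h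

/-- The block structure of the `j`-th transition. -/
def blC (n : ℕ) (w : Fin r → ℕ × Bool) (j : Fin (r + 1)) : Fin n → ℕ :=
  Fin.lastCases (motive := fun _ => Fin n → ℕ) Fin.val (fun j => cbk n (w j).1 ∘ sw n (w j).2) j

/-- The relative position at the next step of the cyclic chain. -/
def nyC (t : Bool) (y : Fin (r + 1) → Equiv.Perm (Fin n)) (j : Fin (r + 1)) : Equiv.Perm (Fin n) :=
  Fin.lastCases (motive := fun _ => Equiv.Perm (Fin n)) (swP n t * y 0 * swP n t)
    (fun j => y j.succ) j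

/-- The positions at which the transition matrices vanish on the stratum `y`. -/
def zC (t : Bool) (w : Fin r → ℕ × Bool) (y : Fin (r + 1) → Equiv.Perm (Fin n)) (j : Fin (r + 1))
    (a b : Fin n) : Prop :=
  blC n w j b < blC n w j a ∨ blC n w j ((nyC t y j).symm b) < blC n w j ((y j).symm a)

/-- A cyclic chain of flags. -/
def CD.Ch {Ω : Type u} [Field Ω] (w : Fin r → ℕ × Bool)
    (g : Fin (r + 1) → Matrix (Fin n) (Fin n) Ω) : Prop :=
  (∀ j, SU C.alt (g j)) ∧ ∀ j, (ddC C.alt C.t C.q g j).BlockTriangular (blC n w j)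

variable {C}

/-- The index set of the strata. -/
def CD.Anti.Y (A : C.Anti) (r : ℕ) : Type :=
  {y : (Fin (r + 1) → Equiv.Perm (Fin n)) × (Fin (r + 1) → Fin n → Bool) //
    ∀ j, NuOK C.alt A.η⁻¹.1.det (y.1 j) (y.2 j)}

instance (A : C.Anti) (r : ℕ) : Finite (A.Y r) := inferInstanceAs (Finite (Subtype _))

/-- The frames of the second chain. -/
def CD.Anti.sec (A : C.Anti) (y : A.Y r) {R : Type u} [CommRing R] [Algebra k R]
    (g : Fin (r + 1) → Matrix (Fin n) (Fin n) R) (j : Fin (r + 1)) : Matrix (Fin n) (Fin n) R :=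
  A.η.1.map (algebraMap k R) * g j * nu R (y.1.1 j) (y.1.2 j)

/-- The Plücker coordinates of the pair of chains given by a frame on the stratum `y`. -/
def CD.Anti.pt (A : C.Anti) {N : Fin n → ℕ}
    (c : ∀ a : Fin n, Fin (N a + 1) ≃ (Fin (a + 1) → Fin n)) (y : A.Y r) {R : Type u} [CommRing R]
    [Algebra k R] (h : CS r n → R) :
    Vars (Sum.elim (fun i : Fin (r + 1) × Fin n => N i.2) fun i : Fin (r + 1) × Fin n => N i.2) →
      R :=
  pvJoin (plV c (cM h)) (plV c (A.sec y (cM h)))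

end Pool.Agent.MP_0c8446_ag
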