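import Pool.Agent.MP_0c8446_ag.CL.CFrA
import Pool.Agent.MP_0c8446_ag.DL.GFin

namespace Pool.Agent.MP_0c8446_ag

open MvPolynomial Set Matrix

universe u v w

section

variable {k : Type u} [Field k] {Ω : Type u} [Field Ω] {n r : ℕ} {alt t : Bool} {q : ℕ}
  {g : Fin (r + 1) → Matrix (Fin n) (Fin n) Ω}

theorem CFin_evs [Algebra k Ω] (alt t : Bool) (q : ℕ) (h : CS r n → Ω) :
    evs h (fun s : Fin (r + 1) × Fin n × Fin n =>
      ddC alt t q (cM (X : CS r n → MvPolynomial (CS r n) k)) s.1 s.2.1 s.2.2) =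
      mkC (ddC alt t q (cM h)) :=
  funext fun s => aeval_ddC alt t q h s.1 s.2.1 s.2.2

theorem CFin_nx (t : Bool) (q : ℕ) (h1 : ∀ j, SU alt (g j)) (j : Fin (r + 1)) :
    nxC t q g j = g j * ddC alt t q g j := by
  rw [ddC, ← mul_assoc, (h1 j).1.mul_adj, one_mul]

theorem CFin_ch (t : Bool) (q : ℕ) (h1 : ∀ j, SU alt (g j)) (j : Fin (r + 1)) :
    g j = g 0 * Fin.partialProd (ddC alt t q g) j.castSucc := by
  induction j using Fin.induction with
  | zero => simp
  | succ j ih =>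
    rw [← Fin.succ_castSucc, Fin.partialProd_succ, ← mul_assoc, ← ih, ← CFin_nx t q h1,
      nxC_castSucc]

theorem CFin_lang (t : Bool) (q : ℕ) (h1 : ∀ j, SU alt (g j)) :
    frC t q (g 0) = g 0 * Fin.partialProd (ddC alt t q g) (Fin.last _) := by
  rw [← nxC_last, CFin_nx t q h1, CFin_ch t q h1 (Fin.last r), ← Fin.succ_last,
    Fin.partialProd_succ, mul_assoc]

theorem CFin_pi [Algebra k Ω] [IsAlgClosed Ω] {Z : Fin (r + 1) → Fin n → Fin n → Prop} :
    (Fam.pi fun j => dFam k alt (Z j)) Ω (mkC g) ↔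
      (∀ j, SU alt (g j)) ∧ ∀ j a b, Z j a b → g j a b = 0 := forall_and

theorem CFin_su (h1 : ∀ j, SU alt (g j)) (j : Fin (r + 2)) : SU alt (Fin.partialProd g j) :=
  GFin_prod (M := Matrix (Fin n) (Fin n) Ω) (P := fun A => SU alt A) su_one
    (fun _ _ a b => a.mul b) (d := g) h1 j

end

variable {k : Type u} [Field k] [IsAlgClosed k] {n r : ℕ} (C : CD k n)

/-- The quotient of the frames by the finite group is given by the transition matrices. -/
theorem CD.quotF (Z : Fin (r + 1) → Fin n → Fin n → Prop) :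
    (C.fr Z).QuotF (fun s : Fin (r + 1) × Fin n × Fin n =>
      ddC C.alt C.t C.q (cM (X : CS r n → MvPolynomial (CS r n) k)) s.1 s.2.1 s.2.2)
      (Fam.pi fun j => dFam k C.alt (Z j)) := by
  refine ⟨fun Ω _ _ _ h hh => ?_, fun γ Ω _ _ h _ => ?_, fun Ω _ _ _ h h' hh hh' e => ?_,
    fun Ω _ _ _ x hx => ?_, fun Ω Ω' _ _ _ _ _ _ Pl h hh hO => ?_⟩ <;> have := PQ.ext k C.q Ω
  · obtain ⟨h1, h2⟩ := C.fr_iff.1 hh
    exact (congrArg _ (CFin_evs (k := k) C.alt C.t C.q h)).mpr (CFin_pi.2 ⟨CD.su_ddC h1, h2⟩)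
  · refine (CFin_evs C.alt C.t C.q _).trans ((congrArg mkC ?_).trans
      (CFin_evs C.alt C.t C.q h).symm)
    refine (congrArg (fun z => ddC C.alt C.t C.q (cM z)) (evs_clAct γ.1.1 h)).trans ?_
    exact funext (C.ddC_mul γ (cM h))
  · have h1 := (C.fr_iff.1 hh).1
    have h2 := (C.fr_iff.1 hh').1
    have ed : ddC C.alt C.t C.q (cM h') = ddC C.alt C.t C.q (cM h) := congrArg cM
      ((CFin_evs C.alt C.t C.q h').symm.trans (e.symm.trans (CFin_evs C.alt C.t C.q h)))
    have e0 : cM h' 0 * adj C.alt (cM h 0) * cM h 0 = cM h' 0 := by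
      rw [mul_assoc, (h1 0).1.adj_mul, mul_one]
    obtain ⟨γ, hγ⟩ := C.exists_Γ ((h2 0).mul (h1 0).adj) (by
      refine ((h1 0).frC (q := C.q) C.ht).1.isUnit.mul_right_cancel ?_
      rw [← frC_mul, e0, CFin_lang C.t C.q h1, CFin_lang C.t C.q h2, ed, ← mul_assoc, e0])
    refine ⟨γ, ((evs_clAct γ.1.1 h).trans (congrArg mkC (funext fun j => ?_) : _ = mkC (cM h'))).symm⟩
    rw [hγ, CFin_ch C.t C.q h1 j, CFin_ch C.t C.q h2 j, ed, ← mul_assoc, e0]
  · replace hx := (CFin_pi (g := cM x)).1 hx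
    have hp := CFin_su hx.1
    obtain ⟨a, ha, e⟩ := C.exists_lang (hp (Fin.last _))
    set g := fun j : Fin (r + 1) => a * Fin.partialProd (cM x) j.castSucc with hg
    have h1 : ∀ j, SU C.alt (g j) := fun j => ha.mul (hp _)
    have ed : ddC C.alt C.t C.q g = cM x := by
      funext j
      have : nxC C.t C.q g j = g j * cM x j := by
        rw [hg, mul_assoc, ← Fin.partialProd_succ, ← hg]
        refine Fin.lastCases ?_ (fun j => ?_) j
        · rw [nxC_last, hg]
          simp only [Fin.castSucc_zero, Fin.partialProd_zero]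
          rw [mul_one, e, Fin.succ_last]
        · rw [nxC_castSucc, hg, Fin.succ_castSucc]
      rw [ddC, this, ← mul_assoc, (h1 j).1.adj_mul, one_mul]
    refine ⟨mkC g, C.fr_iff.2 ⟨h1, fun j a b hz => ?_⟩,
      (CFin_evs C.alt C.t C.q _).trans (congrArg mkC ed)⟩
    exact (congrFun (congrFun (congrFun ed j) a) b).trans (hx.2 j a b hz)
  · have h1 := (C.fr_iff.1 hh).1
    have hm : ∀ A B : Matrix (Fin n) (Fin n) Ω, (∀ c d, A c d ∈ Pl.O) → (∀ c d, B c d ∈ Pl.O) →
        ∀ c d, (A * B) c d ∈ Pl.O := fun A B hA hB c d => by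
      rw [Matrix.mul_apply]
      exact sum_mem fun s _ => mul_mem (hA c s) (hB s d)
    have hp := GFin_prod (P := fun A : Matrix (Fin n) (Fin n) Ω => ∀ c d, A c d ∈ Pl.O)
      (d := ddC C.alt C.t C.q (cM h)) (fun c d => by
        rw [Matrix.one_apply]
        split_ifs
        exacts [one_mem _, zero_mem _]) hm fun j c d =>
      (congrArg (· ∈ Pl.O) (congrFun (CFin_evs (k := k) C.alt C.t C.q h) (j, c, d))).mp
        (hO (j, c, d))
    have h0 := C.mem_of_lang Pl (CFin_lang C.t C.q h1) (hp _)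
    rintro ⟨j, a, b⟩
    exact (congrArg (· ∈ Pl.O) (congrFun (congrFun (CFin_ch C.t C.q h1 j) a) b)).mpr
      (hm _ _ h0 (hp _) a b)

end Pool.Agent.MP_0c8446_ag
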