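import Pool.Agent.MP_0c8446_ag.CL.CFrA
import Pool.Agent.MP_0c8446_ag.CL.NuA

namespace Pool.Agent.MP_0c8446_ag

open MvPolynomial Set Matrix

universe u v w

variable {k : Type u} [Field k] {Ω : Type u} [Field Ω] [Algebra k Ω] {n r : ℕ} {C : CD k n}
  {w : Fin r → ℕ × Bool} {N : Fin n → ℕ} (c : ∀ a : Fin n, Fin (N a + 1) ≃ (Fin (a + 1) → Fin n))
  (A : C.Anti) (y : A.Y r) {h h' : CS r n → Ω}

theorem CFr_mul (A : C.Anti) (R : Type u) [CommRing R] [Algebra k R] :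
    A.η.1.map (algebraMap k R) * A.η⁻¹.1.map (algebraMap k R) = 1 := by
  rw [← Matrix.map_mul, Units.mul_inv, Matrix.map_one _ (map_zero _) (map_one _)]

theorem CFr_inv (A : C.Anti) (R : Type u) [CommRing R] [Algebra k R] :
    A.η⁻¹.1.map (algebraMap k R) * A.η.1.map (algebraMap k R) = 1 :=
  mul_eq_one_comm.1 (CFr_mul A R)

theorem CFr_unit (A : C.Anti) (R : Type u) [CommRing R] [Algebra k R] :
    IsUnit (A.η.1.map (algebraMap k R)) := IsUnit.of_mul_eq_one _ (CFr_mul A R)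

theorem CD.Anti.su_sec {g : Fin (r + 1) → Matrix (Fin n) (Fin n) Ω} {j : Fin (r + 1)}
    (hg : SU C.alt (g j)) : SU C.alt (A.sec y g j) := by
  obtain ⟨h1, h2⟩ := (y.2 j).map (algebraMap k Ω)
  refine ⟨((A.au.map (algebraMap k Ω)).mul_isU hg.1).mul_au h1, ?_⟩
  have e := congrArg det (CFr_mul A Ω)
  rw [det_mul, det_one] at e
  rw [CD.Anti.sec, det_mul, det_mul, hg.2, mul_one, h2, RingHom.map_det]
  exact e

theorem CD.Anti.symm_rev (j : Fin (r + 1)) (a : Fin n) :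
    (y.1.1 j).symm a.rev = ((y.1.1 j).symm a).rev :=
  (y.2 j).1.nu_symm_rev a

theorem CD.Anti.sec_act {R : Type u} [CommRing R] [Algebra k R] (γ : C.Γ)
    (g : Fin (r + 1) → Matrix (Fin n) (Fin n) R) (j : Fin (r + 1)) :
    A.sec y (fun j => γ.1.1.map (algebraMap k R) * g j) j =
      (A.θ γ).1.1.map (algebraMap k R) * A.sec y g j := by
  rw [A.θ_val, Units.val_mul, Units.val_mul, Matrix.map_mul, Matrix.map_mul]
  simp only [CD.Anti.sec, mul_assoc]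
  rw [← mul_assoc (A.η⁻¹.1.map _), CFr_inv, one_mul]

theorem CD.Anti.evs_pt {R : Type u} [CommRing R] [Algebra k R] (h : CS r n → R) :
    evs h (A.pt c y (X : CS r n → MvPolynomial (CS r n) k)) = A.pt c y h := by
  have e : evs h (plV c (A.sec y (cM (X : CS r n → MvPolynomial (CS r n) k)))) =
      plV c (A.sec y (cM h)) :=
    (plV_map c (aeval (R := k) h) _).trans (congrArg (plV c) (funext fun j => by
      rw [CD.Anti.sec, Matrix.map_mul, Matrix.map_mul, nu_map, cM_evs, CD.Anti.sec,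
        Matrix.map_map]
      congr 3
      funext a
      simp))
  funext ⟨i, s⟩
  cases i with
  | inl i => exact congrFun (evs_plV_cM c h) ⟨i, s⟩
  | inr i => exact congrFun e ⟨i, s⟩

theorem CFr_adj {g : Fin (r + 1) → Matrix (Fin n) (Fin n) Ω} {j : Fin (r + 1)}
    (hg : SU C.alt (g j)) : adj C.alt (A.sec y g j) =
      (nu Ω (y.1.1 j) (y.1.2 j))ᵀ * adj C.alt (g j) * A.η⁻¹.1.map (algebraMap k Ω) := by
  refine (left_inv_eq_right_inv ?_ (A.su_sec y hg).1.mul_adj).symm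
  simp only [CD.Anti.sec, mul_assoc]
  rw [← mul_assoc (A.η⁻¹.1.map _), CFr_inv, one_mul, ← mul_assoc (adj _ _), hg.1.adj_mul, one_mul]
  exact mul_eq_one_comm.1 (nu_mul_transpose _ _)

theorem CFr_nx (g : Fin (r + 1) → Matrix (Fin n) (Fin n) Ω) (j : Fin (r + 1)) :
    ∃ D, nxC C.t C.q (A.sec y g) j =
      A.η.1.map (algebraMap k Ω) * nxC C.t C.q g j * nu Ω (nyC C.t y.1.1 j) D := by
  have := PQ.ext k C.q Ω
  refine Fin.lastCases ?_ (fun j => ?_) j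
  · refine ⟨fun b => y.1.2 0 (sw n C.t b), ?_⟩
    rw [nxC_last, nxC_last, nyC_last, CD.Anti.sec, frC_mul, frC_mul, C.frC_map A.fr, frC_nu]
  · refine ⟨y.1.2 j.succ, ?_⟩
    rw [nxC_castSucc, nxC_castSucc, nyC_castSucc, CD.Anti.sec]

theorem CFr_dd {g : Fin (r + 1) → Matrix (Fin n) (Fin n) Ω} {j : Fin (r + 1)}
    (hg : SU C.alt (g j)) (a b : Fin n) : ddC C.alt C.t C.q (A.sec y g) j a b = 0 ↔
      ddC C.alt C.t C.q g j (y.1.1 j a) (nyC C.t y.1.1 j b) = 0 := by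
  obtain ⟨D, hD⟩ := CFr_nx A y g j
  have e : ddC C.alt C.t C.q (A.sec y g) j =
      (nu Ω (y.1.1 j) (y.1.2 j))ᵀ * ddC C.alt C.t C.q g j * nu Ω (nyC C.t y.1.1 j) D := by
    rw [ddC, ddC, hD, CFr_adj A y hg]
    simp only [mul_assoc]
    rw [← mul_assoc (A.η⁻¹.1.map _), CFr_inv, one_mul]
  rw [e, nu_conj_apply]
  split_ifs <;> simp

theorem CD.Anti.fr_iff : (C.fr (zC C.t w y.1.1)).Fr h ↔
    C.Ch w (cM h) ∧ C.Ch w (A.sec y (cM h)) := by
  rw [C.fr_iff]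
  constructor
  · rintro ⟨h1, h2⟩
    refine ⟨⟨h1, fun j a b hab => h2 j a b (Or.inl hab)⟩, fun j => A.su_sec y (h1 j),
      fun j a b hab => (CFr_dd A y (h1 j) a b).2 (h2 j _ _ (Or.inr ?_))⟩
    rwa [Equiv.symm_apply_apply, Equiv.symm_apply_apply]
  · rintro ⟨⟨h1, h2⟩, -, h3⟩
    refine ⟨h1, fun j a b hz => hz.elim (fun hab => h2 j hab) fun hab => ?_⟩
    have := (CFr_dd A y (h1 j) _ _).1 (h3 j hab)
    rwa [Equiv.apply_symm_apply, Equiv.apply_symm_apply] at this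

theorem CD.Anti.parOn_pt (h1 : ∀ j, SU C.alt (cM h j)) (h2 : ∀ j, SU C.alt (cM h' j)) :
    ParOn univ (A.pt c y h) (A.pt c y h') ↔
      ∀ j, Sg C.alt Fin.val (Fin.val ∘ (y.1.1 j).symm) (adj C.alt (cM h j) * cM h' j) := by
  rw [CD.Anti.pt, CD.Anti.pt, parOn_pvJoin,
    parOn_plV c (fun j => (h1 j).1.isUnit) (fun j => (h2 j).1.isUnit),
    parOn_plV c (fun j => (A.su_sec y (h1 j)).1.isUnit) (fun j => (A.su_sec y (h2 j)).1.isUnit),
    ← forall_and]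
  refine forall_congr' fun j => ?_
  rw [CD.Anti.sec, CD.Anti.sec, mul_assoc, mul_assoc, rl_mul_left (CFr_unit A Ω),
    rl_nu_nu (h1 j).1.isUnit, Rl, (h1 j).1.inv_eq]
  exact (and_iff_right ((h1 j).adj.mul (h2 j))).symm

theorem CD.Anti.fr_mk (hw : C.Ok w) {g g' H : Fin (r + 1) → Matrix (Fin n) (Fin n) Ω}
    (hg : C.Ch w g) (hg' : C.Ch w g') (hH : ∀ j, SU C.alt (H j))
    (h1 : ∀ j, Rl Fin.val (g j) (H j))
    (h2 : ∀ j, Rl Fin.val (A.η⁻¹.1.map (algebraMap k Ω) * g' j) ((H j).submatrix id (y.1.1 j))) :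
    (C.fr (zC C.t w y.1.1)).Fr (mkC H) ∧
      ParOn univ (A.pt c y (mkC H)) (pvJoin (plV c g) (plV c g')) := by
  have s : ∀ j, Rl Fin.val (g' j) (A.sec y H j) := fun j => by
    have u : IsUnit (A.η⁻¹.1.map (algebraMap k Ω) * g' j) :=
      (IsUnit.of_mul_eq_one _ (CFr_inv A Ω)).mul (hg'.1 j).1.isUnit
    have := (rl_mul_left (CFr_unit A Ω)).2 ((rl_mul_nu u _ (y.1.2 j)).2 (h2 j))
    rwa [← mul_assoc, CFr_mul, one_mul, ← mul_assoc] at this
  have u := fun j => (hH j).1.isUnit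
  have u' := fun j => (A.su_sec y (hH j)).1.isUnit
  exact ⟨(A.fr_iff y).2 ⟨hg.congr hw hH h1, hg'.congr hw (fun j => A.su_sec y (hH j)) s⟩,
    parOn_pvJoin.2 ⟨(parOn_plV c u fun j => (hg.1 j).1.isUnit).2 fun j =>
        (h1 j).symm (hg.1 j).1.isUnit (u j),
      (parOn_plV c u' fun j => (hg'.1 j).1.isUnit).2 fun j =>
        (s j).symm (hg'.1 j).1.isUnit (u' j)⟩⟩

theorem CFr_move (hw : C.Ok w) (hh : (C.fr (zC C.t w y.1.1)).Fr h)
    {m : Fin (r + 1) → Matrix (Fin n) (Fin n) Ω}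
    (hm : ∀ j, Sg C.alt Fin.val (Fin.val ∘ (y.1.1 j).symm) (m j))
    (he : ∀ j, cM h' j = cM h j * m j) :
    (C.fr (zC C.t w y.1.1)).Fr h' ∧ ParOn univ (A.pt c y h) (A.pt c y h') := by
  obtain ⟨c1, c2⟩ := (A.fr_iff y).1 hh
  have e : ∀ j, SU C.alt (cM h' j) := fun j => by
    rw [he]
    exact (c1.1 j).mul (hm j).1
  have p : ParOn univ (A.pt c y h) (A.pt c y h') := (A.parOn_pt c y c1.1 e).2 fun j => by
    rw [he, ← mul_assoc, (c1.1 j).1.adj_mul, one_mul]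
    exact hm j
  obtain ⟨p1, p2⟩ := parOn_pvJoin.1 p
  have e' : ∀ j, SU C.alt (A.sec y (cM h') j) := fun j => A.su_sec y (e j)
  have d1 : C.Ch w (cM h') := c1.congr hw e
    ((parOn_plV c (fun j => (c1.1 j).1.isUnit) fun j => (e j).1.isUnit).1 p1)
  have d2 : C.Ch w (A.sec y (cM h')) := c2.congr hw e'
    ((parOn_plV c (fun j => (c2.1 j).1.isUnit) fun j => (e' j).1.isUnit).1 p2)
  exact ⟨(A.fr_iff y).2 ⟨d1, d2⟩, p⟩

theorem CD.Anti.fr_move (hw : C.Ok w) (hh : (C.fr (zC C.t w y.1.1)).Fr h)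
    {m : Fin (r + 1) → Matrix (Fin n) (Fin n) Ω}
    (hm : ∀ j, Sg C.alt Fin.val (Fin.val ∘ (y.1.1 j).symm) (m j)) :
    (C.fr (zC C.t w y.1.1)).Fr (mkC fun j => cM h j * m j) ∧
      ParOn univ (A.pt c y h) (A.pt c y (mkC fun j => cM h j * m j)) :=
  CFr_move c A y hw hh hm fun j => congrFun (cM_mkC fun j => cM h j * m j) j

end Pool.Agent.MP_0c8446_ag
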