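import Pool.Agent.MP_0c8446_ag.CL.Rat
import Pool.Agent.MP_0c8446_ag.DL.FixG

namespace Pool.Agent.MP_0c8446_ag

open MvPolynomial Set Matrix

universe u v w

section aux

variable {Ω : Type u} [Field Ω] {n q : ℕ} {alt t : Bool}

/-- The permutation matrix of the graph automorphism. -/
def CLang_P (Ω : Type u) [Field Ω] (n : ℕ) (t : Bool) : Matrix (Fin n) (Fin n) Ω :=
  (1 : Matrix (Fin n) (Fin n) Ω).submatrix (sw n t) id

lemma CLang_P_mul (x : Matrix (Fin n) (Fin n) Ω) :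
    CLang_P Ω n t * x = x.submatrix (sw n t) id := by
  ext a b
  simp [CLang_P, Matrix.mul_apply, Matrix.one_apply]

lemma CLang_P_symm : (CLang_P Ω n t)ᵀ = CLang_P Ω n t := by
  ext a b
  have : sw n t b = a ↔ sw n t a = b :=
    ⟨fun h => by rw [← h, sw_sw], fun h => by rw [← h, sw_sw]⟩
  simp [CLang_P, Matrix.one_apply, this]

lemma CLang_mul_P (x : Matrix (Fin n) (Fin n) Ω) :
    x * CLang_P Ω n t = x.submatrix id (sw n t) := by
  have h := congrArg transpose (CLang_P_mul (t := t) xᵀ)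
  rw [transpose_mul, CLang_P_symm, transpose_transpose] at h
  exact h

lemma CLang_P_sq : CLang_P Ω n t * CLang_P Ω n t = 1 := by
  rw [CLang_P_mul]
  ext a b
  change (1 : Matrix (Fin n) (Fin n) Ω) (sw n t (sw n t a)) b = _
  rw [sw_sw]

lemma CLang_conj (x : Matrix (Fin n) (Fin n) Ω) :
    CLang_P Ω n t * x * CLang_P Ω n t = x.submatrix (sw n t) (sw n t) := by
  rw [CLang_P_mul, CLang_mul_P]
  rfl

lemma CLang_P_isU (ht : alt = true → t = false) : IsU alt (CLang_P Ω n t) := by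
  rw [IsU, CLang_P_symm, CLang_conj, jM_sw ht]

lemma CLang_frC (g : Matrix (Fin n) (Fin n) Ω) :
    frC t q g = CLang_P Ω n t * g.map (· ^ q) * CLang_P Ω n t := (CLang_conj _).symm

lemma CLang_map_mul [PQ Ω q] (x y : Matrix (Fin n) (Fin n) Ω) :
    (x * y).map (· ^ q) = x.map (· ^ q) * y.map (· ^ q) :=
  Matrix.map_mul (f := frobHom Ω q)

lemma CLang_map_one [PQ Ω q] : (1 : Matrix (Fin n) (Fin n) Ω).map (· ^ q) = 1 :=
  Matrix.map_one (frobHom Ω q) (map_zero _) (map_one _)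

lemma CLang_map_jM [PQ Ω q] : (jM Ω alt n).map (· ^ q) = jM Ω alt n := jM_map (frobHom Ω q)

lemma CLang_det [PQ Ω q] (x : Matrix (Fin n) (Fin n) Ω) : (x.map (· ^ q)).det = x.det ^ q :=
  ((frobHom Ω q).map_det x).symm

lemma CLang_gram (ev : Ev alt n) (x : Matrix (Fin n) (Fin n) Ω) :
    (xᵀ * jM Ω alt n * x)ᵀ = eps Ω alt • (xᵀ * jM Ω alt n * x) := by
  rw [transpose_mul, transpose_mul, transpose_transpose, jM_transpose ev, smul_mul_assoc,
    mul_smul_comm, mul_assoc]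

lemma CLang_unit {x : Matrix (Fin n) (Fin n) Ω} (hx : IsUnit x) : IsUnit (xᵀ * jM Ω alt n * x) :=
  (((Matrix.isUnit_transpose x).2 hx).mul (IsUnit.of_mul_eq_one _ jM_mul_transpose)).mul hx

lemma CLang_isU {A γ b c : Matrix (Fin n) (Fin n) Ω} (hcb : c * b = 1)
    (h : γᵀ * (Aᵀ * jM Ω alt n * A) * γ = cᵀ * jM Ω alt n * c) : IsU alt (A * γ * b) := by
  unfold IsU
  calc (A * γ * b)ᵀ * jM Ω alt n * (A * γ * b)
      = bᵀ * (γᵀ * (Aᵀ * jM Ω alt n * A) * γ) * b := by simp only [transpose_mul, mul_assoc]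
    _ = (c * b)ᵀ * jM Ω alt n * (c * b) := by rw [h]; simp only [transpose_mul, mul_assoc]
    _ = _ := by rw [hcb, transpose_one, one_mul, mul_one]

/-- Lang's theorem up to the determinant. -/
lemma CLang_main [IsAlgClosed Ω] [PQ Ω q] (two : (2 : Ω) ≠ 0) (ev : Ev alt n)
    (ht : alt = true → t = false) {m : Matrix (Fin n) (Fin n) Ω} (hm : SU alt m) :
    ∃ a, IsU alt a ∧ frC t q a = a * m := by
  obtain ⟨A, hA, hA1, hA2, -⟩ := exists_twist (Ω := Ω) (q := q) (n := n) ht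
  have hu : IsU alt (m * CLang_P Ω n t) := hm.1.mul (CLang_P_isU ht)
  obtain ⟨b, hb, -, hb1⟩ := exists_lang (uni := false) (q := q) isUnit_one (map_one _) hu.isUnit
    (by rw [mul_one, one_mul])
  have hb2 : b.map (· ^ q) = b * (m * CLang_P Ω n t) := hb1
  obtain ⟨c, hbc⟩ := hb.exists_right_inv
  have hcb : c * b = 1 := mul_eq_one_comm.1 hbc
  have hc : IsUnit c := IsUnit.of_mul_eq_one _ hcb
  have hc1 : c.map (· ^ q) = adj alt (m * CLang_P Ω n t) * c := by
    have e : b.map (· ^ q) * c.map (· ^ q) = 1 := by rw [← CLang_map_mul, hbc, CLang_map_one]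
    rw [hb2] at e
    calc c.map (· ^ q) = adj alt (m * CLang_P Ω n t) * (c * b) * (m * CLang_P Ω n t) *
          c.map (· ^ q) := by rw [hcb, mul_one, hu.adj_mul, one_mul]
      _ = adj alt (m * CLang_P Ω n t) * c * (b * (m * CLang_P Ω n t) * c.map (· ^ q)) := by
          simp only [mul_assoc]
      _ = _ := by rw [e, mul_one]
  have hc2 : (cᵀ * jM Ω alt n * c).map (· ^ q) = cᵀ * jM Ω alt n * c := by
    rw [CLang_map_mul, CLang_map_mul, CLang_map_jM, transpose_map, hc1]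
    conv_rhs => rw [← hu.adj]
    simp only [transpose_mul, mul_assoc]
  have hA0 : A.det ≠ 0 := ((Matrix.isUnit_iff_isUnit_det A).1 hA).ne_zero
  have hP0 : (CLang_P Ω n t).det ≠ 0 :=
    ((Matrix.isUnit_iff_isUnit_det _).1 (CLang_P_isU ht).isUnit).ne_zero
  have hd : (c.det / A.det) ^ q = c.det / A.det := by
    rw [div_pow, ← CLang_det, ← CLang_det, hc1, hA1, ← CLang_P_mul, det_mul, det_adj, det_mul,
      hm.2, one_mul, det_mul, mul_div_mul_left _ _ hP0]
  obtain ⟨γ, hγ, hγ'⟩ := rat_congr (q := q) two (CLang_unit hA) (CLang_gram ev A) hA2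
    (CLang_unit hc) (CLang_gram ev c) hc2 hd (by
      simp only [det_mul, det_transpose]
      field_simp)
  refine ⟨A * γ * b, CLang_isU hcb hγ', ?_⟩
  rw [CLang_frC, CLang_map_mul, CLang_map_mul, hγ, hb2, hA1, ← CLang_P_mul]
  calc CLang_P Ω n t * (CLang_P Ω n t * A * γ * (b * (m * CLang_P Ω n t))) * CLang_P Ω n t
      = CLang_P Ω n t * CLang_P Ω n t * (A * γ * b * m) * (CLang_P Ω n t * CLang_P Ω n t) := by
        simp only [mul_assoc]
    _ = _ := by rw [CLang_P_sq, one_mul, mul_one]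

end aux

variable {k : Type u} [Field k] {n : ℕ} (C : CD k n) {Ω : Type u} [Field Ω] [Algebra k Ω]

theorem CD.two' (C : CD k n) (Ω : Type u) [Field Ω] [Algebra k Ω] : (2 : Ω) ≠ 0 := by
  have h := (map_ne_zero (algebraMap k Ω)).2 C.two
  rwa [map_ofNat] at h

theorem frC_frC {R : Type u} [CommRing R] (t : Bool) (q : ℕ) (g : Matrix (Fin n) (Fin n) R) :
    frC t q (frC t q g) = g.map (· ^ q ^ 2) := by
  ext a b
  simp only [frC, submatrix_apply, map_apply, sw_sw, ← pow_mul, sq]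

lemma CLang_root {R : Type u} [CommRing R] {t : Bool} {q : ℕ} {g : Matrix (Fin n) (Fin n) R}
    (h : frC t q g = g) (a b : Fin n) : g a b ^ q ^ 2 = g a b := by
  have h1 := frC_frC t q g
  rw [h, h] at h1
  exact (congrFun (congrFun h1 a) b).symm

theorem CD.finite_Γ : Finite C.Γ := by
  have h1 : {x : k | (Polynomial.X ^ C.q ^ 2 - Polynomial.X : Polynomial k).IsRoot x}.Finite :=
    Polynomial.finite_setOfPred_isRoot (FixG_ne k C.q)
  have := h1.to_subtype
  refine Finite.of_injective (fun (g : C.Γ) (a b : Fin n) =>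
    (⟨g.1.1 a b, by
      simp [Polynomial.IsRoot, CLang_root (C.mem_Γ.1 g.2).2]⟩ :
      {x : k | (Polynomial.X ^ C.q ^ 2 - Polynomial.X : Polynomial k).IsRoot x})) fun g g' h => ?_
  refine Subtype.ext (Units.ext (Matrix.ext fun a b => ?_))
  exact congrArg Subtype.val (congrFun (congrFun h a) b)

/-- The finite group does not depend on the algebraically closed field. -/
theorem CD.exists_Γ [IsAlgClosed k] {g : Matrix (Fin n) (Fin n) Ω} (hg : SU C.alt g)
    (h : frC C.t C.q g = g) : ∃ γ : C.Γ, γ.1.1.map (algebraMap k Ω) = g := by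
  have h1 : ∀ a b, ∃ x, algebraMap k Ω x = g a b := fun a b =>
    (IsAlgClosed.splits _).mem_range_of_isRoot (FixG_ne k C.q) (i := algebraMap k Ω) (by
      simp [Polynomial.IsRoot, CLang_root h])
  choose g₀ hg₀ using h1
  have h2 : (Matrix.of g₀).map (algebraMap k Ω) = g := Matrix.ext hg₀
  have hi := (algebraMap k Ω).injective
  have h3 : IsU C.alt (Matrix.of g₀) := isU_iff.2 (Matrix.map_injective hi (by
    change (adj C.alt (Matrix.of g₀) * Matrix.of g₀).map (algebraMap k Ω) =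
      (1 : Matrix (Fin n) (Fin n) k).map (algebraMap k Ω)
    rw [Matrix.map_mul, adj_map, h2, hg.1.adj_mul, Matrix.map_one _ (map_zero _) (map_one _)]))
  have h4 : (Matrix.of g₀).det = 1 := hi (by
    rw [RingHom.map_det, RingHom.mapMatrix_apply, h2, hg.2, map_one])
  refine ⟨⟨h3.isUnit.unit, C.mem_Γ.2 ⟨⟨h3, h4⟩, Matrix.map_injective hi ?_⟩⟩, h2⟩
  change (frC C.t C.q (Matrix.of g₀)).map (algebraMap k Ω) = (Matrix.of g₀).map _
  rw [MP_0c8446_ag.frC_map, h2, h]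

/-- The Lang map is finite. -/
theorem CD.mem_of_lang {Ω' : Type u} [Field Ω'] [Algebra k Ω'] (Pl : Place k Ω Ω')
    {a m : Matrix (Fin n) (Fin n) Ω} (h : frC C.t C.q a = a * m) (hm : ∀ c d, m c d ∈ Pl.O) :
    ∀ c d, a c d ∈ Pl.O := by
  have := PQ.ext k C.q Ω
  have hQ : IsQ Ω (C.q ^ 2) := isQ_pow Ω C.q two_pos
  have e : a.map (· ^ C.q ^ 2) = a * (m * frC C.t C.q m) := by
    rw [← frC_frC C.t, h, frC_mul, h, mul_assoc]
  refine Pl.mem_of_pow_eq hQ.one_lt e fun c d => ?_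
  rw [Matrix.mul_apply]
  exact Pl.O.sum_mem fun i _ => Pl.O.mul_mem (hm _ _) (Pl.O.pow_mem (hm _ _) _)

theorem CD.exists_refl (C : CD k n) (Ω : Type u) [Field Ω] [Algebra k Ω] [IsAlgClosed Ω]
    (h : C.alt = false) :
    ∃ ρ : Matrix (Fin n) (Fin n) Ω, IsU C.alt ρ ∧ ρ.det = -1 ∧ frC C.t C.q ρ = ρ := by
  have := PQ.ext k C.q Ω
  obtain ⟨A, hA, -, hA2, hA3⟩ := exists_twist (Ω := Ω) (q := C.q) (n := n) C.ht
  have hs := CLang_gram C.ev A
  have he : eps Ω C.alt = 1 := by simp [eps, h]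
  rw [he, one_smul] at hs
  obtain ⟨ρ, h1, h2, h3⟩ := rat_refl (q := C.q) (C.two' Ω) C.pos hs hA2
  have hd := (Matrix.isUnit_iff_isUnit_det A).1 hA
  have hl : A⁻¹ * A = 1 := Matrix.nonsing_inv_mul A hd
  have hr : A * A⁻¹ = 1 := Matrix.mul_nonsing_inv A hd
  refine ⟨A * ρ * A⁻¹, CLang_isU hr h2, ?_, ?_⟩
  · rw [det_mul, det_mul, mul_right_comm, ← det_mul, hr, det_one, one_mul, h3]
  · have h4 := hA3 (A * ρ * A⁻¹)
    have h5 : A⁻¹ * (A * ρ * A⁻¹) * A = ρ := by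
      calc A⁻¹ * (A * ρ * A⁻¹) * A = A⁻¹ * A * ρ * (A⁻¹ * A) := by simp only [mul_assoc]
        _ = ρ := by rw [hl, one_mul, mul_one]
    rw [h5, h1] at h4
    calc frC C.t C.q (A * ρ * A⁻¹)
        = A * A⁻¹ * frC C.t C.q (A * ρ * A⁻¹) * (A * A⁻¹) := by rw [hr, one_mul, mul_one]
      _ = A * (A⁻¹ * frC C.t C.q (A * ρ * A⁻¹) * A) * A⁻¹ := by simp only [mul_assoc]
      _ = _ := by rw [← h4]

/-- Lang's theorem. -/
theorem CD.exists_lang [IsAlgClosed Ω] {m : Matrix (Fin n) (Fin n) Ω} (hm : SU C.alt m) :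
    ∃ a, SU C.alt a ∧ frC C.t C.q a = a * m := by
  have := PQ.ext k C.q Ω
  obtain ⟨a, ha, h⟩ := CLang_main (q := C.q) (C.two' Ω) C.ev C.ht hm
  rcases mul_self_eq_one_iff.1 ha.det_sq with h1 | h1
  · exact ⟨a, ⟨ha, h1⟩, h⟩
  · cases hC : C.alt
    · obtain ⟨ρ, h2, h3, h4⟩ := C.exists_refl Ω hC
      rw [← hC]
      exact ⟨ρ * a, ⟨h2.mul ha, by rw [det_mul, h3, h1]; simp⟩, by
        rw [frC_mul, h4, h, mul_assoc]⟩
    · rw [hC] at ha
      exact ⟨a, ha.su_of_alt (C.two' Ω) (C.ev hC), h⟩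

end Pool.Agent.MP_0c8446_ag
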