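import Pool.Agent.MP_0c8446_ag.CL.AdjA
import Pool.Agent.MP_0c8446_ag.DL.IwaA

namespace Pool.Agent.MP_0c8446_ag

open MvPolynomial Set Matrix

universe u v w

variable {k : Type u} [Field k] {Ω : Type u} [Field Ω] [Algebra k Ω] {n : ℕ} {alt : Bool}

lemma Fix_aeval (S : Matrix (Fin n) (Fin n) Ω → Prop) {T : Matrix (Fin n) (Fin n) Ω}
    (ha : ∀ x y, S x → S y → S (x + y)) (hs : ∀ (c : k) x, S x → S (algebraMap k Ω c • x))
    (hp : ∀ m : ℕ, S (T ^ m)) (P : Polynomial k) : S (Polynomial.aeval T P) := by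
  induction P using Polynomial.induction_on' with
  | add p q hp' hq' => rw [map_add]; exact ha _ _ hp' hq'
  | monomial m c =>
    rw [Polynomial.aeval_monomial, ← Algebra.smul_def, ← algebraMap_smul Ω c]
    exact hs _ _ (hp m)

lemma Fix_one {Ω' : Type u} [Field Ω'] [Algebra k Ω'] (Pl : Place k Ω Ω') (a b : Fin n) :
    (1 : Matrix (Fin n) (Fin n) Ω) a b ∈ Pl.O := by
  rw [Matrix.one_apply]
  split_ifs
  exacts [one_mem _, zero_mem _]

lemma Fix_diag {Ω' : Type u} [Field Ω'] [Algebra k Ω'] (Pl : Place k Ω Ω') {d : Fin n → Ω}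
    (hd : ∀ a, d a ∈ Pl.O) (a b : Fin n) : diagonal d a b ∈ Pl.O := by
  rw [Matrix.diagonal_apply]
  split_ifs
  exacts [hd a, zero_mem _]

lemma Fix_d [IsAlgClosed Ω] {e : Fin n → Ω} (h0 : ∀ a, e a ≠ 0) (hr : ∀ a, e a.rev = e a) :
    ∃ d : Fin n → Ω, (∀ a, d a.rev * e a * d a = 1) ∧
      ∀ a, d a = (e a)⁻¹ ∨ d a = 1 ∨ d a ^ 2 = (e a)⁻¹ := by
  choose r hr' using fun a => IsAlgClosed.exists_pow_nat_eq (e a)⁻¹ (n := 2) (by norm_num)
  refine ⟨fun a => if a < a.rev then (e a)⁻¹ else if a.rev < a then 1 else r a, fun a => ?_,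
    fun a => ?_⟩
  · simp only [Fin.rev_rev]
    rcases lt_trichotomy a a.rev with h | h | h
    · rw [if_neg h.not_gt, if_pos h, if_pos h, one_mul, mul_inv_cancel₀ (h0 a)]
    · rw [← h, if_neg (lt_irrefl a), if_neg (lt_irrefl a), mul_right_comm, ← sq, hr',
        inv_mul_cancel₀ (h0 a)]
    · rw [if_pos h, if_neg h.not_gt, if_pos h, hr, mul_one, inv_mul_cancel₀ (h0 a)]
  · dsimp only
    split_ifs
    exacts [Or.inl rfl, Or.inr (Or.inl rfl), Or.inr (Or.inr (hr' a))]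

/-- The inverse square root of `1 + X` modulo a power of `X`. -/
theorem exists_invSqrt (two : (2 : k) ≠ 0) (N : ℕ) :
    ∃ P : Polynomial k, Polynomial.X ^ N ∣ P ^ 2 * (1 + Polynomial.X) - 1 := by
  have key : ∀ N : ℕ, ∃ P : Polynomial k,
      Polynomial.X ^ (N + 1) ∣ P ^ 2 * (1 + Polynomial.X) - 1 := fun N => by
    induction N with
    | zero => exact ⟨1, 1, by ring⟩
    | succ N ih =>
      obtain ⟨P, hP⟩ := ih
      have hh : (Polynomial.C (2⁻¹ : k)) * 2 = 1 := by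
        rw [← map_ofNat Polynomial.C 2, ← map_mul, inv_mul_cancel₀ two, map_one]
      generalize Polynomial.C (2⁻¹ : k) = h at hh
      obtain ⟨E, hE⟩ : ∃ E, E = P ^ 2 * (1 + Polynomial.X) - 1 := ⟨_, rfl⟩
      rw [← hE] at hP
      refine ⟨P * (1 - h * E), ?_⟩
      have e : (P * (1 - h * E)) ^ 2 * (1 + Polynomial.X) - 1 = E * E * (h ^ 2 * (1 + E) - 1) := by
        linear_combination (-(1 - h * E) ^ 2) * hE - (1 + E) * E * hh
      rw [e]
      refine Dvd.dvd.mul_right ?_ _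
      rw [pow_succ]
      exact mul_dvd_mul hP ((dvd_pow_self _ N.succ_ne_zero).trans hP)
  obtain ⟨P, hP⟩ := key N
  exact ⟨P, (pow_dvd_pow _ N.le_succ).trans hP⟩

/-- A triangular Gram matrix can be normalised inside the triangular matrices. -/
theorem exists_fix [IsAlgClosed Ω] (two : (2 : k) ≠ 0) (ev : Ev alt n) {o b₂ : Fin n → ℕ}
    (ho : Function.Injective o) (hs : SymP o) {s : Matrix (Fin n) (Fin n) Ω} (hu : IsUnit s)
    (ha : adj alt s = s) (h1 : s.BlockTriangular o) (h2 : s.BlockTriangular b₂) :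
    ∃ c : Matrix (Fin n) (Fin n) Ω, c.BlockTriangular o ∧ c.BlockTriangular b₂ ∧
      adj alt c * s * c = 1 ∧ ∀ (Ω' : Type u) [Field Ω'] [Algebra k Ω'] (Pl : Place k Ω Ω'),
        Pl.IG s → ∀ a b, c a b ∈ Pl.O := by
  have h0 : ∀ a, s a a ≠ 0 := fun a => by
    have := ((Matrix.isUnit_iff_isUnit_det s).1 hu).ne_zero
    rw [bt_det ho h1] at this
    exact Finset.prod_ne_zero_iff.1 this a (Finset.mem_univ a)
  have hr : ∀ a, s a.rev a.rev = s a a := fun a => by rw [← adj_apply_self (alt := alt) s a, ha]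
  obtain ⟨d, hd, hd'⟩ := Fix_d (e := fun a => s a a) h0 hr
  obtain ⟨T, hT⟩ : ∃ T, T = adj alt (diagonal d) * s * diagonal d - 1 := ⟨_, rfl⟩
  have hTa : adj alt T = T := by
    rw [hT, adj_sub, adj_one, adj_mul, adj_mul, adj_adj ev, ha, mul_assoc]
  have hTb : ∀ b : Fin n → ℕ, s.BlockTriangular b → T.BlockTriangular b := fun b hb => by
    rw [hT, adj_diagonal]
    exact (((blockTriangular_diagonal _).mul hb).mul (blockTriangular_diagonal _)).sub
      blockTriangular_one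
  have hT0 : ∀ a, T a a = 0 := fun a => by
    rw [hT, adj_diagonal, Matrix.sub_apply, mul_diagonal, diagonal_mul, one_apply_eq, hd, sub_self]
  have hn : T ^ n = 0 := bt_pow_eq_zero ho (hTb o h1) hT0
  obtain ⟨P, Q, hP⟩ := exists_invSqrt two n
  have hU : ∀ b : Fin n → ℕ, s.BlockTriangular b →
      (diagonal d * Polynomial.aeval T P).BlockTriangular b := fun b hb =>
    (blockTriangular_diagonal _).mul (Fix_aeval (fun x => x.BlockTriangular b)
      (fun _ _ hx hy => hx.add hy)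
      (fun c x hx i j hij => by rw [Matrix.smul_apply, hx hij, smul_zero])
      (fun m => (hTb b hb).pow m) P)
  have hUa : adj alt (Polynomial.aeval T P) = Polynomial.aeval T P :=
    Fix_aeval (fun x => adj alt x = x) (fun _ _ hx hy => by rw [adj_add, hx, hy])
      (fun c x hx => by rw [adj_smul, hx]) (fun m => by rw [adj_pow, hTa]) P
  refine ⟨diagonal d * Polynomial.aeval T P, hU o h1, hU b₂ h2, ?_, fun Ω' _ _ Pl hs' => ?_⟩
  · have e : P * (1 + Polynomial.X) * P = 1 + Polynomial.X ^ n * Q := by linear_combination hP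
    have e' := congrArg (Polynomial.aeval T) e
    simp only [map_mul, map_add, map_one, map_pow, Polynomial.aeval_X, hn, zero_mul,
      add_zero] at e'
    have e'' : 1 + T = adj alt (diagonal d) * s * diagonal d := by rw [hT, add_sub_cancel]
    rw [e''] at e'
    rw [adj_mul, hUa, ← e']
    simp only [mul_assoc]
  · have hb : (s.map Pl.red).BlockTriangular o := fun i j hij => by
      rw [Matrix.map_apply, h1 hij, Pl.red_zero]
    have hi : ∀ a, (s a a)⁻¹ ∈ Pl.O := fun a => by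
      have := ((Matrix.isUnit_iff_isUnit_det _).1 hs'.2).ne_zero
      rw [bt_det ho hb] at this
      exact Pl.inv_mem (hs'.1 a a) (Finset.prod_ne_zero_iff.1 this a (Finset.mem_univ a))
    have hdO : ∀ a, d a ∈ Pl.O := fun a => by
      rcases hd' a with h | h | h
      · exact h ▸ hi a
      · exact h ▸ one_mem _
      · exact Pl.mem_of_pow (r := 2) (by norm_num) (h ▸ hi a)
    have hTO : ∀ a b, T a b ∈ Pl.O := fun a b => by
      rw [hT, Matrix.sub_apply]
      exact sub_mem ((Pl.map_red_mul (Pl.map_red_mul (adj_mem Pl.O (Fix_diag Pl hdO)) hs'.1).1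
        (Fix_diag Pl hdO)).1 a b) (Fix_one Pl a b)
    refine (Pl.map_red_mul (Fix_diag Pl hdO) (Fix_aeval (fun x => ∀ a b, x a b ∈ Pl.O)
      (fun _ _ hx hy a b => add_mem (hx a b) (hy a b))
      (fun c x hx a b => mul_mem (Pl.O.algebraMap_mem c) (hx a b)) (fun m => ?_) P)).1
    induction m with
    | zero => rw [pow_zero]; exact Fix_one Pl
    | succ m ih => rw [pow_succ]; exact (Pl.map_red_mul ih hTO).1

theorem Place.ig_of_isU {Ω' : Type u} [Field Ω'] [Algebra k Ω'] (Pl : Place k Ω Ω')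
    {x : Matrix (Fin n) (Fin n) Ω} (h : IsU alt x) (hO : ∀ a b, x a b ∈ Pl.O) : Pl.IG x := by
  exact ⟨hO, Pl.isUnit_map_red hO (h.inv_eq ▸ adj_mem Pl.O hO) h.isUnit⟩

theorem Place.adj_red {Ω' : Type u} [Field Ω'] [Algebra k Ω'] (Pl : Place k Ω Ω')
    {x : Matrix (Fin n) (Fin n) Ω} (hO : ∀ a b, x a b ∈ Pl.O) :
    (adj alt x).map Pl.red = adj alt (x.map Pl.red) := by
  obtain ⟨x₀, rfl⟩ := Pl.Plc_lift hO
  rw [← adj_map Pl.O.val, Pl.Plc_map, Pl.Plc_map, adj_map Pl.π]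

theorem SU.red {Ω' : Type u} [Field Ω'] [Algebra k Ω'] (Pl : Place k Ω Ω')
    {x : Matrix (Fin n) (Fin n) Ω} (h : SU alt x) (hO : ∀ a b, x a b ∈ Pl.O) :
    SU alt (x.map Pl.red) := by
  refine ⟨isU_iff.2 ?_, by rw [← (Pl.red_det hO).2, h.2, Pl.red_one]⟩
  rw [← Pl.adj_red hO, ← (Pl.map_red_mul (adj_mem Pl.O hO) hO).2, h.1.adj_mul, Pl.Plc_one]

theorem AU.red {Ω' : Type u} [Field Ω'] [Algebra k Ω'] (Pl : Place k Ω Ω')
    {x : Matrix (Fin n) (Fin n) Ω} (h : AU alt x) (hO : ∀ a b, x a b ∈ Pl.O) :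
    Pl.IG x ∧ AU alt (x.map Pl.red) ∧ (x.map Pl.red).det = Pl.red x.det := by
  have e0 : (jM Pl.O alt n).map Pl.O.val = jM Ω alt n := jM_map Pl.O.val
  have hj : ∀ a b, jM Ω alt n a b ∈ Pl.O := fun a b => e0 ▸ (jM Pl.O alt n a b).2
  have e1 : (jM Ω alt n).map Pl.red = jM Ω' alt n := by rw [← e0, Pl.Plc_map, jM_map Pl.π]
  have hT : ∀ a b, xᵀ a b ∈ Pl.O := fun a b => hO b a
  have hA : AU alt (x.map Pl.red) := by
    have e := congrArg (fun z => z.map Pl.red) h
    simp only [(Pl.map_red_mul (Pl.map_red_mul hT hj).1 hO).2, (Pl.map_red_mul hT hj).2,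
      transpose_map, e1] at e
    exact e
  exact ⟨⟨hO, hA.isUnit⟩, hA, (Pl.red_det hO).2.symm⟩

end Pool.Agent.MP_0c8446_ag
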