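import Pool.Agent.MP_0c8446_ag.CL.Cbk
import Pool.Agent.MP_0c8446_ag.CL.Fix
import Pool.Agent.MP_0c8446_ag.CL.CLang
import Pool.Agent.MP_0c8446_ag.DL.GFr

namespace Pool.Agent.MP_0c8446_ag

open MvPolynomial Set Matrix

universe u v w

variable {k : Type u} [Field k] {Ω : Type u} [Field Ω] [Algebra k Ω] {n r : ℕ} {C : CD k n}
  {w : Fin r → ℕ × Bool} {g g' : Fin (r + 1) → Matrix (Fin n) (Fin n) Ω}
  {N : Fin n → ℕ} (c : ∀ a : Fin n, Fin (N a + 1) ≃ (Fin (a + 1) → Fin n))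

lemma CFrA_nxC_mul (C : CD k n) (g m : Fin (r + 1) → Matrix (Fin n) (Fin n) Ω) (j : Fin (r + 1)) :
    nxC C.t C.q (fun j => g j * m j) j = nxC C.t C.q g j * nxC C.t C.q m j := by
  have := PQ.ext k C.q Ω
  refine Fin.lastCases ?_ (fun j => ?_) j
  · rw [nxC_last, nxC_last, nxC_last, frC_mul]
  · rw [nxC_castSucc, nxC_castSucc, nxC_castSucc]

lemma CFrA_nxC_red {Ω' : Type u} [Field Ω'] [Algebra k Ω'] (Pl : Place k Ω Ω') {t : Bool} {q : ℕ}
    (hO : ∀ j a b, g j a b ∈ Pl.O) (j : Fin (r + 1)) : (∀ a b, nxC t q g j a b ∈ Pl.O) ∧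
      (nxC t q g j).map Pl.red = nxC t q (fun j => (g j).map Pl.red) j := by
  refine Fin.lastCases ?_ (fun j => ?_) j
  · rw [nxC_last, nxC_last]
    exact ⟨fun a b => pow_mem (hO 0 _ _) q, Matrix.ext fun a b => Pl.red_pow (hO 0 _ _) q⟩
  · rw [nxC_castSucc, nxC_castSucc]
    exact ⟨hO _, rfl⟩

lemma CFrA_ddC_red {Ω' : Type u} [Field Ω'] [Algebra k Ω'] (Pl : Place k Ω Ω') {alt t : Bool}
    {q : ℕ} (hO : ∀ j a b, g j a b ∈ Pl.O) (j : Fin (r + 1)) :
    (ddC alt t q g j).map Pl.red = ddC alt t q (fun j => (g j).map Pl.red) j := by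
  rw [ddC, (Pl.map_red_mul (adj_mem Pl.O (hO j)) (CFrA_nxC_red Pl hO j).1).2, Pl.adj_red (hO j),
    (CFrA_nxC_red Pl hO j).2, ddC]

theorem CD.su_nxC (h : ∀ j, SU C.alt (g j)) (j : Fin (r + 1)) : SU C.alt (nxC C.t C.q g j) := by
  have := PQ.ext k C.q Ω
  refine Fin.lastCases ?_ (fun j => ?_) j
  · rw [nxC_last]
    exact (h 0).frC C.ht
  · rw [nxC_castSucc]
    exact h _

theorem CD.su_ddC (h : ∀ j, SU C.alt (g j)) (j : Fin (r + 1)) :
    SU C.alt (ddC C.alt C.t C.q g j) := by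
  exact (h j).adj.mul (CD.su_nxC h j)

/-- The transition matrices after a change of frames. -/
theorem CD.ddC_mul_right (C : CD k n) (g m : Fin (r + 1) → Matrix (Fin n) (Fin n) Ω)
    (j : Fin (r + 1)) : ddC C.alt C.t C.q (fun j => g j * m j) j =
      adj C.alt (m j) * ddC C.alt C.t C.q g j * nxC C.t C.q m j := by
  rw [ddC, CFrA_nxC_mul, adj_mul, ddC]
  simp only [mul_assoc]

theorem CD.Ch.congr (hw : C.Ok w) (h : C.Ch w g) (hg' : ∀ j, SU C.alt (g' j))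
    (e : ∀ j, Rl Fin.val (g j) (g' j)) : C.Ch w g' := by
  have := PQ.ext k C.q Ω
  have two := C.two' Ω
  have hw' : C.alt = true → ∀ j, (w j).2 = false := fun ha j => (hw j).1 ha
  have hm : ∀ j, SU C.alt (adj C.alt (g j) * g' j) := fun j => (h.1 j).adj.mul (hg' j)
  have hb : ∀ j, (adj C.alt (g j) * g' j).BlockTriangular Fin.val := fun j => by
    rw [← (h.1 j).1.inv_eq]
    exact e j
  have e1 : g' = fun j => g j * (adj C.alt (g j) * g' j) := funext fun j => by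
    rw [← mul_assoc, (h.1 j).1.mul_adj, one_mul]
  refine ⟨hg', fun j => ?_⟩
  rw [e1, C.ddC_mul_right]
  refine (((hm j).adj.1.bt_blC two hw' (symP_val.adj (hb j)) j).mul (h.2 j)).mul ?_
  refine Fin.lastCases ?_ (fun j => ?_) j
  · rw [nxC_last, blC_last]
    exact (hm 0).1.bt_frC two C.ht (hb 0)
  · rw [nxC_castSucc]
    exact (hm _).1.bt_blC two hw' (hb _) _

theorem CD.Ch.mul (h : C.Ch w g) (γ : C.Γ) :
    C.Ch w fun j => γ.1.1.map (algebraMap k Ω) * g j := by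
  refine ⟨fun j => (γ.2.1.map _).mul (h.1 j), fun j => ?_⟩
  rw [C.ddC_mul γ g j]
  exact h.2 j

theorem CD.Ch.red {Ω' : Type u} [Field Ω'] [Algebra k Ω'] (Pl : Place k Ω Ω') (h : C.Ch w g)
    (hO : ∀ j a b, g j a b ∈ Pl.O) : C.Ch w fun j => (g j).map Pl.red := by
  refine ⟨fun j => (h.1 j).red Pl (hO j), fun j a b hab => ?_⟩
  rw [← CFrA_ddC_red Pl hO, Matrix.map_apply, h.2 j hab, Pl.red_zero]

theorem CD.fr_ch_iff {h : CS r n → Ω} :
    (C.fr fun j a b => blC n w j b < blC n w j a).Fr h ↔ C.Ch w (cM h) := by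
  rw [C.fr_iff]
  exact and_congr_right fun _ => forall_congr' fun j => ⟨fun H a b => H a b, fun H a b hab => H hab⟩

theorem CD.mem_cdl {x : MP k fun i : Fin (r + 1) × Fin n => N i.2} :
    x ∈ cdl k C.alt C.t C.q w c ↔ ∃ g, C.Ch w g ∧ IsRep (plV c g) x := by
  refine exists_congr fun g => ⟨fun ⟨h1, h2, h3, h4⟩ => ⟨⟨h1, fun j => ?_⟩, h4⟩,
    fun ⟨⟨h1, h2⟩, h4⟩ => ⟨h1, fun j => ?_, ?_, h4⟩⟩
  · have hi : ∀ j, (g j)⁻¹ = adj C.alt (g j) := fun j => IsU.inv_eq (h1 j).1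
    refine Fin.lastCases ?_ (fun j => ?_) j
    · rw [blC_last, ddC, nxC_last, ← hi]
      exact h3
    · rw [blC_castSucc, ddC, nxC_castSucc, ← hi]
      exact h2 j
  · have := h2 j.castSucc
    rwa [blC_castSucc, ddC, nxC_castSucc, ← (h1 _).1.inv_eq] at this
  · have := h2 (Fin.last r)
    rwa [blC_last, ddC, nxC_last, ← (h1 _).1.inv_eq] at this

theorem evs_plV_cM {R : Type u} [CommRing R] [Algebra k R] (h : CS r n → R) :
    evs h (plV c (cM (X : CS r n → MvPolynomial (CS r n) k))) = plV c (cM h) := by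
  exact (plV_map c (aeval (R := k) h) _).trans (congrArg (plV c) (funext (cM_evs h)))

end Pool.Agent.MP_0c8446_ag
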