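import Pool.Agent.MP_0c8446_ag.CL.CFrA
import Pool.Agent.MP_0c8446_ag.DL.GSt

namespace Pool.Agent.MP_0c8446_ag

open MvPolynomial Set Matrix

universe u v w

variable {k : Type u} [Field k] {n r : ℕ} (C : CD k n) (w : Fin r → ℕ × Bool) {N : Fin n → ℕ}
  (c : ∀ a : Fin n, Fin (N a + 1) ≃ (Fin (a + 1) → Fin n))

theorem CD.stab (γ : C.Γ) (x : cdl k C.alt C.t C.q w c) : ∃ y : cdl k C.alt C.t C.q w c,
    ∀ v, IsRep v x.1 →
      IsRep (blin (fun i : Fin (r + 1) × Fin n => plR k c i.2 (C.std γ)) v) y.1 := by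
  obtain ⟨G, hG, hx⟩ := (CD.mem_cdl c).1 x.2
  have h1 := hG.mul γ
  have h2 := amb_isRep _ (GSt_ne (nzb_plV c fun j => (h1.1 j).1.isUnit))
  refine ⟨⟨_, (CD.mem_cdl c).2 ⟨_, h1, h2⟩⟩, fun v hv => ((hx.parOn hv).blin _).isRep ?_⟩
  rw [← plV_mul]
  exact h2

/-- The Deligne-Lusztig variety with the action of the finite group. -/
noncomputable def CD.stage (h₁ : IsSub (cdl k C.alt C.t C.q w c))
    (h₂ : ∀ x ∈ cdl k C.alt C.t C.q w c, ∀ v, IsRep v x →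
      Module.finrank k (tangent (cdl k C.alt C.t C.q w c) v) ≤
        dim (univ : Set (cdl k C.alt C.t C.q w c)) + Fintype.card (Fin (r + 1) × Fin n)) :
    Stage k C.Γ where
  P := ⟨_, _, cdl k C.alt C.t C.q w c, h₁, h₂⟩
  J := ∅
  ρ i := (plR k c i.2).comp C.std
  triv _ h := h.elim
  stab := C.stab w c

variable {C w c} [IsAlgClosed k] {h₁ h₂} {Ω : Type u} [Field Ω] [Algebra k Ω]

theorem CD.stage_on {g : Fin (r + 1) → Matrix (Fin n) (Fin n) Ω} (hg : C.Ch w g) :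
    (C.stage w c h₁ h₂).P.On (plV c g) := by
  have := Var.on_of_k (X := (C.stage w c h₁ h₂).P)
    (C.fr fun j a b => blC n w j b < blC n w j a).E (plV c (cM X)) (fun h hh => ?_)
    (CD.fr_ch_iff (h := mkC g).2 hg)
  · exact (evs_plV_cM (k := k) c (mkC g)) ▸ this
  · have h1 := CD.fr_ch_iff.1 hh
    have h2 := amb_isRep _ (GSt_ne (nzb_plV c fun j => (h1.1 j).1.isUnit))
    exact ⟨⟨_, (CD.mem_cdl c).2 ⟨_, h1, h2⟩⟩, (evs_plV_cM (k := k) c h).symm ▸ h2⟩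

theorem CD.stage_lift [IsAlgClosed Ω] {v : Vars (C.stage w c h₁ h₂).P.n → Ω}
    (hv : (C.stage w c h₁ h₂).P.On v) :
    ∃ g : Fin (r + 1) → Matrix (Fin n) (Fin n) Ω, C.Ch w g ∧ ParOn univ (plV c g) v := by
  obtain ⟨h, h1, h2⟩ := Var.lift_of_k (X := (C.stage w c h₁ h₂).P)
    (C.fr fun j a b => blC n w j b < blC n w j a).E (plV c (cM X)) (fun x => by
      obtain ⟨G, hG, hx⟩ := (CD.mem_cdl c).1 x.2
      exact ⟨mkC G, CD.fr_ch_iff (h := mkC G).2 hG,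
        (evs_plV_cM (k := k) c (mkC G)).symm ▸ hx⟩) hv
  exact ⟨cM h, CD.fr_ch_iff.1 h1, (evs_plV_cM (k := k) c h) ▸ h2⟩

end Pool.Agent.MP_0c8446_ag
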