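import Pool.Agent.MP_0c8446_ag.CL.CSt
import Pool.Agent.MP_0c8446_ag.CL.CFr
import Pool.Agent.MP_0c8446_ag.CL.CBru
import Pool.Agent.MP_0c8446_ag.DL.GStr

namespace Pool.Agent.MP_0c8446_ag

open MvPolynomial Set Matrix

universe u v w

variable {k : Type u} [Field k] [IsAlgClosed k] {n r : ℕ} {C : CD k n} {w : Fin r → ℕ × Bool}
  {N : Fin n → ℕ} (c : ∀ a : Fin n, Fin (N a + 1) ≃ (Fin (a + 1) → Fin n)) (h₁ h₂) (A : C.Anti)

omit [IsAlgClosed k] in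
theorem CStr_x {Ω : Type u} [Field Ω] [Algebra k Ω] {g : Matrix (Fin n) (Fin n) Ω}
    (hg : SU C.alt g) : AU C.alt (A.η⁻¹.1.map (algebraMap k Ω) * g) ∧
      (A.η⁻¹.1.map (algebraMap k Ω) * g).det = algebraMap k Ω A.η⁻¹.1.det :=
  ⟨((A.au.of_mul A.η.mul_inv).map (algebraMap k Ω)).mul_isU hg.1, by
    rw [det_mul, hg.2, mul_one]
    exact ((algebraMap k Ω).map_det _).symm⟩

omit [IsAlgClosed k] in
theorem CStr_sec {Ω : Type u} [Field Ω] [Algebra k Ω] (y : A.Y r)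
    {g : Fin (r + 1) → Matrix (Fin n) (Fin n) Ω} {j : Fin (r + 1)} (hg : SU C.alt (g j)) :
    Rl Fin.val (A.η⁻¹.1.map (algebraMap k Ω) * A.sec y g j) ((g j).submatrix id (y.1.1 j)) := by
  have hu := (CStr_x A (A.su_sec y hg)).1.isUnit
  have e : A.η⁻¹.1.map (algebraMap k Ω) * A.sec y g j = g j * nu Ω (y.1.1 j) (y.1.2 j) := by
    rw [CD.Anti.sec, ← Matrix.mul_assoc, ← Matrix.mul_assoc, ← Matrix.map_mul, A.η.inv_mul,
      Matrix.map_one _ (map_zero _) (map_one _), Matrix.one_mul]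
  refine (rl_mul_nu hu _ (y.1.2 j)).1 ?_
  rw [← e]
  exact Rl.refl _ hu

omit [IsAlgClosed k] in
theorem CStr_mk (hw : C.Ok w) {Ω : Type u} [Field Ω] [Algebra k Ω] [IsAlgClosed Ω]
    {g g' H : Fin (r + 1) → Matrix (Fin n) (Fin n) Ω} (hg : C.Ch w g) (hg' : C.Ch w g')
    {y : Fin (r + 1) → Equiv.Perm (Fin n)} (hH : ∀ j, IsUnit (H j))
    (h1 : ∀ j, Rl Fin.val (g j) (H j))
    (h2 : ∀ j, Rl Fin.val (A.η⁻¹.1.map (algebraMap k Ω) * g' j) ((H j).submatrix id (y j))) :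
    ∃ (Y : A.Y r) (h : CS r n → Ω), Y.1.1 = y ∧ (C.fr (zC C.t w Y.1.1)).Fr h ∧
      ParOn univ (A.pt c Y h) (pvJoin (plV c g) (plV c g')) := by
  choose H' s1 s2 s3 _ using fun j => cbru_fix C.two C.ev (hg.1 j) (CStr_x A (hg'.1 j)).1 (hH j)
    (h1 j) (h2 j)
  choose D hD using fun j => cbru_nu C.ev (s1 j) (CStr_x A (hg'.1 j)).1 (s3 j)
  have hD' : ∀ j, NuOK C.alt A.η⁻¹.1.det (y j) (D j) := fun j =>
    NuOK.of_map (algebraMap k Ω).injective ((CStr_x A (hg'.1 j)).2 ▸ hD j)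
  exact ⟨⟨(y, D), hD'⟩, mkC H', rfl, A.fr_mk c ⟨(y, D), hD'⟩ hw hg hg' s1 s2 s3⟩

omit [IsAlgClosed k] in
theorem CStr_il (hw : C.Ok w) (y : A.Y r) {Ω Ω' : Type u} [Field Ω] [Algebra k Ω] [IsAlgClosed Ω]
    [Field Ω'] [Algebra k Ω'] [IsAlgClosed Ω'] (Pl : Place k Ω Ω')
    (v : Vars (Sum.elim (fun i : Fin (r + 1) × Fin n => N i.2)
      fun i : Fin (r + 1) × Fin n => N i.2) → Ω) (h : CS r n → Ω)
    (hh : (C.fr (zC C.t w y.1.1)).Fr h) (hp : ParOn univ (A.pt c y h) v)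
    (hO : ∀ a, v a ∈ Pl.O) (hz : NZb fun a => Pl.red (v a)) :
    (∃ (y' : A.Y r) (h' : CS r n → Ω'),
      ∑ j, ∑ a ∈ Finset.range (n + 1), ∑ b ∈ Finset.range (n + 1), dy (y.1.1 j) a b <
        ∑ j, ∑ a ∈ Finset.range (n + 1), ∑ b ∈ Finset.range (n + 1), dy (y'.1.1 j) a b ∧
      (C.fr (zC C.t w y'.1.1)).Fr h' ∧ ParOn univ (A.pt c y' h') fun a => Pl.red (v a)) ∨
      ∃ h' : CS r n → Ω, (C.fr (zC C.t w y.1.1)).Fr h' ∧ ParOn univ (A.pt c y h') v ∧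
        ∀ s, h' s ∈ Pl.O := by
  obtain ⟨c1, c2⟩ := (A.fr_iff y).1 hh
  choose G sG hG rG using fun j => Pl.exists_ciwasawa C.two C.ev (c1.1 j)
  choose G' sG' hG' rG' using fun j => Pl.exists_ciwasawa C.two C.ev (c2.1 j)
  have d1 := c1.congr hw sG rG
  have d2 := c2.congr hw sG' rG'
  have u1 := fun j => (c1.1 j).1.isUnit
  have u2 := fun j => (c2.1 j).1.isUnit
  have p1 : ParOn univ (pvJoin (plV c G) (plV c G')) v :=
    (parOn_pvJoin.2 ⟨(parOn_plV c u1 fun j => (hG j).isUnit).2 rG,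
      (parOn_plV c u2 fun j => (hG' j).isUnit).2 rG'⟩).symm.trans hp
  obtain ⟨o1, e1⟩ := Place.plV_red (Pl := Pl) c fun j => (hG j).1
  obtain ⟨o2, e2⟩ := Place.plV_red (Pl := Pl) c fun j => (hG' j).1
  have p2 : ParOn univ (pvJoin (plV c fun j => (G j).map Pl.red) (plV c fun j => (G' j).map Pl.red))
      fun a => Pl.red (v a) := by
    rw [← e1, ← e2, ← GStr_join]
    refine Pl.par_red p1 ?_ (fun a _ => hO a) ?_ fun i _ => hz i
    · rintro ⟨i | i, s⟩ -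
      exacts [o1 ⟨i, s⟩, o2 ⟨i, s⟩]
    · rintro (i | i) -
      · exact (e1 ▸ nzb_plV c (fun j => (hG j).2) :) i
      · exact (e2 ▸ nzb_plV c (fun j => (hG' j).2) :) i
  have hE : ∀ a b, A.η⁻¹.1.map (algebraMap k Ω) a b ∈ Pl.O := fun a b => Pl.O.algebraMap_mem _
  have hE' : (A.η⁻¹.1.map (algebraMap k Ω)).map Pl.red = A.η⁻¹.1.map (algebraMap k Ω') :=
    Matrix.ext fun a b => Pl.red_algebraMap _
  have hx : ∀ j, Pl.IG (A.η⁻¹.1.map (algebraMap k Ω) * G' j) := fun j =>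
    ((CStr_x A (sG' j)).1.red Pl (Pl.map_red_mul hE (hG' j).1).1).1
  have hx' : ∀ j, (A.η⁻¹.1.map (algebraMap k Ω) * G' j).map Pl.red =
      A.η⁻¹.1.map (algebraMap k Ω') * (G' j).map Pl.red := fun j =>
    hE' ▸ (Pl.map_red_mul hE (hG' j).1).2
  have uE : IsUnit (A.η⁻¹.1.map (algebraMap k Ω)) := RlA0_map _ A.η⁻¹.isUnit
  have f1 : ∀ j a b, Module.finrank Ω ↥(flg (G j) a ⊓ flg (A.η⁻¹.1.map (algebraMap k Ω) * G' j) b)
      = dy (y.1.1 j) a b :=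
    fun j => finrank_flg_inf (hG j).isUnit (hx j).isUnit (u1 j)
      ((rG j).symm (u1 j) (hG j).isUnit)
      (((rl_mul_left uE).2 ((rG' j).symm (u2 j) (hG' j).isUnit)).trans (CStr_sec A y (c1.1 j))
        (uE.mul (u2 j)))
  choose y' H hH rH rH' using fun j => exists_bruhat (hG j).2 (hx j).2
  have f2 := fun j => finrank_flg_inf (hG j).2 (hx j).2 (hH j) (rH j) (rH' j)
  have le : ∀ j a b, dy (y.1.1 j) a b ≤ dy (y' j) a b := fun j a b =>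
    f1 j a b ▸ f2 j a b ▸ Place.finrank_flg_le (hG j) (hx j) a b
  have le2 : ∀ j a, ∑ b ∈ Finset.range (n + 1), dy (y.1.1 j) a b ≤
      ∑ b ∈ Finset.range (n + 1), dy (y' j) a b := fun j a => Finset.sum_le_sum fun b _ => le j a b
  have le3 : ∀ j, ∑ a ∈ Finset.range (n + 1), ∑ b ∈ Finset.range (n + 1), dy (y.1.1 j) a b ≤
      ∑ a ∈ Finset.range (n + 1), ∑ b ∈ Finset.range (n + 1), dy (y' j) a b :=
    fun j => Finset.sum_le_sum fun a _ => le2 j a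
  rcases (Finset.sum_le_sum (s := Finset.univ) fun j _ => le3 j).eq_or_lt with e | e
  · right
    have eq : ∀ j, ∀ a ≤ n, ∀ b ≤ n, dy (y.1.1 j) a b = dy (y' j) a b := fun j a ha b hb =>
      (Finset.sum_eq_sum_iff_of_le fun b _ => le j a b).1
        ((Finset.sum_eq_sum_iff_of_le fun a _ => le2 j a).1
          ((Finset.sum_eq_sum_iff_of_le fun j _ => le3 j).1 e j (Finset.mem_univ j)) a
          (Finset.mem_range.2 (Nat.lt_succ_of_le ha))) b (Finset.mem_range.2 (Nat.lt_succ_of_le hb))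
    choose M hM rM rM' using fun j => Place.exists_bruhat (hG j) (hx j)
      (fun a _ b _ => f1 j a b) fun a ha b hb => (f2 j a b).trans (eq j a ha b hb).symm
    choose M' s1 s2 s3 s4 using fun j => cbru_fix C.two C.ev (sG j) (CStr_x A (sG' j)).1
      (hM j).isUnit (rM j) (rM' j)
    obtain ⟨g1, g2⟩ := A.fr_mk c y hw d1 d2 s1 s2 s3
    exact ⟨_, g1, g2.trans p1, fun s => (s4 s.1 Ω' Pl (hM s.1)).1 s.2.1 s.2.2⟩
  · obtain ⟨Y, h', eY, g1, g2⟩ := CStr_mk c A hw (d1.red Pl fun j => (hG j).1)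
      (d2.red Pl fun j => (hG' j).1) hH rH fun j => hx' j ▸ rH' j
    exact Or.inl ⟨Y, h', eY ▸ e, g1, g2.trans p2⟩

/-- Pairs of chains are stratified by their relative positions. -/
theorem CD.Anti.strat (hw : C.Ok w) :
    ((C.stage w c h₁ h₂).prod ((C.stage w c h₁ h₂).comap A.θ)).Strat
      (fun y : A.Y r =>
        ∑ j, ∑ a ∈ Finset.range (n + 1), ∑ b ∈ Finset.range (n + 1), dy (y.1.1 j) a b)
      (fun y => C.fr (zC C.t w y.1.1)) fun y => A.pt c y X := by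
  refine ⟨fun y Ω _ _ h hh => ?_, fun y i γ Ω _ _ h _ s => ?_, fun Ω _ _ _ v hv => ?_,
    fun y Ω Ω' _ _ _ _ _ _ Pl v h hh hp hO hz => ?_⟩
  · exact (A.evs_pt c y h).symm ▸
      on_pvJoin (CD.stage_on ((A.fr_iff y).1 hh).1) (CD.stage_on ((A.fr_iff y).1 hh).2)
  · have e1 : ∀ (h : CS r n → Ω) a, aeval h (A.pt c y (X : CS r n → MvPolynomial (CS r n) k) a) =
        A.pt c y h a := fun h a => congrFun (A.evs_pt c y h) a
    refine (e1 _ _).trans (Eq.trans ?_ (Finset.sum_congr rfl fun s' _ => congrArg _ (e1 h _).symm))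
    refine (congrArg (fun h => A.pt c y h ⟨i, s⟩) (evs_clAct γ.1.1 h)).trans ?_
    rcases i with i | i
    · exact congrFun (plV_mul c γ.1.1 (cM h)) ⟨i, s⟩
    · exact (congrArg (fun g => plV c g ⟨i, s⟩) (funext (A.sec_act y γ (cM h)))).trans
        (congrFun (plV_mul c (A.θ γ).1.1 (A.sec y (cM h))) ⟨i, s⟩)
  · obtain ⟨a, b⟩ := on_pv_iff.1 hv
    obtain ⟨g, hg, pg⟩ := CD.stage_lift a
    obtain ⟨g', hg', pg'⟩ := CD.stage_lift b
    choose y H hH rH rH' using fun j => exists_bruhat (hg.1 j).1.isUnit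
      (CStr_x A (hg'.1 j)).1.isUnit
    obtain ⟨Y, h, -, g1, g2⟩ := CStr_mk c A hw hg hg' hH rH rH'
    refine ⟨Y, h, g1, ?_⟩
    have := g2.trans (parOn_pvJoin.2 ⟨pg, pg'⟩)
    rw [← A.evs_pt] at this
    exact (GStr_eta v) ▸ this
  · rcases CStr_il c A hw y Pl v h hh ((A.evs_pt c y h) ▸ hp) hO hz with
      ⟨y', h', a, b, d⟩ | ⟨h', a, b, d⟩
    · exact Or.inl ⟨y', h', a, b, (A.evs_pt c y' h').symm ▸ d⟩
    · exact Or.inr ⟨h', a, (A.evs_pt c y h').symm ▸ b, d⟩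

end Pool.Agent.MP_0c8446_ag
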