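import Pool.Agent.MP_0c8446_ag.CL.XR

namespace Pool.Agent.MP_0c8446_ag

open MvPolynomial Set Matrix

universe u v w

variable {k : Type u} [Field k] {Ω : Type u} [Field Ω] [Algebra k Ω] {n : ℕ} {alt : Bool}
  {z : Fin n → Fin n}

lemma SuT_zero {m : Matrix (Fin n) (Fin n) Ω} (hm : IsU alt m) {a : Fin n}
    (h : ∀ b, b < a → ∀ c, m c b = if c = b then 1 else 0) {b : Fin n} (hb : b ≠ a)
    (hr : b.rev < a) : m b a = 0 := by
  have e := hm.col b.rev a
  rw [Fin.rev_rev, if_neg hb.symm, Finset.sum_eq_single b.rev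
    (fun c _ hc => by rw [h _ hr c, if_neg hc, zero_mul, mul_zero]) (by simp), h _ hr, if_pos rfl,
    one_mul, Fin.rev_rev] at e
  have e2 : sg Ω alt b.rev * (sg Ω alt b.rev * m b a) = 0 := by rw [e, mul_zero]
  rwa [← mul_assoc, sg_mul_self, one_mul] at e2

/-- The shape of a column once the earlier columns are trivial. -/
theorem su_dir (two : (2 : Ω) ≠ 0) (hz : Function.Injective z) {m : Matrix (Fin n) (Fin n) Ω}
    (hm : Sg alt Fin.val (Fin.val ∘ z) m) {a : Fin n}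
    (h : ∀ b, b < a → ∀ c, m c b = if c = b then 1 else 0) :
    m a a ≠ 0 ∧ (¬ a < a.rev → m a a = 1) ∧ ∀ b, b ≠ a → b ∉ preC alt z a → m b a = 0 := by
  obtain ⟨hs, h1, h2⟩ := hm
  have hd := hs.1.diag_mul Fin.val_injective symP_val h1 a
  have h0 : m a a ≠ 0 := right_ne_zero_of_mul_eq_one hd
  refine ⟨h0, fun ha => ?_, fun b hb hp => ?_⟩
  · rcases (not_lt.1 ha).eq_or_lt with e | e
    · exact hs.mid Fin.val_injective symP_val h1 e
    · rwa [h _ e, if_pos rfl, one_mul] at hd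
  rcases lt_or_gt_of_ne hb with hba | hba
  swap
  · exact h1 hba
  rcases lt_trichotomy (z b) (z a) with hzz | hzz | hzz
  rotate_left
  · exact absurd (hz hzz) hb
  · exact h2 hzz
  have hp' : ¬ (a < b.rev ∨ alt = true ∧ a = b.rev) := fun e =>
    hp (Finset.mem_filter.2 ⟨Finset.mem_univ _, hba, hzz, e⟩)
  rcases (not_lt.1 fun e => hp' (Or.inl e)).eq_or_lt with e | e
  swap
  · exact SuT_zero hs.1 h hb e
  have hal : ¬ alt = true := fun e' => hp' (Or.inr ⟨e', e.symm⟩)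
  have hab : a.rev = b := by rw [← e, Fin.rev_rev]
  have hsg : ∀ c : Fin n, sg Ω alt c = 1 := fun c => if_neg fun e' => hal e'.1
  have e1 := hs.1.col a a
  rw [hab, if_neg hb.symm, Finset.sum_eq_add_of_mem a b (Finset.mem_univ _) (Finset.mem_univ _)
    hb.symm, hsg, hsg, hab, e] at e1
  · have e2 : 2 * (m a a * m b a) = 0 := by linear_combination e1
    exact (mul_eq_zero.1 ((mul_eq_zero.1 e2).resolve_left two)).resolve_left h0
  · rintro c - ⟨hca, hcb⟩
    have hcr : c.rev ≠ a := fun e' => hcb (by rw [← hab, ← e', Fin.rev_rev])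
    rcases lt_or_gt_of_ne hcr with h3 | h3
    · rw [SuT_zero hs.1 h hca h3, zero_mul, mul_zero]
    · rw [h1 (show (a : ℕ) < c.rev from h3), mul_zero, mul_zero]

theorem su_mvA (two : (2 : k) ≠ 0) (ev : Ev alt n) (hz : ∀ a, z a.rev = (z a).rev) {a b : Fin n}
    (hb : b ∈ preC alt z a) (τ : Ω) :
    ∃ E : Matrix (Fin n) (Fin n) Ω, Sg alt Fin.val (Fin.val ∘ z) E ∧
      (∀ c, E c a = (if c = a then 1 else 0) + if c = b then τ else 0) ∧
      (∀ a', a' < a → ∀ c, E c a' = if c = a' then 1 else 0) ∧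
      ∀ O : Subalgebra k Ω, τ ∈ O → ∀ c d, E c d ∈ O := by
  obtain ⟨-, hba, hzz, hr⟩ := Finset.mem_filter.1 hb
  have hle : a ≤ b.rev := hr.elim le_of_lt fun e => e.2.le
  have ok : RtOK alt b a := ⟨hba.ne, fun e => hr.elim (fun e' => absurd e e'.ne) fun e' => e'.1⟩
  have h2 : 2 * algebraMap k Ω (1 / 2) = 1 := by
    rw [← map_ofNat (algebraMap k Ω) 2, ← map_mul, mul_one_div_cancel two, map_one]
  refine ⟨xR alt b a (algebraMap k Ω (1 / 2)) τ, ⟨su_xR ev ok h2, xR_bt ok symP_val hba.le,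
    xR_bt ok (symP_val.comp hz) hzz.le⟩, fun c => ?_, fun a' ha' c => ?_,
    fun O hO => xR_mem O (O.algebraMap_mem _) hO⟩
  · by_cases hc : c = b
    · rw [hc, xR_apply ok, if_neg hba.ne, if_pos rfl, zero_add]
    · rw [if_neg hc, add_zero]
      refine xR_apply_of_ne ok (fun e => hc e.1) (fun e => hc ?_) (fun e => hc e.2.1) fun e => ?_
      · rw [e.1, e.2, Fin.rev_rev]
      · exact absurd (hle.trans_eq e.1) (not_le.2 hba)
  · exact xR_apply_of_ne ok (fun e => ha'.ne e.2) (fun e => (ha'.trans_le hle).ne e.2)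
      (fun e => (ha'.trans_le hle).ne e.2.2) fun e => ha'.ne e.2.2

theorem su_mvG {a : Fin n} (ha : a < a.rev) {τ : Ω} (hτ : τ ≠ 0) :
    ∃ E : Matrix (Fin n) (Fin n) Ω, Sg alt Fin.val (Fin.val ∘ z) E ∧
      (∀ c, E c a = if c = a then τ else 0) ∧
      (∀ a', a' < a → ∀ c, E c a' = if c = a' then 1 else 0) ∧
      ∀ O : Subalgebra k Ω, τ ∈ O → τ⁻¹ ∈ O → ∀ c d, E c d ∈ O := by
  let d : Fin n → Ω := fun c => if c = a then τ else if c = a.rev then τ⁻¹ else 1
  have da : d a = τ := if_pos rfl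
  have dr : d a.rev = τ⁻¹ := (if_neg ha.ne').trans (if_pos rfl)
  have d1 : ∀ c, c ≠ a → c ≠ a.rev → d c = 1 := fun c h1 h2 => (if_neg h1).trans (if_neg h2)
  have hU : IsU alt (diagonal d) := by
    rw [isU_iff, adj_diagonal, diagonal_mul_diagonal, ← diagonal_one]
    congr 1
    funext c
    by_cases h1 : c = a
    · rw [h1, da, dr, inv_mul_cancel₀ hτ]
    by_cases h2 : c = a.rev
    · rw [h2, Fin.rev_rev, da, dr, mul_inv_cancel₀ hτ]
    · rw [d1 c h1 h2, d1 c.rev (fun e => h2 (by rw [← e, Fin.rev_rev]))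
        (fun e => h1 (Fin.rev_injective e)), one_mul]
  refine ⟨diagonal d, ⟨⟨hU, ?_⟩, blockTriangular_diagonal d, blockTriangular_diagonal d⟩,
    fun c => ?_, fun a' ha' c => ?_, fun O h1 h2 c e => ?_⟩
  · rw [hU.det_eq Fin.val_injective symP_val (blockTriangular_diagonal d)]
    refine Finset.prod_eq_one fun c hc => ?_
    have hc' : c.rev = c := (Finset.mem_filter.1 hc).2
    rw [diagonal_apply_eq]
    refine d1 c (fun e => ha.ne ?_) fun e => ha.ne ?_
    · rw [← e, hc']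
    · rw [← e, ← hc', e, Fin.rev_rev]
  · by_cases hc : c = a
    · rw [hc, diagonal_apply_eq, da, if_pos rfl]
    · rw [diagonal_apply_ne _ hc, if_neg hc]
  · by_cases hc : c = a'
    · rw [hc, diagonal_apply_eq, d1 a' ha'.ne (ha'.trans ha).ne, if_pos rfl]
    · rw [diagonal_apply_ne _ hc, if_neg hc]
  · by_cases hc : c = e
    · rw [hc, diagonal_apply_eq]
      by_cases h3 : e = a
      · rwa [h3, da]
      by_cases h4 : e = a.rev
      · rwa [h4, dr]
      · rw [d1 e h3 h4]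
        exact O.one_mem
    · rw [diagonal_apply_ne _ hc]
      exact O.zero_mem

end Pool.Agent.MP_0c8446_ag
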