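import Pool.Agent.MP_0c8446_ag.CL.Tower2
import Pool.Agent.MP_0c8446_ag.CL.CFr
import Pool.Agent.MP_0c8446_ag.CL.SuT

namespace Pool.Agent.MP_0c8446_ag

open MvPolynomial Set Matrix

universe u v w

variable {k : Type u} [Field k] {n r : ℕ} {C : CD k n} {w : Fin r → ℕ × Bool} {N : Fin n → ℕ}
  (c : ∀ a : Fin n, Fin (N a + 1) ≃ (Fin (a + 1) → Fin n)) (A : C.Anti) (y : A.Y r)

theorem CTow_col {Ω : Type u} [Field Ω] [Algebra k Ω] (h : CS r n → Ω)
    (a : Fin (r + 1) × Fin n) :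
    evs (k := k) h (fun i => X (a.1, i, a.2)) = fun i => cM h a.1 i a.2 := by
  funext i
  simp [evs, cM]

theorem CTow_move (hw : C.Ok w) {Ω : Type u} [Field Ω] [Algebra k Ω] {h : CS r n → Ω}
    (hh : (C.fr (zC C.t w y.1.1)).Fr h) (a : Fin (r + 1) × Fin n)
    {E : Matrix (Fin n) (Fin n) Ω} (hE : Sg C.alt Fin.val (Fin.val ∘ (y.1.1 a.1).symm) E)
    (h1 : ∀ a', a' < a.2 → ∀ c, E c a' = if c = a' then 1 else 0) :
    ∃ h' : CS r n → Ω, (C.fr (zC C.t w y.1.1)).Fr h' ∧ ParOn univ (A.pt c y h) (A.pt c y h') ∧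
      cM h' a.1 = cM h a.1 * E ∧
      (∀ a' : Fin (r + 1) × Fin n, (a'.1 : ℕ) * n + a'.2 < a.1 * n + a.2 →
        evs (k := k) h' (fun i => X (a'.1, i, a'.2)) = evs (k := k) h fun i => X (a'.1, i, a'.2)) ∧
      ∀ O : Subalgebra k Ω, (∀ s, h s ∈ O) → (∀ a b, E a b ∈ O) → ∀ s, h' s ∈ O := by
  have H := A.fr_move c y hw hh (m := fun j' => if j' = a.1 then E else 1) fun j' => by
    split_ifs with e
    · rw [e]; exact hE
    · exact ⟨su_one, blockTriangular_one, blockTriangular_one⟩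
  refine ⟨_, H.1, H.2, by simp, fun a' ha => ?_, fun O hO o1 => ?_⟩
  · rw [CTow_col, CTow_col, cM_mkC]
    by_cases c1 : a'.1 = a.1
    · rw [c1] at ha ⊢
      funext i
      simp [Matrix.mul_apply, h1 a'.2 (Nat.lt_of_add_lt_add_left ha)]
    · simp [c1]
  · rintro ⟨j', b, d⟩
    change (cM h j' * if j' = a.1 then E else 1) b d ∈ O
    split_ifs
    · rw [Matrix.mul_apply]
      exact O.sum_mem fun l _ => O.mul_mem (hO _) (o1 _ _)
    · rw [mul_one]
      exact hO _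

theorem CTow_dir {Ω : Type u} [Field Ω] (two : (2 : Ω) ≠ 0) {alt : Bool}
    {g g' : Matrix (Fin n) (Fin n) Ω} (hg : IsU alt g) {z : Fin n → Fin n}
    (hz : Function.Injective z) (h1 : Sg alt Fin.val (Fin.val ∘ z) (adj alt g * g')) (a : Fin n)
    (h2 : ∀ b, b < a → ∀ i, g i b = g' i b) :
    ∃ t : Ω, t ≠ 0 ∧ (¬ a < a.rev → t = 1) ∧ (fun i => g' i a) - t • (fun i => g i a) ∈
      Submodule.span Ω ((fun b i => g i b) '' (preC alt z a : Set (Fin n))) := by
  have e : g' = g * (adj alt g * g') := by rw [← mul_assoc, hg.mul_adj, one_mul]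
  obtain ⟨h3, h4, h5⟩ := su_dir two hz h1 (a := a) fun b hb d => by
    rw [← Matrix.one_apply (α := Ω), ← hg.adj_mul, Matrix.mul_apply, Matrix.mul_apply]
    simp only [h2 b hb]
  generalize adj alt g * g' = m at h3 h4 h5 e
  refine ⟨m a a, h3, h4, ?_⟩
  have e2 : (fun i => g' i a) - m a a • (fun i => g i a) =
      ∑ b ∈ Finset.univ.erase a, m b a • fun i => g i b := by
    funext i
    rw [e, Pi.sub_apply, Matrix.mul_apply, ← Finset.add_sum_erase _ _ (Finset.mem_univ a),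
      Finset.sum_apply]
    simp [mul_comm]
  rw [e2]
  refine Submodule.sum_mem _ fun b hb => ?_
  by_cases h0 : b ∈ preC alt z a
  · exact Submodule.smul_mem _ _ (Submodule.subset_span ⟨b, h0, rfl⟩)
  · rw [h5 b (Finset.ne_of_mem_erase hb) h0, zero_smul]
    exact Submodule.zero_mem _

theorem CD.Anti.tow (hw : C.Ok w) : (C.fr (zC C.t w y.1.1)).Tow2
    (fun Ω _ _ _ (h h' : CS r n → Ω) => ParOn univ (A.pt c y h) (A.pt c y h')) C.std
    (fun (a : Fin (r + 1) × Fin n) i => X (a.1, i, a.2))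
    (fun a => (preC C.alt (y.1.1 a.1).symm a.2).image fun b => (a.1, b))
    (fun a => a.1 * n + a.2) fun a => a.2 < a.2.rev := by
  refine ⟨fun a b e => ?_, fun a b hb => ?_, fun a γ Ω _ _ h _ s => ?_, fun a Ω _ _ h hh => ?_,
    fun a Ω _ _ _ h h' hh hh' e h0 => ?_, fun a b hb Ω _ _ _ h t hh => ?_,
    fun a ha Ω _ _ _ h t hh ht => ?_⟩
  · have h1 := congrArg (· % n) e
    simp only [Nat.mul_add_mod_self_right, Nat.mod_eq_of_lt a.2.2, Nat.mod_eq_of_lt b.2.2] at h1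
    simp only [h1, Nat.add_right_cancel_iff] at e
    exact Prod.ext (Fin.ext (Nat.eq_of_mul_eq_mul_right C.pos e)) (Fin.ext h1)
  · obtain ⟨b', hb', rfl⟩ := Finset.mem_image.1 hb
    exact Nat.add_lt_add_left (Finset.mem_filter.1 hb').2.1 _
  · have e : ∀ h : CS r n → Ω, aeval (evs h (clAct γ.1.1 (X : CS r n → MvPolynomial (CS r n) k)))
        (X (a.1, s, a.2) : MvPolynomial (CS r n) k) = ∑ s', C.std γ s s' •
          aeval h (X (a.1, s', a.2) : MvPolynomial (CS r n) k) := fun h => by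
      rw [evs_clAct, aeval_X]
      simp [clAct, mkC, Matrix.mul_apply, cM, CD.std, Algebra.smul_def]
    exact e h
  · have hu := ((C.fr_iff.1 hh).1 a.1).1.isUnit
    have hf : ∀ b : (insert a ((preC C.alt (y.1.1 a.1).symm a.2).image fun b => (a.1, b)) :
        Finset _), b.1.1 = a.1 := fun b => by
      rcases Finset.mem_insert.1 b.2 with e | e
      · rw [e]
      · obtain ⟨b', -, e⟩ := Finset.mem_image.1 e
        rw [← e]
    have hi := (linearIndependent_cols_iff_isUnit.2 hu).comp (fun b => b.1.2) fun b b' e =>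
      Subtype.ext (Prod.ext ((hf b).trans (hf b').symm) e)
    convert hi using 1
    funext b
    refine (CTow_col h b.1).trans ?_
    rw [hf b]
    rfl
  · have h1 := (C.fr_iff.1 hh).1
    have h2 := (C.fr_iff.1 hh').1
    obtain ⟨t, ht, h3, hs⟩ := CTow_dir (C.two' Ω) (h1 a.1).1 (y.1.1 a.1).symm.injective
      ((A.parOn_pt c y h1 h2).1 e a.1) a.2 fun b hb i => congrFun
        ((CTow_col h (a.1, b)).symm.trans ((h0 (a.1, b) (Nat.add_lt_add_left hb _)).trans
          (CTow_col h' (a.1, b)))) i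
    refine ⟨t, ht, h3, ?_⟩
    erw [CTow_col h a, CTow_col h' a]
    refine Submodule.span_mono ?_ hs
    rintro _ ⟨b, hb, rfl⟩
    exact ⟨(a.1, b), Finset.mem_coe.2 (Finset.mem_image_of_mem _ hb), CTow_col h (a.1, b)⟩
  · obtain ⟨b', hb', rfl⟩ := Finset.mem_image.1 hb
    obtain ⟨E, e1, e2, e3, e4⟩ := su_mvA C.two C.ev (A.symm_rev y a.1) hb' t
    obtain ⟨h', f1, f2, f3, f4, f5⟩ := CTow_move c A y hw hh a e1 e3
    refine ⟨h', f1, f2, ?_, f4, fun O hO ht => f5 O hO (e4 O ht)⟩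
    erw [CTow_col h a, CTow_col h' a, CTow_col h (a.1, b')]
    rw [f3]
    funext i
    simp [Matrix.mul_apply, e2, add_mul, Finset.sum_add_distrib, mul_comm (cM h a.1 i _)]
  · obtain ⟨E, e1, e2, e3, e4⟩ := su_mvG (k := k) (alt := C.alt) (z := (y.1.1 a.1).symm) ha ht
    obtain ⟨h', f1, f2, f3, f4, f5⟩ := CTow_move c A y hw hh a e1 e3
    refine ⟨h', f1, f2, ?_, f4, fun O hO h1 h2 => f5 O hO (e4 O h1 h2)⟩
    erw [CTow_col h a, CTow_col h' a]
    rw [f3]
    funext i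
    simp [Matrix.mul_apply, e2, mul_comm]

end Pool.Agent.MP_0c8446_ag
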