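import Pool.Agent.MP_0c8446_ag.CL.AdjA

namespace Pool.Agent.MP_0c8446_ag

open MvPolynomial Set Matrix

universe u v w

variable {n : ℕ} {s : ℕ}

lemma Cbk_lt {a a' : Fin n} : cbk n s a < cbk n s a' ↔
    ∃ c, (a : ℕ) ≤ c ∧ c < a' ∧ c ≠ s ∧ c + s + 2 ≠ n := by
  constructor
  · intro h
    by_contra H
    refine h.not_ge (Finset.card_le_card fun c hc => ?_)
    rw [Finset.mem_filter, Finset.mem_range] at hc ⊢
    exact ⟨not_le.1 fun h1 => H ⟨c, h1, hc.1, hc.2⟩, hc.2⟩
  · rintro ⟨c, h1, h2, h3⟩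
    refine Finset.card_lt_card ⟨fun d hd => ?_, fun H => ?_⟩
    · rw [Finset.mem_filter, Finset.mem_range] at hd ⊢
      exact ⟨by omega, hd.2⟩
    · have := H (Finset.mem_filter.2 ⟨Finset.mem_range.2 h2, h3⟩)
      rw [Finset.mem_filter, Finset.mem_range] at this
      omega

theorem cbk_mono {a a' : Fin n} (h : a ≤ a') : cbk n s a ≤ cbk n s a' := by
  refine not_lt.1 fun H => ?_
  obtain ⟨c, h1, h2, -⟩ := Cbk_lt.1 H
  rw [Fin.le_def] at h
  omega

theorem symP_cbk : SymP (cbk n s) := by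
  intro a a' h
  obtain ⟨c, h1, h2, h3, h4⟩ := Cbk_lt.1 h
  have := a'.2
  refine Cbk_lt.2 ⟨n - 2 - c, ?_⟩
  rw [Fin.val_rev, Fin.val_rev]
  omega

/-- The blocks of `cbk`. -/
theorem cbk_eq {a a' : Fin n} (h : a < a') (e : cbk n s a = cbk n s a') (hs : 2 * s + 2 ≤ n) :
    ((a : ℕ) = s ∧ (a' : ℕ) = s + 1) ∨ (a + s + 2 = n ∧ a' + s + 1 = n) ∨
      ((a : ℕ) = s ∧ (a' : ℕ) = s + 2 ∧ 2 * s + 3 = n) := by
  have H : ∀ c, (a : ℕ) ≤ c → c < a' → c = s ∨ c + s + 2 = n := fun c h1 h2 => by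
    by_contra h3
    exact e.not_lt (Cbk_lt.2 ⟨c, h1, h2, not_or.1 h3⟩)
  have h0 := H a
  have h1 := H (a + 1)
  have h2 := H (a + 2)
  rw [Fin.lt_def] at h
  omega

theorem cbk_succ {a a' : Fin n} (h : (a : ℕ) = s) (h' : (a' : ℕ) = s + 1) :
    cbk n s a = cbk n s a' := by
  refine le_antisymm (cbk_mono (by rw [Fin.le_def]; omega)) (not_lt.1 fun H => ?_)
  obtain ⟨c, h1, h2, h3, -⟩ := Cbk_lt.1 H
  omega

theorem symP_blC {r : ℕ} (w : Fin r → ℕ × Bool) (j : Fin (r + 1)) : SymP (blC n w j) := by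
  refine Fin.lastCases ?_ (fun j => ?_) j
  · rw [blC, Fin.lastCases_last]
    exact symP_val
  · rw [blC, Fin.lastCases_castSucc]
    exact symP_cbk.comp (sw_rev _)

theorem blC_last {r : ℕ} (w : Fin r → ℕ × Bool) : blC n w (Fin.last r) = Fin.val := by
  rw [blC, Fin.lastCases_last]

theorem blC_castSucc {r : ℕ} (w : Fin r → ℕ × Bool) (j : Fin r) :
    blC n w j.castSucc = cbk n (w j).1 ∘ sw n (w j).2 := by
  rw [blC, Fin.lastCases_castSucc]

theorem nyC_last {r : ℕ} (t : Bool) (y : Fin (r + 1) → Equiv.Perm (Fin n)) :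
    nyC t y (Fin.last r) = swP n t * y 0 * swP n t := by
  rw [nyC, Fin.lastCases_last]

theorem nyC_castSucc {r : ℕ} (t : Bool) (y : Fin (r + 1) → Equiv.Perm (Fin n)) (j : Fin r) :
    nyC t y j.castSucc = y j.succ := by
  rw [nyC, Fin.lastCases_castSucc]

variable {k : Type u} [Field k] {alt : Bool} {x : Matrix (Fin n) (Fin n) k}

/-- Upper triangular isometries stay triangular when the middle positions are exchanged. -/
theorem IsU.bt_sw (two : (2 : k) ≠ 0) {t : Bool} (ht : alt = true → t = false) (h : IsU alt x)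
    (hb : x.BlockTriangular Fin.val) : x.BlockTriangular (Fin.val ∘ sw n t) := by
  intro i j hij
  rcases lt_or_ge (j : ℕ) i with h1 | h1
  · exact hb h1
  obtain ⟨rfl, hi, hj⟩ : t = true ∧ 2 * (i : ℕ) + 2 = n ∧ 2 * (j : ℕ) = n := by
    have := i.2
    have := j.2
    simp only [Function.comp, sw] at hij
    split_ifs at hij with h2 h3 h3
    all_goals try rw [Fin.val_rev] at hij
    all_goals try rw [Fin.val_rev] at hij
    · exact ⟨h2.1, by omega⟩
    · exact absurd ⟨h2.1, by omega⟩ h3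
    · exact absurd ⟨h3.1, by omega⟩ h2
    · omega
  obtain rfl : alt = false := by simpa using ht
  have e1 : i.rev = j := Fin.ext (by rw [Fin.val_rev]; omega)
  have e2 : j.rev = i := Fin.ext (by rw [Fin.val_rev]; omega)
  have hne : i ≠ j := fun e => by rw [e] at hi; omega
  have h2 := h.col j j
  rw [if_neg (by rw [e2]; exact hne.symm), Fintype.sum_eq_add i j hne fun c hc => by
    have h3 : (c : ℕ) ≠ i := fun e => hc.1 (Fin.ext e)
    have h4 : (c : ℕ) ≠ j := fun e => hc.2 (Fin.ext e)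
    rcases lt_or_ge (j : ℕ) c with h5 | h5
    · rw [hb h5, zero_mul, mul_zero]
    · rw [hb (i := c.rev) (j := j) (by rw [Fin.val_rev]; omega), mul_zero, mul_zero], e1, e2] at h2
  have h3 : x j j ≠ 0 := right_ne_zero_of_mul_eq_one (h.diag_mul Fin.val_injective symP_val hb j)
  simp only [sg, Bool.false_eq_true, false_and, if_false, one_mul] at h2
  exact (mul_eq_zero.1 (show x i j * (2 * x j j) = 0 by linear_combination h2)).resolve_right
    (mul_ne_zero two h3)

theorem IsU.bt_blC (two : (2 : k) ≠ 0) {r : ℕ} {w : Fin r → ℕ × Bool}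
    (hw : alt = true → ∀ j, (w j).2 = false) (h : IsU alt x) (hb : x.BlockTriangular Fin.val)
    (j : Fin (r + 1)) : x.BlockTriangular (blC n w j) := by
  refine Fin.lastCases ?_ (fun j => ?_) j
  · rwa [blC_last]
  · rw [blC_castSucc]
    exact fun a b hab => h.bt_sw two (fun e => hw e j) hb
      (not_le.1 fun H => hab.not_ge (cbk_mono H))

theorem IsU.bt_frC (two : (2 : k) ≠ 0) {t : Bool} (ht : alt = true → t = false) {q : ℕ} [PQ k q]
    (h : IsU alt x) (hb : x.BlockTriangular Fin.val) : (frC t q x).BlockTriangular Fin.val := by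
  intro a b hab
  exact (h.map (frobHom k q)).bt_sw two ht (hb.map _) (i := sw n t a) (j := sw n t b)
    (by simpa only [Function.comp, sw_sw] using hab)

end Pool.Agent.MP_0c8446_ag
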