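import Pool.Agent.MP_0c8446_ag.DL.Locus
import Pool.Agent.MP_0c8446_ag.CL.CDefs

namespace Pool.Agent.MP_0c8446_ag

open MvPolynomial Set

universe u v w

variable {k : Type u} [Field k] {σ σ' : Type} {R : Fam k σ} {R' : Fam k σ'}

theorem ChA_aeval {Ω : Type u} [CommRing Ω] [Algebra k Ω] (x : σ → Ω) (φ : σ' → MvPolynomial σ k)
    (p : MvPolynomial σ' k) : aeval x (aeval φ p) = aeval (evs x φ) p :=
  comp_aeval_apply _ _ _

theorem ChA_evs {Ω : Type u} [CommRing Ω] [Algebra k Ω] {τ : Type} (x : σ → Ω)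
    (φ : σ' → MvPolynomial σ k) (t : τ → MvPolynomial σ' k) :
    (evs x fun s => aeval φ (t s)) = evs (evs x φ) t := funext fun s => ChA_aeval x φ (t s)

theorem ChA_ren {Ω : Type u} [CommRing Ω] [Algebra k Ω] (x : σ → Ω) (g : σ' → σ)
    (p : MvPolynomial σ' k) : aeval x (rename g p) = aeval (fun s => x (g s)) p :=
  aeval_rename _ _ _

theorem ChA_half {I : Type} {φ : σ' → MvPolynomial σ k} {ψ : σ → MvPolynomial σ' k}
    {f : I → MvPolynomial σ k} {f' : I → MvPolynomial σ' k} (T : I → Bool) {Ω : Type u} [Field Ω]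
    [Algebra k Ω] [IsAlgClosed Ω] {x : σ ⊕ I → Ω} (hx : R.cut f T Ω x)
    (h1 : R' Ω (evs (fun s => x (Sum.inl s)) φ))
    (h2 : evs (evs (fun s => x (Sum.inl s)) φ) ψ = fun s => x (Sum.inl s))
    (h3 : ∀ i, aeval (evs (fun s => x (Sum.inl s)) φ) (f' i) =
      aeval (fun s => x (Sum.inl s)) (f i)) :
    R'.cut f' T Ω (evs x (Sum.elim (fun s => rename Sum.inl (φ s)) fun i => X (Sum.inr i))) ∧
      evs (evs x (Sum.elim (fun s => rename Sum.inl (φ s)) fun i => X (Sum.inr i)))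
        (Sum.elim (fun s => rename Sum.inl (ψ s)) fun i => X (Sum.inr i)) = x := by
  set y := evs x (Sum.elim (fun s => rename Sum.inl (φ s)) fun i => X (Sum.inr i)) with hy
  have e1 : (fun s => y (Sum.inl s)) = evs (fun s => x (Sum.inl s)) φ :=
    funext fun s => ChA_ren x Sum.inl (φ s)
  have e2 : ∀ i, y (Sum.inr i) = x (Sum.inr i) := fun i => aeval_X (R := k) x (Sum.inr i)
  refine ⟨⟨by rwa [e1], fun i => by rw [e1, e2, h3]; exact hx.2 i⟩, funext fun s => ?_⟩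
  rcases s with s | i
  · exact (ChA_ren y Sum.inl (ψ s)).trans (by rw [e1]; exact congrFun h2 s)
  · exact (aeval_X (R := k) y (Sum.inr i)).trans (e2 i)

theorem HasChart.of_iso {φ : σ' → MvPolynomial σ k} {ψ : σ → MvPolynomial σ' k}
    (e : R.Iso R' φ ψ) (h : HasChart R') : HasChart R := by
  obtain ⟨τ, _, t, Dp, H⟩ := h
  refine ⟨τ, inferInstance, fun s => aeval φ (t s), Dp, fun Ω _ _ _ x hx => ?_,
    fun Ω _ _ _ x x' hx hx' h => ?_, fun Ω _ _ _ y hy => ?_,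
    fun Ω Ω' _ _ _ _ _ _ Pl x hx h1 h2 => ?_⟩
  · rw [ChA_evs]
    exact H.nv Ω _ (e.hom Ω x hx).1
  · rw [ChA_evs, ChA_evs] at h
    rw [← (e.hom Ω x hx).2, H.inj Ω _ _ (e.hom Ω x hx).1 (e.hom Ω x' hx').1 h, (e.hom Ω x' hx').2]
  · obtain ⟨x, hx, h⟩ := H.surj Ω y hy
    exact ⟨evs x ψ, (e.inv Ω x hx).1, by rw [ChA_evs, (e.inv Ω x hx).2, h]⟩
  · rw [ChA_evs] at h1 h2
    rw [← (e.hom Ω x hx).2]
    exact fun s => Pl.aeval_mem (H.val Ω Ω' Pl _ (e.hom Ω x hx).1 h1 h2) _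

theorem HasChart.congr {R₁ : Fam k σ} (h : HasChart R)
    (e : ∀ (Ω : Type u) [Field Ω] [Algebra k Ω] [IsAlgClosed Ω] (x : σ → Ω), R₁ Ω x ↔ R Ω x) :
    HasChart R₁ := by
  obtain ⟨τ, _, t, Dp, H⟩ := h
  exact ⟨τ, inferInstance, t, Dp, fun Ω _ _ _ x hx => H.nv Ω x ((e Ω x).1 hx),
    fun Ω _ _ _ x x' hx hx' => H.inj Ω x x' ((e Ω x).1 hx) ((e Ω x').1 hx'),
    fun Ω _ _ _ y hy => (H.surj Ω y hy).imp fun x hx => ⟨(e Ω x).2 hx.1, hx.2⟩,
    fun Ω Ω' _ _ _ _ _ _ Pl x hx => H.val Ω Ω' Pl x ((e Ω x).1 hx)⟩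

theorem HasChart.opt (h : HasChart R) : HasChart R.opt := by
  obtain ⟨τ, _, t, Dp, H⟩ := h
  let t' : Option τ → MvPolynomial (Option σ) k := fun s =>
    s.elim (X none) fun s => rename some (t s)
  have e1 : ∀ (Ω : Type u) [Field Ω] [Algebra k Ω] (x : Option σ → Ω) (s : τ),
      evs x t' (some s) = evs (fun s => x (some s)) t s := fun Ω _ _ x s => ChA_ren x some (t s)
  have e2 : ∀ (Ω : Type u) [Field Ω] [Algebra k Ω] (x : Option σ → Ω),
      evs x t' none = x none := fun Ω _ _ x => aeval_X (R := k) x none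
  refine ⟨Option τ, inferInstance, t', rename some Dp, fun Ω _ _ _ x hx => ?_,
    fun Ω _ _ _ x x' hx hx' h => ?_, fun Ω _ _ _ y hy => ?_,
    fun Ω Ω' _ _ _ _ _ _ Pl x hx h1 h2 s => ?_⟩
  · simp only [ChA_ren, e1]
    exact H.nv Ω _ hx
  · have := H.inj Ω _ _ hx hx' (funext fun s => by rw [← e1, ← e1, h])
    funext s
    rcases s with _ | s
    · rw [← e2 Ω x, h, e2]
    · exact congrFun this s
  · rw [ChA_ren] at hy
    obtain ⟨x, hx, h⟩ := H.surj Ω _ hy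
    refine ⟨fun s => s.elim (y none) x, hx, funext fun s => ?_⟩
    rcases s with _ | s
    · exact e2 Ω _
    · exact (e1 Ω _ s).trans (congrFun h s)
  · rcases s with _ | s
    · exact e2 Ω x ▸ h1 none
    · simp only [ChA_ren, e1] at h2
      exact H.val Ω Ω' Pl _ hx (fun s => e1 Ω x s ▸ h1 (some s)) h2 s

theorem HasChart.pi {J : Type} [Finite J] {S : J → Fam k σ} (h : ∀ j, HasChart (S j)) :
    HasChart (Fam.pi S) := by
  choose τ hτ t Dp H using h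
  have := Fintype.ofFinite J
  let t' : (Σ j, τ j) → MvPolynomial (J × σ) k := fun s => rename (Prod.mk s.1) (t s.1 s.2)
  have e1 : ∀ (Ω : Type u) [Field Ω] [Algebra k Ω] (x : J × σ → Ω) (j : J) (s : τ j),
      evs x t' ⟨j, s⟩ = evs (fun s => x (j, s)) (t j) s :=
    fun Ω _ _ x j s => ChA_ren x (Prod.mk j) (t j s)
  have e2 : ∀ (Ω : Type u) [Field Ω] [Algebra k Ω] (y : (Σ j, τ j) → Ω),
      aeval y (∏ j, rename (Sigma.mk j) (Dp j)) ≠ 0 ↔
        ∀ j, aeval (fun s => y ⟨j, s⟩) (Dp j) ≠ 0 := fun Ω _ _ y => by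
    simp only [map_prod, Finset.prod_ne_zero_iff, Finset.mem_univ, true_imp_iff, ChA_ren]
  refine ⟨Σ j, τ j, inferInstance, t', ∏ j, rename (Sigma.mk j) (Dp j), fun Ω _ _ _ x hx => ?_,
    fun Ω _ _ _ x x' hx hx' h => ?_, fun Ω _ _ _ y hy => ?_,
    fun Ω Ω' _ _ _ _ _ _ Pl x hx h1 h2 s => ?_⟩
  · simp only [e2, e1]
    exact fun j => (H j).nv Ω _ (hx j)
  · funext ⟨j, s⟩
    exact congrFun ((H j).inj Ω _ _ (hx j) (hx' j) (funext fun s => by rw [← e1, ← e1, h])) s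
  · choose x hx h using fun j => (H j).surj Ω _ ((e2 Ω y).1 hy j)
    exact ⟨fun s => x s.1 s.2, hx, funext fun ⟨j, s⟩ => (e1 Ω _ j s).trans (congrFun (h j) s)⟩
  · simp only [e2, e1] at h2
    exact (H s.1).val Ω Ω' Pl _ (hx s.1) (fun s' => e1 Ω x s.1 s' ▸ h1 ⟨s.1, s'⟩) (h2 s.1) s.2

theorem hasChart_of_empty
    (h : ∀ (Ω : Type u) [Field Ω] [Algebra k Ω] [IsAlgClosed Ω] (x : σ → Ω), ¬ R Ω x) :
    HasChart R := by
  exact ⟨Empty, inferInstance, Empty.elim, 0, fun Ω _ _ _ x hx => (h Ω x hx).elim,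
    fun Ω _ _ _ x _ hx => (h Ω x hx).elim, fun Ω _ _ _ y hy => (hy (map_zero _)).elim,
    fun Ω _ _ _ _ _ _ _ _ x hx => (h Ω x hx).elim⟩

theorem Fam.Closed.cut (h : R.Closed) {I : Type} (f : I → MvPolynomial σ k) (T : I → Bool) :
    (R.cut f T).Closed := by
  obtain ⟨E, hE⟩ := h
  exact ⟨cutE E f T, fun Ω _ _ _ x => by rw [cutE_iff, ← hE]; rfl⟩

/-- A nonempty closed family has a rational point. -/
theorem Fam.Closed.exists_pt [IsAlgClosed k] [Finite σ] (h : R.Closed) {Ω : Type u} [Field Ω]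
    [Algebra k Ω] [IsAlgClosed Ω] {x : σ → Ω} (hx : R Ω x) : ∃ x₀ : σ → k, R k x₀ := by
  obtain ⟨E, hE⟩ := h
  obtain ⟨x₀, h0, -⟩ := Locus_spec (k := k) x (f := 1) (by rw [map_one]; exact one_ne_zero)
  exact ⟨x₀, (hE k x₀).2 fun e he => mem_kr.1 (h0 (mem_kr.2 ((hE Ω x).1 hx e he)))⟩

theorem HasChart.of_base [IsAlgClosed k] [Finite σ] (h : R.Closed)
    (H : ∀ x₀ : σ → k, R k x₀ → HasChart R) : HasChart R := by
  by_cases h0 : ∃ x₀, R k x₀
  · exact h0.elim H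
  · exact hasChart_of_empty fun Ω _ _ _ x hx => h0 (h.exists_pt hx)

theorem HasChart.cell (h : HasChart R) : Cell R := by
  let φ : σ → MvPolynomial (σ ⊕ Empty) k := fun s => X (Sum.inl s)
  let ψ : σ ⊕ Empty → MvPolynomial σ k := fun s => X (Sum.elim id Empty.elim s)
  have e1 : ∀ (Ω : Type u) [Field Ω] [Algebra k Ω] (x : σ ⊕ Empty → Ω),
      evs x φ = fun s => x (Sum.inl s) := fun Ω _ _ x => funext fun s => aeval_X (R := k) x (Sum.inl s)
  have e2 : ∀ (Ω : Type u) [Field Ω] [Algebra k Ω] (y : σ → Ω),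
      evs y ψ = fun s => y (Sum.elim id Empty.elim s) :=
    fun Ω _ _ y => funext fun s => aeval_X (R := k) y (Sum.elim id Empty.elim s)
  refine ⟨Empty, inferInstance, Empty.elim, fun T => h.of_iso (φ := φ) (ψ := ψ)
    ⟨fun Ω _ _ _ x hx => ?_, fun Ω _ _ _ y hy => ?_⟩⟩
  · refine ⟨(congrArg (R Ω) (e1 Ω x)).mpr hx.1, (e2 Ω (evs x φ)).trans (funext fun s => ?_)⟩
    rcases s with s | i
    · exact congrFun (e1 Ω x) s
    · exact i.elim
  · have e3 : (fun s => evs y ψ (Sum.inl s)) = y := funext fun s => congrFun (e2 Ω y) (Sum.inl s)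
    exact ⟨⟨(congrArg (R Ω) e3).mpr hy, fun i => i.elim⟩, (e1 Ω (evs y ψ)).trans e3⟩

theorem Cell.of_iso {φ : σ' → MvPolynomial σ k} {ψ : σ → MvPolynomial σ' k}
    (e : R.Iso R' φ ψ) (h : Cell R') : Cell R := by
  obtain ⟨I, _, f, H⟩ := h
  refine ⟨I, inferInstance, fun i => aeval φ (f i), fun T => (H T).of_iso
    ⟨fun Ω _ _ _ x hx => ChA_half T hx (e.hom Ω _ hx.1).1 (e.hom Ω _ hx.1).2 fun i =>
      (ChA_aeval _ _ _).symm,
    fun Ω _ _ _ y hy => ChA_half T hy (e.inv Ω _ hy.1).1 (e.inv Ω _ hy.1).2 fun i => ?_⟩⟩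
  rw [ChA_aeval, (e.inv Ω _ hy.1).2]

theorem Cell.congr {R₁ : Fam k σ} (h : Cell R)
    (e : ∀ (Ω : Type u) [Field Ω] [Algebra k Ω] [IsAlgClosed Ω] (x : σ → Ω), R₁ Ω x ↔ R Ω x) :
    Cell R₁ := by
  obtain ⟨I, _, f, H⟩ := h
  exact ⟨I, inferInstance, f, fun T => (H T).congr fun Ω _ _ _ x => and_congr_left' (e Ω _)⟩

theorem Cell.of_base [IsAlgClosed k] [Finite σ] (h : R.Closed)
    (H : ∀ x₀ : σ → k, R k x₀ → Cell R) : Cell R := by
  by_cases h0 : ∃ x₀, R k x₀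
  · exact h0.elim H
  · exact (hasChart_of_empty fun Ω _ _ _ x hx => h0 (h.exists_pt hx)).cell

end Pool.Agent.MP_0c8446_ag
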