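import Pool.Agent.MP_0c8446_ag.CL.AdjA

namespace Pool.Agent.MP_0c8446_ag

open MvPolynomial Set Matrix

universe u v w

variable {R : Type u} [CommRing R] {n : ℕ} {alt : Bool} {a b : Fin n} {hf τ τ' : R}

/-- The position `(a, b)` belongs to a root. -/
def RtOK (alt : Bool) (a b : Fin n) : Prop := a ≠ b ∧ (b = a.rev → alt = true)

theorem XR_rt_map {R' : Type u} [CommRing R'] (φ : R →+* R') (a b : Fin n) :
    (rt R alt a b).map φ = rt R' alt a b := by
  unfold rt
  split_ifs
  · rw [Matrix.map_single, map_one]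
  · rw [Matrix.map_sub _ (map_sub φ), adj_map, Matrix.map_single, map_one]

theorem XR_mid (h : RtOK alt a b) (ha : a.rev = a) (hb : b.rev = b) : False := by
  have h1 := congrArg Fin.val ha
  have h2 := congrArg Fin.val hb
  rw [Fin.val_rev] at h1 h2
  exact h.1 (Fin.ext (by omega))

theorem XR_rt_eq (h : b ≠ a.rev) : rt R alt a b =
    Matrix.single a b 1 - Matrix.single b.rev a.rev (sg R alt a * sg R alt b) := by
  rw [rt, if_neg h, adj_single, mul_one]

theorem XR_sq_rev (h : RtOK alt a b) (e : b = a.rev) : rt R alt a b * rt R alt a b = 0 := by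
  rw [rt, if_pos e, Matrix.single_mul_single_of_ne _ _ _ _ h.1.symm]

theorem XR_sq (h : RtOK alt a b) (e : b ≠ a.rev) : rt R alt a b * rt R alt a b =
    -(if b.rev = b then Matrix.single a a.rev (sg R alt a * sg R alt b) else 0) -
      if a.rev = a then Matrix.single b.rev b (sg R alt a * sg R alt b) else 0 := by
  have h1 : a.rev ≠ b.rev := fun e => h.1 (Fin.rev_injective e)
  have h2 : (Matrix.single a b (1 : R) * Matrix.single b.rev a.rev (sg R alt a * sg R alt b) :
      Matrix (Fin n) (Fin n) R) =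
      if b.rev = b then Matrix.single a a.rev (sg R alt a * sg R alt b) else 0 := by
    split_ifs with hb
    · rw [hb, Matrix.single_mul_single_same, one_mul]
    · exact Matrix.single_mul_single_of_ne _ _ _ _ (Ne.symm hb) _
  have h3 : (Matrix.single b.rev a.rev (sg R alt a * sg R alt b) * Matrix.single a b (1 : R) :
      Matrix (Fin n) (Fin n) R) =
      if a.rev = a then Matrix.single b.rev b (sg R alt a * sg R alt b) else 0 := by
    split_ifs with ha
    · rw [ha, Matrix.single_mul_single_same, mul_one]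
    · exact Matrix.single_mul_single_of_ne _ _ _ _ ha _
  rw [XR_rt_eq e, sub_mul, mul_sub, mul_sub, h2, h3,
    Matrix.single_mul_single_of_ne _ _ _ _ h.1.symm, Matrix.single_mul_single_of_ne _ _ _ _ h1,
    zero_sub, sub_zero]

theorem XR_rt_mem {k : Type u} [Field k] [Algebra k R] (O : Subalgebra k R) (c d : Fin n) :
    rt R alt a b c d ∈ O := by
  have h : ∀ c d, Matrix.single a b (1 : R) c d ∈ O := by
    intro c d
    rw [Matrix.single_apply]
    split_ifs
    exacts [O.one_mem, O.zero_mem]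
  unfold rt
  split_ifs
  · exact h c d
  · exact O.sub_mem (h c d) (adj_mem O h c d)

theorem xR_map {R' : Type u} {F : Type*} [CommRing R'] [FunLike F R R'] [RingHomClass F R R']
    (φ : F) (a b : Fin n) (hf τ : R) : (xR alt a b hf τ).map φ = xR alt a b (φ hf) (φ τ) := by
  change (xR alt a b hf τ).map (φ : R →+* R') = _
  rw [xR, xR, ← XR_rt_map (φ : R →+* R')]
  ext c d
  simp [Matrix.one_apply, apply_ite φ, Matrix.mul_apply]

theorem xR_zero : xR alt a b hf 0 = 1 := by
  simp [xR]

theorem adj_rt (ev : Ev alt n) (h : RtOK alt a b) : adj alt (rt R alt a b) = -rt R alt a b := by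
  by_cases e : b = a.rev
  · rw [rt, if_pos e, adj_single, mul_one, e, Fin.rev_rev, sg_rev ev, mul_left_comm, sg_mul_self,
      eps, if_pos (h.2 e), mul_one, Matrix.single_neg]
  · rw [rt, if_neg e, adj_sub, adj_adj ev, neg_sub]

theorem rt_cube (h : RtOK alt a b) : rt R alt a b * rt R alt a b * rt R alt a b = 0 := by
  by_cases e : b = a.rev
  · rw [XR_sq_rev h e, zero_mul]
  · have e' : b.rev ≠ a := fun e' => e (by rw [← e', Fin.rev_rev])
    have h1 : a.rev ≠ b.rev := fun e => h.1 (Fin.rev_injective e)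
    rw [XR_sq h e, XR_rt_eq e]
    split_ifs with hb ha ha
    · exact (XR_mid h ha hb).elim
    · rw [sub_zero, neg_mul, mul_sub, Matrix.single_mul_single_of_ne _ _ _ _ ha,
        Matrix.single_mul_single_of_ne _ _ _ _ h1, sub_zero, neg_zero]
    · rw [neg_zero, zero_sub, neg_mul, mul_sub, Matrix.single_mul_single_of_ne _ _ _ _ h.1.symm,
        Matrix.single_mul_single_of_ne _ _ _ _ (Ne.symm hb), sub_zero, neg_zero]
    · simp

theorem xR_add (h : RtOK alt a b) (h2 : 2 * hf = 1) :
    xR alt a b hf τ * xR alt a b hf τ' = xR alt a b hf (τ + τ') := by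
  have h3 := rt_cube (R := R) h
  have e : hf * (τ + τ') ^ 2 = hf * τ ^ 2 + τ * τ' + hf * τ' ^ 2 := by
    linear_combination (τ * τ') * h2
  unfold xR
  rw [e]
  generalize rt R alt a b = Y at h3 ⊢
  have h4 : Y * (Y * Y) = 0 := by rw [← mul_assoc, h3]
  have h5 : Y * Y * (Y * Y) = 0 := by rw [← mul_assoc, h3, zero_mul]
  simp only [mul_add, add_mul, one_mul, mul_one, smul_mul_assoc, mul_smul_comm, h3, h4, h5,
    smul_zero, add_zero, add_smul, smul_smul, smul_add, mul_comm τ' τ]
  abel

theorem adj_xR (ev : Ev alt n) (h : RtOK alt a b) :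
    adj alt (xR alt a b hf τ) = xR alt a b hf (-τ) := by
  rw [xR, xR, adj_add, adj_add, adj_one, adj_smul, adj_smul, adj_mul, adj_rt ev h, neg_mul_neg,
    neg_sq, smul_neg, neg_smul]

theorem su_xR (ev : Ev alt n) (h : RtOK alt a b) (h2 : 2 * hf = 1) : SU alt (xR alt a b hf τ) := by
  have hU : ∀ t : R, IsU alt (xR alt a b hf t) := fun t => isU_iff.2 (by
    rw [adj_xR ev h, xR_add h h2, neg_add_cancel, xR_zero])
  refine ⟨hU τ, ?_⟩
  have e : τ = hf * τ + hf * τ := by linear_combination (-τ) * h2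
  rw [e, ← xR_add h h2, det_mul]
  exact (hU _).det_sq

/-- The support of a root element. -/
theorem xR_apply_of_ne (h : RtOK alt a b) {c d : Fin n} (h1 : ¬ (c = a ∧ d = b))
    (h2 : ¬ (c = b.rev ∧ d = a.rev)) (h3 : ¬ (b.rev = b ∧ c = a ∧ d = a.rev))
    (h4 : ¬ (a.rev = a ∧ c = b.rev ∧ d = b)) : xR alt a b hf τ c d = if c = d then 1 else 0 := by
  have h1' : ¬ (a = c ∧ b = d) := fun e => h1 ⟨e.1.symm, e.2.symm⟩
  have h2' : ¬ (b.rev = c ∧ a.rev = d) := fun e => h2 ⟨e.1.symm, e.2.symm⟩
  have hY : rt R alt a b c d = 0 := by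
    by_cases e : b = a.rev
    · rw [rt, if_pos e, Matrix.single_apply_of_ne _ _ _ _ _ h1']
    · rw [XR_rt_eq e, Matrix.sub_apply, Matrix.single_apply_of_ne _ _ _ _ _ h1',
        Matrix.single_apply_of_ne _ _ _ _ _ h2', sub_zero]
  have hY2 : (rt R alt a b * rt R alt a b) c d = 0 := by
    by_cases e : b = a.rev
    · rw [XR_sq_rev h e, Matrix.zero_apply]
    · rw [XR_sq h e]
      split_ifs with hb ha ha
      · exact (XR_mid h ha hb).elim
      · rw [sub_zero, Matrix.neg_apply,
          Matrix.single_apply_of_ne _ _ _ _ _ fun e => h3 ⟨hb, e.1.symm, e.2.symm⟩, neg_zero]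
      · rw [neg_zero, zero_sub, Matrix.neg_apply,
          Matrix.single_apply_of_ne _ _ _ _ _ fun e => h4 ⟨ha, e.1.symm, e.2.symm⟩, neg_zero]
      · simp
  simp [xR, hY, hY2, Matrix.one_apply]

theorem xR_apply (h : RtOK alt a b) : xR alt a b hf τ a b = τ := by
  have hY : rt R alt a b a b = 1 := by
    by_cases e : b = a.rev
    · rw [rt, if_pos e, Matrix.single_apply_same]
    · rw [XR_rt_eq e, Matrix.sub_apply, Matrix.single_apply_same,
        Matrix.single_apply_of_ne _ _ _ _ _ fun e' => e e'.2.symm, sub_zero]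
  have hY2 : (rt R alt a b * rt R alt a b) a b = 0 := by
    by_cases e : b = a.rev
    · rw [XR_sq_rev h e, Matrix.zero_apply]
    · have e' : b.rev ≠ a := fun e' => e (by rw [← e', Fin.rev_rev])
      rw [XR_sq h e]
      split_ifs with hb ha ha
      · exact (XR_mid h ha hb).elim
      · rw [sub_zero, Matrix.neg_apply,
          Matrix.single_apply_of_ne _ _ _ _ _ fun e' => e e'.2.symm, neg_zero]
      · rw [neg_zero, zero_sub, Matrix.neg_apply,
          Matrix.single_apply_of_ne _ _ _ _ _ fun e => e' e.1, neg_zero]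
      · simp
  simp [xR, hY, hY2, h.1]

theorem xR_bt (h : RtOK alt a b) {o : Fin n → ℕ} (hs : SymP o) (ho : o a ≤ o b) :
    (xR alt a b hf τ).BlockTriangular o := by
  have ho' : o b.rev ≤ o a.rev := by
    by_contra hc
    have := hs _ _ (not_le.1 hc)
    rw [Fin.rev_rev, Fin.rev_rev] at this
    omega
  intro c d hcd
  rw [xR_apply_of_ne h, if_neg (by rintro rfl; exact lt_irrefl _ hcd)]
  · rintro ⟨rfl, rfl⟩
    omega
  · rintro ⟨rfl, rfl⟩
    omega
  · rintro ⟨e, rfl, rfl⟩
    rw [e] at ho'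
    omega
  · rintro ⟨e, rfl, rfl⟩
    rw [e] at ho'
    omega

theorem xR_mem {k : Type u} [Field k] [Algebra k R] (O : Subalgebra k R) (h1 : hf ∈ O)
    (h2 : τ ∈ O) (c d : Fin n) : xR alt a b hf τ c d ∈ O := by
  simp only [xR, Matrix.add_apply, Matrix.smul_apply, smul_eq_mul, Matrix.mul_apply]
  refine O.add_mem (O.add_mem ?_ (O.mul_mem h2 (XR_rt_mem O c d)))
    (O.mul_mem (O.mul_mem h1 (O.pow_mem h2 2))
      (O.sum_mem fun e _ => O.mul_mem (XR_rt_mem O c e) (XR_rt_mem O e d)))
  rw [Matrix.one_apply]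
  split_ifs
  exacts [O.one_mem, O.zero_mem]

end Pool.Agent.MP_0c8446_ag
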