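import Pool.Agent.MP_0c8446_ag.CL.ChP
import Pool.Agent.MP_0c8446_ag.CL.XR
import Pool.Agent.MP_0c8446_ag.CL.Fix

namespace Pool.Agent.MP_0c8446_ag

open MvPolynomial Set Matrix

universe u v w

variable {k : Type u} [Field k] {n : ℕ} {alt : Bool}

section cayley

variable {R : Type u} [CommRing R] {o b₂ : Fin n → ℕ} {hf : R}
  {N Y x A G : Matrix (Fin n) (Fin n) R}

/-- The truncated geometric series. -/
def ChB_g (N : Matrix (Fin n) (Fin n) R) : Matrix (Fin n) (Fin n) R := ∑ i ∈ Finset.range n, N ^ i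

/-- The diagonal part. -/
def ChB_d (x : Matrix (Fin n) (Fin n) R) : Matrix (Fin n) (Fin n) R := diagonal fun a => x a a

/-- The Cayley transform of the unipotent part. -/
def ChB_cay (alt : Bool) (hf : R) (x : Matrix (Fin n) (Fin n) R) : Matrix (Fin n) (Fin n) R :=
  1 - ChB_g (hf • (1 - adj alt (ChB_d x) * x))

/-- Strictly triangular matrices. -/
def ChB_St (o b₂ : Fin n → ℕ) (N : Matrix (Fin n) (Fin n) R) : Prop :=
  N.BlockTriangular o ∧ N.BlockTriangular b₂ ∧ ∀ a, N a a = 0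

/-- The positions of the coordinates. -/
def ChB_P (alt : Bool) (o b₂ : Fin n → ℕ) (a b : Fin n) : Prop :=
  o a < o b ∧ b₂ a ≤ b₂ b ∧ (a < b.rev ∨ alt = true ∧ a = b.rev)

theorem ChB_cay_map {R' : Type u} [CommRing R'] (φ : R →+* R') (hf : R)
    (x : Matrix (Fin n) (Fin n) R) : (ChB_cay alt hf x).map φ = ChB_cay alt (φ hf) (x.map φ) := by
  have h1 : (ChB_d x).map φ = ChB_d (x.map φ) := diagonal_map (map_zero φ)
  have h2 : ∀ N : Matrix (Fin n) (Fin n) R, φ.mapMatrix (hf • N) = φ hf • φ.mapMatrix N :=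
    fun N => by ext a b; simp
  change φ.mapMatrix _ = _
  simp only [ChB_cay, ChB_g, map_sub, map_one, map_sum, map_pow, h2, map_mul]
  simp only [RingHom.mapMatrix_apply, adj_map, h1]

theorem ChB_g_bt {b : Fin n → ℕ} (h : N.BlockTriangular b) : (ChB_g N).BlockTriangular b :=
  fun a c hc => by
    rw [ChB_g, Matrix.sum_apply]
    exact Finset.sum_eq_zero fun i _ => h.pow i hc

theorem ChB_mul_g (ho : Function.Injective o) (h : ChB_St o b₂ N) : (1 - N) * ChB_g N = 1 := by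
  rw [ChB_g, mul_neg_geom_sum, bt_pow_eq_zero ho h.1 h.2.2, sub_zero]

theorem ChB_g_diag (ho : Function.Injective o) (h : ChB_St o b₂ N) (a : Fin n) :
    ChB_g N a a = 1 := by
  have e := bt_mul_apply ho (blockTriangular_one.sub h.1) (ChB_g_bt h.1) a
  rw [ChB_mul_g ho h] at e
  simpa [h.2.2 a] using e.symm

theorem ChB_St.c (ho : Function.Injective o) (h : ChB_St o b₂ N) : ChB_St o b₂ (1 - ChB_g N) :=
  ⟨blockTriangular_one.sub (ChB_g_bt h.1), blockTriangular_one.sub (ChB_g_bt h.2.1),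
    fun a => by simp [ChB_g_diag ho h a]⟩

theorem ChB_g_g (ho : Function.Injective o) (h : ChB_St o b₂ N) :
    ChB_g (1 - ChB_g N) = 1 - N := by
  have e := ChB_mul_g ho (h.c ho)
  rw [sub_sub_cancel] at e
  calc _ = ((1 - N) * ChB_g N) * ChB_g (1 - ChB_g N) := by rw [ChB_mul_g ho h, one_mul]
    _ = _ := by rw [mul_assoc, e, mul_one]

theorem ChB_half (h2 : 2 * hf = 1) (Y : Matrix (Fin n) (Fin n) R) : hf • (Y + Y) = Y := by
  rw [← two_smul R Y, smul_smul, mul_comm, h2, one_smul]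

theorem ChB_skew (h2 : 2 * hf = 1) (e : A * G = 1) :
    IsU alt (A + A - 1) ↔ adj alt (1 - G) = -(1 - G) := by
  have e' : G * A = 1 := mul_eq_one_comm.1 e
  have f : adj alt G * adj alt A = 1 := by rw [← adj_mul, e, adj_one]
  have f' : adj alt A * adj alt G = 1 := mul_eq_one_comm.1 f
  rw [isU_iff, adj_sub, adj_sub, adj_add, adj_one]
  generalize adj alt A = B at f f'
  generalize adj alt G = H at f f'
  constructor
  · intro h
    have h1 : H * ((B + B - 1) * (A + A - 1)) * G =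
        (H * B + H * B - H) * (A * G + A * G - G) := by noncomm_ring
    rw [h, f, e, mul_one] at h1
    have h3 : (1 - H + (1 - G)) + (1 - H + (1 - G)) = (1 + 1 - H) * (1 + 1 - G) - H * G := by
      noncomm_ring
    rw [← h1, sub_self] at h3
    rw [eq_neg_iff_add_eq_zero, ← ChB_half h2 (1 - H + (1 - G)), h3, smul_zero]
  · intro h
    have h1 : B * (1 - H + (1 - G)) * A = B * A + B * A - B * H * A - B * (G * A) := by
      noncomm_ring
    rw [h, neg_add_cancel, f', e', mul_zero, zero_mul, one_mul, mul_one] at h1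
    have h3 : (B + B - 1) * (A + A - 1) =
        (B * A + B * A - A - B) + (B * A + B * A - A - B) + 1 := by noncomm_ring
    rw [h3, ← h1, add_zero, zero_add]

theorem ChB_sg (Q : R → Prop) (hn : ∀ c, Q c → Q (-c)) (a : Fin n) {c : R} (h : Q c) :
    Q (sg R alt a * c) := by
  unfold sg
  split_ifs
  · simpa using hn c h
  · simpa using h

/-- A skew matrix is controlled by its coordinates. -/
theorem ChB_ctrl (h2 : 2 * hf = 1) (ho : Function.Injective o) (hs : SymP o) (h₂ : SymP b₂)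
    (h : ChB_St o b₂ Y) (hk : adj alt Y = -Y) (Q : R → Prop) (h0 : Q 0) (hn : ∀ c, Q c → Q (-c))
    (hP : ∀ a b, ChB_P alt o b₂ a b → Q (Y a b)) (a b : Fin n) : Q (Y a b) := by
  have e : sg R alt a.rev * sg R alt b.rev * Y b.rev a.rev = -Y a b := by
    rw [← adj_apply, hk, Matrix.neg_apply]
  rcases lt_trichotomy (o a) (o b) with h1 | h1 | h1
  · rcases lt_or_ge (b₂ b) (b₂ a) with h3 | h3
    · rw [h.2.1 h3]; exact h0
    rcases lt_trichotomy a b.rev with h4 | h4 | h4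
    · exact hP a b ⟨h1, h3, Or.inl h4⟩
    · cases alt
      · have h5 : a.rev = b := by rw [h4, Fin.rev_rev]
        rw [← h4, h5] at e
        simp only [sg, Bool.false_eq_true, false_and, if_false, one_mul] at e
        have : Y a b = 0 := by linear_combination hf * e - Y a b * h2
        rw [this]; exact h0
      · exact hP a b ⟨h1, h3, Or.inr ⟨rfl, h4⟩⟩
    · have h5 := hP b.rev a.rev ⟨hs a b h1, not_lt.1 fun h6 => h3.not_gt (h₂.lt_iff.1 h6),
        Or.inl (by rwa [Fin.rev_rev])⟩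
      have h6 := hn _ (ChB_sg (alt := alt) Q hn a.rev (ChB_sg (alt := alt) Q hn b.rev h5))
      rwa [← mul_assoc, e, neg_neg] at h6
  · rw [ho h1, h.2.2]; exact h0
  · rw [h.1 h1]; exact h0

/-- Skew matrices with prescribed coordinates. -/
theorem ChB_exists (h2 : 2 * hf = 1) (ev : Ev alt n) (hs : SymP o) (h₂ : SymP b₂)
    (y : Fin n → Fin n → R) : ∃ Y : Matrix (Fin n) (Fin n) R, ChB_St o b₂ Y ∧ adj alt Y = -Y ∧
      ∀ a b, ChB_P alt o b₂ a b → Y a b = y a b := by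
  classical
  obtain ⟨Z, hZ⟩ : ∃ Z : Matrix (Fin n) (Fin n) R, ∀ a b, Z a b =
      if ChB_P alt o b₂ a b then (if a = b.rev then hf * y a b else y a b) else 0 :=
    ⟨Matrix.of _, fun _ _ => rfl⟩
  have z1 : Z.BlockTriangular o := fun a b h => by
    rw [hZ, if_neg fun h' => h'.1.not_gt h]
  have z2 : Z.BlockTriangular b₂ := fun a b h => by
    rw [hZ, if_neg fun h' => h'.2.1.not_gt h]
  have z3 : ∀ a, Z a a = 0 := fun a => by rw [hZ, if_neg fun h' => h'.1.false]
  refine ⟨Z - adj alt Z, ⟨z1.sub (hs.adj z1), z2.sub (h₂.adj z2), fun a => ?_⟩, ?_,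
    fun a b h => ?_⟩
  · rw [Matrix.sub_apply, adj_apply_self, z3, z3, sub_zero]
  · rw [adj_sub, adj_adj ev, neg_sub]
  · rw [Matrix.sub_apply, adj_apply]
    rcases h.2.2 with h1 | ⟨h1, h3⟩
    · have h4 : ¬ ChB_P alt o b₂ b.rev a.rev := fun h' => by
        rcases h'.2.2 with h5 | ⟨-, h5⟩ <;> rw [Fin.rev_rev] at h5
        · exact h5.not_gt h1
        · exact h1.ne' h5
      rw [hZ b.rev, if_neg h4, hZ, if_pos h, if_neg h1.ne, mul_zero, sub_zero]
    · have h5 : a.rev = b := by rw [h3, Fin.rev_rev]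
      have h6 := sg_mul_self (R := R) (alt := alt) b
      rw [sg_rev ev b, ← h3, h5, hZ, if_pos h, if_pos h3, eps, if_pos h1]
      linear_combination y a b * h2 + hf * y a b * h6

/-- The Cayley transform of an element of the group. -/
theorem ChB_of (h2 : 2 * hf = 1) (ho : Function.Injective o) (hs : SymP o) (h : Sg alt o b₂ x) :
    ChB_St o b₂ (ChB_cay alt hf x) ∧ adj alt (ChB_cay alt hf x) = -ChB_cay alt hf x ∧
      x = ChB_d x * (ChB_g (ChB_cay alt hf x) + ChB_g (ChB_cay alt hf x) - 1) := by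
  have hd := h.1.1.diag_mul ho hs h.2.1
  have e1 : adj alt (ChB_d x) = diagonal fun a => x a.rev a.rev := adj_diagonal _
  have hD : IsU alt (ChB_d x) := by
    rw [isU_iff, e1, ChB_d, diagonal_mul_diagonal, ← diagonal_one]
    exact congrArg diagonal (funext hd)
  have hb : ∀ b : Fin n → ℕ, x.BlockTriangular b →
      (hf • (1 - adj alt (ChB_d x) * x)).BlockTriangular b := fun b hb a c hc => by
    have := (blockTriangular_one.sub ((e1 ▸ blockTriangular_diagonal _ :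
      (adj alt (ChB_d x)).BlockTriangular b).mul hb)) hc
    rw [Matrix.smul_apply, this, smul_zero]
  have hN : ChB_St o b₂ (hf • (1 - adj alt (ChB_d x) * x)) :=
    ⟨hb o h.2.1, hb b₂ h.2.2, fun a => by simp [e1, hd]⟩
  have e2 : ∀ v : Matrix (Fin n) (Fin n) R, 1 - hf • (1 - v) + (1 - hf • (1 - v)) - 1 = v :=
    fun v => by
      have := ChB_half h2 (1 - v)
      rw [smul_add] at this
      rw [sub_add_sub_comm, this]
      abel
  refine ⟨hN.c ho, (ChB_skew h2 (ChB_mul_g ho hN)).1 ?_, ?_⟩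
  · rw [e2]
    exact hD.adj.mul h.1.1
  · rw [ChB_cay, ChB_g_g ho hN, e2, ← mul_assoc, hD.mul_adj, one_mul]

/-- The inverse of the Cayley transform. -/
theorem ChB_to (h2 : 2 * hf = 1) (ho : Function.Injective o) (hs : SymP o) (h : ChB_St o b₂ Y)
    (hk : adj alt Y = -Y) {d : Fin n → R} (hd : ∀ a, d a.rev * d a = 1)
    (hm : ∀ a, a.rev = a → d a = 1) :
    ∃ x, Sg alt o b₂ x ∧ (∀ a, x a a = d a) ∧ ChB_cay alt hf x = Y := by
  have hD : IsU alt (diagonal d) := by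
    rw [isU_iff, adj_diagonal, diagonal_mul_diagonal, ← diagonal_one]
    exact congrArg diagonal (funext hd)
  have hv : IsU alt (ChB_g Y + ChB_g Y - 1) :=
    (ChB_skew h2 (mul_eq_one_comm.1 (ChB_mul_g ho h))).2 (by rwa [sub_sub_cancel])
  have hb : ∀ b : Fin n → ℕ, Y.BlockTriangular b →
      (diagonal d * (ChB_g Y + ChB_g Y - 1)).BlockTriangular b := fun b hb =>
    (blockTriangular_diagonal d).mul (((ChB_g_bt hb).add (ChB_g_bt hb)).sub blockTriangular_one)
  have e : ∀ a, (diagonal d * (ChB_g Y + ChB_g Y - 1)) a a = d a := fun a => by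
    simp [ChB_g_diag ho h a]
  refine ⟨_, ⟨⟨hD.mul hv, ?_⟩, hb o h.1, hb b₂ h.2.1⟩, e, ?_⟩
  · rw [(hD.mul hv).det_eq ho hs (hb o h.1)]
    exact Finset.prod_eq_one fun a ha => (e a).trans (hm a (Finset.mem_filter.1 ha).2)
  · have e1 : ChB_d (diagonal d * (ChB_g Y + ChB_g Y - 1)) = diagonal d :=
      congrArg diagonal (funext e)
    have e2 : 1 - (ChB_g Y + ChB_g Y - 1) = (1 - ChB_g Y) + (1 - ChB_g Y) := by abel
    rw [ChB_cay, e1, ← mul_assoc, hD.adj_mul, one_mul, e2, ChB_half h2, ChB_g_g ho h,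
      sub_sub_cancel]

end cayley

/-- A connected solvable group of isometries is an open subset of an affine space. -/
theorem hasChart_S (two : (2 : k) ≠ 0) (ev : Ev alt n) {o b₂ : Fin n → ℕ}
    (ho : Function.Injective o) (hs : SymP o) (h₂ : SymP b₂) : HasChart (hFam k alt o b₂) := by
  classical
  obtain ⟨t, ht1, ht2⟩ : ∃ t : {a : Fin n // a < a.rev} ⊕
      {p : Fin n × Fin n // ChB_P alt o b₂ p.1 p.2} → MvPolynomial (Fin n × Fin n) k,
      (∀ (Ω : Type u) [Field Ω] [Algebra k Ω] (x : Fin n × Fin n → Ω) a,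
        evs x t (Sum.inl a) = mat x a.1 a.1) ∧
      ∀ (Ω : Type u) [Field Ω] [Algebra k Ω] (x : Fin n × Fin n → Ω) p,
        evs x t (Sum.inr p) = ChB_cay alt (algebraMap k Ω 2⁻¹) (mat x) p.1.1 p.1.2 := by
    refine ⟨Sum.elim (fun a => X (a.1, a.1)) fun p => ChB_cay alt (C 2⁻¹) (mat X) p.1.1 p.1.2,
      fun Ω _ _ x a => aeval_X _ _, fun Ω _ _ x p => ?_⟩
    have e := ChB_cay_map (alt := alt) (aeval (R := k) x).toRingHom (C 2⁻¹) (mat X)
    have e1 : (mat X).map (aeval (R := k) x).toRingHom = mat x := mat_evs x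
    have e2 : (aeval (R := k) x).toRingHom (C 2⁻¹) = algebraMap k Ω 2⁻¹ := aeval_C _ _
    rw [e1, e2] at e
    exact congrFun (congrFun e p.1.1) p.1.2
  have hD : ∀ (Ω : Type u) [Field Ω] [Algebra k Ω] (y : {a : Fin n // a < a.rev} ⊕
      {p : Fin n × Fin n // ChB_P alt o b₂ p.1 p.2} → Ω),
      aeval (R := k) y (∏ a : {a : Fin n // a < a.rev}, X (Sum.inl a)) ≠ 0 ↔
        ∀ a, y (Sum.inl a) ≠ 0 := fun Ω _ _ y => by
    simp [Finset.prod_ne_zero_iff]
  have h2 : ∀ (Ω : Type u) [Field Ω] [Algebra k Ω], 2 * algebraMap k Ω 2⁻¹ = 1 := fun Ω _ _ => by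
    rw [← map_ofNat (algebraMap k Ω) 2, ← map_mul, mul_inv_cancel₀ two, map_one]
  have hr : ∀ a : Fin n, a.rev < a → a.rev < a.rev.rev := fun a h => by rwa [Fin.rev_rev]
  refine ⟨_, inferInstance, t, ∏ a : {a : Fin n // a < a.rev}, X (Sum.inl a),
    fun Ω _ _ _ x hx => ?_, fun Ω _ _ _ x x' hx hx' e => ?_, fun Ω _ _ _ y hy => ?_,
    fun Ω Ω' _ _ _ _ _ _ Pl x hx hO h0 => ?_⟩
  · refine (hD Ω _).2 fun a => ?_
    rw [ht1]
    exact right_ne_zero_of_mul_eq_one (hx.1.1.diag_mul ho hs hx.2.1 a.1)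
  · obtain ⟨a1, a2, a3⟩ := ChB_of (h2 Ω) ho hs hx
    obtain ⟨b1, b2, b3⟩ := ChB_of (h2 Ω) ho hs hx'
    have e0 : ∀ a : Fin n, a < a.rev → mat x a a = mat x' a a := fun a h => by
      rw [← ht1 Ω x ⟨a, h⟩, e, ht1]
    have e1 : ChB_d (mat x) = ChB_d (mat x') := by
      refine congrArg diagonal (funext fun a => ?_)
      rcases lt_trichotomy a a.rev with h | h | h
      · exact e0 a h
      · rw [hx.1.mid ho hs hx.2.1 h.symm, hx'.1.mid ho hs hx'.2.1 h.symm]
      · rw [eq_inv_of_mul_eq_one_right (hx.1.1.diag_mul ho hs hx.2.1 a),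
          eq_inv_of_mul_eq_one_right (hx'.1.1.diag_mul ho hs hx'.2.1 a), e0 _ (hr a h)]
    have e2 : ChB_cay alt (algebraMap k Ω 2⁻¹) (mat x) =
        ChB_cay alt (algebraMap k Ω 2⁻¹) (mat x') := by
      refine sub_eq_zero.1 (Matrix.ext fun a b => ?_)
      refine ChB_ctrl (alt := alt) (h2 Ω) ho hs h₂ ⟨a1.1.sub b1.1, a1.2.1.sub b1.2.1, fun a => ?_⟩
        ?_ (· = 0) rfl (fun c hc => neg_eq_zero.2 hc) (fun a b h => ?_) a b
      · rw [Matrix.sub_apply, a1.2.2, b1.2.2, sub_zero]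
      · rw [adj_sub, a2, b2, neg_sub_neg, neg_sub]
      · rw [Matrix.sub_apply, ← ht2 Ω x ⟨(a, b), h⟩, e, ht2, sub_self]
    exact mat_injective (by rw [a3, b3, e1, e2])
  · rw [hD] at hy
    obtain ⟨Y, y1, y2, y3⟩ := ChB_exists (o := o) (b₂ := b₂) (h2 Ω) ev hs h₂ fun a b =>
      if h : ChB_P alt o b₂ a b then y (Sum.inr ⟨(a, b), h⟩) else 0
    obtain ⟨d, hd⟩ : ∃ d : Fin n → Ω, ∀ a, d a = if h : a < a.rev then y (Sum.inl ⟨a, h⟩) else
        if h : a.rev < a then (y (Sum.inl ⟨a.rev, hr a h⟩))⁻¹ else 1 := ⟨_, fun _ => rfl⟩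
    have d1 : ∀ a (h : a < a.rev), d a = y (Sum.inl ⟨a, h⟩) := fun a h => by rw [hd, dif_pos h]
    have d2 : ∀ a, a.rev < a → d a.rev * d a = 1 := fun a h => by
      rw [d1 _ (hr a h), hd, dif_neg h.not_gt, dif_pos h, mul_inv_cancel₀ (hy _)]
    have d3 : ∀ a, a.rev = a → d a = 1 := fun a h => by
      rw [hd, dif_neg h.le.not_gt, dif_neg h.ge.not_gt]
    have d4 : ∀ a, d a.rev * d a = 1 := fun a => by
      rcases lt_trichotomy a a.rev with h | h | h
      · have := d2 a.rev (by rwa [Fin.rev_rev])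
        rwa [Fin.rev_rev, mul_comm] at this
      · rw [← h, d3 a h.symm, one_mul]
      · exact d2 a h
    obtain ⟨x, x1, x2, x3⟩ := ChB_to (h2 Ω) ho hs y1 y2 d4 d3
    refine ⟨fun s => x s.1 s.2, x1, funext fun s => ?_⟩
    rcases s with a | p
    · rw [ht1]
      exact (x2 a.1).trans (d1 a.1 a.2)
    · rw [ht2]
      exact (congrFun (congrFun x3 p.1.1) p.1.2).trans ((y3 _ _ p.2).trans (dif_pos p.2))
  · obtain ⟨a1, a2, a3⟩ := ChB_of (h2 Ω) ho hs hx
    rw [hD] at h0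
    simp only [ht1] at h0
    have e0 : ∀ a : Fin n, a < a.rev → mat x a a ∈ Pl.O := fun a h => ht1 Ω x ⟨a, h⟩ ▸ hO _
    have e1 : ChB_d (mat x) ∈ Pl.O.matrix := by
      intro a b
      rw [ChB_d, diagonal_apply]
      split_ifs
      · rcases lt_trichotomy a a.rev with h | h | h
        · exact e0 a h
        · rw [hx.1.mid ho hs hx.2.1 h.symm]
          exact Pl.O.one_mem
        · rw [eq_inv_of_mul_eq_one_right (hx.1.1.diag_mul ho hs hx.2.1 a)]
          exact Pl.inv_mem (e0 _ (hr a h)) (h0 ⟨_, hr a h⟩)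
      · exact zero_mem _
    have e2 : ChB_cay alt (algebraMap k Ω 2⁻¹) (mat x) ∈ Pl.O.matrix :=
      ChB_ctrl (h2 Ω) ho hs h₂ a1 a2 (· ∈ Pl.O) (zero_mem _) (fun c hc => neg_mem hc)
        fun a b h => ht2 Ω x ⟨(a, b), h⟩ ▸ hO _
    have e3 : ChB_g (ChB_cay alt (algebraMap k Ω 2⁻¹) (mat x)) ∈ Pl.O.matrix :=
      sum_mem fun i _ => pow_mem e2 i
    have e4 : mat x ∈ Pl.O.matrix := a3 ▸ mul_mem e1 (sub_mem (add_mem e3 e3) (one_mem _))
    exact fun s => e4 s.1 s.2

end Pool.Agent.MP_0c8446_ag
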