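import Pool.Agent.MP_0c8446_ag.CL.Cbk

namespace Pool.Agent.MP_0c8446_ag

open MvPolynomial Set Matrix

universe u v w

variable {k : Type u} [Field k] {n s : ℕ} {alt : Bool} {e e' : Fin n}
  {v u u₀ : Matrix (Fin n) (Fin n) k}

theorem KL_lt (hs : 2 * s + 2 ≤ n) (he : (e : ℕ) = s) {c : Fin n} (h : c < e) :
    cbk n s c < cbk n s e := by
  refine (cbk_mono h.le).lt_of_ne fun h1 => ?_
  have := cbk_eq h h1 hs
  have := Fin.lt_def.1 h
  omega

theorem KL_blk (hs : 2 * s + 2 ≤ n) (he : (e : ℕ) = s) (he' : (e' : ℕ) = s + 1) {c : Fin n}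
    (h : cbk n s c = cbk n s e) : c = e ∨ c = e' ∨ c = e.rev ∧ 2 * s + 3 = n := by
  rcases lt_trichotomy c e with h1 | h1 | h1
  · exact absurd h (KL_lt hs he h1).ne
  · exact Or.inl h1
  · have := cbk_eq h1 h.symm hs
    simp only [Fin.ext_iff, Fin.val_rev]
    omega

theorem KL_sum2 (hs : 2 * s + 2 ≤ n) (he : (e : ℕ) = s) (he' : (e' : ℕ) = s + 1)
    (h3 : 2 * s + 3 ≠ n) {f : Fin n → k} (hf : ∀ c, cbk n s c ≠ cbk n s e → f c = 0) :
    ∑ c, f c = f e + f e' :=
  Fintype.sum_eq_add e e' (by rw [Ne, Fin.ext_iff]; omega) fun c hc => hf c fun h => by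
    have := KL_blk hs he he' h
    tauto

theorem KL_sum3 (he : (e : ℕ) = s) (he' : (e' : ℕ) = s + 1)
    (h3 : 2 * s + 3 = n) {f : Fin n → k} (hf : ∀ c, cbk n s c ≠ cbk n s e → f c = 0) :
    ∑ c, f c = f e + f e' + f e.rev := by
  rw [← Finset.sum_subset (Finset.subset_univ {e, e', e.rev}) fun c _ hc => hf c fun h => by
    have := KL_blk (by omega) he he' h
    simp only [Finset.mem_insert, Finset.mem_singleton] at hc
    tauto]
  rw [Finset.sum_insert, Finset.sum_pair, add_assoc]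
  · rw [Ne, Fin.ext_iff, Fin.val_rev]; omega
  · simp only [Finset.mem_insert, Finset.mem_singleton, Fin.ext_iff, Fin.val_rev]; omega

theorem KL_zero {b : Fin n → ℕ} (hu : u.BlockTriangular b) (hv : v.BlockTriangular b)
    {a a' : Fin n} (ha : b a = b e) (ha' : b a' = b e) (c : Fin n) (hc : b c ≠ b e) :
    u a c * v c a' = 0 := by
  rcases hc.lt_or_gt with h | h
  · rw [hu (ha ▸ h), zero_mul]
  · rw [hv (ha' ▸ h), mul_zero]

theorem KL_mid (he' : (e' : ℕ) = s + 1) (h3 : 2 * s + 3 = n) : e'.rev = e' := by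
  rw [Fin.ext_iff, Fin.val_rev]; omega

theorem KL_rev (he : (e : ℕ) = s) (he' : (e' : ℕ) = s + 1) (h3 : 2 * s + 3 = n) :
    cbk n s e.rev = cbk n s e := by
  rw [symP_cbk.eq (cbk_succ he he'), KL_mid he' h3, cbk_succ he he']

/-- Isotropy of a column in the block of size three. -/
theorem KL_iso (ev : Ev alt n) (he : (e : ℕ) = s) (he' : (e' : ℕ) = s + 1) (h3 : 2 * s + 3 = n)
    (h : IsU alt v) (hb : v.BlockTriangular (cbk n s)) {a : Fin n} (ha : cbk n s a = cbk n s e)
    (ha' : a ≠ a.rev) : 2 * (v e a * v e.rev a) + v e' a ^ 2 = 0 := by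
  obtain rfl : alt = false := by
    refine Bool.eq_false_iff.2 fun h1 => ?_
    obtain ⟨m, hm⟩ := ev h1
    omega
  have h1 := h.col a a
  rw [if_neg ha', KL_sum3 he he' h3 fun c hc => by
    rcases hc.lt_or_gt with h2 | h2
    · rw [hb (i := c.rev) (by rw [ha, ← KL_rev he he' h3]; exact symP_cbk _ _ h2), mul_zero,
        mul_zero]
    · rw [hb (ha ▸ h2), zero_mul, mul_zero]] at h1
  simp only [sg, Bool.false_eq_true, false_and, if_false, one_mul, KL_mid he' h3,
    Fin.rev_rev] at h1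
  linear_combination h1

/-- An element of the minimal parabolic subgroup that fixes the line `e` lies in the Borel
subgroup. -/
theorem kl_big (two : (2 : k) ≠ 0) (ev : Ev alt n)
    (hs : 2 * s + 2 < n ∨ alt = true ∧ 2 * s + 2 = n)
    (he : (e : ℕ) = s) (he' : (e' : ℕ) = s + 1) (h : IsU alt v) (hb : v.BlockTriangular (cbk n s))
    (h0 : v e' e = 0) (h1 : v e e ≠ 0) : v.BlockTriangular Fin.val := by
  have hs' : 2 * s + 2 ≤ n := by omega
  have h2 : ∀ c, e < c → v c e = 0 := fun c hc => by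
    rcases (cbk_mono (s := s) hc.le).eq_or_lt with h3 | h3
    · rcases KL_blk hs' he he' h3.symm with rfl | rfl | ⟨rfl, h4⟩
      · exact absurd hc (lt_irrefl _)
      · exact h0
      · have h5 := KL_iso ev he he' h4 h hb rfl hc.ne
        rw [h0] at h5
        simpa [two, h1] using h5
    · exact hb h3
  have h3 : v e.rev e'.rev = 0 := by
    have h4 := h.col e e'.rev
    rw [if_neg (by rw [Fin.rev_inj, Fin.ext_iff]; omega), Fintype.sum_eq_single e fun c hc => by
      rcases hc.lt_or_gt with h5 | h5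
      · rw [hb (i := c.rev) (symP_cbk _ _ (cbk_succ he he' ▸ KL_lt hs' he h5)), mul_zero, mul_zero]
      · rw [h2 c h5, zero_mul, mul_zero]] at h4
    have h5 : sg k alt e ≠ 0 := left_ne_zero_of_mul_eq_one (sg_mul_self e)
    simpa [h5, h1] using h4
  intro i j hij
  rcases (cbk_mono (s := s) (Fin.lt_def.2 hij).le).eq_or_lt with h4 | h4
  · have h5 := cbk_eq (Fin.lt_def.2 hij) h4 hs'
    by_cases hj : j = e
    · subst hj
      exact h2 i hij
    · rw [Fin.ext_iff] at hj
      rwa [show i = e.rev by rw [Fin.ext_iff, Fin.val_rev]; omega,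
        show j = e'.rev by rw [Fin.ext_iff, Fin.val_rev]; omega]
  · exact hb h4

/-- The elements with vanishing corner entry form one coset of the Borel subgroup. -/
theorem kl_small (two : (2 : k) ≠ 0) (ev : Ev alt n)
    (hs : 2 * s + 2 < n ∨ alt = true ∧ 2 * s + 2 = n)
    (he : (e : ℕ) = s) (h : IsU alt u) (hb : u.BlockTriangular (cbk n s)) (h0 : u e e = 0)
    (h' : IsU alt u₀) (hb' : u₀.BlockTriangular (cbk n s)) (h0' : u₀ e e = 0) :
    (adj alt u₀ * u).BlockTriangular Fin.val := by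
  have hs' : 2 * s + 2 ≤ n := by omega
  obtain ⟨e', he'⟩ : ∃ e' : Fin n, (e' : ℕ) = s + 1 := ⟨⟨s + 1, by omega⟩, rfl⟩
  have hw := symP_cbk.adj (alt := alt) hb'
  have hv := h'.adj.mul h
  have hvb := hw.mul hb
  have h1 := congrFun (congrFun hv.adj_mul e) e
  have hz := KL_zero (e := e) (symP_cbk.adj (alt := alt) hvb) hvb rfl rfl
  rw [Matrix.mul_apply, one_apply_eq] at h1
  by_cases h3 : 2 * s + 3 = n
  · have hne : e ≠ e.rev := by rw [Ne, Fin.ext_iff, Fin.val_rev]; omega
    have h4 := KL_iso ev he he' h3 h hb rfl hne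
    have h5 := KL_iso ev he he' h3 h'.adj hw (KL_rev he he' h3) (by rw [Fin.rev_rev]; exact hne.symm)
    have h6 : adj alt u₀ e.rev e.rev = 0 := by rw [adj_apply_self, Fin.rev_rev, h0']
    rw [h0, zero_mul, mul_zero, zero_add, sq_eq_zero_iff] at h4
    rw [h6, mul_zero, mul_zero, zero_add, sq_eq_zero_iff] at h5
    have h7 : (adj alt u₀ * u) e' e = 0 := by
      rw [Matrix.mul_apply, KL_sum3 he he' h3 (KL_zero hw hb (cbk_succ he he').symm rfl), h0, h4,
        h5]
      ring
    have h8 : (adj alt u₀ * u) e.rev e = 0 := by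
      rw [Matrix.mul_apply, KL_sum3 he he' h3 (KL_zero hw hb (KL_rev he he' h3) rfl), h0, h4, h6]
      ring
    rw [KL_sum3 he he' h3 hz, h7, h8, mul_zero, mul_zero, add_zero, add_zero] at h1
    exact kl_big two ev hs he he' hv hvb h7 (right_ne_zero_of_mul_eq_one h1)
  · have h4 := congrFun (congrFun h'.mul_adj e) e
    rw [Matrix.mul_apply, one_apply_eq, KL_sum2 hs' he he' h3 (KL_zero hb' hw rfl rfl), h0',
      zero_mul, zero_add] at h4
    have h5 : (u₀ * (adj alt u₀ * u)) e e = 0 := by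
      rw [← Matrix.mul_assoc, h'.mul_adj, Matrix.one_mul, h0]
    rw [Matrix.mul_apply, KL_sum2 hs' he he' h3 (KL_zero hb' hvb rfl rfl), h0', zero_mul,
      zero_add] at h5
    have h7 := (mul_eq_zero.1 h5).resolve_left (left_ne_zero_of_mul_eq_one h4)
    rw [KL_sum2 hs' he he' h3 hz, h7, mul_zero, add_zero] at h1
    exact kl_big two ev hs he he' hv hvb h7 (right_ne_zero_of_mul_eq_one h1)

theorem kl_mul (hs : 2 * s + 2 ≤ n) (he : (e : ℕ) = s) (hb : u.BlockTriangular (cbk n s))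
    (hv : v.BlockTriangular Fin.val) : (u * v) e e = u e e * v e e := by
  rw [Matrix.mul_apply]
  refine Fintype.sum_eq_single e fun c hc => ?_
  rcases hc.lt_or_gt with h | h
  · rw [hb (KL_lt hs he h), zero_mul]
  · rw [hv (Fin.lt_def.1 h), mul_zero]

/-- If `b₂` separates `e` and `e'`, the pair of block structures separates all positions. -/
theorem kl_lex (hs : 2 * s + 2 ≤ n) (he : (e : ℕ) = s) (he' : (e' : ℕ) = s + 1) {b₂ : Fin n → ℕ}
    (h₂ : SymP b₂) (hne : b₂ e ≠ b₂ e') :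
    ∃ o : Fin n → ℕ, Function.Injective o ∧ SymP o ∧
      ∀ a b, (o a < o b ∨ b₂ a < b₂ b) ↔ (cbk n s a < cbk n s b ∨ b₂ a < b₂ b) := by
  obtain ⟨K, hK⟩ : ∃ K, ∀ a, b₂ a < K :=
    ⟨Finset.univ.sup b₂ + 1, fun a => Nat.lt_succ_of_le (Finset.le_sup (Finset.mem_univ a))⟩
  have h1 : ∀ a b, cbk n s a < cbk n s b → cbk n s a * K + b₂ a < cbk n s b * K + b₂ b :=
    fun a b h => by nlinarith [Nat.mul_le_mul_right K (Nat.succ_le_of_lt h), hK a]
  have h2 : ∀ a b, cbk n s a * K + b₂ a < cbk n s b * K + b₂ b ↔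
      cbk n s a < cbk n s b ∨ cbk n s a = cbk n s b ∧ b₂ a < b₂ b := fun a b => by
    rcases lt_trichotomy (cbk n s a) (cbk n s b) with h | h | h
    · simp [h, h1 a b h]
    · simp [h]
    · simp [h.not_gt, h.ne', (h1 b a h).le]
  have h3 : ∀ a b, a < b → cbk n s a = cbk n s b → b₂ a ≠ b₂ b := fun a b h h' h4 => by
    rcases cbk_eq h h' hs with h5 | h5 | h5
    · rw [show a = e by rw [Fin.ext_iff]; omega, show b = e' by rw [Fin.ext_iff]; omega] at h4
      exact hne h4
    · have h6 := h₂.eq h4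
      rw [show a.rev = e' by rw [Fin.ext_iff, Fin.val_rev]; omega,
        show b.rev = e by rw [Fin.ext_iff, Fin.val_rev]; omega] at h6
      exact hne h6.symm
    · rw [show a = e by rw [Fin.ext_iff]; omega,
        show b = e.rev by rw [Fin.ext_iff, Fin.val_rev]; omega] at h4
      have h6 := h₂ e e'
      have h7 := h₂ e' e
      rw [KL_mid he' h5.2.2, ← h4] at h6 h7
      omega
  refine ⟨fun a => cbk n s a * K + b₂ a, fun a b h => ?_, fun a b h => ?_, fun a b => ?_⟩
  · have h4 := (h2 a b).not.1 h.not_lt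
    have h5 := (h2 b a).not.1 h.not_gt
    rcases lt_trichotomy a b with h6 | h6 | h6
    · exact absurd (by omega) (h3 a b h6 (by omega))
    · exact h6
    · exact absurd (by omega) (h3 b a h6 (by omega))
  · exact (h2 _ _).2 (((h2 a b).1 h).imp (symP_cbk a b) fun h => ⟨symP_cbk.eq h.1.symm, h₂ a b h.2⟩)
  · rw [h2]
    tauto

end Pool.Agent.MP_0c8446_ag
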