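import Pool.Agent.MP_0c8446_ag.CL.ChB
import Pool.Agent.MP_0c8446_ag.CL.KL

namespace Pool.Agent.MP_0c8446_ag

open MvPolynomial Set Matrix

universe u v w

variable {k : Type u} [Field k] [IsAlgClosed k] {n s : ℕ} {alt : Bool} {e e' : Fin n}
  {b₂ : Fin n → ℕ}

omit [IsAlgClosed k] in
theorem ChC_two (two : (2 : k) ≠ 0) (Ω : Type u) [Field Ω] [Algebra k Ω] : (2 : Ω) ≠ 0 := by
  intro h
  apply two
  apply (algebraMap k Ω).injective
  rw [map_ofNat, h, map_zero]

omit [IsAlgClosed k] in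
theorem ChC_half (two : (2 : k) ≠ 0) (Ω : Type u) [Field Ω] [Algebra k Ω] :
    2 * algebraMap k Ω (1 / 2) = 1 := by
  rw [← map_ofNat (algebraMap k Ω) 2, ← map_mul, mul_one_div_cancel two, map_one]

theorem ChC_ok (hs : 2 * s + 2 < n ∨ alt = true ∧ 2 * s + 2 = n) (he : (e : ℕ) = s)
    (he' : (e' : ℕ) = s + 1) : RtOK alt e' e := by
  refine ⟨fun h => ?_, fun h => ?_⟩
  · rw [h] at he'
    omega
  · have := congrArg Fin.val h
    rw [Fin.val_rev] at this
    rcases hs with hs | hs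
    · omega
    · exact hs.1

theorem ChC_bt {R : Type u} [CommRing R] {v : Matrix (Fin n) (Fin n) R}
    (h : v.BlockTriangular Fin.val) : v.BlockTriangular (cbk n s) := by
  intro a b hab
  apply h
  by_contra h0
  exact absurd (cbk_mono (s := s) (a := a) (a' := b) (Fin.le_def.2 (not_lt.1 h0))) (not_le.2 hab)

theorem ChC_bt_map {R R' : Type u} [CommRing R] [CommRing R'] (φ : R →+* R') {o : Fin n → ℕ}
    {v : Matrix (Fin n) (Fin n) R} (h : v.BlockTriangular o) : (v.map φ).BlockTriangular o := by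
  intro a b hab
  rw [Matrix.map_apply, h hab, map_zero]

theorem ChC_row {R : Type u} [CommRing R] (hs : 2 * s + 2 < n ∨ alt = true ∧ 2 * s + 2 = n)
    (he : (e : ℕ) = s) (he' : (e' : ℕ) = s + 1) (hf τ : R) (v : Matrix (Fin n) (Fin n) R)
    (b : Fin n) : (xR alt e' e hf τ * v) e b = v e b := by
  have hn : 2 * s + 2 ≤ n := by rcases hs with hs | hs <;> omega
  have h1 : e ≠ e' := fun h => by rw [← h] at he'; omega
  have h2 : e ≠ e.rev := fun h => by
    have := congrArg Fin.val h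
    rw [Fin.val_rev] at this
    omega
  have h3 : ∀ d, xR alt e' e hf τ e d = if e = d then 1 else 0 := fun d =>
    xR_apply_of_ne (ChC_ok hs he he') (fun h => h1 h.1) (fun h => h2 h.1)
      (fun h => h2 h.1.symm) (fun h => h2 h.2.1)
  simp [Matrix.mul_apply, h3]

theorem ChC_row' {R : Type u} [CommRing R] (hs : 2 * s + 2 < n ∨ alt = true ∧ 2 * s + 2 = n)
    (he : (e : ℕ) = s) (he' : (e' : ℕ) = s + 1) (hf τ : R) (v : Matrix (Fin n) (Fin n) R)
    (b : Fin n) : (xR alt e' e hf τ * v) e' b = v e' b + τ * v e b := by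
  have hn : 2 * s + 2 ≤ n := by rcases hs with hs | hs <;> omega
  have h1 : e ≠ e' := fun h => by rw [← h] at he'; omega
  have h2 : e ≠ e.rev := fun h => by
    have := congrArg Fin.val h
    rw [Fin.val_rev] at this
    omega
  have h3 : ∀ d, xR alt e' e hf τ e' d = (if e' = d then 1 else 0) + if e = d then τ else 0 := by
    intro d
    by_cases hd : e = d
    · subst hd
      rw [xR_apply (ChC_ok hs he he'), if_neg h1.symm, if_pos rfl, zero_add]
    · rw [if_neg hd, add_zero]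
      refine xR_apply_of_ne (ChC_ok hs he he') (fun h => hd h.2.symm) (fun h => hd ?_)
        (fun h => h2 h.1.symm) (fun h => hd h.2.2.symm)
      rw [h.2, h.1, Fin.rev_rev]
  simp [Matrix.mul_apply, h3, add_mul, Finset.sum_add_distrib]

omit [IsAlgClosed k] in
theorem ChC_ev {σ : Type} {Ω : Type u} [Field Ω] [Algebra k Ω] (x : σ → Ω)
    (i : Fin n × Fin n → σ) (t : MvPolynomial σ k) :
    (xR alt e' e (C (1 / 2)) t * mat fun p => X (i p)).map (aeval (R := k) x) =
      xR alt e' e (algebraMap k Ω (1 / 2)) (aeval x t) * mat fun p => x (i p) := by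
  refine (Matrix.map_mul (f := (aeval (R := k) x).toRingHom)).trans (congrArg₂ (· * ·) ?_ ?_)
  · refine (xR_map (aeval (R := k) x) e' e _ _).trans ?_
    rw [aeval_C]
  · ext a b
    simp [mat]

omit [IsAlgClosed k] in
theorem ChC_ev' {σ : Type} {Ω : Type u} [Field Ω] [Algebra k Ω] (x : σ → Ω)
    (i : Fin n × Fin n → σ) (m : Matrix (Fin n) (Fin n) k) :
    (m.map C * mat fun p => (X (i p) : MvPolynomial σ k)).map (aeval (R := k) x) =
      m.map (algebraMap k Ω) * mat fun p => x (i p) := by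
  refine (Matrix.map_mul (f := (aeval (R := k) x).toRingHom)).trans (congrArg₂ (· * ·) ?_ ?_)
  · ext a b
    simp
  · ext a b
    simp [mat]

omit [IsAlgClosed k] in
/-- The big cell. -/
theorem chart_big (two : (2 : k) ≠ 0) (ev : Ev alt n)
    (hs : 2 * s + 2 < n ∨ alt = true ∧ 2 * s + 2 = n) (he : (e : ℕ) = s) (he' : (e' : ℕ) = s + 1)
    (h₂ : SymP b₂) (hb : b₂ e = b₂ e') :
    HasChart ((hFam k alt (cbk n s) b₂).cut (fun _ : Unit => X (e, e)) fun _ => true) := by
  have ok := ChC_ok hs he he'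
  have hc : cbk n s e' ≤ cbk n s e := (cbk_succ he he').ge
  let τ : MvPolynomial ((Fin n × Fin n) ⊕ Unit) k := X (Sum.inr ()) * X (Sum.inl (e', e))
  let m₁ : Matrix (Fin n) (Fin n) (MvPolynomial ((Fin n × Fin n) ⊕ Unit) k) :=
    xR alt e' e (C (1 / 2)) (-τ) * mat fun p => X (Sum.inl p)
  let m₂ : Matrix (Fin n) (Fin n) (MvPolynomial (Option (Fin n × Fin n)) k) :=
    xR alt e' e (C (1 / 2)) (X none) * mat fun p => X (some p)
  let φ : Option (Fin n × Fin n) → MvPolynomial ((Fin n × Fin n) ⊕ Unit) k := fun o =>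
    o.elim τ fun p => m₁ p.1 p.2
  let ψ : (Fin n × Fin n) ⊕ Unit → MvPolynomial (Option (Fin n × Fin n)) k :=
    Sum.elim (fun p => m₂ p.1 p.2) fun _ => X (some (e.rev, e.rev))
  have hφ : ∀ (Ω : Type u) [Field Ω] [Algebra k Ω] (x : (Fin n × Fin n) ⊕ Unit → Ω),
      evs x φ none = x (Sum.inr ()) * x (Sum.inl (e', e)) ∧
      (mat fun p => evs x φ (some p)) = xR alt e' e (algebraMap k Ω (1 / 2))
        (-(x (Sum.inr ()) * x (Sum.inl (e', e)))) * mat fun p => x (Sum.inl p) := by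
    intro Ω _ _ x
    have h1 : aeval x τ = x (Sum.inr ()) * x (Sum.inl (e', e)) := by simp [τ]
    refine ⟨h1, ?_⟩
    rw [← h1, ← map_neg, ← ChC_ev]
    rfl
  have hψ : ∀ (Ω : Type u) [Field Ω] [Algebra k Ω] (y : Option (Fin n × Fin n) → Ω),
      evs y ψ (Sum.inr ()) = y (some (e.rev, e.rev)) ∧
      (mat fun p => evs y ψ (Sum.inl p)) = xR alt e' e (algebraMap k Ω (1 / 2))
        (y none) * mat fun p => y (some p) := by
    intro Ω _ _ y
    refine ⟨aeval_X y _, ?_⟩
    rw [← aeval_X (R := k) y none, ← ChC_ev]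
    rfl
  refine HasChart.of_iso (φ := φ) (ψ := ψ) (R' := (hFam k alt Fin.val b₂).opt) ⟨?_, ?_⟩
    (hasChart_S two ev Fin.val_injective symP_val h₂).opt
  · intro Ω _ _ _ x hx
    obtain ⟨⟨hu, hu1, hu2⟩, hz⟩ := hx
    have hz' : x (Sum.inr ()) * x (Sum.inl (e, e)) = 1 := by
      have := hz ()
      simpa [CutC] using this
    have hne : x (Sum.inl (e, e)) ≠ 0 := right_ne_zero_of_mul_eq_one hz'
    obtain ⟨h1, h2⟩ := hφ Ω x
    obtain ⟨h3, h4⟩ := hψ Ω (evs x φ)
    have hee : (mat fun p => evs x φ (some p)) e e = x (Sum.inl (e, e)) := by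
      rw [h2, ChC_row hs he he']
      rfl
    have hsu : SU alt (mat fun p => evs x φ (some p)) := by
      rw [h2]
      exact (su_xR ev ok (ChC_half two Ω)).mul hu
    have hv : (mat fun p => evs x φ (some p)).BlockTriangular Fin.val := by
      refine kl_big (ChC_two two Ω) ev hs he he' hsu.1 ?_ ?_ (hee ▸ hne)
      · rw [h2]
        exact (xR_bt ok symP_cbk hc).mul hu1
      · rw [h2, ChC_row' hs he he']
        change x (Sum.inl (e', e)) + -(x (Sum.inr ()) * x (Sum.inl (e', e))) *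
          x (Sum.inl (e, e)) = 0
        linear_combination (-x (Sum.inl (e', e))) * hz'
    refine ⟨⟨hsu, hv, ?_⟩, ?_⟩
    · rw [h2]
      exact (xR_bt ok h₂ hb.ge).mul hu2
    · rw [h1, h2, ← mul_assoc, xR_add ok (ChC_half two Ω), add_neg_cancel, xR_zero, one_mul] at h4
      funext p
      rcases p with p | p
      · exact congrFun (mat_injective h4) p
      · refine h3.trans (mul_right_cancel₀ hne ?_)
        rw [hz', ← hee]
        exact hsu.1.diag_mul Fin.val_injective symP_val hv e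
  · intro Ω _ _ _ y hy
    obtain ⟨hu, hu1, hu2⟩ := hy
    obtain ⟨h1, h2⟩ := hψ Ω y
    obtain ⟨h3, h4⟩ := hφ Ω (evs y ψ)
    have hd : y (some (e.rev, e.rev)) * y (some (e, e)) = 1 :=
      hu.1.diag_mul Fin.val_injective symP_val hu1 e
    have hee : evs y ψ (Sum.inl (e, e)) = y (some (e, e)) := by
      change (mat fun p => evs y ψ (Sum.inl p)) e e = _
      rw [h2, ChC_row hs he he']
      rfl
    have h0 : y (some (e', e)) = 0 := hu1 (i := e') (j := e) (by omega)
    have he2 : evs y ψ (Sum.inl (e', e)) = y none * y (some (e, e)) := by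
      change (mat fun p => evs y ψ (Sum.inl p)) e' e = _
      rw [h2, ChC_row' hs he he']
      change y (some (e', e)) + y none * y (some (e, e)) = _
      rw [h0, zero_add]
    have h5 : evs y ψ (Sum.inr ()) * evs y ψ (Sum.inl (e', e)) = y none := by
      rw [h1, he2]
      linear_combination (y none) * hd
    refine ⟨⟨?_, fun i => ?_⟩, ?_⟩
    · change Sg alt (cbk n s) b₂ (mat fun p => evs y ψ (Sum.inl p))
      rw [h2]
      exact ⟨(su_xR ev ok (ChC_half two Ω)).mul hu, (xR_bt ok symP_cbk hc).mul (ChC_bt hu1),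
        (xR_bt ok h₂ hb.ge).mul hu2⟩
    · rw [aeval_X, hee, h1]
      exact (if_pos rfl).mpr hd
    · rw [h5, h2, ← mul_assoc, xR_add ok (ChC_half two Ω), neg_add_cancel, xR_zero, one_mul] at h4
      funext p
      rcases p with _ | p
      · exact h3.trans h5
      · exact congrFun (mat_injective h4) p

/-- The small cell. -/
theorem chart_small (two : (2 : k) ≠ 0) (ev : Ev alt n)
    (hs : 2 * s + 2 < n ∨ alt = true ∧ 2 * s + 2 = n) (he : (e : ℕ) = s) (h₂ : SymP b₂) :
    HasChart ((hFam k alt (cbk n s) b₂).cut (fun _ : Unit => X (e, e)) fun _ => false) := by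
  have hn : 2 * s + 2 ≤ n := by rcases hs with hs | hs <;> omega
  refine HasChart.of_base ((closed_hFam _ _).cut _ _) fun x₀ hx₀ => ?_
  obtain ⟨⟨hw, hw1, hw2⟩, hw3⟩ := hx₀
  have hw0 : x₀ (Sum.inl (e, e)) = 0 := by
    have := hw3 ()
    simp only [CutC, aeval_X] at this
    exact ((if_neg Bool.false_ne_true).mp this).1
  set u₀ : Matrix (Fin n) (Fin n) k := mat fun p => x₀ (Sum.inl p) with hu₀
  have hm0 : ∀ (Ω : Type u) [Field Ω] [Algebra k Ω], u₀.map (algebraMap k Ω) e e = 0 := by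
    intro Ω _ _
    change algebraMap k Ω (x₀ (Sum.inl (e, e))) = 0
    rw [hw0, map_zero]
  let m₁ : Matrix (Fin n) (Fin n) (MvPolynomial ((Fin n × Fin n) ⊕ Unit) k) :=
    (adj alt u₀).map C * mat fun p => X (Sum.inl p)
  let m₂ : Matrix (Fin n) (Fin n) (MvPolynomial (Fin n × Fin n) k) :=
    u₀.map C * mat fun p => X p
  let φ : Fin n × Fin n → MvPolynomial ((Fin n × Fin n) ⊕ Unit) k := fun p => m₁ p.1 p.2
  let ψ : (Fin n × Fin n) ⊕ Unit → MvPolynomial (Fin n × Fin n) k :=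
    Sum.elim (fun p => m₂ p.1 p.2) fun _ => 0
  have hφ : ∀ (Ω : Type u) [Field Ω] [Algebra k Ω] (x : (Fin n × Fin n) ⊕ Unit → Ω),
      mat (evs x φ) = adj alt (u₀.map (algebraMap k Ω)) * mat fun p => x (Sum.inl p) := by
    intro Ω _ _ x
    rw [← adj_map, ← ChC_ev']
    rfl
  have hψ : ∀ (Ω : Type u) [Field Ω] [Algebra k Ω] (y : Fin n × Fin n → Ω),
      evs y ψ (Sum.inr ()) = 0 ∧
      (mat fun p => evs y ψ (Sum.inl p)) = u₀.map (algebraMap k Ω) * mat y := by
    intro Ω _ _ y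
    refine ⟨map_zero (aeval (R := k) y), ?_⟩
    exact ChC_ev' y id u₀
  refine HasChart.of_iso (φ := φ) (ψ := ψ) (R' := hFam k alt Fin.val b₂) ⟨?_, ?_⟩
    (hasChart_S two ev Fin.val_injective symP_val h₂)
  · intro Ω _ _ _ x hx
    obtain ⟨⟨hu, hu1, hu2⟩, hz⟩ := hx
    have hz' : x (Sum.inl (e, e)) = 0 ∧ x (Sum.inr ()) = 0 := by
      have := hz ()
      simp only [CutC, aeval_X] at this
      exact (if_neg Bool.false_ne_true).mp this
    have hw' := hw.map (algebraMap k Ω)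
    obtain ⟨h3, h4⟩ := hψ Ω (evs x φ)
    refine ⟨?_, ?_⟩
    · change Sg alt Fin.val b₂ (mat (evs x φ))
      rw [hφ]
      exact ⟨hw'.adj.mul hu, kl_small (ChC_two two Ω) ev hs he hu.1 hu1 hz'.1 hw'.1
        (ChC_bt_map _ hw1) (hm0 Ω), (h₂.adj (ChC_bt_map _ hw2)).mul hu2⟩
    · rw [hφ, ← mul_assoc, hw'.1.mul_adj, one_mul] at h4
      funext p
      rcases p with p | p
      · exact congrFun (mat_injective h4) p
      · exact h3.trans hz'.2.symm
  · intro Ω _ _ _ y hy
    obtain ⟨hu, hu1, hu2⟩ := hy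
    obtain ⟨h1, h2⟩ := hψ Ω y
    have hw' := hw.map (algebraMap k Ω)
    refine ⟨⟨?_, fun i => ?_⟩, ?_⟩
    · change Sg alt (cbk n s) b₂ (mat fun p => evs y ψ (Sum.inl p))
      rw [h2]
      exact ⟨hw'.mul hu, (ChC_bt_map _ hw1).mul (ChC_bt hu1), (ChC_bt_map _ hw2).mul hu2⟩
    · rw [aeval_X]
      refine (if_neg Bool.false_ne_true).mpr ⟨?_, h1⟩
      change (mat fun p => evs y ψ (Sum.inl p)) e e = 0
      rw [h2, kl_mul hn he (ChC_bt_map _ hw1) hu1, hm0, zero_mul]
    · apply mat_injective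
      rw [hφ, h2, ← mul_assoc, hw'.1.adj_mul, one_mul]

theorem cell_H (two : (2 : k) ≠ 0) (ev : Ev alt n)
    (hs : 2 * s + 2 < n ∨ alt = true ∧ 2 * s + 2 = n) (h₂ : SymP b₂) :
    Cell (hFam k alt (cbk n s) b₂) := by
  have hn : 2 * s + 2 ≤ n := by rcases hs with hs | hs <;> omega
  let e : Fin n := ⟨s, by omega⟩
  let e' : Fin n := ⟨s + 1, by omega⟩
  have he : (e : ℕ) = s := rfl
  have he' : (e' : ℕ) = s + 1 := rfl
  by_cases hb : b₂ e = b₂ e'
  · refine ⟨Unit, inferInstance, fun _ => X (e, e), fun T => ?_⟩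
    have hT : T = fun _ => T () := rfl
    rw [hT]
    cases T ()
    · exact chart_small two ev hs he h₂
    · exact chart_big two ev hs he he' h₂ hb
  · obtain ⟨o, ho, hso, h⟩ := kl_lex hn he he' h₂ hb
    refine ((hasChart_S two ev ho hso h₂).congr fun Ω _ _ _ x => ?_).cell
    constructor
    · rintro ⟨h1, h2, h3⟩
      refine ⟨h1, fun a b hab => ?_, h3⟩
      rcases (h b a).1 (Or.inl hab) with h4 | h4
      · exact h2 h4
      · exact h3 h4
    · rintro ⟨h1, h2, h3⟩
      refine ⟨h1, fun a b hab => ?_, h3⟩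
      rcases (h b a).2 (Or.inl hab) with h4 | h4
      · exact h2 h4
      · exact h3 h4

end Pool.Agent.MP_0c8446_ag
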