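import Pool.Agent.MP_0c8446_ag.CL.ChC
import Pool.Agent.MP_0c8446_ag.CL.NuA

namespace Pool.Agent.MP_0c8446_ag

open MvPolynomial Set Matrix

universe u v w

variable {k : Type u} [Field k] [IsAlgClosed k] {n r : ℕ} {alt : Bool}

omit [IsAlgClosed k] in
theorem ChD_sw {t : Bool} (ht : alt = true → t = false) {b₁ b₂ c₁ c₂ : Fin n → ℕ}
    (h₁ : c₁ = b₁ ∘ sw n t) (h₂ : c₂ = b₂ ∘ sw n t) (Ω : Type u) [Field Ω] [Algebra k Ω]
    [IsAlgClosed Ω] (x : Fin n × Fin n → Ω) (h : hFam k alt b₁ b₂ Ω x) :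
    hFam k alt c₁ c₂ Ω (evs x fun s : Fin n × Fin n =>
      (X (sw n t s.1, sw n t s.2) : MvPolynomial (Fin n × Fin n) k)) ∧
    evs (evs x fun s : Fin n × Fin n =>
      (X (sw n t s.1, sw n t s.2) : MvPolynomial (Fin n × Fin n) k)) (fun s : Fin n × Fin n =>
      (X (sw n t s.1, sw n t s.2) : MvPolynomial (Fin n × Fin n) k)) = x := by
  constructor
  · have e : mat (evs x fun s : Fin n × Fin n =>
        (X (sw n t s.1, sw n t s.2) : MvPolynomial (Fin n × Fin n) k)) =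
        (mat x).submatrix (sw n t) (sw n t) := by
      ext a b
      simp [mat, evs]
    change Sg alt c₁ c₂ _
    rw [e, h₁, h₂]
    exact ⟨h.1.submatrix_sw ht, h.2.1.submatrix, h.2.2.submatrix⟩
  · funext s
    simp [evs, sw_sw]

theorem cell_H_sw (two : (2 : k) ≠ 0) (ev : Ev alt n) {s : ℕ}
    (hs : 2 * s + 2 < n ∨ alt = true ∧ 2 * s + 2 = n) {t : Bool} (ht : alt = true → t = false)
    {b₂ : Fin n → ℕ} (h₂ : SymP b₂) : Cell (hFam k alt (cbk n s ∘ sw n t) b₂) := by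
  have e : ∀ b : Fin n → ℕ, b = (b ∘ sw n t) ∘ sw n t := fun b => funext fun a => by
    simp [sw_sw]
  exact Cell.of_iso ⟨ChD_sw ht (e _) rfl, ChD_sw ht rfl (e _)⟩
    (cell_H two ev hs (h₂.comp (sw_rev t)))

theorem ChD_iff {R : Type u} [CommRing R] {b₁ b₂ : Fin n → ℕ} (π : Equiv.Perm (Fin n))
    (x : Fin n × Fin n → R) : (∀ a b, b₁ b < b₁ a ∨ b₂ (π b) < b₂ a → x (a, b) = 0) ↔
      (mat x).BlockTriangular b₁ ∧ ((mat x).submatrix id π.symm).BlockTriangular b₂ := by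
  refine ⟨fun h => ⟨fun a b hab => h a b (Or.inl hab), fun a b hab => h a _ (Or.inr ?_)⟩, ?_⟩
  · rwa [Equiv.apply_symm_apply]
  · rintro ⟨h1, h2⟩ a b (hab | hab)
    · exact h1 hab
    · have := h2 hab
      rwa [submatrix_apply, Equiv.symm_apply_apply] at this

theorem ChD_mul_adj {Ω : Type u} [Field Ω] {b₁ b₂ : Fin n → ℕ} (π : Equiv.Perm (Fin n))
    {d d₀ : Matrix (Fin n) (Fin n) Ω} (h : SU alt d) (h1 : d.BlockTriangular b₁)
    (h2 : (d.submatrix id π.symm).BlockTriangular b₂) (g : SU alt d₀)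
    (g1 : d₀.BlockTriangular b₁) (g2 : (d₀.submatrix id π.symm).BlockTriangular b₂) :
    Sg alt b₁ b₂ (d * adj alt d₀) := by
  refine ⟨h.mul g.adj, ?_, ?_⟩
  · rw [← g.1.inv_eq]
    exact h1.mul (RlA0_tri g.1.isUnit g1)
  · have e : d * adj alt d₀ = d.submatrix id π.symm * (d₀.submatrix id π.symm)⁻¹ := by
      have := inv_submatrix_equiv d₀ (Equiv.refl _) π.symm
      rw [Equiv.coe_refl] at this
      rw [this, submatrix_mul_equiv, submatrix_id_id, g.1.inv_eq]
    rw [e]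
    exact h2.mul (RlA0_tri (isUnit_submatrix g.1.isUnit π.symm) g2)

/-- Right multiplication by a constant matrix. -/
noncomputable def ChD_rm (m : Matrix (Fin n) (Fin n) k) (s : Fin n × Fin n) :
    MvPolynomial (Fin n × Fin n) k :=
  (mat X * m.map C : Matrix (Fin n) (Fin n) (MvPolynomial (Fin n × Fin n) k)) s.1 s.2

omit [IsAlgClosed k] in
theorem ChD_evs {Ω : Type u} [Field Ω] [Algebra k Ω] (m : Matrix (Fin n) (Fin n) k)
    (x : Fin n × Fin n → Ω) : mat (evs x (ChD_rm m)) = mat x * m.map (algebraMap k Ω) := by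
  ext a b
  simp [mat, evs, ChD_rm, Matrix.mul_apply]

/-- A nonempty set of transition matrices is a coset. -/
theorem cell_coset {b₁ b₂ : Fin n → ℕ} (π : Equiv.Perm (Fin n)) (h : Cell (hFam k alt b₁ b₂)) :
    Cell (dFam k alt fun a b => b₁ b < b₁ a ∨ b₂ (π b) < b₂ a) := by
  refine Cell.of_base (closed_dFam _) fun x₀ h₀ => ?_
  obtain ⟨g1, g2⟩ := (ChD_iff π x₀).1 h₀.2
  have key : ∀ (Ω : Type u) [Field Ω] [Algebra k Ω], SU alt ((mat x₀).map (algebraMap k Ω)) ∧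
      ((mat x₀).map (algebraMap k Ω)).BlockTriangular b₁ ∧
      (((mat x₀).map (algebraMap k Ω)).submatrix id π.symm).BlockTriangular b₂ := fun Ω _ _ =>
    ⟨h₀.1.map _, fun a b hab => by rw [map_apply, g1 hab, map_zero], fun a b hab => by
      have := g2 hab
      rw [submatrix_apply] at this
      rw [submatrix_apply, map_apply, this, map_zero]⟩
  refine Cell.of_iso (φ := ChD_rm (adj alt (mat x₀))) (ψ := ChD_rm (mat x₀))
    ⟨fun Ω _ _ _ x hx => ⟨?_, mat_injective ?_⟩, fun Ω _ _ _ x hx => ⟨?_, mat_injective ?_⟩⟩ h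
  · obtain ⟨h1, h2⟩ := (ChD_iff π x).1 hx.2
    obtain ⟨k0, k1, k2⟩ := key Ω
    change Sg alt b₁ b₂ _
    rw [ChD_evs, adj_map]
    exact ChD_mul_adj π hx.1 h1 h2 k0 k1 k2
  · rw [ChD_evs, ChD_evs, adj_map, mul_assoc, (key Ω).1.1.adj_mul, mul_one]
  · obtain ⟨k0, k1, k2⟩ := key Ω
    refine ⟨?_, (ChD_iff π _).2 ?_⟩
    · rw [ChD_evs]
      exact hx.1.mul k0
    · rw [ChD_evs]
      refine ⟨hx.2.1.mul k1, ?_⟩
      have e : (mat x * (mat x₀).map (algebraMap k Ω)).submatrix id π.symm =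
          mat x * ((mat x₀).map (algebraMap k Ω)).submatrix id π.symm := rfl
      rw [e]
      exact hx.2.2.mul k2
  · rw [ChD_evs, ChD_evs, adj_map, mul_assoc, (key Ω).1.1.mul_adj, mul_one]

theorem CD.cell_zC (C : CD k n) {w : Fin r → ℕ × Bool} (hw : C.Ok w)
    {y : Fin (r + 1) → Equiv.Perm (Fin n)} (hy : ∀ j a, (y j).symm a.rev = ((y j).symm a).rev) :
    Cell (Fam.pi fun j => dFam k C.alt (zC C.t w y j)) := by
  refine Cell.pi fun j => ?_
  have h2 : SymP (blC n w j ∘ (y j).symm) := (symP_blC w j).comp (hy j)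
  have h : Cell (hFam k C.alt (blC n w j) (blC n w j ∘ (y j).symm)) := by
    revert h2
    generalize blC n w j ∘ (y j).symm = b₂
    intro h2
    refine Fin.lastCases ?_ (fun j => ?_) j
    · rw [blC_last]
      exact (hasChart_S C.two C.ev Fin.val_injective symP_val h2).cell
    · rw [blC_castSucc]
      exact cell_H_sw C.two C.ev (hw j).2 (hw j).1 h2
  have e : zC C.t w y j = fun a b => blC n w j b < blC n w j a ∨
      (blC n w j ∘ (y j).symm) ((y j * (nyC C.t y j)⁻¹) b) < (blC n w j ∘ (y j).symm) a := by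
    funext a b
    simp only [zC, Function.comp_apply, Equiv.Perm.mul_apply, Equiv.symm_apply_apply]
    rfl
  rw [e]
  exact cell_coset _ h

end Pool.Agent.MP_0c8446_ag
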