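import Pool.Agent.MP_0c8446_ag.CL.ChA

namespace Pool.Agent.MP_0c8446_ag

open MvPolynomial Set

universe u v w

variable {k : Type u} [Field k] {σ : Type}

theorem ChP_glue {A J : Type} [Finite J] {B : J → Type} (e : (Σ j, B j) → A)
    (he : Function.Bijective e) {S : ∀ j, Fam k (B j)} (h : ∀ j, HasChart (S j)) {R : Fam k A}
    (hR : ∀ (Ω : Type u) [Field Ω] [Algebra k Ω] [IsAlgClosed Ω] (x : A → Ω),
      R Ω x ↔ ∀ j, S j Ω fun b => x (e ⟨j, b⟩)) : HasChart R := by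
  classical
  have := Fintype.ofFinite J
  choose τ hτ t Dp hc using h
  have h1 : ∀ (Ω : Type u) [Field Ω] [Algebra k Ω] (x : A → Ω) (j : J),
      (fun s => evs x (fun s : Σ j, τ j => rename (fun b => e ⟨s.1, b⟩) (t s.1 s.2)) ⟨j, s⟩) =
        evs (fun b => x (e ⟨j, b⟩)) (t j) := fun Ω _ _ x j => funext fun s => by
    simp only [evs, aeval_rename, Function.comp_def]
  have h2 : ∀ (Ω : Type u) [Field Ω] [Algebra k Ω] (y : (Σ j, τ j) → Ω),
      aeval y (∏ j, rename (Sigma.mk j) (Dp j)) ≠ 0 ↔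
        ∀ j, aeval (fun s => y ⟨j, s⟩) (Dp j) ≠ 0 := fun Ω _ _ y => by
    rw [map_prod, Finset.prod_ne_zero_iff]
    simp only [aeval_rename, Finset.mem_univ, forall_const, Function.comp_def]
  refine ⟨Σ j, τ j, inferInstance, fun s => rename (fun b => e ⟨s.1, b⟩) (t s.1 s.2),
    ∏ j, rename (Sigma.mk j) (Dp j), fun Ω _ _ _ x hx => ?_, fun Ω _ _ _ x x' hx hx' H => ?_,
    fun Ω _ _ _ y hy => ?_, fun Ω Ω' _ _ _ _ _ _ Pl x hx hO hD a => ?_⟩
  · refine (h2 Ω _).2 fun j => ?_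
    rw [h1 Ω x j]
    exact (hc j).nv Ω _ ((hR Ω x).1 hx j)
  · funext a
    obtain ⟨⟨j, b⟩, rfl⟩ := he.2 a
    refine congrFun ((hc j).inj Ω _ _ ((hR Ω x).1 hx j) ((hR Ω x').1 hx' j) ?_) b
    rw [← h1 Ω x j, ← h1 Ω x' j, H]
  · choose x hx hy using fun j => (hc j).surj Ω _ ((h2 Ω y).1 hy j)
    obtain ⟨g, hg, -⟩ := Function.bijective_iff_has_inverse.1 he
    have h3 : ∀ j, (fun b => x (g (e ⟨j, b⟩)).1 (g (e ⟨j, b⟩)).2) = x j := fun j =>
      funext fun b => congrArg (fun s : Σ j, B j => x s.1 s.2) (hg ⟨j, b⟩)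
    refine ⟨fun a => x (g a).1 (g a).2, (hR Ω _).2 fun j => ?_, funext fun ⟨j, s⟩ => ?_⟩
    · rw [h3 j]
      exact hx j
    · refine (congrFun (h1 Ω (fun a => x (g a).1 (g a).2) j) s).trans ?_
      rw [h3 j, hy j]
  · obtain ⟨⟨j, b⟩, rfl⟩ := he.2 a
    refine (hc j).val Ω Ω' Pl _ ((hR Ω x).1 hx j) (fun s => ?_) ?_ b
    · rw [← h1 Ω x j]
      exact hO ⟨j, s⟩
    · rw [← h1 Ω x j]
      exact (h2 Ω' _).1 hD j

theorem Cell.pi {J : Type} [Finite J] {S : J → Fam k σ} (h : ∀ j, Cell (S j)) :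
    Cell (Fam.pi S) := by
  choose I hI f hf using h
  refine ⟨Σ j, I j, inferInstance, fun s => rename (Prod.mk s.1) (f s.1 s.2), fun T => ?_⟩
  refine ChP_glue (B := fun j => σ ⊕ I j)
    (fun s => Sum.elim (fun a => Sum.inl (s.1, a)) (fun i => Sum.inr ⟨s.1, i⟩) s.2) ?_
    (fun j => hf j fun i => T ⟨j, i⟩) fun Ω _ _ _ x => ?_
  · refine Function.bijective_iff_has_inverse.2
      ⟨Sum.elim (fun a => ⟨a.1, Sum.inl a.2⟩) fun i => ⟨i.1, Sum.inr i.2⟩, ?_, ?_⟩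
    · rintro ⟨j, a | i⟩ <;> rfl
    · rintro (a | i) <;> rfl
  · have h1 : ∀ j i, aeval (fun s => x (Sum.inl s)) (rename (Prod.mk j) (f j i)) =
        aeval (fun s => x (Sum.inl (j, s))) (f j i) := fun j i => aeval_rename _ _ _
    constructor
    · exact fun H j => ⟨H.1 j, fun i => h1 j i ▸ H.2 ⟨j, i⟩⟩
    · exact fun H => ⟨fun j => (H j).1, fun i => (h1 i.1 i.2).symm ▸ (H i.1).2 i.2⟩

variable {n : ℕ} {alt : Bool} {R : Type u} [CommRing R] [Algebra k R]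

theorem mat_evs (x : Fin n × Fin n → R) :
    (mat (X : Fin n × Fin n → MvPolynomial (Fin n × Fin n) k)).map (aeval (R := k) x) = mat x := by
  ext a b
  exact aeval_X x (a, b)

/-- Evaluating the entries of a matrix of polynomials. -/
theorem mat_evs_entries {τ : Type} (x : τ → R) (m : Matrix (Fin n) (Fin n) (MvPolynomial τ k)) :
    mat (evs x fun s : Fin n × Fin n => m s.1 s.2) = m.map (aeval (R := k) x) := by
  rfl

theorem mat_injective {α : Type*} {x x' : Fin n × Fin n → α} (h : mat x = mat x') : x = x' := by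
  funext s
  exact congrFun (congrFun h s.1) s.2

theorem closed_dFam (Z : Fin n → Fin n → Prop) : (dFam k alt Z).Closed := by
  refine ⟨{e | ∃ a b, e = (adj alt (mat X) * mat X - 1 :
      Matrix (Fin n) (Fin n) (MvPolynomial (Fin n × Fin n) k)) a b} ∪
    {(mat X).det - 1} ∪ {e | ∃ a b, Z a b ∧ e = X (a, b)}, fun Ω _ _ _ x => ?_⟩
  have h1 : ∀ a b, aeval x ((adj alt (mat X) * mat X - 1 :
      Matrix (Fin n) (Fin n) (MvPolynomial (Fin n × Fin n) k)) a b) =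
      (adj alt (mat x) * mat x - 1) a b := by
    intro a b
    have e : (aeval (R := k) x).mapMatrix (adj alt (mat X) * mat X - 1) =
        adj alt (mat x) * mat x - 1 := by
      rw [map_sub, map_mul, map_one, AlgHom.mapMatrix_apply, AlgHom.mapMatrix_apply, adj_map,
        mat_evs]
    exact congrFun (congrFun e a) b
  have h2 : aeval x ((mat X).det - 1 : MvPolynomial (Fin n × Fin n) k) = (mat x).det - 1 := by
    rw [map_sub, map_one, AlgHom.map_det, AlgHom.mapMatrix_apply, mat_evs]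
  constructor
  · rintro ⟨H1, H2⟩ e ((⟨a, b, rfl⟩ | rfl) | ⟨a, b, hz, rfl⟩)
    · rw [h1, H1.1.adj_mul]; simp
    · rw [h2, H1.2, sub_self]
    · rw [aeval_X, H2 a b hz]
  · refine fun H => ⟨⟨isU_iff.2 (sub_eq_zero.1 (Matrix.ext fun a b => ?_)),
      sub_eq_zero.1 ?_⟩, fun a b hz => ?_⟩
    · rw [← h1]; exact H _ (Or.inl (Or.inl ⟨a, b, rfl⟩))
    · rw [← h2]; exact H _ (Or.inl (Or.inr rfl))
    · rw [← aeval_X (R := k) x (a, b)]; exact H _ (Or.inr ⟨a, b, hz, rfl⟩)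

theorem closed_hFam (b₁ b₂ : Fin n → ℕ) : (hFam k alt b₁ b₂).Closed := by
  obtain ⟨E, hE⟩ := closed_dFam (k := k) (alt := alt) fun a b => b₁ b < b₁ a ∨ b₂ b < b₂ a
  refine ⟨E, fun Ω _ _ _ x => Iff.trans ?_ (hE Ω x)⟩
  exact ⟨fun H => ⟨H.1, fun a b h => h.elim (fun h => H.2.1 h) fun h => H.2.2 h⟩,
    fun H => ⟨H.1, fun a b h => H.2 a b (Or.inl h), fun a b h => H.2 a b (Or.inr h)⟩⟩

end Pool.Agent.MP_0c8446_ag
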