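import Pool.Agent.MP_0c8446_ag.DL.SqW

namespace Pool.Agent.MP_0c8446_ag

open MvPolynomial Set

universe u v w

open TensorProduct in
theorem RepT2_ex {K : Type v} [Field K] [IsAlgClosed K] [CharZero K] {Γ : Type u} [Group Γ]
    [Finite Γ] {V : Type w} [AddCommGroup V] [Module K V] [Module.Finite K V]
    (ρ : Representation K Γ V) [ρ.IsIrreducible] (θ₀ θ₁ θ' : Γ →* Γ)
    (hθ : ∀ g, (IsConj (θ₀ g) g⁻¹ ∧ IsConj (θ₁ g) (θ' g⁻¹)) ∨
      (IsConj (θ₁ g) g⁻¹ ∧ IsConj (θ₀ g) (θ' g⁻¹))) :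
    (ρ.tprod (ρ.comp θ₀ : Representation K Γ V)).invariants ≠ ⊥ ∨
      (ρ.tprod (ρ.comp θ₁ : Representation K Γ V)).invariants ≠ ⊥ := by
  classical
  have := Fintype.ofFinite Γ
  have hc : (Nat.card Γ : K) ≠ 0 := Nat.cast_ne_zero.2 Nat.card_pos.ne'
  have : Invertible (Nat.card Γ : K) := invertibleOfNonzero hc
  let ρ₀ : Representation K Γ V := ρ.comp θ₀
  let ρ₁ : Representation K Γ V := ρ.comp θ₁
  let ρ' : Representation K Γ V := ρ.comp θ'
  have hcj : ∀ x y : Γ, IsConj x y → ρ.character x = ρ.character y := by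
    intro x y h
    obtain ⟨c, hc⟩ := isConj_iff.1 h
    rw [← hc, Representation.char_conj]
  have hch : ∀ g, ρ₀.character g + ρ₁.character g = ρ.character g⁻¹ + ρ'.character g⁻¹ := by
    intro g
    change ρ.character (θ₀ g) + ρ.character (θ₁ g) = ρ.character g⁻¹ + ρ.character (θ' g⁻¹)
    rcases hθ g with ⟨a, b⟩ | ⟨a, b⟩
    · rw [hcj _ _ a, hcj _ _ b]
    · rw [hcj _ _ a, hcj _ _ b, add_comm]
  have e0 := Representation.card_inv_mul_sum_char_eq_finrank (ρ.tprod ρ₀)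
  have e1 := Representation.card_inv_mul_sum_char_eq_finrank (ρ.tprod ρ₁)
  have e2 := Representation.card_inv_mul_sum_char_mul_char_eq_finrank ρ ρ
  have e2' := Representation.card_inv_mul_sum_char_mul_char_eq_finrank ρ' ρ
  rw [Representation.IsIrreducible.finrank_intertwiningMap_self] at e2
  simp only [Representation.char_tensor, Pi.mul_apply] at e0 e1
  have e3 : Module.finrank K (ρ.tprod ρ₀).invariants + Module.finrank K (ρ.tprod ρ₁).invariants
      = 1 + Module.finrank K (Representation.IntertwiningMap ρ' ρ) := by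
    have : ((Module.finrank K (ρ.tprod ρ₀).invariants +
        Module.finrank K (ρ.tprod ρ₁).invariants : ℕ) : K) =
        ((1 + Module.finrank K (Representation.IntertwiningMap ρ' ρ) : ℕ) : K) := by
      rw [Nat.cast_add, Nat.cast_add, ← e0, ← e1, ← e2, ← e2', ← mul_add, ← mul_add,
        ← Finset.sum_add_distrib, ← Finset.sum_add_distrib]
      congr 1
      refine Finset.sum_congr rfl fun g _ => ?_
      rw [← mul_add, ← mul_add, hch]
    exact_mod_cast this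
  by_contra h
  push Not at h
  have a0 : (ρ.tprod ρ₀).invariants = ⊥ := h.1
  have a1 : (ρ.tprod ρ₁).invariants = ⊥ := h.2
  rw [a0, a1] at e3
  simp only [finrank_bot] at e3
  omega

open TensorProduct in
theorem RepT2_irr {K : Type v} [Field K] [IsAlgClosed K] [CharZero K] {Γ : Type u} [Group Γ]
    [Finite Γ] {V : Type w} [AddCommGroup V] [Module K V] [Module.Finite K V]
    (ρ : Representation K Γ V) [ρ.IsIrreducible] (θ₀ θ₁ θ' : Γ →* Γ)
    (hθ : ∀ g, (IsConj (θ₀ g) g⁻¹ ∧ IsConj (θ₁ g) (θ' g⁻¹)) ∨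
      (IsConj (θ₁ g) g⁻¹ ∧ IsConj (θ₀ g) (θ' g⁻¹)))
    (M : Submodule K (V ⊗[K] V))
    (h1 : ∀ g g', ∀ z ∈ M, TensorProduct.map (ρ g) (ρ g') z ∈ M)
    (h2 : ∀ z, (∀ g, TensorProduct.map (ρ g) (ρ (θ₀ g)) z = z) → z ∈ M)
    (h3 : ∀ z, (∀ g, TensorProduct.map (ρ g) (ρ (θ₁ g)) z = z) → z ∈ M) (z : V) :
    z ⊗ₜ[K] z ∈ M := by
  classical
  obtain ⟨ξ, hM, hξ0⟩ : ∃ ξ, ξ ∈ M ∧ ξ ≠ 0 := by
    rcases RepT2_ex ρ θ₀ θ₁ θ' hθ with hne | hne
    · obtain ⟨ξ, hξ, hξ0⟩ := Submodule.exists_mem_ne_zero_of_ne_bot hne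
      exact ⟨ξ, h2 ξ fun g => hξ g, hξ0⟩
    · obtain ⟨ξ, hξ, hξ0⟩ := Submodule.exists_mem_ne_zero_of_ne_bot hne
      exact ⟨ξ, h3 ξ fun g => hξ g, hξ0⟩
  have s1 : ∀ (a : Module.End K V) g', ∀ z ∈ M, TensorProduct.map a (ρ g') z ∈ M := by
    intro a g' z hz
    have ha := RepT_burnside ρ a
    induction ha using Submodule.span_induction with
    | mem x hx => obtain ⟨g, rfl⟩ := hx; exact h1 g g' z hz
    | zero => simp
    | add x y _ _ hx hy => rw [TensorProduct.map_add_left]; exact M.add_mem hx hy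
    | smul c x _ hx => rw [TensorProduct.map_smul_left]; exact M.smul_mem c hx
  have s2 : ∀ (a a' : Module.End K V), ∀ z ∈ M, TensorProduct.map a a' z ∈ M := by
    intro a a' z hz
    have ha := RepT_burnside ρ a'
    induction ha using Submodule.span_induction with
    | mem x hx => obtain ⟨g, rfl⟩ := hx; exact s1 a g z hz
    | zero => simp
    | add x y _ _ hx hy => rw [TensorProduct.map_add_right]; exact M.add_mem hx hy
    | smul c x _ hx => rw [TensorProduct.map_smul_right]; exact M.smul_mem c hx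
  let b := Module.finBasis K V
  have hrep : ∃ ij, (b.tensorProduct b).repr ξ ij ≠ 0 := by
    by_contra h
    push Not at h
    apply hξ0
    exact (b.tensorProduct b).repr.map_eq_zero_iff.1 (Finsupp.ext h)
  obtain ⟨⟨i, j⟩, hij⟩ := hrep
  have key : ∀ ζ : V ⊗[K] V,
      TensorProduct.map ((b.coord i).smulRight z) ((b.coord j).smulRight z) ζ =
        (b.tensorProduct b).repr ζ (i, j) • z ⊗ₜ[K] z := by
    intro ζ
    induction ζ using TensorProduct.induction_on with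
    | zero => simp
    | tmul x y =>
      simp [Module.Basis.tensorProduct_repr_tmul_apply, ← TensorProduct.smul_tmul', smul_smul,
        mul_comm]
    | add x y hx hy => simp [hx, hy, add_smul]
  have := s2 ((b.coord i).smulRight z) ((b.coord j).smulRight z) ξ hM
  rw [key] at this
  exact (M.smul_mem_iff hij).1 this

open TensorProduct in
theorem RepT2_ind {K : Type v} [Field K] [IsAlgClosed K] [CharZero K] {Γ : Type u} [Group Γ]
    [Finite Γ] (θ₀ θ₁ θ' : Γ →* Γ)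
    (hθ : ∀ g, (IsConj (θ₀ g) g⁻¹ ∧ IsConj (θ₁ g) (θ' g⁻¹)) ∨
      (IsConj (θ₁ g) g⁻¹ ∧ IsConj (θ₀ g) (θ' g⁻¹))) (n : ℕ) :
    ∀ {V : Type w} [AddCommGroup V] [Module K V] [Module.Finite K V]
    (ρ : Representation K Γ V) (M : Submodule K (V ⊗[K] V)), Module.finrank K V = n →
    (∀ g g', ∀ z ∈ M, TensorProduct.map (ρ g) (ρ g') z ∈ M) →
    (∀ z, (∀ g, TensorProduct.map (ρ g) (ρ (θ₀ g)) z = z) → z ∈ M) →
    (∀ z, (∀ g, TensorProduct.map (ρ g) (ρ (θ₁ g)) z = z) → z ∈ M) →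
    Submodule.span K {z | z ⊗ₜ[K] z ∈ M} = ⊤ := by
  induction n using Nat.strong_induction_on with
  | _ n ih =>
  intro V _ _ _ ρ M hn h1 h2 h2'
  have hc : NeZero (Nat.card Γ : K) := ⟨Nat.cast_ne_zero.2 Nat.card_pos.ne'⟩
  have sub : ∀ σ : Subrepresentation ρ, σ ≠ ⊤ →
      σ.toSubmodule ≤ Submodule.span K {z | z ⊗ₜ[K] z ∈ M} := by
    intro σ hσ
    have hσ' : σ.toSubmodule ≠ ⊤ := fun h => hσ (Subrepresentation.toSubmodule_injective h)
    have hlt : Module.finrank K σ.toSubmodule < n := hn ▸ Submodule.finrank_lt hσ'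
    have hcomm : ∀ g g' (ζ : σ.toSubmodule ⊗[K] σ.toSubmodule),
        TensorProduct.map σ.toSubmodule.subtype σ.toSubmodule.subtype
          (TensorProduct.map (σ.toRepresentation g) (σ.toRepresentation g') ζ) =
        TensorProduct.map (ρ g) (ρ g')
          (TensorProduct.map σ.toSubmodule.subtype σ.toSubmodule.subtype ζ) := by
      intro g g' ζ
      induction ζ using TensorProduct.induction_on with
      | zero => simp
      | tmul x y => rfl
      | add x y hx hy => simp only [map_add, hx, hy]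
    have := ih _ hlt σ.toRepresentation
      (M.comap (TensorProduct.map σ.toSubmodule.subtype σ.toSubmodule.subtype)) rfl
      (fun g g' z hz => by
        rw [Submodule.mem_comap, hcomm]
        exact h1 g g' _ hz)
      (fun z hz => h2 _ fun g => by rw [← hcomm, hz])
      (fun z hz => h2' _ fun g => by rw [← hcomm, hz])
    intro x hx
    have hx' : (⟨x, hx⟩ : σ.toSubmodule) ∈ Submodule.span K {z : σ.toSubmodule | z ⊗ₜ[K] z ∈
        M.comap (TensorProduct.map σ.toSubmodule.subtype σ.toSubmodule.subtype)} := by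
      rw [this]; trivial
    have h3 := Submodule.mem_map_of_mem (f := σ.toSubmodule.subtype) hx'
    rw [Submodule.map_span] at h3
    refine Submodule.span_mono ?_ h3
    rintro _ ⟨y, hy, rfl⟩
    exact hy
  by_cases hirr : ρ.IsIrreducible
  · rw [eq_top_iff]
    intro z _
    exact Submodule.subset_span (RepT2_irr ρ θ₀ θ₁ θ' hθ M h1 h2 h2' z)
  by_cases htriv : (⊥ : Subrepresentation ρ) = ⊤
  · have h0 : (⊥ : Submodule K V) = ⊤ := congrArg Subrepresentation.toSubmodule htriv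
    rw [eq_top_iff, ← h0]
    exact bot_le
  have hex : ∃ σ : Subrepresentation ρ, σ ≠ ⊥ ∧ σ ≠ ⊤ := by
    by_contra h
    push Not at h
    apply hirr
    have : Nontrivial (Subrepresentation ρ) := ⟨⟨⊥, ⊤, htriv⟩⟩
    exact ⟨fun σ => or_iff_not_imp_left.2 (h σ)⟩
  obtain ⟨σ, h0, ht⟩ := hex
  obtain ⟨τ, hτ⟩ := exists_isCompl σ
  have hτt : τ ≠ ⊤ := by
    rintro rfl
    exact h0 (by simpa using hτ.inf_eq_bot)
  have hsup : σ.toSubmodule ⊔ τ.toSubmodule = ⊤ := by
    rw [← Subrepresentation.toSubmodule_sup, hτ.sup_eq_top]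
    rfl
  rw [eq_top_iff, ← hsup]
  exact sup_le (sub σ ht) (sub τ hτt)

open TensorProduct in
/-- If an invariant subspace of `V ⊗ V` contains the invariants for both twisted actions, it
contains the squares of a spanning set. -/
theorem span_sq_eq_top2 {K : Type v} [Field K] [IsAlgClosed K] [CharZero K] {Γ : Type u} [Group Γ]
    [Finite Γ] {V : Type w} [AddCommGroup V] [Module K V] [Module.Finite K V]
    (T : Γ →* Module.End K V) (θ₀ θ₁ θ' : Γ →* Γ)
    (hθ : ∀ g, (IsConj (θ₀ g) g⁻¹ ∧ IsConj (θ₁ g) (θ' g⁻¹)) ∨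
      (IsConj (θ₁ g) g⁻¹ ∧ IsConj (θ₀ g) (θ' g⁻¹)))
    (M : Submodule K (V ⊗[K] V))
    (h1 : ∀ g g', ∀ z ∈ M, TensorProduct.map (T g) (T g') z ∈ M)
    (h2 : ∀ z, (∀ g, TensorProduct.map (T g) (T (θ₀ g)) z = z) → z ∈ M)
    (h3 : ∀ z, (∀ g, TensorProduct.map (T g) (T (θ₁ g)) z = z) → z ∈ M) :
    Submodule.span K {z | z ⊗ₜ[K] z ∈ M} = ⊤ :=
  RepT2_ind θ₀ θ₁ θ' hθ _ T M rfl h1 h2 h3

variable {k : Type u} [Field k] [IsAlgClosed k] {K : Type v} [Field K] [CharZero K]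
  (W : Weil.{u, v, w} k K) {Γ : Type u} [Group Γ]

omit [CharZero K] in
theorem RepT2_inv (S : Stage k Γ) (θ : Γ →* Γ)
    (h : ∀ a, W.Inv (S.prod (S.comap θ)) a → a ∈ W.Alg (S.prod (S.comap θ)).P) (i : ℕ)
    (ξ : TensorProduct K (W.gr S.P i) (W.gr S.P i))
    (hξ : ∀ g, TensorProduct.map (SqW_rep W S i g) (SqW_rep W S i (θ g)) ξ = ξ) :
    ξ ∈ (W.Alg (pvVar S.P S.P)).comap (SqW_kap W (W.gr S.P i)) := by
  refine h _ fun γ => ?_
  have e := SqW_kap_map W (W.gr S.P i) (f := S.act γ) (g := S.act (θ γ))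
    (Φ := (S.prod (S.comap θ)).act γ) (fun x => S.pvF_act (S.comap θ) γ x)
    (fun x => by rw [← S.comap_act θ γ]; exact S.pvS_act (S.comap θ) γ x)
    (A := SqW_rep W S i γ⁻¹) (B := SqW_rep W S i (θ γ⁻¹))
    (fun z => by change W.pull (S.act γ⁻¹⁻¹) z.1 = _; rw [inv_inv])
    (fun z => by change W.pull (S.act (θ γ⁻¹)⁻¹) z.1 = _; rw [map_inv, inv_inv]) ξ
  rw [hξ] at e
  exact e.symm

theorem Weil.sqT_of_inv2 [IsAlgClosed K] [Finite Γ] (S : Stage k Γ) (θ₀ θ₁ θ' : Γ →* Γ)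
    (hθ : ∀ g, (IsConj (θ₀ g) g⁻¹ ∧ IsConj (θ₁ g) (θ' g⁻¹)) ∨
      (IsConj (θ₁ g) g⁻¹ ∧ IsConj (θ₀ g) (θ' g⁻¹)))
    (h₀ : ∀ a, W.Inv (S.prod (S.comap θ₀)) a → a ∈ W.Alg (S.prod (S.comap θ₀)).P)
    (h₁ : ∀ a, W.Inv (S.prod (S.comap θ₁)) a → a ∈ W.Alg (S.prod (S.comap θ₁)).P) :
    W.SqT S.P := by
  have key : ∀ i, Submodule.span K {z : W.gr S.P i |
      z ⊗ₜ[K] z ∈ (W.Alg (pvVar S.P S.P)).comap (SqW_kap W (W.gr S.P i))} = ⊤ := by
    intro i
    refine span_sq_eq_top2 (SqW_rep W S i) θ₀ θ₁ θ' hθ _ (fun g g' ξ hξ => ?_)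
      (RepT2_inv W S θ₀ h₀ i) (RepT2_inv W S θ₁ h₁ i)
    rw [Submodule.mem_comap, SqW_kap_map W (W.gr S.P i) (f := S.act g⁻¹) (g := S.act g'⁻¹)
      (Φ := (isProd_pv S.P S.P).lift ((S.act g⁻¹).comp (pvF S.P S.P))
        ((S.act g'⁻¹).comp (pvS S.P S.P)))
      (fun x => (isProd_pv S.P S.P).fst_lift _ _ x) (fun x => (isProd_pv S.P S.P).snd_lift _ _ x)
      (fun _ => rfl) (fun _ => rfl)]
    exact W.pull_mem_Alg _ hξ
  refine Submodule.eq_top_iff'.2 fun a => ?_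
  induction a using DirectSum.Decomposition.inductionOn (W.gr S.P) with
  | zero => exact zero_mem _
  | add b c hb hc => exact add_mem hb hc
  | @homogeneous i b =>
    have hb : b ∈ Submodule.span K {z : W.gr S.P i |
      z ⊗ₜ[K] z ∈ (W.Alg (pvVar S.P S.P)).comap (SqW_kap W (W.gr S.P i))} := by
      rw [key i]; trivial
    induction hb using Submodule.span_induction with
    | mem z hz => exact Submodule.subset_span ⟨⟨i, z.2⟩, fun P p q _ => SqW_pair W hz p q⟩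
    | zero => exact zero_mem _
    | add x y _ _ hx hy => exact add_mem hx hy
    | smul c x _ hx => exact Submodule.smul_mem _ c hx

end Pool.Agent.MP_0c8446_ag
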