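import Pool.Agent.MP_0c8446_ag.DL.Lev
import Pool.Agent.MP_0c8446_ag.CL.CDefs

namespace Pool.Agent.MP_0c8446_ag

open MvPolynomial Set

universe u v w

variable {k : Type u} [Field k] [IsAlgClosed k] {K : Type v} [Field K] [CharZero K]
  (W : Weil.{u, v, w} k K) {Γ : Type u} [Group Γ]

omit [IsAlgClosed k] in
/-- Regular functions are constant on the fibres. -/
theorem Level.Reg.eq_of_eqv {D : FrD k Γ} {L : Level D} {f : MvPolynomial D.σ k} (hf : L.Reg f)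
    {Ω : Type u} [Field Ω] [Algebra k Ω] {h h' : D.σ → Ω} (hh : D.Fr h) (hh' : D.Fr h')
    (e : L.Eqv h h') : aeval h f = aeval h' f := by
  obtain ⟨d, F, G, hF, hG, hd, H⟩ := hf
  obtain ⟨c, -, h1⟩ := ParOn.exists_aeval (k := k) (d := d) e fun i hi => hd i (not_not.1 hi)
  obtain ⟨h2, h3⟩ := H Ω h' hh'
  refine (mul_right_cancel₀ h2 ?_).symm
  rw [← h3, h1 F hF, h1 G hG, (H Ω h hh).2, mul_left_comm]

section aux

variable {D : FrD k Γ} (L : Level D) {I : Type} (f : I → MvPolynomial D.σ k)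
  {Ω Ω' : Type u} [Field Ω] [Algebra k Ω] [Field Ω'] [Algebra k Ω']

/-- The points that come from frames at which exactly the functions indexed by `A` are nonzero. -/
def SplitA_R (A : Set I) : Fam k (Vars L.S.P.n) := fun _ _ _ _ v =>
  L.S.P.On v ∧ ∃ h, D.Fr h ∧ ParOn L.S.Jᶜ (evs h L.pt) v ∧ {i | aeval h (f i) ≠ 0} = A

/-- The boundary together with the small strata. -/
def SplitA_B (m : ℕ) : Set (Set L.S.P.pts) :=
  L.bd ∪ {C | ∃ A : Set I, A.ncard < m ∧ C ∈ L.S.P.fam (SplitA_R L f A)}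

variable {L f}

omit [IsAlgClosed k] in
theorem SplitA_ren (x : D.σ ⊕ I → Ω) (P : MvPolynomial D.σ k) :
    aeval x (rename Sum.inl P) = aeval (fun s => x (Sum.inl s)) P := aeval_rename _ _ _

omit [IsAlgClosed k] in
theorem SplitA_evs (x : D.σ ⊕ I → Ω) {α : Type} (F : α → MvPolynomial D.σ k) :
    evs x (fun a => rename Sum.inl (F a)) = evs (fun s => x (Sum.inl s)) F :=
  funext fun a => SplitA_ren x (F a)

omit [IsAlgClosed k] in
theorem SplitA_par {x : D.σ ⊕ I → Ω} {v : Vars L.S.P.n → Ω} :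
    ParOn L.S.Jᶜ (evs x fun a => rename Sum.inl (L.pt a)) v ↔
      ParOn L.S.Jᶜ (evs (fun s => x (Sum.inl s)) L.pt) v := by
  rw [SplitA_evs]

omit [IsAlgClosed k] in
theorem SplitA_il [IsAlgClosed Ω] [IsAlgClosed Ω'] (hr : ∀ i, L.Reg (f i)) (Pl : Place k Ω Ω')
    {v : Vars L.S.P.n → Ω} {h : D.σ → Ω} (ho : L.S.P.On v) (hh : D.Fr h)
    (hp : ParOn L.S.Jᶜ (evs h L.pt) v) (hO : ∀ a, v a ∈ Pl.O) (hn : NZb fun a => Pl.red (v a)) :
    L.S.P.loc (fun a => Pl.red (v a)) ∈ L.bd ∨ ∃ h', D.Fr h' ∧ ParOn L.S.Jᶜ (evs h' L.pt) v ∧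
      (∀ s, h' s ∈ Pl.O) ∧ (∀ i, aeval h' (f i) = aeval h (f i)) ∧
      SplitA_R L f {i | Pl.red (aeval h (f i)) ≠ 0} Ω' fun a => Pl.red (v a) := by
  refine (L.il Ω Ω' Pl v h ho hh hp hO hn).imp_right fun ⟨h', h1, h2, h3⟩ => ?_
  have h4 := fun i => (hr i).eq_of_eqv h1 hh (h2.trans hp.symm)
  exact ⟨h', h1, h2, h3, h4, ho.of_le hn (Pl.pI_le hO), _, h1.red Pl h3,
    L.par_red Pl h1 h2 h3 hO hn, by simp only [← Pl.red_aeval h3, h4]⟩

omit [IsAlgClosed k] in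
theorem SplitA_sub (Pl : Place k Ω Ω') (a : I → Ω) : {i | Pl.red (a i) ≠ 0} ⊆ {i | a i ≠ 0} :=
  fun _ hi e => hi (e ▸ Pl.red_zero)

variable [Finite I]

theorem SplitA_closed (hr : ∀ i, L.Reg (f i)) (m : ℕ) : SubCl (SplitA_B L f m) := by
  rintro C (hC | ⟨A, hA, Ω, _, _, _, v, ⟨ho, h, hh, hp, rfl⟩, rfl⟩)
  · exact ⟨(L.closed C hC).1, fun C' h1 h2 => Or.inl ((L.closed C hC).2 C' h1 h2)⟩
  refine ⟨ho.isSub, fun C' hC' hs => ?_⟩
  obtain ⟨Ω', _, _, _, u, hu, rfl⟩ := Var.exists_generic _ hC'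
  obtain ⟨Pl, v', h1, h2, h3⟩ := exists_place_pI hu.1 (hu.pI_le hs)
  rw [← Var.loc_par h3]
  exact (SplitA_il hr Pl (ho.par h1) hh (hp.trans (h1.mono (subset_univ _))) h2
    (h3.nzb hu.1)).imp_right fun ⟨_, _, _, _, _, h4⟩ =>
      ⟨_, (ncard_le_ncard (SplitA_sub Pl _)).trans_lt hA, Ω', _, _, inferInstance, _, h4, rfl⟩

variable (hf : ∀ γ (Ω : Type u) [Field Ω] [Algebra k Ω] (h : D.σ → Ω), D.Fr h →
  evs (evs h (D.act γ)) f = evs h f) (hr : ∀ i, L.Reg (f i)) (T : I → Bool)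

/-- A stratum as a level. -/
noncomputable def SplitA_lev : Level (D.cut f hf T) where
  S := L.S
  pt a := rename Sum.inl (L.pt a)
  bd := SplitA_B L f {i | T i = true}.ncard
  nz i hi Ω _ _ x hx := (L.nz i hi Ω _ (FrD.cut_iff.1 hx).1).imp fun _ hs e =>
    hs ((SplitA_ren x _).symm.trans e)
  equi i hi γ Ω _ _ x hx s := by
    have h1 := L.equi i hi γ Ω _ (FrD.cut_iff.1 hx).1 s
    rw [← evs_cutA_inl] at h1
    exact (SplitA_ren _ _).trans (h1.trans (Finset.sum_congr rfl fun _ _ =>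
      congrArg _ (SplitA_ren x _).symm))
  prod Ω _ _ v x hv hx := (SplitA_evs x L.pt).symm ▸ L.prod Ω v _ hv (FrD.cut_iff.1 hx).1
  closed := SplitA_closed hr _
  il Ω Ω' _ _ _ _ _ _ Pl v x ho hx hp hO hn := by
    obtain ⟨h1, h2⟩ := FrD.cut_iff.1 hx
    rcases SplitA_il hr Pl ho h1 (SplitA_par.1 hp) hO hn with h3 | ⟨h', h3, h4, h5, h6, h7⟩
    · exact Or.inl (Or.inl h3)
    have h8 : {i | aeval (fun s => x (Sum.inl s)) (f i) ≠ 0} ⊆ {i | T i = true} := fun i hi => by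
      by_contra h9
      exact hi ((if_neg h9).mp (h2 i)).1
    rcases ((SplitA_sub Pl _).trans h8).eq_or_ssubset with e | e
    · refine Or.inr ⟨Sum.elim h' fun i => x (Sum.inr i),
        FrD.cut_iff.2 ⟨h3, fun i => (h6 i).symm ▸ h2 i⟩, (SplitA_par (x := Sum.elim h' fun i => x (Sum.inr i))).2 h4, ?_⟩
      rintro (s | i)
      · exact h5 s
      · change x (Sum.inr i) ∈ _
        by_cases h9 : T i = true
        · rw [eq_inv_of_mul_eq_one_left ((if_pos h9).mp (h2 i))]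
          exact Pl.inv_mem (h6 i ▸ Pl.aeval_mem h5 _) (e.ge h9)
        · rw [((if_neg h9).mp (h2 i)).2]
          exact zero_mem _
    · exact Or.inl (Or.inr ⟨_, ncard_lt_ncard e, Ω', _, _, inferInstance, _, h7, rfl⟩)

theorem SplitA_reg {g : MvPolynomial D.σ k} (hg : L.Reg g) :
    (SplitA_lev hf hr T).Reg (rename Sum.inl g) := by
  obtain ⟨d, F, G, hF, hG, hd, H⟩ := hg
  refine ⟨d, F, G, hF, hG, hd, fun Ω _ _ x hx => ?_⟩
  have h1 := H Ω _ (FrD.cut_iff.1 hx).1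
  rw [← SplitA_evs x L.pt] at h1
  exact ⟨h1.1, h1.2.trans (congrArg (· * _) (SplitA_ren x g).symm)⟩

theorem SplitA_regX (hV : ∀ s, L.Reg (X s)) : ∀ s, (SplitA_lev hf hr T).Reg (X s) := by
  rintro (s | i)
  · exact rename_X (R := k) (Sum.inl : _ → D.σ ⊕ I) s ▸ SplitA_reg hf hr T (hV s)
  by_cases h : T i = true
  · refine (SplitA_reg hf hr T (hr i)).of_inv fun Ω _ _ x hx => ?_
    rw [aeval_X, mul_comm]
    exact (congrArg _ (SplitA_ren x _)).trans ((if_pos h).mp ((FrD.cut_iff.1 hx).2 i))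
  · refine (Level.reg_C _ 0).congr fun Ω _ _ x hx => ?_
    rw [aeval_X, map_zero, map_zero]
    exact ((if_neg h).mp ((FrD.cut_iff.1 hx).2 i)).2

theorem SplitA_mem [IsAlgClosed Ω] {v : Vars L.S.P.n → Ω}
    (hv : SplitA_R L f {i | T i = true} Ω v) : L.S.P.loc v ∈ (SplitA_lev hf hr T).R := by
  obtain ⟨ho, h, hh, hp, e⟩ := hv
  have h1 : (D.cut f hf T).Fr (Sum.elim h fun i => (aeval h (f i))⁻¹) := by
    refine FrD.cut_iff.2 ⟨hh, fun i => ?_⟩
    have h2 : aeval h (f i) ≠ 0 ↔ T i = true := Set.ext_iff.1 e i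
    change CutC _ (aeval h (f i)) (aeval h (f i))⁻¹
    unfold CutC
    split_ifs with h3
    · exact inv_mul_cancel₀ (h2.2 h3)
    · rw [not_not.1 (mt h2.1 h3), inv_zero]
      exact ⟨rfl, rfl⟩
  have h2 := (SplitA_par (L := L) (x := Sum.elim h fun i => (aeval h (f i))⁻¹)).2 hp
  exact ⟨Ω, _, _, inferInstance, v, ⟨ho, _, h1, h2⟩, rfl⟩

end aux

/-- Cutting the frames by the vanishing of invariant functions. -/
theorem Weil.good_split {D : FrD k Γ} {I : Type} [Finite I] {f : I → MvPolynomial D.σ k}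
    (hf : ∀ γ (Ω : Type u) [Field Ω] [Algebra k Ω] (h : D.σ → Ω), D.Fr h →
      evs (evs h (D.act γ)) f = evs h f)
    (H : ∀ T e', W.Good (D.cut f hf T) e' (range X)) (e : FRel k D.σ) :
    W.Good D e (range X) := by
  classical
  intro L _ hV m β hβ hI hK hb C hC
  have hX : ∀ s, L.Reg (X s) := fun s => hV _ ⟨s, rfl⟩
  have hr : ∀ i, L.Reg (f i) := fun i => by
    have := Level.Reg.subst hX (f i)
    rwa [aeval_X_left_apply] at this
  have key (j : ℕ) : ∀ C ∈ SplitA_B L f j, W.ph β C = 0 := by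
    induction j using Nat.strong_induction_on with
    | _ j ih =>
      rintro C (hC | ⟨A, hA, Ω, _, _, _, v, hv, rfl⟩)
      · exact hb C hC
      obtain ⟨T, rfl⟩ : ∃ T : I → Bool, {i | T i = true} = A :=
        ⟨fun i => decide (i ∈ A), by simp⟩
      exact H T (fun _ _ _ _ => (SplitA_lev hf hr T).Eqv) (SplitA_lev hf hr T)
        (fun _ _ _ _ _ _ _ _ => Iff.rfl) (forall_mem_range.2 (SplitA_regX hf hr T hX)) m β hβ hI hK
        (ih _ hA) _ (SplitA_mem hf hr T hv)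
  obtain ⟨Ω, _, _, _, v, ⟨ho, h, hh, hp⟩, rfl⟩ := hC
  exact key _ _ (Or.inr ⟨_, Nat.lt_succ_self _, Ω, _, _, inferInstance, v,
    ⟨ho, h, hh, hp, rfl⟩, rfl⟩)

end Pool.Agent.MP_0c8446_ag
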