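import Pool.Agent.MP_0c8446_ag.DL.FinalQ
import Pool.Agent.MP_0c8446_ag.CL.SplitA

namespace Pool.Agent.MP_0c8446_ag

open MvPolynomial Set

universe u v w

variable {k : Type u} [Field k] [IsAlgClosed k] {K : Type v} [Field K] [CharZero K]
  (W : Weil.{u, v, w} k K) {Γ : Type u} [Group Γ]

omit [IsAlgClosed k] in
theorem SplitB_aeval {α σ Ω : Type*} [CommRing Ω] [Algebra k Ω] (h : α → Ω)
    (φ : σ → MvPolynomial α k) (p : MvPolynomial σ k) :
    aeval h (aeval φ p) = aeval (evs h φ) p := by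
  rw [← AlgHom.comp_apply, comp_aeval]
  rfl

omit [IsAlgClosed k] in
theorem SplitB_evs {α σ τ Ω : Type*} [CommRing Ω] [Algebra k Ω] (h : α → Ω)
    (φ : σ → MvPolynomial α k) (t : τ → MvPolynomial σ k) :
    evs h (fun s => aeval φ (t s)) = evs (evs h φ) t :=
  funext fun s => SplitB_aeval h φ (t s)

omit [IsAlgClosed k] in
theorem FrD.QuotF.quot {D : FrD k Γ} {σ τ : Type} {φ : σ → MvPolynomial D.σ k} {R : Fam k σ}
    (h : D.QuotF φ R) {t : τ → MvPolynomial σ k} {Dp : MvPolynomial τ k} (hc : Chart R t Dp) :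
    D.Quot (fun s => aeval φ (t s)) Dp := by
  refine ⟨fun Ω _ _ _ x hx => ?_, fun Ω _ _ _ x x' hx hx' e => ?_, fun Ω _ _ _ y hy => ?_,
    fun Ω Ω' _ _ _ _ _ _ Pl x hx h1 h2 => ?_⟩
  · rw [SplitB_evs]
    exact hc.nv Ω _ (h.mem Ω x hx)
  · rw [SplitB_evs, SplitB_evs] at e
    exact h.fib Ω x x' hx hx' (hc.inj Ω _ _ (h.mem Ω x hx) (h.mem Ω x' hx') e)
  · obtain ⟨z, hz, rfl⟩ := hc.surj Ω y hy
    obtain ⟨x, hx, rfl⟩ := h.surj Ω z hz
    exact ⟨x, hx, SplitB_evs _ _ _⟩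
  · rw [SplitB_evs] at h1 h2
    exact h.val Ω Ω' Pl x hx (hc.val Ω Ω' Pl _ (h.mem Ω x hx) h1 h2)

omit [IsAlgClosed k] in
theorem SplitB_cut {D : FrD k Γ} {σ I : Type} [Finite I] {φ : σ → MvPolynomial D.σ k}
    {R : Fam k σ} (h : D.QuotF φ R) (f : I → MvPolynomial σ k) (hf) (T : I → Bool) :
    (D.cut (fun i => aeval φ (f i)) hf T).QuotF
      (Sum.elim (fun s => rename Sum.inl (φ s)) fun i => X (Sum.inr i) :
        σ ⊕ I → MvPolynomial (D.σ ⊕ I) k) (R.cut f T) := by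
  have el : ∀ {Ω : Type u} [Field Ω] [Algebra k Ω] (x : D.σ ⊕ I → Ω),
      evs x (Sum.elim (fun s => rename Sum.inl (φ s)) fun i => X (Sum.inr i) :
        σ ⊕ I → MvPolynomial (D.σ ⊕ I) k) =
      Sum.elim (evs (fun s => x (Sum.inl s)) φ) fun i => x (Sum.inr i) := by
    intro Ω _ _ x
    funext s
    rcases s with s | i
    · exact aeval_rename _ _ _
    · exact aeval_X _ _
  refine ⟨fun Ω _ _ _ x hx => ?_, fun γ Ω _ _ x hx => ?_, fun Ω _ _ _ x x' hx hx' e => ?_,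
    fun Ω _ _ _ y hy => ?_, fun Ω Ω' _ _ _ _ _ _ Pl x hx h1 => ?_⟩
  · obtain ⟨h1, h2⟩ := FrD.cut_iff.1 hx
    refine (congrArg (R.cut f T Ω) (el x)).mpr ⟨h.mem Ω _ h1, fun i => ?_⟩
    have h3 := h2 i
    rw [SplitB_aeval] at h3
    exact h3
  · obtain ⟨h1, -⟩ := FrD.cut_iff.1 hx
    refine (el _).trans (Eq.trans ?_ (el x).symm)
    congr 1
    · exact (congrArg (evs · φ) (evs_cutA_inl (D.act γ) x)).trans (h.inv γ Ω _ h1)
    · exact funext (evs_cutA_inr (D.act γ) x)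
  · replace e := (el x).symm.trans (e.trans (el x'))
    obtain ⟨γ, hγ⟩ := h.fib Ω _ _ (FrD.cut_iff.1 hx).1 (FrD.cut_iff.1 hx').1
      (funext fun s => congrFun e (Sum.inl s))
    refine ⟨γ, funext fun s => ?_⟩
    rcases s with s | i
    · exact congrFun (hγ.trans (evs_cutA_inl (D.act γ) x).symm) s
    · exact (congrFun e (Sum.inr i)).symm.trans (evs_cutA_inr (D.act γ) x i).symm
  · obtain ⟨x, hx, e⟩ := h.surj Ω _ hy.1
    refine ⟨Sum.elim x fun i => y (Sum.inr i), FrD.cut_iff.2 ⟨hx, fun i => ?_⟩,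
      (el _).trans (funext fun s => ?_)⟩
    · have h2 := hy.2 i
      rw [← e, ← SplitB_aeval] at h2
      exact h2
    · rcases s with s | i
      · exact congrFun e s
      · rfl
  · replace h1 := fun s => (congrArg (· ∈ Pl.O) (congrFun (el x) s)).mp (h1 s)
    rintro (s | i)
    · exact h.val Ω Ω' Pl _ (FrD.cut_iff.1 hx).1 (fun s => h1 (Sum.inl s)) s
    · exact h1 (Sum.inr i)

/-- If the quotient of the frames is cut into open subsets of affine spaces, the frames are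
good. -/
theorem Weil.good_cell {D : FrD k Γ} {σ : Type} {φ : σ → MvPolynomial D.σ k} {R : Fam k σ}
    (h : D.QuotF φ R) (hR : Cell R) (e : FRel k D.σ) : W.Good D e (range X) := by
  obtain ⟨I, _, f, hf⟩ := hR
  refine W.good_split (f := fun i => aeval φ (f i)) (fun γ Ω _ _ x hx => ?_) (fun T e' => ?_) e
  · rw [SplitB_evs, SplitB_evs, h.inv γ Ω x hx]
  · obtain ⟨τ, _, t, Dp, hc⟩ := hf T
    exact W.good_quot ((SplitB_cut h f _ T).quot hc) e'

end Pool.Agent.MP_0c8446_ag
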