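import Pool.Agent.MP_0c8446_ag.CL.CStr
import Pool.Agent.MP_0c8446_ag.CL.CTow
import Pool.Agent.MP_0c8446_ag.CL.CFin
import Pool.Agent.MP_0c8446_ag.CL.ChD
import Pool.Agent.MP_0c8446_ag.CL.SplitB
import Pool.Agent.MP_0c8446_ag.CL.CConj
import Pool.Agent.MP_0c8446_ag.CL.RepT2
import Pool.Agent.MP_0c8446_ag.DL.FinalDL

namespace Pool.Agent.MP_0c8446_ag

open MvPolynomial Set Matrix

universe u v w

variable {k : Type u} [Field k] [IsAlgClosed k] {K : Type v} [Field K] [CharZero K]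
  (W : Weil.{u, v, w} k K) {Γ : Type u} [Group Γ]

theorem Weil.good_CY {n r : ℕ} {C : CD k n} {w : Fin r → ℕ × Bool} {N : Fin n → ℕ}
    (c : ∀ a : Fin n, Fin (N a + 1) ≃ (Fin (a + 1) → Fin n)) (A : C.Anti) (y : A.Y r)
    (hw : C.Ok w) : W.Good (C.fr (zC C.t w y.1.1))
      (fun Ω _ _ _ (h h' : CS r n → Ω) => ParOn univ (A.pt c y h) (A.pt c y h')) ∅ :=
  have := C.finite_Γ
  W.good_tower2 C.pos (A.tow c y hw) fun e' =>
    (W.good_cell (C.quotF _) (C.cell_zC hw (A.symm_rev y)) e').mono (by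
      rintro _ ⟨⟨j, a, b⟩, rfl⟩
      exact mem_iUnion.2 ⟨(j, b), a, rfl⟩)

theorem Weil.sqT_stage [IsAlgClosed K] {n r : ℕ} (C : CD k n) {w : Fin r → ℕ × Bool}
    {N : Fin n → ℕ} (c : ∀ a : Fin n, Fin (N a + 1) ≃ (Fin (a + 1) → Fin n)) (h₁ h₂)
    (hw : C.Ok w) : W.SqT (C.stage w c h₁ h₂).P := by
  have := C.finite_Γ
  have key : ∀ (A : C.Anti) a, W.Inv ((C.stage w c h₁ h₂).prod ((C.stage w c h₁ h₂).comap A.θ)) a →
      a ∈ W.Alg ((C.stage w c h₁ h₂).prod ((C.stage w c h₁ h₂).comap A.θ)).P := fun A a ha => by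
    have hJ : ((C.stage w c h₁ h₂).prod ((C.stage w c h₁ h₂).comap A.θ)).J = ∅ :=
      eq_empty_of_forall_notMem fun i hi => by cases i <;> exact hi
    exact W.inv_alg hJ (W.dec_strata hJ (A.strat c h₁ h₂ hw)
      (fun y => (W.good_CY c A y hw).congr fun Ω _ _ _ h h' _ _ => by
        rw [← A.evs_pt c y h, ← A.evs_pt c y h']; rfl) _) ha
  obtain ⟨A₀, A₁, θ', hθ⟩ := C.exists_anti
  exact W.sqT_of_inv2 _ A₀.θ A₁.θ θ' hθ (key A₀) (key A₁)

theorem Weil.sqT_of_clType [IsAlgClosed K] {p : ℕ} [hp : Fact p.Prime] [CharP k p] {X : Var k}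
    (h : ClType k p X) : W.SqT X := by
  induction h with
  | ofDL h => exact W.sqT_of_dlType h
  | @ofCl alt t f n r w N c h₁ h₂ h2 hf hn ha hw =>
    have : PQ k (p ^ f) := ⟨p, f, hp.out, inferInstance, hf, rfl⟩
    have two : (2 : k) ≠ 0 := fun h => h2 ((Nat.prime_dvd_prime_iff_eq hp.out Nat.prime_two).1
      ((CharP.cast_eq_zero_iff k p 2).1 (by exact_mod_cast h)))
    exact W.sqT_stage ⟨alt, t, p ^ f, fun h => (ha h).1, fun h => (ha h).2.1, two, hn⟩ c h₁ h₂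
      fun j => ⟨fun h => (ha h).2.2 j, hw j⟩
  | prod a b h _ _ h1 h2 => exact W.sqT_prod h h1 h2

theorem cl_D {p : ℕ} [Fact p.Prime] [CharP k p] {X : Var k} (hX : ClType k p X) {a : W.H X}
    (ha : a ∈ W.Alg X) (h : ∀ Z, IsSub Z → W.tr X (W.cl X Z * a) = 0) : a = 0 := by
  obtain ⟨W', j, hj, h1, h2, h3⟩ := W.baseChange (AlgebraicClosure K)
  refine hj _ ((W'.eq_zero_of_sqT (W'.sqT_of_clType hX) ?_ fun Z hZ => ?_).trans
    (map_zero _).symm)
  · clear h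
    induction ha using Submodule.span_induction with
    | mem x hx => obtain ⟨Z, hZ, rfl⟩ := hx; exact h1 _ Z ▸ W'.cl_mem_Alg hZ
    | zero => simp
    | add x y _ _ hx hy => rw [map_add]; exact add_mem hx hy
    | smul c x _ hx => rw [h3]; exact Submodule.smul_mem _ _ hx
  · rw [h1, ← map_mul, h2, h Z hZ, map_zero]

theorem cl_D' {p : ℕ} [Fact p.Prime] [CharP k p] {X : Var k} (hX : W.MotivatedBy (ClType k p) X)
    {a : W.H X} (ha : a ∈ W.Alg X) (h : ∀ Z, IsSub Z → W.tr X (W.cl X Z * a) = 0) : a = 0 := by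
  by_contra h0
  obtain ⟨Y, T, f, g, Z, b, hY, hZ, hne⟩ := hX a h0
  have hZ' := W.cl_mem_Alg hZ
  obtain ⟨a', ha', h1⟩ := W.exists_push g (W.mul_mem_Alg hZ' (W.pull_mem_Alg f ha))
  have h2 : a' = 0 := cl_D W hY ha' fun C hC => by
    have hC' := W.pull_mem_Alg g (W.cl_mem_Alg hC)
    obtain ⟨z, hz, h3⟩ := W.exists_push f (W.mul_mem_Alg hZ' hC')
    rw [W.cl_comm hC, ← h1, mul_assoc, ← W.Alg_comm hC', ← mul_assoc, h3]
    by_contra h4
    obtain ⟨D, hD, h5⟩ := W.exists_cl_of_Alg hz h4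
    exact h5 (h D hD)
  rw [← mul_assoc, h1, h2, zero_mul, map_zero] at hne
  exact hne rfl

end Pool.Agent.MP_0c8446_ag
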