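import Pool.Agent.MP_0c8446_ag.CL.AdjA

namespace Pool.Agent.MP_0c8446_ag

open MvPolynomial Set Matrix

universe u v w

variable {F : Type u} [Field F] {n : ℕ} {M M' g : Matrix (Fin n) (Fin n) F}

theorem FqA_skew {V : Type u} [AddCommGroup V] [Module F V] (B : V →ₗ[F] V →ₗ[F] F)
    (hA : ∀ v, B v v = 0) (v w : V) : B v w = -B w v := by
  have h := hA (v + w)
  simp only [map_add, LinearMap.add_apply, hA] at h
  linear_combination h

theorem FqA_split {V : Type u} [AddCommGroup V] [Module F V] [FiniteDimensional F V]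
    (B : V →ₗ[F] V →ₗ[F] F) (hA : ∀ v, B v v = 0) (hN : ∀ v, (∀ w, B v w = 0) → v = 0)
    (hV : 0 < Module.finrank F V) :
    ∃ (x y : V) (U : Submodule F V) (π : V →ₗ[F] U), B x y = 1 ∧ (∀ u : U, B x u = 0 ∧ B y u = 0) ∧
      Module.finrank F U + 2 = Module.finrank F V ∧
      (∀ u : U, (∀ u' : U, B u u' = 0) → u = 0) ∧ ∀ v, v = π v + B x v • y - B y v • x := by
  obtain ⟨x, hx⟩ := Module.finrank_pos_iff_exists_ne_zero.1 hV
  have h1 : ∃ w, B x w ≠ 0 := by
    by_contra h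
    push Not at h
    exact hx (hN x h)
  obtain ⟨w, hw⟩ := h1
  obtain ⟨y, hy⟩ : ∃ y, B x y = 1 :=
    ⟨(B x w)⁻¹ • w, by rw [map_smul, smul_eq_mul, inv_mul_cancel₀ hw]⟩
  have hyx : B y x = -1 := by rw [FqA_skew B hA, hy]
  let φ : V →ₗ[F] F × F := (B x).prod (B y)
  have hφ : ∀ v, v ∈ LinearMap.ker φ ↔ B x v = 0 ∧ B y v = 0 := fun v => by
    simp [φ]
  let p : V →ₗ[F] V := LinearMap.id - (B x).smulRight y + (B y).smulRight x
  have hp : ∀ v, p v = v - B x v • y + B y v • x := fun v => rfl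
  have hpm : ∀ v, p v ∈ LinearMap.ker φ := fun v => by
    rw [hφ, hp]
    simp [hy, hyx, hA]
  have hdec : ∀ v, v = p v + B x v • y - B y v • x := fun v => by
    rw [hp]
    abel
  refine ⟨x, y, LinearMap.ker φ, p.codRestrict _ hpm, hy, fun u => (hφ _).1 u.2, ?_, ?_, hdec⟩
  · have h2 : LinearMap.range φ = ⊤ := by
      rw [LinearMap.range_eq_top]
      rintro ⟨a, b⟩
      exact ⟨a • y - b • x, by simp [φ, hy, hyx, hA]⟩
    have h3 := φ.finrank_range_add_finrank_ker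
    rw [h2, finrank_top, Module.finrank_prod, Module.finrank_self] at h3
    omega
  · intro u hu
    refine Subtype.ext (hN _ fun v => ?_)
    obtain ⟨h4, h5⟩ := (hφ _).1 u.2
    have h6 := hu ⟨p v, hpm v⟩
    rw [hdec v]
    simp only [map_add, map_sub, map_smul, smul_eq_mul]
    rw [h6, FqA_skew B hA u y, FqA_skew B hA u x, h4, h5]
    simp

theorem FqA_iso (m : ℕ) : ∀ (V W : Type u) [AddCommGroup V] [Module F V] [FiniteDimensional F V]
    [AddCommGroup W] [Module F W] [FiniteDimensional F W] (B : V →ₗ[F] V →ₗ[F] F)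
    (C : W →ₗ[F] W →ₗ[F] F), Module.finrank F V = m → Module.finrank F W = m →
    (∀ v, B v v = 0) → (∀ v, (∀ w, B v w = 0) → v = 0) → (∀ v, C v v = 0) →
    (∀ v, (∀ w, C v w = 0) → v = 0) → ∃ e : V →ₗ[F] W, ∀ v w, C (e v) (e w) = B v w := by
  induction m using Nat.strong_induction_on with
  | _ m ih =>
  intro V W _ _ _ _ _ _ B C hV hW hA hN hA' hN'
  rcases Nat.eq_zero_or_pos m with rfl | hm
  · have := Module.finrank_zero_iff.1 hV
    exact ⟨0, fun v w => by rw [Subsingleton.elim v 0]; simp⟩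
  obtain ⟨x, y, U, π, h1, h2, h3, h4, h5⟩ := FqA_split B hA hN (hV ▸ hm)
  obtain ⟨x', y', U', π', h1', h2', h3', h4', -⟩ := FqA_split C hA' hN' (hW ▸ hm)
  obtain ⟨e, he⟩ := ih (Module.finrank F U) (by omega) U U' (B.compl₁₂ U.subtype U.subtype)
    (C.compl₁₂ U'.subtype U'.subtype) rfl (by omega) (fun v => hA v) h4 (fun v => hA' v) h4'
  refine ⟨U'.subtype ∘ₗ e ∘ₗ π + (B x).smulRight y' - (B y).smulRight x', fun v w => ?_⟩
  have key : ∀ {Z : Type u} [AddCommGroup Z] [Module F Z] (D : Z →ₗ[F] Z →ₗ[F] F),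
      (∀ z, D z z = 0) → ∀ (s t u u' : Z) (a b c d : F), D s t = 1 → D s u = 0 → D t u = 0 →
      D s u' = 0 → D t u' = 0 →
      D (u + a • t - b • s) (u' + c • t - d • s) = D u u' + a * d - b * c := by
    intro Z _ _ D hD s t u u' a b c d e1 e2 e3 e4 e5
    simp only [map_add, map_sub, map_smul, smul_eq_mul, LinearMap.add_apply, LinearMap.sub_apply,
      LinearMap.smul_apply, hD]
    rw [FqA_skew D hD u t, FqA_skew D hD u s, FqA_skew D hD t s, e1, e2, e3, e4, e5]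
    ring
  have e1 := key B hA x y (π v) (π w) (B x v) (B y v) (B x w) (B y w) h1 (h2 _).1 (h2 _).2
    (h2 _).1 (h2 _).2
  rw [← h5 v, ← h5 w] at e1
  have e2 := key C hA' x' y' (e (π v)) (e (π w)) (B x v) (B y v) (B x w) (B y w) h1' (h2' _).1
    (h2' _).2 (h2' _).1 (h2' _).2
  have e3 : C (e (π v)) (e (π w)) = B (π v) (π w) := he _ _
  rw [e3, ← e1] at e2
  exact e2

theorem FqA_alt (two : (2 : F) ≠ 0) (h : Mᵀ = -M) (v : Fin n → F) : toBilin' M v v = 0 := by
  have h1 : v ⬝ᵥ M *ᵥ v = -(v ⬝ᵥ M *ᵥ v) := by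
    conv_lhs => rw [dotProduct_mulVec, ← mulVec_transpose, h, neg_mulVec, dotProduct_comm,
      dotProduct_neg]
  rw [toBilin'_apply']
  exact (mul_eq_zero.1 (by linear_combination h1 : 2 * (v ⬝ᵥ M *ᵥ v) = 0)).resolve_left two

theorem FqA_nd (hM : IsUnit M) (v : Fin n → F) (hv : ∀ w, toBilin' M v w = 0) : v = 0 := by
  obtain ⟨N, hN⟩ := hM.exists_right_inv
  funext i
  have h1 := hv (N *ᵥ Pi.single i 1)
  rw [toBilin'_apply', mulVec_mulVec, hN, one_mulVec, dotProduct_single, mul_one] at h1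
  exact h1

/-- Any two nondegenerate alternating forms of the same rank are congruent. -/
theorem alt_congr (two : (2 : F) ≠ 0) (hM : IsUnit M) (h : Mᵀ = -M) (hM' : IsUnit M')
    (h' : M'ᵀ = -M') : ∃ γ : Matrix (Fin n) (Fin n) F, γᵀ * M * γ = M' := by
  obtain ⟨e, he⟩ := FqA_iso (F := F) _ (Fin n → F) (Fin n → F) (toBilin' M') (toBilin' M) rfl rfl
    (FqA_alt two h') (FqA_nd hM') (FqA_alt two h) (FqA_nd hM)
  refine ⟨LinearMap.toMatrix' e, toBilin'.injective ?_⟩
  rw [← toBilin'_comp, toLin'_toMatrix']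
  exact LinearMap.ext₂ he

/-- Symplectic matrices have determinant one. -/
theorem det_eq_one_of_alt (two : (2 : F) ≠ 0) (hM : IsUnit M) (h : Mᵀ = -M)
    (hg : gᵀ * M * g = M) : g.det = 1 := by
  have hd : M.det ≠ 0 := ((isUnit_iff_isUnit_det M).1 hM).ne_zero
  have ev : Even n := by
    by_contra ho
    have h1 := congrArg det h
    rw [det_transpose, det_neg, Fintype.card_fin, (Nat.not_even_iff_odd.1 ho).neg_one_pow] at h1
    exact hd ((mul_eq_zero.1 (by linear_combination h1 : 2 * M.det = 0)).resolve_left two)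
  obtain ⟨m, rfl⟩ := ev
  let σ : Fin (m + m) ≃ Fin m ⊕ Fin m := finSumFinEquiv.symm
  have hJ : IsUnit ((J (Fin m) F).submatrix σ σ) := by
    rw [isUnit_iff_isUnit_det, det_submatrix_equiv_self]
    exact isUnit_det_J _ _
  have hJ' : ((J (Fin m) F).submatrix σ σ)ᵀ = -(J (Fin m) F).submatrix σ σ := by
    rw [transpose_submatrix, J_transpose]
    rfl
  obtain ⟨γ, hγ⟩ := alt_congr two hJ hJ' hM h
  have hγu : IsUnit γ.det := by
    have h1 := congrArg det hγ
    rw [det_mul] at h1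
    exact isUnit_iff_ne_zero.2 fun h0 => hd (by rw [← h1, h0, mul_zero])
  have h2 : (γ * g * γ⁻¹)ᵀ * (J (Fin m) F).submatrix σ σ * (γ * g * γ⁻¹) =
      (J (Fin m) F).submatrix σ σ := by
    calc (γ * g * γ⁻¹)ᵀ * (J (Fin m) F).submatrix σ σ * (γ * g * γ⁻¹)
        = γ⁻¹ᵀ * (gᵀ * (γᵀ * (J (Fin m) F).submatrix σ σ * γ) * g) * γ⁻¹ := by
          simp only [transpose_mul, Matrix.mul_assoc]
      _ = (γ * γ⁻¹)ᵀ * (J (Fin m) F).submatrix σ σ * (γ * γ⁻¹) := by
          rw [hγ, hg, ← hγ]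
          simp only [transpose_mul, Matrix.mul_assoc]
      _ = _ := by rw [mul_nonsing_inv _ hγu, transpose_one, Matrix.one_mul, Matrix.mul_one]
  have h3 : (γ * g * γ⁻¹).submatrix σ.symm σ.symm ∈ symplecticGroup (Fin m) F := by
    rw [SymplecticGroup.mem_iff']
    generalize γ * g * γ⁻¹ = A at h2 ⊢
    have h4 := congrArg (fun X => X.submatrix σ.symm σ.symm) h2
    simp only [← submatrix_mul_equiv _ _ _ σ.symm, submatrix_submatrix, Equiv.self_comp_symm,
      submatrix_id_id] at h4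
    rw [transpose_submatrix]
    exact h4
  have h5 := SymplecticGroup.det_eq_one h3
  rwa [det_submatrix_equiv_self, det_conj ((isUnit_iff_isUnit_det γ).2 hγu)] at h5

theorem IsU.su_of_alt (two : (2 : F) ≠ 0) (ev : Even n) (hg : IsU true g) : SU true g := by
  refine ⟨hg, det_eq_one_of_alt two (IsUnit.of_mul_eq_one _ jM_mul_transpose) ?_ hg⟩
  rw [jM_transpose fun _ => ev]
  simp [eps]

end Pool.Agent.MP_0c8446_ag
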