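import Pool.Agent.MP_0c8446_ag.CL.CDefs

namespace Pool.Agent.MP_0c8446_ag

open MvPolynomial Set

universe u v w

variable {F : Type u} [Field F] {V : Type u} [AddCommGroup V] [Module F V]

/-- `U` is a nondegenerate invariant subspace with an anti-isometry that turns `T` into `T'`. -/
def MvQ (B : V →ₗ[F] V →ₗ[F] F) (T T' : V →ₗ[F] V) (U : Submodule F V) : Prop :=
  (∀ x ∈ U, T x ∈ U) ∧ (∀ x ∈ U, (∀ y ∈ U, B x y = 0) → x = 0) ∧
    ∃ η : V →ₗ[F] V, (∀ x ∈ U, η x ∈ U) ∧ (∀ x ∈ U, ∀ y ∈ U, B (η x) (η y) = B y x) ∧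
      ∀ x ∈ U, η (T x) = T' (η x)

/-- A nondegenerate symmetric or alternating form in characteristic different from two. -/
structure MvF (B : V →ₗ[F] V →ₗ[F] F) (ε : F) : Prop where
  two : (2 : F) ≠ 0
  sq : ε * ε = 1
  sym : ∀ x y, B y x = ε * B x y
  nd : ∀ x, (∀ y, B x y = 0) → x = 0

variable {B : V →ₗ[F] V →ₗ[F] F} {ε : F} {T T' X : V →ₗ[F] V} {U U' : Submodule F V}

theorem MvQ.glue (h : MvQ B T T' U) (h' : MvQ B T T' U') (hB : MvF B ε)
    (ho : ∀ x ∈ U, ∀ y ∈ U', B x y = 0) : MvQ B T T' (U ⊔ U') := by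
  obtain ⟨hT, hn, η₁, a1, b1, c1⟩ := h
  obtain ⟨hT', hn', η₂, a2, b2, c2⟩ := h'
  have ho' : ∀ x ∈ U, ∀ y ∈ U', B y x = 0 := fun x hx y hy => by
    rw [hB.sym, ho x hx y hy, mul_zero]
  have hd : Disjoint U U' := Submodule.disjoint_def.2 fun x hx hx' => hn' x hx' (ho x hx)
  obtain ⟨W, hW, hc⟩ := hd.exists_isCompl
  have he : ∀ x ∈ U, ∀ y ∈ U', LinearMap.ofIsCompl hc (η₁.comp W.subtype) (η₂.comp U'.subtype)
      (x + y) = η₁ x + η₂ y := fun x hx y hy => by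
    rw [map_add]
    exact congrArg₂ (· + ·) (LinearMap.ofIsCompl_apply_left hc ⟨x, hW hx⟩)
      (LinearMap.ofIsCompl_apply_right hc ⟨y, hy⟩)
  refine ⟨fun x hx => ?_, fun x hx H => ?_,
    LinearMap.ofIsCompl hc (η₁.comp W.subtype) (η₂.comp U'.subtype),
    fun x hx => ?_, fun x hx y hy => ?_, fun x hx => ?_⟩
  · obtain ⟨a, ha, b, hb, rfl⟩ := Submodule.mem_sup.1 hx
    rw [map_add]
    exact Submodule.add_mem_sup (hT a ha) (hT' b hb)
  · obtain ⟨a, ha, b, hb, rfl⟩ := Submodule.mem_sup.1 hx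
    have e1 : a = 0 := hn a ha fun y hy => by
      have := H y (Submodule.mem_sup_left hy)
      rwa [map_add, LinearMap.add_apply, ho' y hy b hb, add_zero] at this
    have e2 : b = 0 := hn' b hb fun y hy => by
      have := H y (Submodule.mem_sup_right hy)
      rwa [map_add, LinearMap.add_apply, ho a ha y hy, zero_add] at this
    rw [e1, e2, add_zero]
  · obtain ⟨a, ha, b, hb, rfl⟩ := Submodule.mem_sup.1 hx
    rw [he a ha b hb]
    exact Submodule.add_mem_sup (a1 a ha) (a2 b hb)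
  · obtain ⟨a, ha, b, hb, rfl⟩ := Submodule.mem_sup.1 hx
    obtain ⟨c, hc', d, hd', rfl⟩ := Submodule.mem_sup.1 hy
    rw [he a ha b hb, he c hc' d hd']
    simp only [map_add, LinearMap.add_apply]
    rw [b1 a ha c hc', b2 b hb d hd', ho _ (a1 a ha) _ (a2 d hd'), ho' _ (a1 c hc') _ (a2 b hb),
      ho c hc' b hb, ho' a ha d hd']
  · obtain ⟨a, ha, b, hb, rfl⟩ := Submodule.mem_sup.1 hx
    rw [map_add T, he _ (hT a ha) _ (hT' b hb), he a ha b hb, c1 a ha, c2 b hb, map_add]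

theorem MvF.restrict (hB : MvF B ε) (hU : ∀ x ∈ U, (∀ y ∈ U, B x y = 0) → x = 0) :
    MvF (B.compl₁₂ U.subtype U.subtype) ε := by
  exact ⟨hB.two, hB.sq, fun x y => hB.sym x y,
    fun x hx => Subtype.ext (hU x x.2 fun y hy => hx ⟨y, hy⟩)⟩

theorem MvQ.of_restrict (hT : ∀ x ∈ U, T x ∈ U) (hT' : ∀ x ∈ U, T' x ∈ U)
    (h : MvQ (B.compl₁₂ U.subtype U.subtype) (T.restrict hT) (T'.restrict hT') ⊤) :
    MvQ B T T' U := by
  obtain ⟨-, hn, η, -, b1, c1⟩ := h
  obtain ⟨g, hg⟩ := LinearMap.exists_extend (U.subtype.comp η)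
  have he : ∀ x (hx : x ∈ U), g x = η ⟨x, hx⟩ := fun x hx => LinearMap.congr_fun hg ⟨x, hx⟩
  refine ⟨hT, fun x hx H => ?_, g, fun x hx => ?_, fun x hx y hy => ?_, fun x hx => ?_⟩
  · exact congrArg Subtype.val (hn ⟨x, hx⟩ trivial fun y _ => H y y.2)
  · rw [he x hx]
    exact (η ⟨x, hx⟩).2
  · rw [he x hx, he y hy]
    exact b1 ⟨x, hx⟩ trivial ⟨y, hy⟩ trivial
  · rw [he x hx, he _ (hT x hx)]
    exact congrArg Subtype.val (c1 ⟨x, hx⟩ trivial)

/-- The orthogonal complement of a nondegenerate subspace. -/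
theorem MvF.exists_perp [FiniteDimensional F V] (hB : MvF B ε)
    (hU : ∀ x ∈ U, (∀ y ∈ U, B x y = 0) → x = 0) :
    ∃ U' : Submodule F V, (∀ y, y ∈ U' ↔ ∀ x ∈ U, B x y = 0) ∧ IsCompl U U' ∧
      ∀ x ∈ U', (∀ y ∈ U', B x y = 0) → x = 0 := by
  have hr : LinearMap.BilinForm.IsRefl B := fun x y h => by rw [hB.sym, h, mul_zero]
  have hc : IsCompl U (LinearMap.BilinForm.orthogonal B U) :=
    LinearMap.BilinForm.isCompl_orthogonal_of_restrict_nondegenerate hr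
      ⟨fun x hx => Subtype.ext (hU x x.2 fun y hy => hx ⟨y, hy⟩),
        fun x hx => Subtype.ext (hU x x.2 fun y hy => hr _ _ (hx ⟨y, hy⟩))⟩
  refine ⟨_, fun y => Iff.rfl, hc, fun x hx H => hB.nd x fun z => ?_⟩
  obtain ⟨a, ha, b, hb, rfl⟩ := Submodule.mem_sup.1 (hc.sup_eq_top ▸ Submodule.mem_top (x := z))
  rw [map_add, hr _ _ (hx a ha), H b hb, add_zero]

theorem skew_aeval (hX : ∀ x y, B (X x) y = -B x (X y)) (P : Polynomial F) (x y : V) :
    B (Polynomial.aeval X P x) y = B x (Polynomial.aeval (-X) P y) := by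
  have hp : ∀ (n : ℕ) (x y : V), B ((X ^ n) x) y = B x (((-X) ^ n) y) := by
    intro n
    induction n with
    | zero => intro x y; rfl
    | succ n ih =>
      intro x y
      rw [pow_succ' X, pow_succ (-X), Module.End.mul_apply, Module.End.mul_apply, hX, ← ih,
        LinearMap.neg_apply, map_neg]
  induction P using Polynomial.induction_on' with
  | add p q hp' hq' => simp only [map_add, LinearMap.add_apply, hp', hq']
  | monomial n a =>
    simp only [Polynomial.aeval_monomial, Module.End.mul_apply, Module.algebraMap_end_apply,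
      map_smul, LinearMap.smul_apply, hp]

/-- An anti-isometry given on generators. -/
theorem mvQ_of_pair {A : Type u} [AddCommGroup A] [Module F A] {Φ Ψ : A →ₗ[F] V} (m : A → A)
    (hnd : ∀ s, (∀ s', B (Φ s) (Φ s') = 0) → Φ s = 0) (hr : ∀ s, ∃ s', Ψ s = Φ s')
    (hr' : ∀ s, ∃ s', Φ s = Ψ s') (hB : ∀ s s', B (Ψ s) (Ψ s') = B (Φ s') (Φ s))
    (h1 : ∀ s, T (Φ s) = Φ (m s)) (h2 : ∀ s, Ψ (m s) = T' (Ψ s)) :
    MvQ B T T' (LinearMap.range Φ) := by
  have hk : ∀ s, Φ s = 0 → Ψ s = 0 := fun s hs => by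
    obtain ⟨t, ht⟩ := hr s
    rw [ht]
    refine hnd t fun s' => ?_
    obtain ⟨t', ht'⟩ := hr' s'
    rw [← ht, ht', hB, hs, map_zero]
  obtain ⟨g, hg⟩ := Φ.rangeRestrict.exists_rightInverse_of_surjective Φ.range_rangeRestrict
  obtain ⟨η, hη⟩ := LinearMap.exists_extend (Ψ.comp g)
  have he : ∀ s, η (Φ s) = Ψ s := fun s => by
    have e1 : η (Φ s) = Ψ (g ⟨Φ s, s, rfl⟩) := LinearMap.congr_fun hη ⟨Φ s, s, rfl⟩
    have e2 : Φ (g ⟨Φ s, s, rfl⟩) = Φ s :=
      congrArg Subtype.val (LinearMap.congr_fun hg ⟨Φ s, s, rfl⟩)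
    rw [e1, ← sub_eq_zero, ← map_sub]
    exact hk _ (by rw [map_sub, e2, sub_self])
  refine ⟨?_, ?_, η, ?_, ?_, ?_⟩
  · rintro _ ⟨s, rfl⟩
    exact ⟨m s, (h1 s).symm⟩
  · rintro _ ⟨s, rfl⟩ H
    exact hnd s fun s' => H _ ⟨s', rfl⟩
  · rintro _ ⟨s, rfl⟩
    obtain ⟨t, ht⟩ := hr s
    exact ⟨t, by rw [he, ht]⟩
  · rintro _ ⟨s, rfl⟩ _ ⟨s', rfl⟩
    rw [he, he, hB]
  · rintro _ ⟨s, rfl⟩
    rw [h1, he, he, h2]

/-- The cyclic case. -/
theorem mvQ_cyclic (hB : MvF B ε) (hX : ∀ x y, B (X x) y = -B x (X y)) (v : V)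
    (hv : ∀ P : Polynomial F, (∀ Q : Polynomial F,
      B (Polynomial.aeval X P v) (Polynomial.aeval X Q v) = 0) → Polynomial.aeval X P v = 0) :
    ∃ U : Submodule F V, v ∈ U ∧ MvQ B X (-X) U := by
  have e1 : ∀ P : Polynomial F, Polynomial.aeval (-X) P =
      Polynomial.aeval X (P.comp (-Polynomial.X)) := fun P => by
    rw [Polynomial.aeval_comp, map_neg, Polynomial.aeval_X]
  have e2 : ∀ P : Polynomial F, Polynomial.aeval X P =
      Polynomial.aeval (-X) (P.comp (-Polynomial.X)) := fun P => by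
    rw [Polynomial.aeval_comp, map_neg, Polynomial.aeval_X, neg_neg]
  have hX' : ∀ x y, B ((-X) x) y = -B x ((-X) y) := fun x y => by
    rw [LinearMap.neg_apply, LinearMap.neg_apply, map_neg, LinearMap.neg_apply, hX, map_neg]
  refine ⟨_, LinearMap.mem_range.2 ⟨1, ?_⟩, mvQ_of_pair
    (Φ := (LinearMap.applyₗ v).comp (Polynomial.aeval X).toLinearMap)
    (Ψ := (LinearMap.applyₗ v).comp (Polynomial.aeval (-X)).toLinearMap)
    (fun P => Polynomial.X * P) hv (fun P => ⟨_, LinearMap.congr_fun (e1 P) v⟩)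
    (fun P => ⟨_, LinearMap.congr_fun (e2 P) v⟩) (fun P Q => ?_) (fun P => ?_) fun P => ?_⟩
  · change Polynomial.aeval X 1 v = v
    rw [map_one, Module.End.one_apply]
  · change B (Polynomial.aeval (-X) P v) (Polynomial.aeval (-X) Q v) =
      B (Polynomial.aeval X Q v) (Polynomial.aeval X P v)
    rw [skew_aeval hX', skew_aeval hX, neg_neg, e1 Q, ← Module.End.mul_apply,
      ← Module.End.mul_apply, ← map_mul, ← map_mul, mul_comm]
  · change X (Polynomial.aeval X P v) = Polynomial.aeval X (Polynomial.X * P) v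
    rw [map_mul, Polynomial.aeval_X, Module.End.mul_apply]
  · change Polynomial.aeval (-X) (Polynomial.X * P) v = (-X) (Polynomial.aeval (-X) P v)
    rw [map_mul, Polynomial.aeval_X, Module.End.mul_apply]

end Pool.Agent.MP_0c8446_ag
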