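import Pool.Agent.MP_0c8446_ag.CL.MvA

namespace Pool.Agent.MP_0c8446_ag

open MvPolynomial Set

universe u v w

variable {F : Type u} [Field F] {V : Type u} [AddCommGroup V] [Module F V]
  {B : V →ₗ[F] V →ₗ[F] F} {ε : F} {X : V →ₗ[F] V}

theorem mvB_split (X : V →ₗ[F] V) (P : Polynomial F) : ∃ a b : Polynomial F,
    Polynomial.aeval X P = Polynomial.aeval (X * X) a + X * Polynomial.aeval (X * X) b ∧
    Polynomial.aeval (-X) P = Polynomial.aeval (X * X) a - X * Polynomial.aeval (X * X) b := by
  induction P using Polynomial.induction_on with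
  | C c => exact ⟨Polynomial.C c, 0, by simp, by simp⟩
  | add P Q hP hQ =>
    obtain ⟨a, b, h1, h2⟩ := hP
    obtain ⟨a', b', h1', h2'⟩ := hQ
    refine ⟨a + a', b + b', ?_, ?_⟩
    · rw [map_add, h1, h1', map_add, map_add, mul_add]; abel
    · rw [map_add, h2, h2', map_add, map_add, mul_add]; abel
  | monomial n c h =>
    obtain ⟨a, b, h1, h2⟩ := h
    refine ⟨Polynomial.X * b, a, ?_, ?_⟩
    · rw [pow_succ', mul_left_comm, map_mul, h1, map_mul, Polynomial.aeval_X, Polynomial.aeval_X,
        mul_add, ← mul_assoc, add_comm]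
    · rw [pow_succ', mul_left_comm, map_mul, h2, map_mul, Polynomial.aeval_X, Polynomial.aeval_X,
        mul_sub, neg_mul, neg_mul, ← mul_assoc]
      abel

theorem mvB_sq (X : V →ₗ[F] V) (a : Polynomial F) :
    Polynomial.aeval (X * X) a = Polynomial.aeval X (Polynomial.expand F 2 a) := by
  rw [Polynomial.expand_aeval, pow_two]

theorem mvB_neg (X : V →ₗ[F] V) (a : Polynomial F) :
    Polynomial.aeval (-X) a = Polynomial.aeval X (a.comp (-Polynomial.X)) := by
  rw [Polynomial.aeval_comp, map_neg, Polynomial.aeval_X]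

theorem mvB_gcd {f : Polynomial F} (hf : Irreducible f) (e : ℕ) (c : Polynomial F)
    (hc : ¬ f ^ (e + 1) ∣ c) : ∃ u w : Polynomial F, f ^ e = u * c + w * f ^ (e + 1) := by
  classical
  obtain ⟨i, hi, h⟩ := (dvd_prime_pow hf.prime (e + 1)).1
    (EuclideanDomain.gcd_dvd_right c (f ^ (e + 1)))
  have hie : i ≤ e := by
    by_contra hne
    have : i = e + 1 := by omega
    rw [this] at h
    exact hc (h.symm.dvd.trans (EuclideanDomain.gcd_dvd_left _ _))
  obtain ⟨g, hg⟩ := h.dvd.trans (pow_dvd_pow f hie)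
  refine ⟨g * EuclideanDomain.gcdA c (f ^ (e + 1)), g * EuclideanDomain.gcdB c (f ^ (e + 1)), ?_⟩
  rw [EuclideanDomain.gcd_eq_gcd_ab] at hg
  linear_combination hg

/-- The primary case for an invertible skew-adjoint operator. -/
theorem mvQ_primary [Nontrivial V] (hB : MvF B ε) (hX : ∀ x y, B (X x) y = -B x (X y))
    {f : Polynomial F} (hf : Irreducible f) (h0 : f.coeff 0 ≠ 0)
    (hn : IsNilpotent (Polynomial.aeval (X * X) f)) :
    ∃ U : Submodule F V, U ≠ ⊥ ∧ MvQ B X (-X) U := by
  classical
  have hn' : ∃ n, Polynomial.aeval (X * X) f ^ n = 0 := hn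
  obtain ⟨e, he⟩ : ∃ e, Nat.find hn' = e + 1 := Nat.exists_eq_succ_of_ne_zero fun h => by
    have := Nat.find_spec hn'
    rw [h, pow_zero] at this
    exact one_ne_zero this
  have hz : Polynomial.aeval (X * X) (f ^ (e + 1)) = 0 := by
    rw [map_pow, ← he]; exact Nat.find_spec hn'
  have hN : Polynomial.aeval (X * X) (f ^ e) ≠ 0 := by
    rw [map_pow]; exact Nat.find_min hn' (by omega)
  have hinj : ∀ x, X x = 0 → x = 0 := by
    have hc : IsCoprime Polynomial.X (f ^ (e + 1)) :=
      (Polynomial.irreducible_X.coprime_iff_not_dvd.2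
        (by rw [Polynomial.X_dvd_iff]; exact h0)).pow_right
    obtain ⟨u, w, h⟩ := hc
    have h1 := congrArg (Polynomial.aeval (X * X)) h
    rw [map_add, map_mul, map_mul, hz, mul_zero, add_zero, map_one, Polynomial.aeval_X] at h1
    intro x hx
    have h2 := congrArg (fun A : V →ₗ[F] V => A x) h1
    simpa [hx] using h2.symm
  have hsa : ∀ (a : Polynomial F) x y, B (Polynomial.aeval (X * X) a x) y =
      B x (Polynomial.aeval (X * X) a y) := fun a x y => by
    rw [mvB_sq, skew_aeval hX, Polynomial.expand_aeval, Polynomial.expand_aeval, neg_sq]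
  have hcm : ∀ (a : Polynomial F) x, Polynomial.aeval (X * X) a (X x) =
      X (Polynomial.aeval (X * X) a x) := fun a x => by
    have h1 : Polynomial.aeval X (Polynomial.expand F 2 a * Polynomial.X) =
        Polynomial.aeval X (Polynomial.X * Polynomial.expand F 2 a) := by rw [mul_comm]
    rw [map_mul, map_mul, Polynomial.aeval_X, ← mvB_sq] at h1
    exact congrArg (fun A : V →ₗ[F] V => A x) h1
  obtain ⟨v, Q₀, hv⟩ : ∃ (v : V) (Q : Polynomial F),
      B (Polynomial.aeval (X * X) (f ^ e) v) (Polynomial.aeval X Q v) ≠ 0 := by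
    by_contra hne
    push Not at hne
    set N := Polynomial.aeval (X * X) (f ^ e) with hNd
    have a0 : ∀ v, B (N v) v = 0 := fun v => by simpa using hne v 1
    have a1 : ∀ v, B (N v) (X v) = 0 := fun v => by simpa using hne v Polynomial.X
    have b0 : ∀ x y, B (N x) y + ε * B (N x) y = 0 := fun x y => by
      have h := a0 (x + y)
      simp only [map_add, LinearMap.add_apply, a0] at h
      rw [← hB.sym, ← hsa]
      linear_combination h
    have b1 : ∀ x y, B (N x) (X y) - ε * B (N x) (X y) = 0 := fun x y => by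
      have h := a1 (x + y)
      simp only [map_add, LinearMap.add_apply, a1] at h
      have h2 : B (N y) (X x) = -(ε * B (N x) (X y)) := by
        rw [hsa, hcm, hB.sym, hX, mul_neg]
      linear_combination h - h2
    refine hN (LinearMap.ext fun x => hinj _ (hB.nd _ fun y => ?_))
    apply mul_left_cancel₀ hB.two
    rw [hX]
    linear_combination -(b0 x (X y)) - b1 x y
  let I : (V →ₗ[F] V) → Prop := fun A => ∀ Q : Polynomial F, B (A v) (Polynomial.aeval X Q v) = 0
  have hmul : ∀ (R : Polynomial F) A, I A → I (Polynomial.aeval X R * A) := fun R A h Q => by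
    have h1 := h (R.comp (-Polynomial.X) * Q)
    rw [map_mul, ← mvB_neg] at h1
    rw [Module.End.mul_apply, skew_aeval hX]
    exact h1
  have hkey : ∀ c : Polynomial F, I (Polynomial.aeval (X * X) c) →
      Polynomial.aeval (X * X) c = 0 := fun c h => by
    by_cases hc : f ^ (e + 1) ∣ c
    · obtain ⟨g, rfl⟩ := hc
      rw [map_mul, hz, zero_mul]
    · obtain ⟨u, w, h1⟩ := mvB_gcd hf e c hc
      have h2 := hmul (Polynomial.expand F 2 u) _ h Q₀
      rw [h1, map_add, map_mul, map_mul, hz, mul_zero, add_zero, mvB_sq X u] at hv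
      exact absurd h2 hv
  obtain ⟨U, hvU, hU⟩ := mvQ_cyclic hB hX v fun P hP => by
    obtain ⟨a, b, h1, h2⟩ := mvB_split X P
    have hP' : I (Polynomial.aeval (-X) P) := fun Q => by
      have h3 : Polynomial.aeval X (P * Q) = Polynomial.aeval X (Q * P) := by rw [mul_comm]
      rw [map_mul, map_mul] at h3
      have h4 := congrArg (fun A : V →ₗ[F] V => A v) h3
      simp only [Module.End.mul_apply] at h4
      rw [hB.sym, ← skew_aeval hX, h4, skew_aeval hX, mvB_neg, hP, mul_zero]
    rw [h1] at hP
    rw [h2] at hP'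
    have ha : I (Polynomial.aeval (X * X) a) := fun Q => by
      have k1 := hP Q
      have k2 := hP' Q
      simp only [LinearMap.add_apply, LinearMap.sub_apply, map_add, map_sub] at k1 k2
      apply mul_left_cancel₀ hB.two
      linear_combination k1 + k2
    have ha0 := hkey a ha
    rw [ha0, zero_add] at hP h1
    have hb := hmul Polynomial.X _ hP
    rw [Polynomial.aeval_X, ← mul_assoc] at hb
    have hb0 := hkey (Polynomial.X * b) (by rw [map_mul, Polynomial.aeval_X]; exact hb)
    rw [map_mul, Polynomial.aeval_X] at hb0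
    rw [h1]
    exact hinj _ (congrArg (fun A : V →ₗ[F] V => A v) hb0)
  refine ⟨U, fun h => hv ?_, hU⟩
  rw [h, Submodule.mem_bot] at hvU
  simp [hvU]

end Pool.Agent.MP_0c8446_ag
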