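import Pool.Agent.MP_0c8446_ag.CL.MvA

namespace Pool.Agent.MP_0c8446_ag

open MvPolynomial Set

universe u v w

variable {F : Type u} [Field F] {V : Type u} [AddCommGroup V] [Module F V]
  {B : V →ₗ[F] V →ₗ[F] F} {ε : F} {X : V →ₗ[F] V}

theorem MvC_pow (hX : ∀ x y, B (X x) y = -B x (X y)) (k : ℕ) (x y : V) :
    B x ((X ^ k) y) = (-1) ^ k * B ((X ^ k) x) y := by
  induction k generalizing x with
  | zero => simp
  | succ k ih =>
    have h1 : B x ((X ^ (k + 1)) y) = -B (X x) ((X ^ k) y) := by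
      rw [hX, neg_neg, pow_succ', Module.End.mul_apply]
    rw [h1, ih, pow_succ X, Module.End.mul_apply]
    ring

theorem MvC_div (P : Polynomial F) (v : V) :
    Polynomial.aeval X P v = X (Polynomial.aeval X P.divX v) + P.coeff 0 • v := by
  conv_lhs => rw [← Polynomial.X_mul_divX_add P]
  rw [map_add, map_mul, Polynomial.aeval_X, Polynomial.aeval_C, LinearMap.add_apply,
    Module.End.mul_apply, Module.algebraMap_end_apply]

theorem MvC_top {d : ℕ} (hd : X ^ (d + 1) = 0) (P : Polynomial F) (v : V) :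
    (X ^ d) (Polynomial.aeval X P v) = P.coeff 0 • (X ^ d) v := by
  rw [MvC_div, map_add, map_smul, ← Module.End.mul_apply, ← pow_succ, hd, LinearMap.zero_apply,
    zero_add]

theorem MvC_nd (hX : ∀ x y, B (X x) y = -B x (X y)) {d : ℕ} (hd : X ^ (d + 1) = 0) (p : V → Prop)
    (hp : ∀ u, p u → p (X u))
    (hs : ∀ u, p u → (∀ y, p y → B ((X ^ d) u) y = 0) → ∃ u', p u' ∧ u = X u') {z : V}
    (hz : p z) (h : ∀ y, p y → B z y = 0) : z = 0 := by
  have hp' : ∀ (k : ℕ) u, p u → p ((X ^ k) u) := by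
    intro k
    induction k with
    | zero => exact fun u hu => hu
    | succ k ih =>
      intro u hu
      rw [pow_succ', Module.End.mul_apply]
      exact hp _ (ih u hu)
  have key : ∀ i, i ≤ d + 1 → ∃ u, p u ∧ z = (X ^ i) u := by
    intro i
    induction i with
    | zero => exact fun _ => ⟨z, hz, rfl⟩
    | succ i ih =>
      intro hi
      obtain ⟨u, hu, hzu⟩ := ih (by omega)
      obtain ⟨u', hu', huu⟩ := hs u hu fun y hy => by
        have h1 : (X ^ d) u = (X ^ (d - i)) z := by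
          rw [hzu, ← Module.End.mul_apply, ← pow_add, Nat.sub_add_cancel (by omega)]
        have h2 := MvC_pow hX (d - i) z y
        rw [h _ (hp' _ y hy)] at h2
        rw [h1]
        exact (mul_eq_zero.1 h2.symm).resolve_left (pow_ne_zero _ (neg_ne_zero.2 one_ne_zero))
      exact ⟨u', hu', by rw [hzu, huu, pow_succ, Module.End.mul_apply]⟩
  obtain ⟨u, -, hu⟩ := key (d + 1) le_rfl
  rw [hu, hd, LinearMap.zero_apply]

theorem MvC_dual (hB : MvF B ε) (hX : ∀ x y, B (X x) y = -B x (X y)) {d : ℕ}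
    (hd : X ^ (d + 1) = 0) {v : V} (hv : (X ^ d) v ≠ 0) :
    ∃ w, B ((X ^ d) v) w = 1 ∧ ∀ i, i ≠ d → B ((X ^ i) v) w = 0 := by
  have hbig : ∀ i, d < i → X ^ i = 0 := fun i hi => pow_eq_zero_of_le hi hd
  have key : ∀ j : ℕ, ∃ w, B ((X ^ d) v) w = 1 ∧
      ∀ i, i < d → d ≤ i + j → B ((X ^ i) v) w = 0 := by
    intro j
    induction j with
    | zero =>
      obtain ⟨w, hw⟩ : ∃ w, B ((X ^ d) v) w ≠ 0 := by
        by_contra hc
        exact hv (hB.nd _ fun y => by_contra fun hy => hc ⟨y, hy⟩)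
      refine ⟨(B ((X ^ d) v) w)⁻¹ • w, ?_, fun i h1 h2 => by omega⟩
      rw [map_smul, smul_eq_mul, inv_mul_cancel₀ hw]
    | succ j ih =>
      obtain ⟨w, hw, hw'⟩ := ih
      have h1 : ∀ i, B ((X ^ i) v) ((X ^ (j + 1)) w) =
          (-1) ^ (j + 1) * B ((X ^ (j + 1 + i)) v) w := fun i => by
        rw [MvC_pow hX, pow_add X (j + 1) i, Module.End.mul_apply]
      refine ⟨w - ((-1) ^ (j + 1) * B ((X ^ (d - (j + 1))) v) w) • (X ^ (j + 1)) w, ?_,
        fun i h2 h3 => ?_⟩
      · rw [map_sub, map_smul, h1, hbig (j + 1 + d) (by omega), hw]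
        simp
      · rw [map_sub, map_smul, h1]
        rcases Nat.lt_or_ge (i + j) d with h4 | h4
        · have h5 : j + 1 + i = d := by omega
          have h6 : d - (j + 1) = i := by omega
          have h7 : ((-1 : F) ^ (j + 1)) * (-1) ^ (j + 1) = 1 := by
            rw [← mul_pow]
            simp
          rw [h5, h6, hw, smul_eq_mul]
          linear_combination (-B ((X ^ i) v) w) * h7
        · rw [hw' i h2 h4, hbig (j + 1 + i) (by omega)]
          simp
  obtain ⟨w, hw, hw'⟩ := key d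
  refine ⟨w, hw, fun i hi => ?_⟩
  rcases Nat.lt_or_gt_of_ne hi with h | h
  · exact hw' i h (by omega)
  · rw [hbig i h]
    simp

theorem MvC_comp (P : Polynomial F) :
    Polynomial.aeval X (P.comp (-Polynomial.X)) = Polynomial.aeval (-X) P := by
  rw [Polynomial.aeval_comp, map_neg, Polynomial.aeval_X]

theorem MvC_comp' (P : Polynomial F) :
    Polynomial.aeval (-X) (P.comp (-Polynomial.X)) = Polynomial.aeval X P := by
  rw [MvC_comp, neg_neg]

theorem MvC_comm (P Q : Polynomial F) (x : V) :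
    Polynomial.aeval X P (Polynomial.aeval (-X) Q x) =
      Polynomial.aeval (-X) Q (Polynomial.aeval X P x) := by
  rw [← MvC_comp, ← Module.End.mul_apply, ← map_mul, mul_comm, map_mul, Module.End.mul_apply]

theorem MvC_diag (hX : ∀ x y, B (X x) y = -B x (X y)) (P Q : Polynomial F) (x : V) :
    B (Polynomial.aeval (-X) P x) (Polynomial.aeval (-X) Q x) =
      B (Polynomial.aeval X Q x) (Polynomial.aeval X P x) := by
  have hX' : ∀ x y, B ((-X) x) y = -B x ((-X) y) := fun x y => by simp [hX]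
  rw [skew_aeval hX', neg_neg, MvC_comm, skew_aeval hX]

theorem MvC_pair (hB : MvF B ε) (hX : ∀ x y, B (X x) y = -B x (X y)) {d : ℕ}
    (hd : X ^ (d + 1) = 0) (h0 : ∀ x, B ((X ^ d) x) x = 0) {v : V} (hv : (X ^ d) v ≠ 0) :
    ∃ U : Submodule F V, v ∈ U ∧ MvQ B X (-X) U := by
  obtain ⟨w, hw, hw'⟩ := MvC_dual hB hX hd hv
  have hX' : ∀ x y, B ((-X) x) y = -B x ((-X) y) := fun x y => by simp [hX]
  have hwv : B ((X ^ d) w) v = -1 := by
    have h1 := h0 (v + w)
    simp only [map_add, LinearMap.add_apply, h0, hw] at h1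
    linear_combination h1
  have hε : ε * (-1) ^ d = -1 := by
    have h1 := MvC_pow hX d w v
    rw [hB.sym, hw, hwv] at h1
    have h2 : ((-1 : F) ^ d) * (-1) ^ d = 1 := by
      rw [← mul_pow]
      simp
    linear_combination (-1) ^ d * h1 - h2
  have hK : ∀ R : Polynomial F,
      -B (Polynomial.aeval X R v) w = ε * B (Polynomial.aeval (-X) R v) w := by
    intro R
    induction R using Polynomial.induction_on' with
    | add P Q hP hQ =>
      simp only [map_add, LinearMap.add_apply]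
      linear_combination hP + hQ
    | monomial a c =>
      have h1 : (-X) ^ a = (-1 : F) ^ a • X ^ a := by rw [← smul_pow, neg_one_smul]
      simp only [Polynomial.aeval_monomial, Module.End.mul_apply, Module.algebraMap_end_apply, h1,
        LinearMap.smul_apply, map_smul, smul_eq_mul]
      by_cases ha : a = d
      · rw [ha, hw]
        linear_combination (-c) * hε
      · rw [hw' a ha]
        ring
  have hM : ∀ P Q : Polynomial F,
      -B (Polynomial.aeval (-X) P v) (Polynomial.aeval (-X) Q w) =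
        B (Polynomial.aeval X Q w) (Polynomial.aeval X P v) := by
    intro P Q
    have h1 := hK (Q * P.comp (-Polynomial.X))
    rw [map_mul, map_mul, MvC_comp, MvC_comp', Module.End.mul_apply, Module.End.mul_apply,
      skew_aeval hX Q, skew_aeval hX' Q, neg_neg] at h1
    rw [h1, ← hB.sym]
  let ev : (V →ₗ[F] V) → V → Polynomial F →ₗ[F] V := fun T x =>
    (LinearMap.applyₗ x).comp (Polynomial.aeval T).toLinearMap
  let Φ : Polynomial F × Polynomial F →ₗ[F] V := (ev X v).coprod (ev X w)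
  let Ψ : Polynomial F × Polynomial F →ₗ[F] V := (ev (-X) v).coprod (-ev (-X) w)
  have hΦ : ∀ s, Φ s = Polynomial.aeval X s.1 v + Polynomial.aeval X s.2 w := fun s => rfl
  have hΨ : ∀ s, Ψ s = Polynomial.aeval (-X) s.1 v + -Polynomial.aeval (-X) s.2 w := fun s => rfl
  have h1 : ∀ s, X (Φ s) = Φ (Polynomial.X * s.1, Polynomial.X * s.2) := fun s => by
    simp [hΦ]
  have hv1 : v = Φ (1, 0) := by simp [hΦ]
  have hw1 : w = Φ (0, 1) := by simp [hΦ]
  refine ⟨LinearMap.range Φ, ⟨_, hv1.symm⟩, mvQ_of_pair (Ψ := Ψ)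
    (fun s => (Polynomial.X * s.1, Polynomial.X * s.2)) (fun s hs => ?_) (fun s => ?_)
    (fun s => ?_) (fun s s' => ?_) h1 (fun s => ?_)⟩
  · refine MvC_nd hX hd (fun u => ∃ t, u = Φ t) ?_ ?_ ⟨s, rfl⟩ ?_
    · rintro _ ⟨t, rfl⟩
      exact ⟨_, h1 t⟩
    · rintro _ ⟨t, rfl⟩ ht
      have h2 := ht v ⟨_, hv1⟩
      have h3 := ht w ⟨_, hw1⟩
      rw [hΦ, map_add, MvC_top hd, MvC_top hd] at h2 h3
      simp only [map_add, map_smul, LinearMap.add_apply, LinearMap.smul_apply, h0, hw, hwv,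
        smul_eq_mul, mul_zero, mul_one, add_zero, zero_add, mul_neg, neg_eq_zero] at h2 h3
      refine ⟨Φ (t.1.divX, t.2.divX), ⟨_, rfl⟩, ?_⟩
      rw [hΦ, hΦ, MvC_div t.1, MvC_div t.2, h2, h3]
      simp
    · rintro _ ⟨t, rfl⟩
      exact hs t
  · exact ⟨(s.1.comp (-Polynomial.X), -s.2.comp (-Polynomial.X)), by
      rw [hΦ, hΨ, map_neg, MvC_comp, MvC_comp, LinearMap.neg_apply]⟩
  · exact ⟨(s.1.comp (-Polynomial.X), -s.2.comp (-Polynomial.X)), by
      rw [hΦ, hΨ, map_neg, MvC_comp', MvC_comp', LinearMap.neg_apply, neg_neg]⟩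
  · have h2 := hM s.1 s'.2
    have h3 := hM s'.1 s.2
    rw [hB.sym (Polynomial.aeval (-X) s.2 w), hB.sym (Polynomial.aeval X s'.1 v)] at h3
    have h4 := hB.sq
    simp only [hΦ, hΨ, map_add, map_neg, LinearMap.add_apply, LinearMap.neg_apply, MvC_diag hX]
    linear_combination h2 + ε * h3 +
      (B (Polynomial.aeval (-X) s.2 w) (Polynomial.aeval (-X) s'.1 v) +
        B (Polynomial.aeval X s'.1 v) (Polynomial.aeval X s.2 w)) * h4
  · simp [hΨ, add_comm]

/-- The nilpotent case. -/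
theorem mvQ_nilpotent [Nontrivial V] [FiniteDimensional F V] (hB : MvF B ε)
    (hX : ∀ x y, B (X x) y = -B x (X y)) (hn : IsNilpotent X) :
    ∃ U : Submodule F V, U ≠ ⊥ ∧ MvQ B X (-X) U := by
  obtain ⟨d, hd0, hd⟩ : ∃ d : ℕ, X ^ d ≠ 0 ∧ X ^ (d + 1) = 0 := by
    obtain ⟨n, hn⟩ := hn
    induction n with
    | zero => exact absurd hn (by simp)
    | succ n ih =>
      by_cases h : X ^ n = 0
      · exact ih h
      · exact ⟨n, h, hn⟩
  have hne : ∀ (v : V) (U : Submodule F V), (X ^ d) v ≠ 0 → v ∈ U → U ≠ ⊥ := by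
    rintro v U hv hU rfl
    rw [Submodule.mem_bot] at hU
    exact hv (by rw [hU, map_zero])
  by_cases h0 : ∀ x, B ((X ^ d) x) x = 0
  · obtain ⟨v, hv⟩ : ∃ v, (X ^ d) v ≠ 0 := by
      by_contra hc
      exact hd0 (LinearMap.ext fun y => by_contra fun hy => hc ⟨y, hy⟩)
    obtain ⟨U, hU, hQ⟩ := MvC_pair hB hX hd h0 hv
    exact ⟨U, hne v U hv hU, hQ⟩
  · obtain ⟨v, hv⟩ := not_forall.1 h0
    obtain ⟨U, hU, hQ⟩ := mvQ_cyclic hB hX v fun P hP => by
      refine MvC_nd hX hd (fun u => ∃ Q, u = Polynomial.aeval X Q v) ?_ ?_ ⟨P, rfl⟩ ?_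
      · rintro _ ⟨Q, rfl⟩
        exact ⟨Polynomial.X * Q, by simp⟩
      · rintro _ ⟨Q, rfl⟩ hQ
        have h1 := hQ v ⟨1, by simp⟩
        rw [MvC_top hd, map_smul, LinearMap.smul_apply, smul_eq_mul] at h1
        refine ⟨_, ⟨Q.divX, rfl⟩, ?_⟩
        rw [MvC_div Q, (mul_eq_zero.1 h1).resolve_right hv, zero_smul, add_zero]
      · rintro _ ⟨Q, rfl⟩
        exact hP Q
    exact ⟨U, hne v U (fun h => hv (by rw [h, map_zero, LinearMap.zero_apply])) hU, hQ⟩

end Pool.Agent.MP_0c8446_ag
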