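import Pool.Agent.MP_0c8446_ag.CL.MvB
import Pool.Agent.MP_0c8446_ag.CL.MvC

namespace Pool.Agent.MP_0c8446_ag

open MvPolynomial Set

universe u v w

variable {F : Type u} [Field F] {V : Type u} [AddCommGroup V] [Module F V] [FiniteDimensional F V]
  {B : V →ₗ[F] V →ₗ[F] F} {ε : F}

/-- The Fitting decomposition of an operator whose adjoint has the same generalised kernel. -/
theorem MvF.fitting (hB : MvF B ε) {S S' : V →ₗ[F] V} (h : ∀ x y, B (S x) y = B x (S' y))
    (hk : ∀ (i : ℕ) x, (S ^ i) x = 0 ↔ (S' ^ i) x = 0) :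
    ∃ N : ℕ, 0 < N ∧ IsCompl (LinearMap.ker (S ^ N)) (LinearMap.range (S ^ N)) ∧
      (∀ x ∈ LinearMap.range (S ^ N), ∀ y ∈ LinearMap.ker (S ^ N), B x y = 0) ∧
      (∀ x ∈ LinearMap.ker (S ^ N), (∀ y ∈ LinearMap.ker (S ^ N), B x y = 0) → x = 0) ∧
      ∀ x ∈ LinearMap.range (S ^ N), (∀ y ∈ LinearMap.range (S ^ N), B x y = 0) → x = 0 := by
  obtain ⟨N, hN, hc⟩ := ((Filter.eventually_gt_atTop 0).and
    S.eventually_isCompl_ker_pow_range_pow).exists
  have adj : ∀ (n : ℕ) x y, B ((S ^ n) x) y = B x ((S' ^ n) y) := by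
    intro n
    induction n with
    | zero => simp
    | succ n ih =>
      intro x y
      rw [pow_succ' S, pow_succ S', Module.End.mul_apply, Module.End.mul_apply, h, ih]
  have ho : ∀ x ∈ LinearMap.range (S ^ N), ∀ y ∈ LinearMap.ker (S ^ N), B x y = 0 := by
    rintro _ ⟨z, rfl⟩ y hy
    rw [adj, (hk N y).1 hy, map_zero]
  refine ⟨N, hN, hc, ho, fun x hx h1 => hB.nd x fun y => ?_, fun x hx h1 => hB.nd x fun y => ?_⟩
  · obtain ⟨a, ha, b, hb, rfl⟩ := Submodule.mem_sup.1 (hc.sup_eq_top ▸ Submodule.mem_top (x := y))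
    rw [map_add, h1 a ha, hB.sym b x, ho b hb x hx, mul_zero, add_zero]
  · obtain ⟨a, ha, b, hb, rfl⟩ := Submodule.mem_sup.1 (hc.sup_eq_top ▸ Submodule.mem_top (x := y))
    rw [map_add, h1 b hb, ho x hx a ha, add_zero]

/-- A skew-adjoint operator is turned into its negative by an anti-isometry. -/
theorem mvQ_lie (hB : MvF B ε) {X : V →ₗ[F] V} (hX : ∀ x y, B (X x) y = -B x (X y)) :
    MvQ B X (-X) ⊤ := by
  induction hn : Module.finrank F V using Nat.strong_induction_on generalizing V with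
  | _ n ih =>
  have sub : ∀ U : Submodule F V, U ≠ ⊤ → (∀ x ∈ U, X x ∈ U) →
      (∀ x ∈ U, (∀ y ∈ U, B x y = 0) → x = 0) → MvQ B X (-X) U := fun U hU h1 h2 => by
    have h3 : ∀ x ∈ U, (-X) x ∈ U := fun x hx => U.neg_mem (h1 x hx)
    exact MvQ.of_restrict h1 h3 (ih _ (hn ▸ Submodule.finrank_lt hU) (hB.restrict h2)
      (X := X.restrict h1) (fun x y => hX x y) rfl)
  rcases subsingleton_or_nontrivial V with hV | hV
  · exact ⟨fun _ _ => trivial, fun _ _ _ => Subsingleton.elim _ _, 0, fun _ _ => trivial,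
      fun x _ y _ => by rw [Subsingleton.elim y 0]; simp, fun _ _ => Subsingleton.elim _ _⟩
  have hint : IsIntegral F (X * X) := Algebra.IsIntegral.isIntegral _
  obtain ⟨f, hf, g, hg⟩ := Polynomial.exists_irreducible_of_degree_pos (minpoly.degree_pos hint)
  set S := Polynomial.aeval (X * X) f with hS
  have hSa : ∀ x y, B (S x) y = B x (S y) := fun x y => by
    have e : ∀ Y : V →ₗ[F] V, Y * Y = X * X →
        S = Polynomial.aeval Y (f.comp (Polynomial.X * Polynomial.X)) := fun Y hY => by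
      rw [Polynomial.aeval_comp, map_mul, Polynomial.aeval_X, hY]
    have := skew_aeval hX (f.comp (Polynomial.X * Polynomial.X)) x y
    rwa [← e X rfl, ← e (-X) (neg_mul_neg X X)] at this
  have hcomm : ∀ (N : ℕ) x, X ((S ^ N) x) = (S ^ N) (X x) := fun N x => by
    have : Commute X S := by
      rw [hS, Polynomial.aeval_eq_sum_range]
      exact Commute.sum_right _ _ _ fun i _ =>
        (((Commute.refl X).mul_right (Commute.refl X)).pow_right i).smul_right _
    exact LinearMap.congr_fun (this.pow_right N).eq x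
  obtain ⟨N, hN, hc, ho, hk, hr⟩ := hB.fitting hSa fun _ _ => Iff.rfl
  by_cases htop : LinearMap.ker (S ^ N) = ⊤
  · have hnil : IsNilpotent S := ⟨N, LinearMap.ker_eq_top.1 htop⟩
    obtain ⟨U, hU, hQ⟩ : ∃ U : Submodule F V, U ≠ ⊥ ∧ MvQ B X (-X) U := by
      by_cases h0 : f.coeff 0 = 0
      · obtain ⟨c, hc⟩ := Polynomial.X_dvd_iff.2 h0
        obtain ⟨d, hd⟩ := ((hf.isUnit_or_isUnit hc).resolve_left
          Polynomial.not_isUnit_X).exists_right_inv
        have e : X ^ 2 = S * Polynomial.aeval (X * X) d := by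
          rw [hS, ← map_mul, hc, mul_assoc, hd, mul_one, Polynomial.aeval_X, sq]
        refine mvQ_nilpotent hB hX (IsNilpotent.of_pow (m := 2) ?_)
        rw [e]
        exact (Commute.map (Commute.all f d) (Polynomial.aeval (X * X))).isNilpotent_mul_right
          hnil
      · exact mvQ_primary hB hX hf h0 hnil
    obtain ⟨U', h1, h2, h3⟩ := hB.exists_perp hQ.2.1
    rw [← h2.sup_eq_top]
    refine hQ.glue (sub U' (fun h => hU (disjoint_top.1 (h ▸ h2.disjoint)))
      (fun y hy => (h1 _).2 fun x hx => ?_) h3) hB fun x hx y hy => (h1 y).1 hy x hx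
    rw [← neg_eq_zero, ← hX, (h1 y).1 hy _ (hQ.1 x hx)]
  · rw [← hc.sup_eq_top]
    refine (sub _ htop (fun x hx => ?_) hk).glue (sub _ (fun h => ?_) ?_ hr) hB
      fun x hx y hy => by rw [hB.sym y x, ho y hy x hx, mul_zero]
    · rw [LinearMap.mem_ker, ← hcomm, LinearMap.mem_ker.1 hx, map_zero]
    · have hu : IsUnit S := (isUnit_pow_iff hN.ne').1
        ((LinearMap.isUnit_iff_range_eq_top _).2 h)
      have h1 : Polynomial.aeval (X * X) g = 0 := by
        have := minpoly.aeval F (X * X)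
        rw [hg, map_mul] at this
        exact hu.mul_right_eq_zero.1 this
      have h2 : f * g ∣ 1 * g := by
        rw [one_mul, ← hg]
        exact minpoly.dvd F _ h1
      have h3 : g ≠ 0 := by
        rintro rfl
        exact minpoly.ne_zero hint (hg.trans (mul_zero f))
      exact hf.not_isUnit (isUnit_of_dvd_one ((mul_dvd_mul_iff_right h3).1 h2))
    · rintro _ ⟨z, rfl⟩
      exact ⟨X z, (hcomm N z).symm⟩

end Pool.Agent.MP_0c8446_ag
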