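import Pool.Agent.MP_0c8446_ag.CL.MvD

namespace Pool.Agent.MP_0c8446_ag

open MvPolynomial Set Matrix

universe u v w

variable {F : Type u} [Field F] {V : Type u} [AddCommGroup V] [Module F V] [FiniteDimensional F V]
  {B : V →ₗ[F] V →ₗ[F] F} {ε : F}

/-- The Cayley transform. -/
theorem mvQ_cayley (hB : MvF B ε) {g g' : V →ₗ[F] V} (hg : g * g' = 1)
    (h : ∀ x y, B (g x) (g y) = B x y) (hu : IsUnit (g + 1)) : MvQ B g g' ⊤ := by
  obtain ⟨u, hu1, hu2⟩ := isUnit_iff_exists.1 hu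
  have e1 : ∀ x, g (u x) + u x = x := fun x => LinearMap.congr_fun hu1 x
  have e2 : ∀ x, u (g x + x) = x := fun x => LinearMap.congr_fun hu2 x
  have e3 : ∀ x, g' (g x) = x := fun x => LinearMap.congr_fun (mul_eq_one_comm.1 hg) x
  have e4 : ∀ x, ((g - 1) * u) x = g (u x) - u x := fun x => rfl
  have hX : ∀ x y, B (((g - 1) * u) x) y = -B x (((g - 1) * u) y) := by
    intro x y
    rw [e4, e4]
    have h1 : B (g (u x) - u x) y = B (g (u x) - u x) (g (u y) + u y) := by rw [e1]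
    have h2 : B x (g (u y) - u y) = B (g (u x) + u x) (g (u y) - u y) := by rw [e1]
    rw [h1, h2]
    simp only [map_add, map_sub, LinearMap.add_apply, LinearMap.sub_apply, h]
    ring
  obtain ⟨-, hnd, η, h1, h2, h3⟩ := mvQ_lie hB hX
  refine ⟨fun _ _ => Submodule.mem_top, hnd, η, h1, h2, fun x _ => ?_⟩
  have h4 := h3 (g x + x) Submodule.mem_top
  rw [LinearMap.neg_apply, e4, e4, e2, map_sub, map_add] at h4
  have h5 := e1 (η (g x) + η x)
  generalize u (η (g x) + η x) = w at h4 h5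
  have h6 : (2 : F) • η (g x) = (2 : F) • w := by
    rw [two_smul, two_smul]
    linear_combination (norm := abel) h4 - h5
  have h7 : (2 : F) • η x = (2 : F) • g w := by
    rw [two_smul, two_smul]
    linear_combination (norm := abel) -h4 - h5
  rw [smul_right_injective V hB.two h6, smul_right_injective V hB.two h7, e3]

theorem MvE_sub (hB : MvF B ε) {g g' : V →ₗ[F] V} (hg : g * g' = 1)
    (h : ∀ x y, B (g x) (g y) = B x y) {U : Submodule F V} (hU : ∀ x ∈ U, g x ∈ U)
    (hU' : ∀ x ∈ U, g' x ∈ U) (hnd : ∀ x ∈ U, (∀ y ∈ U, B x y = 0) → x = 0)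
    (hu : ∀ x ∈ U, g x + x = 0 → x = 0) : MvQ B g g' U := by
  refine MvQ.of_restrict hU hU' (mvQ_cayley (hB.restrict hnd) ?_ (fun x y => h x y) ?_)
  · exact LinearMap.ext fun x => Subtype.ext (LinearMap.congr_fun hg x)
  · rw [LinearMap.isUnit_iff_ker_eq_bot, LinearMap.ker_eq_bot']
    exact fun x hx => Subtype.ext (hu x x.2 (congrArg Subtype.val hx))

omit [FiniteDimensional F V] in
theorem MvE_neg {g g' : V →ₗ[F] V} {U : Submodule F V} (h : MvQ B (-g) (-g') U) :
    MvQ B g g' U := by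
  obtain ⟨h0, hnd, η, h1, h2, h3⟩ := h
  refine ⟨fun x hx => U.neg_mem_iff.1 (h0 x hx), hnd, η, h1, h2, fun x hx => ?_⟩
  have h4 := h3 x hx
  rw [LinearMap.neg_apply, LinearMap.neg_apply, map_neg] at h4
  exact neg_injective h4

/-- An isometry is turned into its inverse by an anti-isometry. -/
theorem mvQ_group (hB : MvF B ε) {g g' : V →ₗ[F] V} (hg : g * g' = 1)
    (h : ∀ x y, B (g x) (g y) = B x y) : MvQ B g g' ⊤ := by
  have hg' : g' * g = 1 := mul_eq_one_comm.1 hg
  have e1 : ∀ x, g (g' x) = x := fun x => LinearMap.congr_fun hg x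
  have e3 : ∀ x, g' (g x) = x := fun x => LinearMap.congr_fun hg' x
  have c1 : Commute g (g + 1) := (Commute.refl g).add_right (Commute.one_right g)
  have c2 : Commute g' (g + 1) :=
    Commute.add_right (hg'.trans hg.symm) (Commute.one_right g')
  have hS : ∀ x y, B ((g + 1) x) y = B x ((g' + 1) y) := by
    intro x y
    have h1 := h x (g' y)
    rw [e1] at h1
    simp only [LinearMap.add_apply, Module.End.one_apply, map_add, h1]
  have hk : ∀ (i : ℕ) x, ((g + 1) ^ i) x = 0 ↔ ((g' + 1) ^ i) x = 0 := by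
    intro i x
    have h1 : g' + 1 = g' * (g + 1) := by rw [mul_add, hg', mul_one, add_comm]
    have h2 : Function.Injective g' := Function.LeftInverse.injective e1
    rw [h1, c2.mul_pow, Module.End.mul_apply,
      map_eq_zero_iff _ (Module.End.iterate_injective h2 i)]
  obtain ⟨N, hN, hc, ho, hK, hR⟩ := hB.fitting hS hk
  have k1 : ∀ T : V →ₗ[F] V, Commute T (g + 1) →
      ∀ x ∈ LinearMap.ker ((g + 1) ^ N), T x ∈ LinearMap.ker ((g + 1) ^ N) := by
    intro T hT x hx
    rw [LinearMap.mem_ker] at hx ⊢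
    rw [← Module.End.mul_apply, ← (hT.pow_right N).eq, Module.End.mul_apply, hx, map_zero]
  have k2 : ∀ T : V →ₗ[F] V, Commute T (g + 1) →
      ∀ x ∈ LinearMap.range ((g + 1) ^ N), T x ∈ LinearMap.range ((g + 1) ^ N) := by
    rintro T hT _ ⟨y, rfl⟩
    exact ⟨T y, by rw [← Module.End.mul_apply, ← (hT.pow_right N).eq, Module.End.mul_apply]⟩
  have q1 : MvQ B g g' (LinearMap.range ((g + 1) ^ N)) := by
    refine MvE_sub hB hg h (k2 g c1) (k2 g' c2) hR fun x hx h0 => ?_
    refine (Submodule.disjoint_def.1 hc.disjoint) x ?_ hx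
    obtain ⟨m, rfl⟩ := Nat.exists_eq_succ_of_ne_zero hN.ne'
    have h1 : (g + 1) x = 0 := h0
    rw [LinearMap.mem_ker, pow_succ, Module.End.mul_apply, h1, map_zero]
  have q2 : MvQ B g g' (LinearMap.ker ((g + 1) ^ N)) := by
    refine MvE_neg (MvE_sub hB (by rw [neg_mul_neg, hg]) (fun x y => ?_) (k1 _ c1.neg_left)
      (k1 _ c2.neg_left) hK fun x hx h0 => ?_)
    · simp only [LinearMap.neg_apply, map_neg, neg_neg, h]
    · have h1 : (g + 1) x = (2 : F) • x := by
        rw [LinearMap.neg_apply, neg_add_eq_zero] at h0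
        rw [LinearMap.add_apply, h0, Module.End.one_apply, two_smul]
      have h2 : ∀ i : ℕ, ((g + 1) ^ i) x = (2 : F) ^ i • x := by
        intro i
        induction i with
        | zero => simp
        | succ i ih => rw [pow_succ, Module.End.mul_apply, h1, map_smul, ih, smul_smul, pow_succ']
      rw [LinearMap.mem_ker, h2] at hx
      exact (smul_eq_zero.1 hx).resolve_left (pow_ne_zero N hB.two)
  have q := q1.glue q2 hB ho
  rwa [hc.symm.sup_eq_top] at q

theorem exists_mvw {n : ℕ} {M g : Matrix (Fin n) (Fin n) F} (two : (2 : F) ≠ 0) (sq : ε * ε = 1)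
    (hM : IsUnit M) (h : Mᵀ = ε • M) (hg : gᵀ * M * g = M) :
    ∃ η : Matrix (Fin n) (Fin n) F, ηᵀ * M * η = Mᵀ ∧ g * η * g = η := by
  have t1 : ∀ (A : Matrix (Fin n) (Fin n) F) (x y : Fin n → F),
      x ⬝ᵥ Aᵀ *ᵥ y = y ⬝ᵥ A *ᵥ x := by
    intro A x y
    rw [Matrix.dotProduct_mulVec, Matrix.vecMul_transpose, dotProduct_comm]
  have t2 : ∀ (A : Matrix (Fin n) (Fin n) F) (x y : Fin n → F),
      x ⬝ᵥ (Aᵀ * M * A) *ᵥ y = (A *ᵥ x) ⬝ᵥ M *ᵥ A *ᵥ y := by
    intro A x y
    rw [← Matrix.mulVec_mulVec, ← Matrix.mulVec_mulVec, Matrix.dotProduct_mulVec x Aᵀ,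
      Matrix.vecMul_transpose]
  have hB : MvF (Matrix.toLinearMap₂' F M : (Fin n → F) →ₗ[F] (Fin n → F) →ₗ[F] F) ε := by
    refine ⟨two, sq, fun x y => ?_, fun x hx => ?_⟩
    · rw [Matrix.toLinearMap₂'_apply', Matrix.toLinearMap₂'_apply', ← t1, h, Matrix.smul_mulVec,
        dotProduct_smul, smul_eq_mul]
    · refine Matrix.vecMul_injective_iff_isUnit.2 hM ?_
      have h1 := hx
      simp only [Matrix.toLinearMap₂'_apply', Matrix.dotProduct_mulVec] at h1
      show x ᵥ* M = 0 ᵥ* M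
      rw [Matrix.zero_vecMul]
      exact dotProduct_eq_zero _ h1
  have hu : IsUnit g := by
    have h1 : IsUnit (gᵀ * M * g) := by rw [hg]; exact hM
    exact isUnit_of_mul_isUnit_right h1
  obtain ⟨g', h1, -⟩ := isUnit_iff_exists.1 hu
  have h2 : Matrix.toLin' g * Matrix.toLin' g' = 1 := by
    rw [Module.End.mul_eq_comp, ← Matrix.toLin'_mul, h1, Matrix.toLin'_one]
    rfl
  obtain ⟨-, -, η, -, h3, h4⟩ := mvQ_group hB h2 fun x y => by
    rw [Matrix.toLinearMap₂'_apply', Matrix.toLinearMap₂'_apply', Matrix.toLin'_apply,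
      Matrix.toLin'_apply, ← t2, hg]
  obtain ⟨H, rfl⟩ := Matrix.toLin'.surjective η
  refine ⟨H, ?_, ?_⟩
  · refine (Matrix.toLinearMap₂' F :
      _ ≃ₗ[F] (Fin n → F) →ₗ[F] (Fin n → F) →ₗ[F] F).injective (LinearMap.ext₂ fun x y => ?_)
    have h5 := h3 x Submodule.mem_top y Submodule.mem_top
    rw [Matrix.toLinearMap₂'_apply', Matrix.toLinearMap₂'_apply', Matrix.toLin'_apply,
      Matrix.toLin'_apply] at h5
    rw [Matrix.toLinearMap₂'_apply', Matrix.toLinearMap₂'_apply', t2, t1, h5]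
  · have h5 : H * g = g' * H := by
      refine Matrix.toLin'.injective (LinearMap.ext fun x => ?_)
      rw [Matrix.toLin'_mul, Matrix.toLin'_mul]
      exact h4 x Submodule.mem_top
    rw [mul_assoc, h5, ← mul_assoc, h1, one_mul]

end Pool.Agent.MP_0c8446_ag
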