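import Pool.Agent.MP_0c8446_ag.CL.FqA
import Pool.Agent.MP_0c8446_ag.CL.FqS
import Pool.Agent.MP_0c8446_ag.CL.MvE
import Pool.Agent.MP_0c8446_ag.DL.LangG

namespace Pool.Agent.MP_0c8446_ag

open MvPolynomial Set Matrix

universe u v w

variable {Ω : Type u} [Field Ω] {q : ℕ} [PQ Ω q] {n : ℕ} {alt : Bool}
  {M M' g : Matrix (Fin n) (Fin n) Ω}

section aux

variable {F : Type u} [Field F] (φ : F →+* Ω) {X : Matrix (Fin n) (Fin n) F}

lemma Rat_det (X : Matrix (Fin n) (Fin n) F) : (X.map φ).det = φ X.det :=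
  (φ.map_det X).symm

lemma Rat_unit (h : IsUnit (X.map φ)) : IsUnit X := by
  rw [Matrix.isUnit_iff_isUnit_det, isUnit_iff_ne_zero] at h ⊢
  intro h0
  exact h (by rw [Rat_det, h0, map_zero])

include φ in
lemma Rat_two (two : (2 : Ω) ≠ 0) : (2 : F) ≠ 0 := fun h => two (by
  rw [← map_ofNat φ 2, h, map_zero])

lemma Rat_eps : φ (eps F alt) = eps Ω alt := by
  cases alt <;> simp [eps]

lemma Rat_sym (h : (X.map φ)ᵀ = eps Ω alt • X.map φ) : Xᵀ = eps F alt • X := by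
  ext a b
  apply φ.injective
  have := congrFun (congrFun h a) b
  simp only [transpose_apply, map_apply, Matrix.smul_apply, smul_eq_mul] at this ⊢
  rw [this, map_mul, Rat_eps]

lemma Rat_map (γ X : Matrix (Fin n) (Fin n) F) :
    (γ.map φ)ᵀ * X.map φ * γ.map φ = (γᵀ * X * γ).map φ := by
  rw [Matrix.map_mul, Matrix.map_mul, transpose_map]

end aux

lemma Rat_fix (γ : Matrix (Fin n) (Fin n) (Fq Ω q)) :
    (γ.map (Fq Ω q).subtype).map (· ^ q) = γ.map (Fq Ω q).subtype := by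
  ext a b
  exact mem_Fq.1 (γ a b).2

theorem finite_Fq (Ω : Type u) [Field Ω] (q : ℕ) [PQ Ω q] : Finite (Fq Ω q) := by
  have h1 : {x : Ω | (Polynomial.X ^ q - Polynomial.X : Polynomial Ω).IsRoot x}.Finite :=
    Polynomial.finite_setOfPred_isRoot
      (FiniteField.X_pow_card_sub_X_ne_zero Ω (IsQ.one_lt (k := Ω)))
  refine (h1.subset fun x hx => ?_ : Set.Finite (Fq Ω q : Set Ω)).to_subtype
  simp [Polynomial.IsRoot, mem_Fq.1 hx]

theorem exists_desc (h : g.map (· ^ q) = g) :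
    ∃ g₀ : Matrix (Fin n) (Fin n) (Fq Ω q), g₀.map (Fq Ω q).subtype = g :=
  ⟨Matrix.of fun a b => ⟨g a b, mem_Fq.2 (congrFun (congrFun h a) b)⟩, rfl⟩

theorem rat_congr (two : (2 : Ω) ≠ 0) (hM : IsUnit M) (h : Mᵀ = eps Ω alt • M)
    (hq : M.map (· ^ q) = M) (hM' : IsUnit M') (h' : M'ᵀ = eps Ω alt • M')
    (hq' : M'.map (· ^ q) = M') {d : Ω} (hd : d ^ q = d) (e : M'.det = d ^ 2 * M.det) :
    ∃ γ : Matrix (Fin n) (Fin n) Ω, γ.map (· ^ q) = γ ∧ γᵀ * M * γ = M' := by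
  obtain ⟨M, rfl⟩ := exists_desc hq
  obtain ⟨M', rfl⟩ := exists_desc hq'
  have := finite_Fq Ω q
  have h1 := Rat_sym _ h
  have h2 := Rat_sym _ h'
  have : ∃ γ : Matrix (Fin n) (Fin n) (Fq Ω q), γᵀ * M * γ = M' := by
    cases alt
    · refine sym_congr (d := ⟨d, mem_Fq.2 hd⟩) (Rat_two (Fq Ω q).subtype two) (Rat_unit _ hM)
        (by simpa [eps] using h1) (Rat_unit _ hM') (by simpa [eps] using h2) ?_
      apply (Fq Ω q).subtype.injective
      rw [Rat_det, Rat_det] at e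
      rw [e, map_mul, map_pow]
      rfl
    · exact alt_congr (Rat_two (Fq Ω q).subtype two) (Rat_unit _ hM)
        (by simpa [eps] using h1) (Rat_unit _ hM') (by simpa [eps] using h2)
  obtain ⟨γ, hγ⟩ := this
  exact ⟨_, Rat_fix γ, by rw [Rat_map, hγ]⟩

theorem rat_refl (two : (2 : Ω) ≠ 0) (hn : 0 < n) (h : Mᵀ = M) (hq : M.map (· ^ q) = M) :
    ∃ ρ : Matrix (Fin n) (Fin n) Ω, ρ.map (· ^ q) = ρ ∧ ρᵀ * M * ρ = M ∧ ρ.det = -1 := by
  obtain ⟨M, rfl⟩ := exists_desc hq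
  have h1 : Mᵀ = M := Matrix.map_injective (Fq Ω q).subtype.injective h
  obtain ⟨ρ, h2, h3⟩ := exists_refl (Rat_two (Fq Ω q).subtype two) hn h1
  exact ⟨_, Rat_fix ρ, by rw [Rat_map, h2], by rw [Rat_det, h3, map_neg, map_one]⟩

theorem rat_mvw (two : (2 : Ω) ≠ 0) (hM : IsUnit M) (h : Mᵀ = eps Ω alt • M)
    (hq : M.map (· ^ q) = M) (hg : gᵀ * M * g = M) (hgq : g.map (· ^ q) = g) :
    ∃ η : Matrix (Fin n) (Fin n) Ω, η.map (· ^ q) = η ∧ ηᵀ * M * η = Mᵀ ∧ g * η * g = η := by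
  obtain ⟨M, rfl⟩ := exists_desc hq
  obtain ⟨g, rfl⟩ := exists_desc hgq
  rw [Rat_map] at hg
  obtain ⟨η, h2, h3⟩ := exists_mvw (ε := eps (Fq Ω q) alt) (Rat_two (Fq Ω q).subtype two)
    (by cases alt <;> simp [eps]) (Rat_unit _ hM) (Rat_sym _ h)
    (Matrix.map_injective (Fq Ω q).subtype.injective hg)
  exact ⟨_, Rat_fix η, by rw [Rat_map, h2, transpose_map],
    by rw [← Matrix.map_mul, ← Matrix.map_mul, h3]⟩

/-- A change of coordinates that turns the twisted Frobenius map into the standard one. -/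
theorem exists_twist [IsAlgClosed Ω] {t : Bool} (ht : alt = true → t = false) :
    ∃ A : Matrix (Fin n) (Fin n) Ω, IsUnit A ∧ A.map (· ^ q) = A.submatrix (sw n t) id ∧
      (Aᵀ * jM Ω alt n * A).map (· ^ q) = Aᵀ * jM Ω alt n * A ∧
      ∀ g, (A⁻¹ * g * A).map (· ^ q) = A⁻¹ * frC t q g * A := by
  obtain ⟨P, hP⟩ : ∃ P : Matrix (Fin n) (Fin n) Ω,
      P = (1 : Matrix (Fin n) (Fin n) Ω).submatrix (sw n t) id := ⟨_, rfl⟩
  have hL : ∀ X : Matrix (Fin n) (Fin n) Ω, P * X = X.submatrix (sw n t) id := fun X => by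
    ext a b
    simp [hP, Matrix.mul_apply, Matrix.one_apply]
  have hT : Pᵀ = P := by
    ext a b
    have : sw n t b = a ↔ sw n t a = b := ⟨fun h => by rw [← h, sw_sw], fun h => by rw [← h, sw_sw]⟩
    simp [hP, Matrix.one_apply, this]
  have hR : ∀ X : Matrix (Fin n) (Fin n) Ω, X * P = X.submatrix id (sw n t) := fun X => by
    rw [← transpose_transpose (X * P), transpose_mul, hT, hL]
    rfl
  have hC : ∀ X : Matrix (Fin n) (Fin n) Ω, P * X * P = X.submatrix (sw n t) (sw n t) :=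
    fun X => by rw [hL, hR]; rfl
  have hPP : P * P = 1 := by
    have := hC 1
    rw [mul_one] at this
    exact this.trans (submatrix_one_equiv (swP n t))
  obtain ⟨a, ha, -, h1⟩ := exists_lang (uni := false) (q := q) isUnit_one (map_one _)
    (IsUnit.of_mul_eq_one P hPP) (by rw [mul_one, one_mul])
  have hA : IsUnit aᵀ := (Matrix.isUnit_transpose a).2 ha
  have h2 : aᵀ.map (frobHom Ω q) = P * aᵀ := by
    rw [transpose_map, show a.map (frobHom Ω q) = a * P from h1, transpose_mul, hT]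
  generalize aᵀ = A at hA h2
  refine ⟨A, hA, h2.trans (hL A), ?_, fun g => ?_⟩
  · change (Aᵀ * jM Ω alt n * A).map (frobHom Ω q) = _
    rw [← Rat_map, h2, jM_map, transpose_mul, hT]
    calc Aᵀ * P * jM Ω alt n * (P * A) = Aᵀ * (P * jM Ω alt n * P) * A := by
          simp only [mul_assoc]
      _ = _ := by rw [hC, jM_sw ht]
  · change (A⁻¹ * g * A).map (frobHom Ω q) = _
    rw [Matrix.map_mul, Matrix.map_mul, ← map_inv_of_isUnit _ hA, h2, Matrix.mul_inv_rev,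
      Matrix.inv_eq_left_inv hPP]
    calc A⁻¹ * P * g.map (frobHom Ω q) * (P * A) = A⁻¹ * (P * g.map (frobHom Ω q) * P) * A := by
          simp only [mul_assoc]
      _ = _ := by rw [hC]; rfl

end Pool.Agent.MP_0c8446_ag
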