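import Pool.Agent.MP_0c8446_ag.DL.Tower

namespace Pool.Agent.MP_0c8446_ag

open MvPolynomial Set

universe u v w

variable {k : Type u} [Field k] [IsAlgClosed k] {K : Type v} [Field K] [CharZero K]
  (W : Weil.{u, v, w} k K) {Γ : Type u} [Group Γ]

/-- The fibres of `e` are described by column operations that fix the earlier vectors; only the
vectors with `sc a` can be rescaled. -/
structure FrD.Tow2 (D : FrD k Γ) (e : FRel k D.σ) {n : ℕ} (ρ : Γ →* Matrix (Fin n) (Fin n) k)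
    {A : Type} [DecidableEq A] (vec : A → Fin n → MvPolynomial D.σ k) (pre : A → Finset A)
    (ht : A → ℕ) (sc : A → Prop) : Prop where
  hinj : Function.Injective ht
  hpre : ∀ a, ∀ b ∈ pre a, ht b < ht a
  equi : ∀ a, D.Equi ρ (vec a)
  indep : ∀ a (Ω : Type u) [Field Ω] [Algebra k Ω] (h : D.σ → Ω), D.Fr h →
    LinearIndependent Ω fun b : (insert a (pre a) : Finset A) => evs h (vec b)
  dir : ∀ a (Ω : Type u) [Field Ω] [Algebra k Ω] [IsAlgClosed Ω] (h h' : D.σ → Ω), D.Fr h →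
    D.Fr h' → e Ω h h' → (∀ b, ht b < ht a → evs h (vec b) = evs h' (vec b)) →
    ∃ t : Ω, t ≠ 0 ∧ (¬ sc a → t = 1) ∧ evs h' (vec a) - t • evs h (vec a) ∈
      Submodule.span Ω ((fun b => evs h (vec b)) '' (pre a : Set A))
  mvA : ∀ a, ∀ b ∈ pre a, ∀ (Ω : Type u) [Field Ω] [Algebra k Ω] [IsAlgClosed Ω] (h : D.σ → Ω)
    (t : Ω), D.Fr h → ∃ h', D.Fr h' ∧ e Ω h h' ∧
      evs h' (vec a) = evs h (vec a) + t • evs h (vec b) ∧
      (∀ a', ht a' < ht a → evs h' (vec a') = evs h (vec a')) ∧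
      ∀ O : Subalgebra k Ω, (∀ s, h s ∈ O) → t ∈ O → ∀ s, h' s ∈ O
  mvG : ∀ a, sc a → ∀ (Ω : Type u) [Field Ω] [Algebra k Ω] [IsAlgClosed Ω] (h : D.σ → Ω) (t : Ω),
    D.Fr h → t ≠ 0 → ∃ h', D.Fr h' ∧ e Ω h h' ∧ evs h' (vec a) = t • evs h (vec a) ∧
      (∀ a', ht a' < ht a → evs h' (vec a') = evs h (vec a')) ∧
      ∀ O : Subalgebra k Ω, (∀ s, h s ∈ O) → t ∈ O → t⁻¹ ∈ O → ∀ s, h' s ∈ O

variable {D : FrD k Γ} {e : FRel k D.σ}

/-- An equivariant vector that is constant on the fibres may be assumed regular. -/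
theorem Weil.good_fix {V : Set (MvPolynomial D.σ k)} {ε : Type} [Fintype ε] [DecidableEq ε]
    {r : Γ →* Matrix ε ε k} {b : ε → MvPolynomial D.σ k} (hb : D.Equi r b)
    (par : ∀ (Ω : Type u) [Field Ω] [Algebra k Ω] [IsAlgClosed Ω] (h h' : D.σ → Ω), D.Fr h →
      D.Fr h' → e Ω h h' → evs h b = evs h' b)
    (H : W.Good D e (V ∪ range b)) : W.Good D e V := by
  intro L hL hV
  let e0 : Fin (Fintype.card ε) ≃ ε := (Fintype.equivFin ε).symm
  have hb' := hb.reindex e0
  have par' : ∀ (Ω : Type u) [Field Ω] [Algebra k Ω] [IsAlgClosed Ω] (h h' : D.σ → Ω), D.Fr h →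
      D.Fr h' → L.Eqv h h' → ∃ t : Ω, t ≠ 0 ∧ ∀ s,
        aeval h' ((Fin.cons 1 fun s => b (e0 s) :
          Fin (Fintype.card ε + 1) → MvPolynomial D.σ k) s) =
        t * aeval h ((Fin.cons 1 fun s => b (e0 s) :
          Fin (Fintype.card ε + 1) → MvPolynomial D.σ k) s) := by
    intro Ω _ _ _ h h' hh hh' hE
    have h1 := par Ω h h' hh hh' ((hL Ω h h' hh hh').1 hE)
    refine ⟨1, one_ne_zero, fun s => ?_⟩
    rw [one_mul]
    refine Fin.cases ?_ (fun s => ?_) s
    · simp only [Fin.cons_zero, map_one]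
    · simp only [Fin.cons_succ]
      exact (congrFun h1 (e0 s)).symm
  obtain ⟨bd, hcl, hil, H1⟩ := W.step_proper L (D.nv_cons _) hb'.cons par'
  refine H1 (H (L.ext _ _ (D.nv_cons _) hb'.cons bd hcl hil) ?_ ?_)
  · intro Ω _ _ _ h h' hh hh'
    rw [← hL Ω h h' hh hh']
    exact L.ext_eqv.trans ⟨fun x => x.1, fun x => ⟨x, par' Ω h h' hh hh' x⟩⟩
  · rintro f (hf | ⟨s, rfl⟩)
    · exact (hV f hf).ext
    · have h1 := L.reg_ext (hz := D.nv_cons _) (he := hb'.cons) (bd := bd) (hc := hcl)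
        (hil := hil) rfl (Fin.succ (e0.symm s))
      rwa [Fin.cons_succ, e0.apply_symm_apply] at h1

section

variable [Finite Γ] {n : ℕ} {ρ : Γ →* Matrix (Fin n) (Fin n) k}
  {A : Type} [DecidableEq A] {vec : A → Fin n → MvPolynomial D.σ k} {pre : A → Finset A}
  {ht : A → ℕ} {sc : A → Prop}

omit [IsAlgClosed k] [Finite Γ] in
theorem Tower2_indep (h : D.Tow2 e ρ vec pre ht sc) {a : A} {c : ℕ} {U : Fin c → A}
    (hU : Function.Injective U) (hm : ∀ j, U j ∈ insert a (pre a)) {Ω : Type u} [Field Ω]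
    [Algebra k Ω] {x : D.σ → Ω} (hx : D.Fr x) :
    LinearIndependent Ω fun j => evs x (vec (U j)) :=
  (h.indep a Ω x hx).comp (fun j => (⟨U j, hm j⟩ : (insert a (pre a) : Finset A)))
    fun _ _ hj => hU (congrArg Subtype.val hj)

omit [IsAlgClosed k] [Finite Γ] in
theorem Tower2_nv (h : D.Tow2 e ρ vec pre ht sc) {a b : A} {c : ℕ} {U : Fin c → A}
    (hU : Function.Injective (Fin.snoc U b : Fin (c + 1) → A))
    (hm : ∀ j, (Fin.snoc U b : Fin (c + 1) → A) j ∈ insert a (pre a)) : D.NV (TowerW vec U b) := by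
  intro Ω _ _ x hx
  simp only [TowerW, aeval_pl]
  exact pl_ne_zero_iff.2 (Tower2_indep h hU hm hx)

omit [IsAlgClosed k] [Finite Γ] in
theorem Tower2_equi (h : D.Tow2 e ρ vec pre ht sc) {c : ℕ} (U : Fin c → A) (b : A) :
    D.Equi ((tpH k n (c + 1)).comp ρ) (TowerW vec U b) :=
  FrD.Equi.wedge fun _ => h.equi _

theorem Tower2_ind (hn : 0 < n) (h : D.Tow2 e ρ vec pre ht sc) {s : Finset A} {a : A}
    (hs' : ∀ b, b ∈ s ↔ ht b < ht a)
    (H : W.Good D (fun Ω _ _ _ h h' => e Ω h h' ∧ ∀ b ∈ insert a s, evs h (vec b) = evs h' (vec b))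
      (⋃ b ∈ insert a s, range (vec b))) (c : ℕ) (U : Fin c → A) (hU : Function.Injective U)
    (hm : ∀ j, U j ∈ pre a) :
    W.Good D (fun Ω _ _ _ h h' => (e Ω h h' ∧ ∀ b ∈ s, evs h (vec b) = evs h' (vec b)) ∧
      evs h (TowerW vec U a) = evs h' (TowerW vec U a))
      ((⋃ b ∈ s, range (vec b)) ∪ range (TowerW vec U a)) := by
  have : Nonempty (Fin n) := ⟨⟨0, hn⟩⟩
  have hs : pre a ⊆ s := fun b hb => (hs' b).2 (h.hpre a b hb)
  induction c with
  | zero =>
    have e0 : ∀ α, TowerW vec U a α = vec a (α 0) := fun α => by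
      rw [TowerW, pl_one]
      exact congrArg (fun b => vec b (α 0)) (Fin.snoc_last (α := fun _ => A) a U)
    refine (H.congr fun Ω _ _ _ x x' _ _ => ?_).mono ?_
    · simp only [Finset.forall_mem_insert]
      refine ⟨fun k1 => ⟨⟨k1.1, k1.2.2⟩, funext fun α => ?_⟩,
        fun k1 => ⟨k1.1.1, funext fun i => ?_, k1.1.2⟩⟩
      · simp only [evs, e0]
        exact congrFun k1.2.1 (α 0)
      · simpa only [evs, e0] using congrFun k1.2 fun _ => i
    · simp only [Finset.set_biUnion_insert, union_subset_iff]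
      refine ⟨?_, subset_union_left⟩
      rintro _ ⟨i, rfl⟩
      exact Or.inr ⟨fun _ => i, e0 _⟩
  | succ c ih =>
    obtain ⟨U, b, rfl⟩ : ∃ (U' : Fin c → A) (b : A), U = Fin.snoc U' b :=
      ⟨Fin.init U, U (Fin.last c), (Fin.snoc_init_self U).symm⟩
    have hU0 : Function.Injective U := fun i j hij => Fin.castSucc_injective _ (hU (by
      simpa only [Fin.snoc_castSucc] using hij))
    have hm0 : ∀ j, U j ∈ pre a := fun j => by simpa only [Fin.snoc_castSucc] using hm j.castSucc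
    have hb : b ∈ pre a := by simpa only [Fin.snoc_last] using hm (Fin.last c)
    have cs : ∀ (Ω : Type u) [Field Ω] [Algebra k Ω] (x : D.σ → Ω),
        (fun j => evs x (vec ((Fin.snoc U b : Fin (c + 1) → A) j))) =
          Fin.snoc (fun j => evs x (vec (U j))) (evs x (vec b)) := fun Ω _ _ x =>
      Fin.comp_snoc (fun a => evs x (vec a)) U b
    refine W.good_line (Tower2_equi h U a) (Tower2_equi h U b)
      (Tower2_nv h hU fun j => Finset.mem_insert_of_mem (hm j)) (g := False)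
      (fun Ω _ _ _ x x' _ _ k1 => ⟨1, one_ne_zero, fun α => ?_⟩) ⟨False.elim, ?_, ?_⟩
      (((ih U hU0 hm0).congr fun Ω _ _ _ x x' hx _ => ?_).mono ?_)
    · rw [one_mul, Tower_ev, Tower_ev, k1.1.2 b (hs hb),
        funext fun j => k1.1.2 (U j) (hs (hm0 j))]
    · intro Ω _ _ _ x x' hx _ k1
      have k2 := Tower_mem (x := evs x (vec a)) (x' := evs x' (vec a))
        (Tower2_indep h hU (fun j => Finset.mem_insert_of_mem (hm j)) hx) fun α => by
          have k3 := congrFun k1.2 α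
          simp only [evs] at k3
          rwa [Tower_ev, Tower_ev, ← funext fun j => k1.1.2 _ (hs (hm j))] at k3
      rw [cs, Fin.range_snoc, Submodule.mem_span_insert] at k2
      obtain ⟨t, y, hy, k3⟩ := k2
      refine ⟨t, fun α => ?_⟩
      rw [Tower_ev, Tower_ev, Tower_ev, ← funext fun j => k1.1.2 _ (hs (hm0 j)),
        Tower_add (x := evs x (vec a)) (z := evs x (vec b)) (t := 1) (t' := t)
          (by rw [one_smul, ← sub_sub, k3, add_sub_cancel_left]; exact hy), one_mul]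
    · intro Ω _ _ _ x t hx _
      obtain ⟨x', hx', k1, k2, k3, k4⟩ := h.mvA a b hb Ω x t hx
      have k5 : ∀ b' ∈ s, evs x (vec b') = evs x' (vec b') := fun b' hb' =>
        (k3 b' ((hs' b').1 hb')).symm
      refine ⟨x', hx', ⟨⟨k1, k5⟩, funext fun α => ?_⟩, fun α => ?_, fun O h1 h2 _ => k4 O h1 h2⟩
      · simp only [evs]
        rw [Tower_ev, Tower_ev, ← funext fun j => k5 _ (hs (hm j)),
          Tower_add (x' := evs x' (vec a)) (x := evs x (vec a)) (z := 0) (t := 1) (t' := 0) ?_,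
          one_mul, zero_mul, add_zero]
        rw [k2, one_smul, smul_zero, add_zero, add_sub_cancel_left]
        refine Submodule.smul_mem _ _ (Submodule.subset_span ⟨Fin.last c, ?_⟩)
        simp only [Fin.snoc_last]
      · rw [Tower_ev, Tower_ev, Tower_ev, ← funext fun j => k5 _ (hs (hm0 j)),
          Tower_add (x' := evs x' (vec a)) (x := evs x (vec a)) (z := evs x (vec b)) (t := 1)
            (t' := t) (by rw [k2, one_smul, sub_self]; exact zero_mem _), one_mul]
    · refine ⟨fun k1 => ⟨⟨k1.1, funext fun α => ?_⟩, k1.2⟩, fun k1 => ⟨k1.1.1, k1.2⟩⟩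
      have k2 := Tower_mem (x := evs x (vec a)) (x' := evs x' (vec a))
        (Tower2_indep h hU0 (fun j => Finset.mem_insert_of_mem (hm0 j)) hx) fun α => by
          have k3 := congrFun k1.2 α
          simp only [evs] at k3
          rwa [Tower_ev, Tower_ev, ← funext fun j => k1.1.2 _ (hs (hm0 j))] at k3
      simp only [evs]
      rw [Tower_ev, Tower_ev, ← funext fun j => k1.1.2 _ (hs (hm j)),
        Tower_add (x' := evs x' (vec a)) (x := evs x (vec a)) (z := 0) (t := 1) (t' := 0) ?_,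
        one_mul, zero_mul, add_zero]
      rw [one_smul, smul_zero, add_zero, cs, Fin.range_snoc]
      exact Submodule.span_mono (subset_insert _ _) k2
    · exact union_subset_union_left _ subset_union_left

/-- Fixing one more vector. -/
theorem Tower2_insert (hn : 0 < n) (h : D.Tow2 e ρ vec pre ht sc) {s : Finset A} {a : A}
    (hs' : ∀ b, b ∈ s ↔ ht b < ht a)
    (H : W.Good D (fun Ω _ _ _ h h' => e Ω h h' ∧ ∀ b ∈ insert a s, evs h (vec b) = evs h' (vec b))
      (⋃ b ∈ insert a s, range (vec b))) :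
    W.Good D (fun Ω _ _ _ h h' => e Ω h h' ∧ ∀ b ∈ s, evs h (vec b) = evs h' (vec b))
      (⋃ b ∈ s, range (vec b)) := by
  have : Nonempty (Fin n) := ⟨⟨0, hn⟩⟩
  have hs : pre a ⊆ s := fun b hb => (hs' b).2 (h.hpre a b hb)
  have ha : a ∉ s := fun hh => lt_irrefl _ ((hs' a).1 hh)
  let U : Fin (pre a).card → A := fun j => ((pre a).equivFin.symm j : A)
  have hU : Function.Injective U := Subtype.val_injective.comp (pre a).equivFin.symm.injective
  have hm : ∀ j, U j ∈ pre a := fun j => ((pre a).equivFin.symm j).2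
  have key : ∀ (Ω : Type u) [Field Ω] [Algebra k Ω] [IsAlgClosed Ω] (x x' : D.σ → Ω), D.Fr x →
      D.Fr x' → (e Ω x x' ∧ ∀ b ∈ s, evs x (vec b) = evs x' (vec b)) → ∃ t : Ω, t ≠ 0 ∧
        (¬ sc a → t = 1) ∧
        ∀ α, aeval x' (TowerW vec U a α) = t * aeval x (TowerW vec U a α) := by
    intro Ω _ _ _ x x' hx hx' k1
    obtain ⟨t, ht0, hsc, k2⟩ := h.dir a Ω x x' hx hx' k1.1 fun b hb => k1.2 b ((hs' b).2 hb)
    refine ⟨t, ht0, hsc, fun α => ?_⟩
    rw [Tower_ev, Tower_ev, ← funext fun j => k1.2 _ (hs (hm j)),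
      Tower_add (x' := evs x' (vec a)) (x := evs x (vec a)) (z := 0) (t := t) (t' := 0) ?_,
      zero_mul, add_zero]
    rw [smul_zero, add_zero]
    refine Submodule.span_mono ?_ k2
    rintro _ ⟨b, hb, rfl⟩
    exact ⟨(pre a).equivFin ⟨b, hb⟩, by simp only [U, Equiv.symm_apply_apply]⟩
  by_cases hsc : sc a
  · refine W.good_line (Tower2_equi h U a) (Tower2_equi h U a) (Tower2_nv h (a := a) ?_ fun j => ?_)
      (g := True) (fun Ω _ _ _ x x' hx hx' k1 => ?_)
      ⟨fun _ => rfl, fun Ω _ _ _ x x' hx hx' k1 => ?_, fun Ω _ _ _ x t hx k1 => ?_⟩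
      (Tower2_ind W hn h hs' H _ U hU hm)
    · refine Fin.snoc_injective_of_injective hU ?_
      rintro ⟨j, hj⟩
      exact ha (hs (hj ▸ hm j))
    · refine Fin.lastCases ?_ (fun j => ?_) j
      · simp only [Fin.snoc_last, Finset.mem_insert_self]
      · simp only [Fin.snoc_castSucc]
        exact Finset.mem_insert_of_mem (hm j)
    · obtain ⟨t, ht0, -, k2⟩ := key Ω x x' hx hx' k1
      exact ⟨t, ht0, k2⟩
    · obtain ⟨t, -, -, k2⟩ := key Ω x x' hx hx' k1
      exact ⟨t - 1, fun α => by rw [k2 α]; ring⟩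
    · obtain ⟨x', hx', k2, k3, k4, k5⟩ := h.mvG a hsc Ω x (1 + t) hx (k1 trivial)
      have k6 : ∀ b' ∈ s, evs x (vec b') = evs x' (vec b') := fun b' hb' =>
        (k4 b' ((hs' b').1 hb')).symm
      refine ⟨x', hx', ⟨k2, k6⟩, fun α => ?_,
        fun O h1 h2 h3 => k5 O h1 (add_mem (one_mem O) h2) (h3 trivial)⟩
      rw [Tower_ev, Tower_ev, ← funext fun j => k6 _ (hs (hm j)), k3, pl_snoc_smul]
      ring
  · have key' : ∀ (Ω : Type u) [Field Ω] [Algebra k Ω] [IsAlgClosed Ω] (x x' : D.σ → Ω), D.Fr x →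
        D.Fr x' → (e Ω x x' ∧ ∀ b ∈ s, evs x (vec b) = evs x' (vec b)) →
          evs x (TowerW vec U a) = evs x' (TowerW vec U a) := by
      intro Ω _ _ _ x x' hx hx' k1
      obtain ⟨t, -, h1, k2⟩ := key Ω x x' hx hx' k1
      funext α
      have k3 := k2 α
      rw [h1 hsc, one_mul] at k3
      exact k3.symm
    exact W.good_fix (Tower2_equi h U a) key' ((Tower2_ind W hn h hs' H _ U hU hm).congr
      fun Ω _ _ _ x x' hx hx' => ⟨fun k1 => k1.1, fun k1 => ⟨k1, key' Ω x x' hx hx' k1⟩⟩)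

end

theorem Weil.good_tower2 [Finite Γ] {n : ℕ} {ρ : Γ →* Matrix (Fin n) (Fin n) k} {A : Type}
    [DecidableEq A] [Fintype A] {vec : A → Fin n → MvPolynomial D.σ k} {pre : A → Finset A}
    {ht : A → ℕ} {sc : A → Prop} (hn : 0 < n) (h : D.Tow2 e ρ vec pre ht sc)
    (H : ∀ e' : FRel k D.σ, W.Good D e' (⋃ b, range (vec b))) : W.Good D e ∅ := by
  have key : ∀ (m : ℕ) (s : Finset A), sᶜ.card = m → (∀ a ∈ s, ∀ b, ht b < ht a → b ∈ s) →
      W.Good D (fun Ω _ _ _ h h' => e Ω h h' ∧ ∀ b ∈ s, evs h (vec b) = evs h' (vec b))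
        (⋃ b ∈ s, range (vec b)) := by
    intro m
    induction m with
    | zero =>
      intro s hs _
      obtain rfl : s = Finset.univ := by
        rwa [Finset.card_eq_zero, Finset.compl_eq_empty_iff] at hs
      exact (H _).mono (iUnion_mono fun b => by simp)
    | succ m ih =>
      intro s hs hd
      obtain ⟨a, ha, hmin⟩ := Finset.exists_min_image sᶜ ht (Finset.card_pos.1 (by omega))
      have ha' : a ∉ s := Finset.mem_compl.1 ha
      have hlt : ∀ b, ht b < ht a → b ∈ s := fun b hb => by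
        by_contra hb'
        exact absurd hb (not_lt.2 (hmin b (Finset.mem_compl.2 hb')))
      refine Tower2_insert W hn h (a := a) (fun b => ⟨fun hb => ?_, hlt b⟩) (ih _ ?_ ?_)
      · rcases lt_trichotomy (ht b) (ht a) with h1 | h1 | h1
        · exact h1
        · exact absurd (h.hinj h1 ▸ hb) ha'
        · exact absurd (hd b hb a h1) ha'
      · rw [Finset.compl_insert, Finset.card_erase_of_mem ha, hs]
        rfl
      · intro a' ha'' b hb
        rcases Finset.mem_insert.1 ha'' with rfl | h1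
        · exact Finset.mem_insert_of_mem (hlt b hb)
        · exact Finset.mem_insert_of_mem (hd a' h1 b hb)
  exact ((key _ ∅ rfl (by simp)).congr fun Ω _ _ _ x x' _ _ => by simp).mono (by simp)

end Pool.Agent.MP_0c8446_ag
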